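import Pool.Agent.helper69.Kam.PL

set_option autoImplicit false

open MvPolynomial

namespace Pool.Agent.helper69.Kam

/-- Kameko's squaring operation is injective on the coinvariants in degree `n`. -/
def KInj (d n : ℕ) : Prop :=
  ∀ θ : Module.Dual (ZMod 2) (MvPolynomial (Fin d) (ZMod 2)),
    IsPrim d n θ → θ ∘ₗ kappa d ∈ Aug d (d + 2 * n) → θ ∈ Aug d n

/-- the span of all `σ·g - σ`, `σ ∈ S`. -/
noncomputable def AugS {d : ℕ} (S : Submodule (ZMod 2) (Du d)) : Submodule (ZMod 2) (Du d) :=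
  Submodule.span (ZMod 2)
    {ψ | ∃ g : Matrix.GeneralLinearGroup (Fin d) (ZMod 2), ∃ σ ∈ S,
      ψ = σ ∘ₗ (act (g : Matrix (Fin d) (Fin d) (ZMod 2))).toLinearMap - σ}

lemma assembly {d n : ℕ} (S : Submodule (ZMod 2) (Du d))
    (hcov : ∀ θ, IsPrim d (d + 2 * n) θ → ∃ ψ, IsPrim d n ψ ∧ θ - ψ ∘ₗ kappa d ∈ S)
    (hint : ∀ ψ, IsPrim d n ψ → ψ ∘ₗ kappa d ∈ AugS S → ψ ∈ Aug d n) : KInj d n := by
  have key : ∀ φ ∈ Aug d (d + 2 * n), ∃ α ∈ Aug d n, ∃ σ ∈ AugS S, φ = α ∘ₗ kappa d + σ := by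
    intro φ hφ
    induction hφ using Submodule.span_induction with
    | mem φ hφ =>
        obtain ⟨g, θ, hθ, rfl⟩ := hφ
        obtain ⟨ψ, hψ, hs⟩ := hcov θ hθ
        refine ⟨ψ ∘ₗ (act (g : Matrix (Fin d) (Fin d) (ZMod 2))).toLinearMap - ψ,
          Submodule.subset_span ⟨g, ψ, hψ, rfl⟩,
          (θ - ψ ∘ₗ kappa d) ∘ₗ (act (g : Matrix (Fin d) (Fin d) (ZMod 2))).toLinearMap -
            (θ - ψ ∘ₗ kappa d), Submodule.subset_span ⟨g, _, hs, rfl⟩, ?_⟩
        apply LinearMap.ext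
        intro f
        simp only [LinearMap.sub_apply, LinearMap.add_apply, LinearMap.comp_apply,
          AlgHom.toLinearMap_apply]
        rw [kappa_act _ (det_ne_zero g)]
        ring
    | zero => exact ⟨0, Submodule.zero_mem _, 0, Submodule.zero_mem _, by simp⟩
    | add a b _ _ ha hb =>
        obtain ⟨α, hα, σ, hσ, rfl⟩ := ha
        obtain ⟨α', hα', σ', hσ', rfl⟩ := hb
        refine ⟨α + α', Submodule.add_mem _ hα hα', σ + σ', Submodule.add_mem _ hσ hσ', ?_⟩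
        rw [LinearMap.add_comp]; abel
    | smul c a _ ha =>
        obtain ⟨α, hα, σ, hσ, rfl⟩ := ha
        refine ⟨c • α, Submodule.smul_mem _ _ hα, c • σ, Submodule.smul_mem _ _ hσ, ?_⟩
        rw [LinearMap.smul_comp, smul_add]
  intro ψ hψ h
  obtain ⟨α, hα, σ, hσ, he⟩ := key _ h
  have h1 : (ψ - α) ∘ₗ kappa d ∈ AugS S := by
    rw [LinearMap.sub_comp, he, add_sub_cancel_left]
    exact hσ
  have h2 := hint _ (hψ.sub (Aug_isPrim hα)) h1
  have h3 := Submodule.add_mem _ h2 hα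
  rwa [sub_add_cancel] at h3

lemma AugS_le {d : ℕ} {S : Submodule (ZMod 2) (Du d)}
    (hS : ∀ σ ∈ S, ∀ g : Matrix (Fin d) (Fin d) (ZMod 2), σ ∘ₗ (act g).toLinearMap ∈ S) :
    AugS S ≤ S := by
  rw [AugS, Submodule.span_le]
  rintro ψ ⟨g, σ, hσ, rfl⟩
  exact Submodule.sub_mem _ (hS σ hσ _) hσ

/-- if Kameko's map is onto, then it is injective on the coinvariants. -/
lemma KInj_of_surj {d n : ℕ}
    (h : ∀ θ, IsPrim d (d + 2 * n) θ → ∃ ψ, IsPrim d n ψ ∧ θ = ψ ∘ₗ kappa d) : KInj d n := by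
  refine assembly ⊥ ?_ ?_
  · intro θ hθ
    obtain ⟨ψ, hψ, he⟩ := h θ hθ
    exact ⟨ψ, hψ, by rw [he, sub_self]; exact Submodule.zero_mem _⟩
  · intro ψ hψ hm
    have h1 : AugS (⊥ : Submodule (ZMod 2) (Du d)) ≤ ⊥ := by
      apply AugS_le
      intro σ hσ g
      rw [Submodule.mem_bot] at hσ
      rw [hσ, LinearMap.zero_comp]; exact Submodule.zero_mem _
    have h2 := h1 hm
    rw [Submodule.mem_bot] at h2
    have h3 : ψ = 0 := comp_kappa_inj (by rw [h2, LinearMap.zero_comp])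
    rw [h3]; exact Submodule.zero_mem _

/-- if every primitive element of degree `n` is zero in the coinvariants, there is nothing to
prove. -/
lemma KInj_of_trivial {d n : ℕ} (h : ∀ θ, IsPrim d n θ → θ ∈ Aug d n) : KInj d n :=
  fun θ hθ _ => h θ hθ

/-! ### The functionals coming from planes -/

/-- the span of the primitive functionals which come from rank two. -/
noncomputable def Spl (c M : ℕ) : Submodule (ZMod 2) (Du c) :=
  Submodule.span (ZMod 2)
    {θ | ∃ (φ : Du 2) (W : Matrix (Fin 2) (Fin c) (ZMod 2)), IsPrim 2 M φ ∧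
      θ = φ ∘ₗ (sub W).toLinearMap}

lemma Spl_mem {c M : ℕ} {φ : Du 2} (hφ : IsPrim 2 M φ) (W : Matrix (Fin 2) (Fin c) (ZMod 2)) :
    φ ∘ₗ (sub W).toLinearMap ∈ Spl c M := Submodule.subset_span ⟨φ, W, hφ, rfl⟩

lemma comp_sub_act {c e : ℕ} (φ : Du e) (W : Matrix (Fin e) (Fin c) (ZMod 2))
    (g : Matrix (Fin c) (Fin c) (ZMod 2)) :
    (φ ∘ₗ (sub W).toLinearMap) ∘ₗ (act g).toLinearMap = φ ∘ₗ (sub (W * g)).toLinearMap := by
  apply LinearMap.ext
  intro f
  simp only [LinearMap.comp_apply, AlgHom.toLinearMap_apply]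
  rw [sub_act]

lemma Spl_act {c M : ℕ} {σ : Du c} (hσ : σ ∈ Spl c M) (g : Matrix (Fin c) (Fin c) (ZMod 2)) :
    σ ∘ₗ (act g).toLinearMap ∈ Spl c M := by
  induction hσ using Submodule.span_induction with
  | mem σ h =>
      obtain ⟨φ, W, hφ, rfl⟩ := h
      rw [comp_sub_act]
      exact Spl_mem hφ _
  | zero => rw [LinearMap.zero_comp]; exact Submodule.zero_mem _
  | add a b _ _ ha hb => rw [LinearMap.add_comp]; exact Submodule.add_mem _ ha hb
  | smul c a _ ha => rw [LinearMap.smul_comp]; exact Submodule.smul_mem _ _ ha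

/-- the Dickson determinant of three elements. -/
def D3 {R : Type*} [CommRing R] (x y z : R) : R :=
  x * y ^ 2 * z ^ 4 + x * y ^ 4 * z ^ 2 + x ^ 2 * y * z ^ 4 + x ^ 4 * y * z ^ 2 +
    x ^ 2 * y ^ 4 * z + x ^ 4 * y ^ 2 * z

lemma D3_zero1 {R : Type*} [CommRing R] (y z : R) : D3 0 y z = 0 := by
  simp [D3]

lemma D3_zero2 {R : Type*} [CommRing R] (x z : R) : D3 x 0 z = 0 := by
  simp [D3]

lemma D3_zero3 {R : Type*} [CommRing R] (x y : R) : D3 x y 0 = 0 := by
  simp [D3]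

lemma D3_eq12 {R : Type*} [CommRing R] [CharP R 2] (x z : R) : D3 x x z = 0 := by
  have h2 : (2 : R) = 0 := CharTwo.two_eq_zero
  have : D3 x x z = 2 * (x ^ 3 * z ^ 4 + x ^ 5 * z ^ 2 + x ^ 6 * z) := by rw [D3]; ring
  rw [this, h2, zero_mul]

lemma D3_eq13 {R : Type*} [CommRing R] [CharP R 2] (x y : R) : D3 x y x = 0 := by
  have h2 : (2 : R) = 0 := CharTwo.two_eq_zero
  have : D3 x y x = 2 * (x ^ 5 * y ^ 2 + x ^ 3 * y ^ 4 + x ^ 6 * y) := by rw [D3]; ring
  rw [this, h2, zero_mul]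

lemma D3_eq23 {R : Type*} [CommRing R] [CharP R 2] (x y : R) : D3 x y y = 0 := by
  have h2 : (2 : R) = 0 := CharTwo.two_eq_zero
  have : D3 x y y = 2 * (x * y ^ 6 + x ^ 2 * y ^ 5 + x ^ 4 * y ^ 3) := by rw [D3]; ring
  rw [this, h2, zero_mul]

lemma D3_sum1 {R : Type*} [CommRing R] [CharP R 2] (x y : R) : D3 (x + y) x y = 0 := by
  have h2 : (2 : R) = 0 := CharTwo.two_eq_zero
  have e2 : (x + y) ^ 2 = x ^ 2 + y ^ 2 := CharTwo.add_sq x y
  have e4 : (x + y) ^ 4 = x ^ 4 + y ^ 4 := by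
    rw [show (x + y) ^ 4 = ((x + y) ^ 2) ^ 2 by ring, e2, CharTwo.add_sq]; ring
  have h3 : D3 (x + y) x y = 2 * (x ^ 3 * y ^ 4 + x ^ 2 * y ^ 5 + x ^ 5 * y ^ 2 + x ^ 4 * y ^ 3 +
      x ^ 6 * y + x * y ^ 6) := by
    rw [D3, e2, e4]; ring
  rw [h3, h2, zero_mul]

lemma ker_D3 {c M : ℕ} {σ : Du c} (hσ : σ ∈ Spl c M) (i j k : Fin c) (h : P c) :
    σ (D3 (X i) (X j) (X k) * h) = 0 := by
  induction hσ using Submodule.span_induction with
  | mem σ hm =>
      obtain ⟨φ, W, hφ, rfl⟩ := hm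
      rw [LinearMap.comp_apply, AlgHom.toLinearMap_apply, map_mul]
      have e : sub W (D3 (X i) (X j) (X k)) = D3 (sub W (X i)) (sub W (X j)) (sub W (X k)) := by
        simp only [D3, map_add, map_mul, map_pow]
      have e2 : ∀ j : Fin c, sub W (X j) = 0 ∨ sub W (X j) = X 0 ∨ sub W (X j) = X 1 ∨
          sub W (X j) = (X 0 + X 1 : P 2) := by
        intro j
        rw [sub_X, Fin.sum_univ_two]
        generalize W 0 j = a
        generalize W 1 j = b
        rcases (show a = 0 ∨ a = 1 by revert a; decide) with rfl | rfl <;>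
        rcases (show b = 0 ∨ b = 1 by revert b; decide) with rfl | rfl <;>
        simp
      have h0 : D3 (sub W (X i)) (sub W (X j)) (sub W (X k)) = 0 := by
        have s1 : D3 (X 0 : P 2) (X 1) (X 0 + X 1) = 0 := by
          have := D3_sum1 (X 0 : P 2) (X 1)
          rw [← this, D3, D3]; ring
        have s2 : D3 (X 1 : P 2) (X 0) (X 0 + X 1) = 0 := by
          rw [← s1, D3, D3]; ring
        have s3 : D3 (X 0 : P 2) (X 0 + X 1) (X 1) = 0 := by
          rw [← s1, D3, D3]; ring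
        have s4 : D3 (X 1 : P 2) (X 0 + X 1) (X 0) = 0 := by
          rw [← s1, D3, D3]; ring
        have s5 : D3 (X 0 + X 1 : P 2) (X 0) (X 1) = 0 := D3_sum1 _ _
        have s6 : D3 (X 0 + X 1 : P 2) (X 1) (X 0) = 0 := by
          rw [← s1, D3, D3]; ring
        rcases e2 i with h1 | h1 | h1 | h1 <;> rcases e2 j with h2 | h2 | h2 | h2 <;>
          rcases e2 k with h3 | h3 | h3 | h3 <;>
          simp only [h1, h2, h3, D3_zero1, D3_zero2, D3_zero3, D3_eq12, D3_eq13, D3_eq23,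
            s1, s2, s3, s4, s5, s6]
      rw [e, h0, zero_mul, map_zero]
  | zero => rfl
  | add a b _ _ ha hb => rw [LinearMap.add_apply, ha, hb, add_zero]
  | smul c a _ ha => rw [LinearMap.smul_apply, ha, smul_zero]

/-- a functional whose Kameko image comes from planes kills `x_i^2 x_j + x_i x_j^2`. -/
lemma inter_gen {ψ : Du 4} {M : ℕ} (h : ψ ∘ₗ kappa 4 ∈ Spl 4 M) (i j k l : Fin 4)
    (hk : kappa 4 (X i * X j * X k * X l) = 1)
    (hj : kappa 4 (X i * X l) = 0) (hl : kappa 4 (X j * X l) = 0)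
    (g : P 4) :
    ψ (X i ^ 2 * X j * g) = ψ (X i * X j ^ 2 * g) := by
  have h1 := ker_D3 h k i j (X i * X j * X l * g ^ 2)
  have e : D3 (X k) (X i) (X j) * (X i * X j * X l * g ^ 2) =
      (X i * X j * X k * X l) * (X i * X j ^ 2 * g) ^ 2 +
      (X i * X j * X k * X l) * (X i ^ 2 * X j * g) ^ 2 +
      (X j * X l) * (X k * X i * X j ^ 2 * g) ^ 2 +
      (X j * X l) * (X k ^ 2 * X i * X j * g) ^ 2 +
      (X i * X l) * (X k * X i ^ 2 * X j * g) ^ 2 +
      (X i * X l) * (X k ^ 2 * X i * X j * g) ^ 2 := by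
    rw [D3]; ring
  rw [e, LinearMap.comp_apply] at h1
  simp only [map_add, kappa_mul_sq, hk, hj, hl, one_mul, zero_mul, add_zero] at h1
  exact (CharTwo.add_eq_zero.1 h1).symm

lemma kappa_mon_zero {S : Finset (Fin 4)} (hS : S ≠ Finset.univ) : kappa 4 (xs S) = 0 := by
  have e : (xs S : P 4) =
      monomial (Finsupp.equivFunOnFinite.symm (fun i => if i ∈ S then 1 else 0)) 1 := by
    rw [xs, monomial_eq, Finsupp.prod_fintype _ _ (by simp)]
    simp only [Finsupp.equivFunOnFinite_symm_apply_apply, C_1, one_mul, pow_ite, pow_one,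
      pow_zero]
    rw [Finset.prod_ite_mem, Finset.univ_inter]
  rw [e, kappa_monomial, if_neg]
  intro hodd
  apply hS
  rw [Finset.eq_univ_iff_forall]
  intro i
  by_contra hi
  have := hodd i
  simp [hi] at this

lemma kappa_pair {i j : Fin 4} (hij : i ≠ j) : kappa 4 (X i * X j) = 0 := by
  rw [← xs_pair hij]
  apply kappa_mon_zero
  intro h
  have := congrArg Finset.card h
  rw [Finset.card_pair hij] at this
  simp at this

lemma prod_four {i j k l : Fin 4} (hij : i ≠ j) (hik : i ≠ k) (hil : i ≠ l) (hjk : j ≠ k)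
    (hjl : j ≠ l) (hkl : k ≠ l) : (X i * X j * X k * X l : P 4) = xs Finset.univ := by
  have h : ({i, j, k, l} : Finset (Fin 4)) = Finset.univ := by
    rw [← Finset.card_eq_iff_eq_univ, Finset.card_insert_of_notMem (by simp [hij, hik, hil]),
      Finset.card_insert_of_notMem (by simp [hjk, hjl]), Finset.card_pair hkl]
    simp
  rw [← h, xs, Finset.prod_insert (by simp [hij, hik, hil]),
    Finset.prod_insert (by simp [hjk, hjl]), Finset.prod_pair hkl]
  ring

lemma two_others {i j : Fin 4} (hij : i ≠ j) : ∃ k l : Fin 4, i ≠ k ∧ i ≠ l ∧ j ≠ k ∧ j ≠ l ∧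
    k ≠ l := by
  revert i j; decide

lemma inter {ψ : Du 4} {M : ℕ} (h : ψ ∘ₗ kappa 4 ∈ Spl 4 M) (i j : Fin 4) (hij : i ≠ j)
    (g : P 4) : ψ (X i ^ 2 * X j * g) = ψ (X i * X j ^ 2 * g) := by
  obtain ⟨k, l, hik, hil, hjk, hjl, hkl⟩ := two_others hij
  refine inter_gen h i j k l ?_ (kappa_pair hil) (kappa_pair hjl) g
  rw [prod_four hij hik hil hjk hjl hkl, kappa_xs_univ]

/-! ### Squares and evaluations -/

lemma Sq_X_pow {d : ℕ} (i : Fin d) (m : ℕ) : ∀ k, Sq d k (X i ^ m : P d) =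
    (m.choose k : ZMod 2) • X i ^ (m + k) := by
  induction m with
  | zero =>
      intro k
      rw [pow_zero]
      rcases k with _ | k
      · rw [Sq_zero_apply]; simp
      · rw [Sq_one_zero d _ (Nat.succ_pos k)]; simp
  | succ m ih =>
      intro k
      rcases k with _ | k
      · rw [Sq_zero_apply]; simp
      · rw [pow_succ, Sq_mul_X_succ, ih, ih, Nat.choose_succ_succ, Nat.cast_add, add_smul,
          smul_mul_assoc, smul_mul_assoc, ← pow_succ, ← pow_add, add_comm]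
        congr 2
        · congr 1; ring
        · congr 1; ring

lemma evd_Sq {d n k m : ℕ} (v : Fin d → ZMod 2) (hn : n = m + k) (f : P d) :
    evd v n (Sq d k f) = (m.choose k : ZMod 2) * evd v m f := by
  have key : evd v n ∘ₗ (⟨⟨Sq d k, Sq_add d k⟩, Sq_smul d k⟩ : P d →ₗ[ZMod 2] P d) =
      (m.choose k : ZMod 2) • evd v m := by
    apply ext_mon
    intro t
    rw [LinearMap.comp_apply, LinearMap.smul_apply, smul_eq_mul]
    show evd v n (Sq d k (monomial t 1)) = _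
    have h1 : evd v n (Sq d k (monomial t 1)) = lcoeff (ZMod 2) (Finsupp.single 0 n)
        (Sq 1 k (sub (row v) (monomial t 1))) := by
      rw [Sq_sub]; rfl
    rw [h1, sub_row_hom v _ (isHomogeneous_monomial (n := t.degree) 1 rfl)]
    have h2 : Sq 1 k (C (ev v (monomial t 1)) * X 0 ^ t.degree) =
        C (ev v (monomial t 1)) * Sq 1 k (X 0 ^ t.degree) := by
      rw [← smul_eq_C_mul, Sq_smul, smul_eq_C_mul]
    rw [h2, Sq_X_pow, lcoeff_apply, coeff_C_mul, coeff_smul, coeff_X_pow]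
    by_cases ht : t.degree = m
    · rw [evd_hom v _ (isHomogeneous_monomial 1 ht), ht, if_pos (by rw [hn])]
      rw [smul_eq_mul]; ring
    · rw [evd_mon_ne v ht, if_neg]
      · simp
      · intro h
        apply ht
        have := DFunLike.congr_fun h 0
        simp at this
        omega
  exact LinearMap.congr_fun key f

lemma evd_zero {d n : ℕ} (hn : 0 < n) : evd (0 : Fin d → ZMod 2) n = 0 := by
  apply ext_mon
  intro t
  rw [LinearMap.zero_apply]
  by_cases ht : t.degree = n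
  · rw [evd_mon _ ht]
    have hne : t ≠ 0 := by
      rintro rfl
      simp at ht
      omega
    obtain ⟨i, hi⟩ := Finsupp.support_nonempty_iff.2 hne
    rw [Finsupp.mem_support_iff] at hi
    exact Finset.prod_eq_zero (Finset.mem_univ i) (by simp [hi])
  · exact evd_mon_ne _ ht

lemma sum_evd_eq_zero {n : ℕ} (hn : 0 < n) (c : (Fin 4 → ZMod 2) → ZMod 2)
    (h : ∀ v, v ≠ 0 → c v = 0) : ∑ v, c v • evd v n = 0 := by
  apply Finset.sum_eq_zero
  intro v _
  by_cases hv : v = 0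
  · rw [hv, evd_zero hn, smul_zero]
  · rw [h v hv, zero_smul]

/-- sums of evaluations are not primitive in most degrees. -/
lemma evd_not_prim {n k m : ℕ} (hk : 0 < k) (hn : n = m + k) (hm : 4 ≤ m)
    (hodd : ((m.choose k : ℕ) : ZMod 2) = 1) {c : (Fin 4 → ZMod 2) → ZMod 2}
    (h : IsPrim 4 n (∑ v, c v • evd v n)) : ∑ v, c v • evd v n = 0 := by
  have h1 : ∑ v, c v • evd v m = 0 := by
    apply LinearMap.ext
    intro f
    have h2 := h.kills k hk f
    rw [LinearMap.sum_apply] at h2 ⊢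
    rw [LinearMap.zero_apply, ← h2]
    refine Finset.sum_congr rfl fun v _ => ?_
    rw [LinearMap.smul_apply, LinearMap.smul_apply, evd_Sq v hn, hodd, one_mul]
  apply sum_evd_eq_zero (by omega)
  intro v hv
  exact ind4 hm c h1 v hv

/-- the conclusion for the case of a trivial intersection. -/
lemma KInj_of_planes {n k m : ℕ} (hk : 0 < k) (hn : n = m + k) (hm : 4 ≤ m)
    (hodd : ((m.choose k : ℕ) : ZMod 2) = 1)
    (hcov : ∀ θ, IsPrim 4 (4 + 2 * n) θ → ∃ ψ, IsPrim 4 n ψ ∧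
      θ - ψ ∘ₗ kappa 4 ∈ Spl 4 (4 + 2 * n)) : KInj 4 n := by
  refine assembly (Spl 4 (4 + 2 * n)) hcov ?_
  intro ψ hψ hmem
  have h1 := AugS_le (fun σ hσ g => Spl_act hσ g) hmem
  obtain ⟨c, hc⟩ := SO (by omega) hψ.deg (inter h1)
  have h2 : ψ = 0 := by
    rw [hc]
    apply evd_not_prim hk hn hm hodd
    rw [← hc]; exact hψ
  rw [h2]; exact Submodule.zero_mem _

end Pool.Agent.helper69.Kam
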