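import Mathlib

set_option autoImplicit false

open MvPolynomial

namespace Pool.Agent.helper69.Kam

/-- The total Steenrod square `Sq_t = ∑ t^k Sq^k` on `P_d = F_2[x_1,…,x_d]`: the ring homomorphism
`P_d → P_d[t]` with `x_i ↦ x_i + t x_i ^ 2`. -/
noncomputable def SqT (d : ℕ) :
    MvPolynomial (Fin d) (ZMod 2) →ₐ[ZMod 2] Polynomial (MvPolynomial (Fin d) (ZMod 2)) :=
  aeval (fun i => Polynomial.C (X i) + Polynomial.X * Polynomial.C (X i ^ 2))

/-- The Steenrod square `Sq^k f`, for `f ∈ P_d`: the coefficient of `t ^ k` in the total square. -/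
noncomputable def Sq (d k : ℕ) (f : MvPolynomial (Fin d) (ZMod 2)) :
    MvPolynomial (Fin d) (ZMod 2) :=
  (SqT d f).coeff k

/-- The left action of a matrix `w` on polynomials, by the substitution
`x_j ↦ ∑ i, w i j • x_i`. -/
noncomputable def act {d : ℕ} (w : Matrix (Fin d) (Fin d) (ZMod 2)) :
    MvPolynomial (Fin d) (ZMod 2) →ₐ[ZMod 2] MvPolynomial (Fin d) (ZMod 2) :=
  aeval (fun j => ∑ i, C (w i j) * X i)

/-- `IsPrim d n θ`: the linear functional `θ` on `P_d` is an element of `PH_n`. That is, `θ` lies in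
the degree-`n` part `H_n` of the graded dual of `P_d` (it vanishes on homogeneous polynomials of
degree `m ≠ n`), and it is annihilated by all dual Steenrod operations `Sq^k_*`, `k > 0`
(`θ ∘ Sq^k = 0`). -/
structure IsPrim (d n : ℕ) (θ : Module.Dual (ZMod 2) (MvPolynomial (Fin d) (ZMod 2))) : Prop where
  degree : ∀ m, m ≠ n → ∀ f : MvPolynomial (Fin d) (ZMod 2), f.IsHomogeneous m → θ f = 0
  kills : ∀ k, 0 < k → ∀ f : MvPolynomial (Fin d) (ZMod 2), θ (Sq d k f) = 0

/-- The subspace of `PH_n` spanned by all `θ·g - θ`, where `θ ∈ PH_n`, `g ∈ GL_d(F_2)` and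
`θ·g = θ ∘ g` is the induced right action. The coinvariants `F_2 ⊗_{GL_d} PH_n` are the quotient
of `PH_n` by this subspace. -/
noncomputable def Aug (d n : ℕ) :
    Submodule (ZMod 2) (Module.Dual (ZMod 2) (MvPolynomial (Fin d) (ZMod 2))) :=
  Submodule.span (ZMod 2)
    {ψ | ∃ g : Matrix.GeneralLinearGroup (Fin d) (ZMod 2), ∃ θ, IsPrim d n θ ∧
      ψ = θ ∘ₗ (act (g : Matrix (Fin d) (Fin d) (ZMod 2))).toLinearMap - θ}

/-- The exponent vector `(t_i - 1)/2`. -/
noncomputable def halve {d : ℕ} (t : Fin d →₀ ℕ) : Fin d →₀ ℕ :=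
  t.mapRange (fun m => (m - 1) / 2) (by simp)

/-- The linear map `P_d → P_d` sending a monomial `x^t` to `x^{(t-1)/2}` if all the exponents
`t_i` are odd, and to `0` otherwise. Kameko's map `PH_n → PH_{d+2n}` is `θ ↦ θ ∘ kappa`; it sends
the dual basis element `a^{(s)}` to `a^{(2s+1)}` (see `kameko_dual_basis`). -/
noncomputable def kappa (d : ℕ) :
    MvPolynomial (Fin d) (ZMod 2) →ₗ[ZMod 2] MvPolynomial (Fin d) (ZMod 2) :=
  (MvPolynomial.basisMonomials (Fin d) (ZMod 2)).constr (ZMod 2)
    (fun t => if ∀ i, Odd (t i) then monomial (halve t) 1 else 0)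

/-- Kameko's squaring operation `F_2 ⊗_{GL_d} PH_n → F_2 ⊗_{GL_d} PH_{d+2n}` is not injective:
some `θ ∈ PH_n` has non-zero class in the coinvariants `PH_n / Aug`, while the class of its image
under Kameko's map is zero in the coinvariants in degree `d + 2n`. -/
def NotInjective (d n : ℕ) : Prop :=
  ∃ θ : Module.Dual (ZMod 2) (MvPolynomial (Fin d) (ZMod 2)),
    IsPrim d n θ ∧ θ ∉ Aug d n ∧ θ ∘ₗ kappa d ∈ Aug d (d + 2 * n)

/-! ### Basic facts on the squares -/

/-- an abbreviation used in the proofs. -/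
abbrev P (d : ℕ) : Type := MvPolynomial (Fin d) (ZMod 2)

lemma Sq_add (d k : ℕ) (f g : P d) : Sq d k (f + g) = Sq d k f + Sq d k g := by
  rw [Sq, map_add, Polynomial.coeff_add]; rfl

lemma Sq_smul (d k : ℕ) (a : ZMod 2) (f : P d) : Sq d k (a • f) = a • Sq d k f := by
  rw [Sq, map_smul, Polynomial.coeff_smul]; rfl

lemma Sq_zero (d k : ℕ) : Sq d k (0 : P d) = 0 := by
  rw [Sq, map_zero, Polynomial.coeff_zero]

lemma SqT_X (d : ℕ) (i : Fin d) :
    SqT d (X i) = Polynomial.C (X i) + Polynomial.X * Polynomial.C (X i ^ 2) := by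
  simp [SqT]

lemma Sq_apply (d k : ℕ) (f : P d) : Sq d k f = (SqT d f).coeff k := rfl

lemma Sq_zero_apply (d : ℕ) (f : P d) : Sq d 0 f = f := by
  rw [Sq_apply]
  induction f using MvPolynomial.induction_on with
  | C a =>
      have : SqT d (C a) = Polynomial.C (C a) := by
        simp [SqT, MvPolynomial.algebraMap_eq]
      rw [this, Polynomial.coeff_C_zero]
  | add p q hp hq => rw [map_add, Polynomial.coeff_add, hp, hq]
  | mul_X p i hp =>
      rw [map_mul, Polynomial.mul_coeff_zero, hp, SqT_X]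
      simp

lemma Sq_mul_X_succ (d k : ℕ) (f : P d) (i : Fin d) :
    Sq d (k + 1) (f * X i) = Sq d (k + 1) f * X i + Sq d k f * X i ^ 2 := by
  rw [Sq_apply, map_mul, SqT_X, mul_add, Polynomial.coeff_add, Polynomial.coeff_mul_C, ← mul_assoc,
    Polynomial.coeff_mul_C, Polynomial.coeff_mul_X]
  rfl

lemma Sq_C (d k : ℕ) (hk : 0 < k) (a : ZMod 2) : Sq d k (C a) = 0 := by
  rw [Sq_apply]
  have : SqT d (C a) = Polynomial.C (C a) := by
    simp [SqT, MvPolynomial.algebraMap_eq]
  rw [this, Polynomial.coeff_C_of_ne_zero (by omega)]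

lemma zmod2_sq (a : ZMod 2) : a ^ 2 = a := by revert a; decide

lemma act_X {d : ℕ} (w : Matrix (Fin d) (Fin d) (ZMod 2)) (j : Fin d) :
    act w (X j) = ∑ i, C (w i j) * X i := by
  simp [act]

lemma act_X_sq {d : ℕ} (w : Matrix (Fin d) (Fin d) (ZMod 2)) (j : Fin d) :
    (∑ i, (C (w i j) * X i : P d)) ^ 2 = ∑ i, C (w i j) * X i ^ 2 := by
  rw [CharTwo.sum_sq]
  refine Finset.sum_congr rfl fun i _ => ?_
  rw [mul_pow, ← C_pow, zmod2_sq]

lemma SqT_act_hom {d : ℕ} (w : Matrix (Fin d) (Fin d) (ZMod 2)) :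
    (SqT d).comp (act w) = (Polynomial.mapAlgHom (act w)).comp (SqT d) := by
  apply MvPolynomial.algHom_ext
  intro j
  simp only [AlgHom.comp_apply]
  have hC : ∀ a : ZMod 2, SqT d (C a) = Polynomial.C (C a) := by
    intro a
    simp [SqT, MvPolynomial.algebraMap_eq]
  have hL : SqT d (act w (X j)) =
      ∑ i, (Polynomial.C (C (w i j) * X i) + Polynomial.X * Polynomial.C (C (w i j) * X i ^ 2)) := by
    rw [act_X, map_sum]
    refine Finset.sum_congr rfl fun i _ => ?_
    rw [map_mul, hC, SqT_X, Polynomial.C_mul, Polynomial.C_mul]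
    ring
  have hR : (Polynomial.mapAlgHom (act w)) (SqT d (X j)) =
      Polynomial.C (∑ i, (C (w i j) * X i : P d)) +
        Polynomial.X * Polynomial.C ((∑ i, (C (w i j) * X i : P d)) ^ 2) := by
    rw [SqT_X, map_add, map_mul]
    simp only [Polynomial.coe_mapAlgHom, Polynomial.map_C, Polynomial.map_X, 
      RingHom.coe_coe]
    rw [map_pow, act_X]
  rw [hL, hR, act_X_sq, map_sum, map_sum, Finset.mul_sum, ← Finset.sum_add_distrib]

lemma Sq_act {d : ℕ} (w : Matrix (Fin d) (Fin d) (ZMod 2)) (k : ℕ) (f : P d) :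
    Sq d k (act w f) = act w (Sq d k f) := by
  have h := DFunLike.congr_fun (SqT_act_hom w) f
  simp only [AlgHom.comp_apply, Polynomial.coe_mapAlgHom] at h
  rw [Sq_apply, h, Polynomial.coeff_map]
  rfl

/-! ### Products of the actions -/

lemma act_mul {d : ℕ} (v w : Matrix (Fin d) (Fin d) (ZMod 2)) (f : P d) :
    act (v * w) f = act v (act w f) := by
  have h : act (v * w) = (act v).comp (act w) := by
    apply MvPolynomial.algHom_ext
    intro j
    simp only [AlgHom.comp_apply]
    rw [act_X, act_X, map_sum]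
    simp only [map_mul, act_X, Matrix.mul_apply, map_sum, Finset.sum_mul, Finset.mul_sum]
    rw [Finset.sum_comm]
    refine Finset.sum_congr rfl fun i _ => ?_
    refine Finset.sum_congr rfl fun k _ => ?_
    have : act v (C (w i j)) = C (w i j) := by
      simp [act, MvPolynomial.algebraMap_eq]
    rw [this]
    ring
  rw [h]; rfl

lemma act_one {d : ℕ} (f : P d) : act (1 : Matrix (Fin d) (Fin d) (ZMod 2)) f = f := by
  have h : act (1 : Matrix (Fin d) (Fin d) (ZMod 2)) = AlgHom.id (ZMod 2) (P d) := by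
    apply MvPolynomial.algHom_ext
    intro j
    rw [act_X]
    rw [Finset.sum_eq_single j]
    · simp
    · intro b _ hb; simp [Matrix.one_apply_ne hb]
    · simp
  rw [h]; rfl

lemma act_isHomogeneous {d : ℕ} (w : Matrix (Fin d) (Fin d) (ZMod 2)) {f : P d} {m : ℕ}
    (hf : f.IsHomogeneous m) : (act w f).IsHomogeneous m := by
  have := hf.aeval (fun j => ∑ i, (C (w i j) * X i : P d)) (n := 1) ?_
  · simpa [act] using this
  · intro j
    apply MvPolynomial.IsHomogeneous.sum
    intro i _
    simpa using (isHomogeneous_C (Fin d) (w i j)).mul (isHomogeneous_X (ZMod 2) i)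


/-! ### Kameko's map -/

lemma kappa_monomial {d : ℕ} (t : Fin d →₀ ℕ) :
    kappa d (monomial t 1) = if ∀ i, Odd (t i) then monomial (halve t) 1 else 0 := by
  have := (MvPolynomial.basisMonomials (Fin d) (ZMod 2)).constr_basis (ZMod 2)
    (fun t => if ∀ i, Odd (t i) then (monomial (halve t) 1 : P d) else 0) t
  simpa [kappa] using this

/-- iterated partial derivatives along a list of variables. -/
noncomputable def DD {d : ℕ} (l : List (Fin d)) (f : P d) : P d :=
  l.foldr (fun i g => pderiv i g) f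

lemma DD_add {d : ℕ} (l : List (Fin d)) (f g : P d) : DD l (f + g) = DD l f + DD l g := by
  induction l with
  | nil => rfl
  | cons i l ih => simp only [DD, List.foldr_cons] at ih ⊢; rw [ih, map_add]

lemma DD_smul {d : ℕ} (l : List (Fin d)) (a : ZMod 2) (f : P d) : DD l (a • f) = a • DD l f := by
  induction l with
  | nil => rfl
  | cons i l ih => simp only [DD, List.foldr_cons] at ih ⊢; rw [ih, Derivation.map_smul]

lemma DD_cons {d : ℕ} (i : Fin d) (l : List (Fin d)) (f : P d) :
    DD (i :: l) f = pderiv i (DD l f) := rfl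

lemma DD_append {d : ℕ} (l l' : List (Fin d)) (f : P d) : DD (l ++ l') f = DD l (DD l' f) := by
  simp [DD, List.foldr_append]

lemma DD_monomial {d : ℕ} (l : List (Fin d)) (hl : l.Nodup) (t : Fin d →₀ ℕ) :
    DD l (monomial t (1 : ZMod 2)) =
      monomial (t - (l.map (fun i => Finsupp.single i 1)).sum)
        ((l.map (fun i => (t i : ZMod 2))).prod) := by
  induction l with
  | nil => simp [DD]
  | cons i l ih =>
      rw [List.nodup_cons] at hl
      rw [DD_cons, ih hl.2, pderiv_monomial]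
      have h0 : (l.map (fun j => Finsupp.single j 1)).sum i = 0 := by
        clear ih
        induction l with
        | nil => simp
        | cons j l ih' =>
            simp only [List.nodup_cons, List.mem_cons, not_or] at hl
            simp only [List.map_cons, List.sum_cons, Finsupp.add_apply]
            rw [ih' ⟨hl.1.2, hl.2.2⟩, Finsupp.single_apply, if_neg (fun h => hl.1.1 h.symm)]
      congr 1
      · rw [tsub_tsub, List.map_cons, List.sum_cons, add_comm]
      · rw [List.map_cons, List.prod_cons, mul_comm]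
        congr 2
        simp only [Finsupp.tsub_apply, h0, tsub_zero]

lemma DD_perm {d : ℕ} {l l' : List (Fin d)} (hl : l.Nodup) (h : l.Perm l') (f : P d) :
    DD l f = DD l' f := by
  have hl' : l'.Nodup := h.nodup_iff.1 hl
  induction f using MvPolynomial.induction_on' with
  | monomial t a =>
      have : monomial t a = a • (monomial t 1 : P d) := by simp [smul_monomial]
      rw [this, DD_smul, DD_smul, DD_monomial l hl, DD_monomial l' hl',
        (h.map _).sum_eq, (h.map _).prod_eq]
  | add p q hp hq => rw [DD_add, DD_add, hp, hq]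

lemma sum_singles {d : ℕ} (i : Fin d) :
    ((List.finRange d).map (fun j => Finsupp.single j (1 : ℕ))).sum i = 1 := by
  rw [← List.ofFn_eq_map, List.sum_ofFn, Finsupp.finsetSum_apply]
  simp [Finsupp.single_apply]

/-- the square of Kameko's map is the product of all partial derivatives. -/
lemma kappa_sq {d : ℕ} (f : P d) : (kappa d f) ^ 2 = DD (List.finRange d) f := by
  induction f using MvPolynomial.induction_on' with
  | monomial t a =>
      have h1 : monomial t a = a • (monomial t 1 : P d) := by simp [smul_monomial]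
      rw [h1, DD_smul, map_smul, smul_pow, zmod2_sq, DD_monomial _ (List.nodup_finRange d),
        kappa_monomial]
      congr 1
      have hprod : ((List.finRange d).map (fun i => (t i : ZMod 2))).prod = ∏ i, (t i : ZMod 2) := by
        rw [← List.ofFn_eq_map, List.prod_ofFn]
      rw [hprod]
      by_cases hodd : ∀ i, Odd (t i)
      · rw [if_pos hodd, monomial_pow, one_pow]
        have h2 : ∏ i, (t i : ZMod 2) = 1 := by
          apply Finset.prod_eq_one
          intro i _
          exact (ZMod.natCast_eq_one_iff_odd).2 (hodd i)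
        have h3 : 2 • halve t = t - ((List.finRange d).map (fun i => Finsupp.single i 1)).sum := by
          ext i
          simp only [Finsupp.smul_apply, halve, Finsupp.mapRange_apply, Finsupp.tsub_apply,
            sum_singles]
          obtain ⟨m, hm⟩ := hodd i
          rw [hm, smul_eq_mul]; omega
        rw [h2, h3]
      · rw [if_neg hodd]
        push Not at hodd
        obtain ⟨i, hi⟩ := hodd
        have h2 : ∏ i, (t i : ZMod 2) = 0 := by
          apply Finset.prod_eq_zero (Finset.mem_univ i)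
          rw [Nat.not_odd_iff_even] at hi
          exact (ZMod.natCast_eq_zero_iff_even).2 hi
        rw [h2]; simp
  | add p q hp hq => rw [map_add, CharTwo.add_sq, hp, hq, DD_add]


lemma pderiv_Sq {d : ℕ} (i : Fin d) (k : ℕ) (f : P d) :
    pderiv i (Sq d k f) = Sq d k (pderiv i f) := by
  induction f using MvPolynomial.induction_on generalizing k with
  | C a =>
      rcases Nat.eq_zero_or_pos k with rfl | hk
      · rw [Sq_zero_apply, Sq_zero_apply]
      · rw [Sq_C d k hk, pderiv_C, Sq_zero, map_zero]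
  | add p q hp hq => rw [Sq_add, map_add, map_add, Sq_add, hp, hq]
  | mul_X p j hp =>
      rcases k with _ | k
      · rw [Sq_zero_apply, Sq_zero_apply]
      · rw [Sq_mul_X_succ, map_add, pderiv_mul, pderiv_mul, pderiv_mul, Sq_add,
          Sq_mul_X_succ, hp, hp]
        have h1 : pderiv i (X j ^ 2 : P d) = 0 := by
          rw [sq, pderiv_mul, mul_comm, CharTwo.add_self_eq_zero]
        have h2 : Sq d (k + 1) (p * pderiv i (X j : P d)) = Sq d (k + 1) p * pderiv i (X j) := by
          rw [pderiv_X]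
          rcases eq_or_ne i j with rfl | hij
          · simp
          · simp [hij, Sq_zero]
        rw [h1, h2]
        ring

lemma DD_Sq {d : ℕ} (l : List (Fin d)) (k : ℕ) (f : P d) : DD l (Sq d k f) = Sq d k (DD l f) := by
  induction l with
  | nil => rfl
  | cons i l ih => rw [DD_cons, DD_cons, ih, pderiv_Sq]

lemma coeff_sq_even {R : Type*} [CommRing R] [CharP R 2] (U : Polynomial R) (k : ℕ) :
    (U ^ 2).coeff (2 * k) = U.coeff k ^ 2 := by
  have : ExpChar R 2 := ExpChar.prime Nat.prime_two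
  rw [← Polynomial.map_frobenius_expand, Polynomial.coeff_map,
    Polynomial.coeff_expand_mul' (by norm_num)]
  simp [frobenius_def]

lemma coeff_sq_odd {R : Type*} [CommRing R] [CharP R 2] (U : Polynomial R) (k : ℕ) :
    (U ^ 2).coeff (2 * k + 1) = 0 := by
  have : ExpChar R 2 := ExpChar.prime Nat.prime_two
  rw [← Polynomial.map_frobenius_expand, Polynomial.coeff_map,
    Polynomial.coeff_expand (by norm_num), if_neg (by omega), map_zero]

/-- `Sq^{2k}(f^2) = (Sq^k f)^2`. -/
lemma Sq_even_sq {d : ℕ} (k : ℕ) (f : P d) : Sq d (2 * k) (f ^ 2) = (Sq d k f) ^ 2 := by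
  rw [Sq_apply, map_pow, coeff_sq_even]; rfl

lemma Sq_odd_sq {d : ℕ} (k : ℕ) (f : P d) : Sq d (2 * k + 1) (f ^ 2) = 0 := by
  rw [Sq_apply, map_pow, coeff_sq_odd]

lemma sq_inj {d : ℕ} {f g : P d} (h : f ^ 2 = g ^ 2) : f = g := by
  have h2 : (f + g) ^ 2 = 0 := by
    rw [CharTwo.add_sq, h, CharTwo.add_self_eq_zero]
  have h3 : f + g = 0 := by simpa using h2
  exact CharTwo.add_eq_zero.1 h3

lemma kappa_Sq_even {d : ℕ} (k : ℕ) (f : P d) : kappa d (Sq d (2 * k) f) = Sq d k (kappa d f) := by
  apply sq_inj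
  rw [kappa_sq, DD_Sq, ← kappa_sq, Sq_even_sq]

lemma kappa_Sq_odd {d : ℕ} (k : ℕ) (f : P d) : kappa d (Sq d (2 * k + 1) f) = 0 := by
  apply sq_inj
  rw [kappa_sq, DD_Sq, ← kappa_sq, Sq_odd_sq]
  simp

lemma pderiv_pderiv {d : ℕ} (i : Fin d) (f : P d) : pderiv i (pderiv i f) = 0 := by
  induction f using MvPolynomial.induction_on with
  | C a => simp
  | add p q hp hq => rw [map_add, map_add, hp, hq, add_zero]
  | mul_X p j hp =>
      rw [pderiv_mul, map_add, pderiv_mul, pderiv_mul, hp]
      have : pderiv i (pderiv i (X j : P d)) = 0 := by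
        rw [pderiv_X]
        rcases eq_or_ne i j with rfl | hij
        · simp
        · simp [hij]
      rw [this]
      simp [CharTwo.add_self_eq_zero]

/-- the transvection `x_b ↦ x_b + c x_a`. -/
lemma act_transvection_X {d : ℕ} (a b : Fin d) (c : ZMod 2) (j : Fin d) :
    act (Matrix.transvection a b c) (X j) = X j + (if j = b then C c * X a else 0) := by
  rw [act_X]
  simp only [Matrix.transvection, Matrix.add_apply, map_add, add_mul, Finset.sum_add_distrib]
  congr 1
  · rw [Finset.sum_eq_single j]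
    · simp
    · intro i _ hi; simp [Matrix.one_apply_ne hi]
    · simp
  · split_ifs with h
    · subst h
      rw [Finset.sum_eq_single a]
      · simp
      · intro i _ hi; simp [Matrix.single_apply, hi.symm]
      · simp
    · apply Finset.sum_eq_zero
      intro i _
      simp [Ne.symm h]

lemma act_C {d : ℕ} (w : Matrix (Fin d) (Fin d) (ZMod 2)) (a : ZMod 2) :
    act w (C a) = (C a : P d) := by
  simp [act, MvPolynomial.algebraMap_eq]

lemma pderiv_act_transvection {d : ℕ} {a b : Fin d} (hab : a ≠ b) (c : ZMod 2) (i : Fin d)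
    (f : P d) :
    pderiv i (act (Matrix.transvection a b c) f) =
      act (Matrix.transvection a b c) (pderiv i f + (if i = a then C c * pderiv b f else 0)) := by
  induction f using MvPolynomial.induction_on with
  | C r => rw [act_C]; split_ifs <;> simp
  | add p q hp hq =>
      rw [map_add, map_add, hp, hq, ← map_add]
      congr 1
      split_ifs
      · rw [map_add, map_add]; ring
      · rw [map_add]; ring
  | mul_X p j hp =>
      rw [map_mul, pderiv_mul, hp, act_transvection_X]
      have h1 : pderiv i (X j + (if j = b then C c * X a else 0) : P d) =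
          (if i = j then 1 else 0) + (if j = b then (if i = a then C c else 0) else 0) := by
        rw [map_add, pderiv_X]
        congr 1
        · simp [Pi.single_apply, eq_comm]
        · split_ifs with h2 h3
          · subst h3; simp
          · rw [pderiv_C_mul, pderiv_X_of_ne (Ne.symm h3)]; simp
          · simp
      rw [h1]
      have h2 : pderiv i (X j : P d) = if i = j then 1 else 0 := by
        rw [pderiv_X]; simp [Pi.single_apply, eq_comm]
      have h3 : pderiv b (X j : P d) = if j = b then 1 else 0 := by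
        rw [pderiv_X]; simp [Pi.single_apply]
      rw [pderiv_mul, pderiv_mul, h2, h3]
      simp only [map_add, map_mul, act_transvection_X]
      split_ifs <;> simp only [map_zero, map_add, map_mul, act_C, act_transvection_X, map_one] <;>
        simp_all <;> ring


lemma DD_act_transvection {d : ℕ} {a b : Fin d} (hab : a ≠ b) (c : ZMod 2) (f : P d) :
    DD (List.finRange d) (act (Matrix.transvection a b c) f) =
      act (Matrix.transvection a b c) (DD (List.finRange d) f) := by
  classical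
  -- reorder the list as (others) ++ [a, b]
  set l : List (Fin d) := (List.finRange d).filter (fun i => i ≠ a ∧ i ≠ b) with hl
  have hperm : (List.finRange d).Perm (l ++ [a, b]) := by
    rw [List.perm_ext_iff_of_nodup (List.nodup_finRange d)]
    · intro i
      simp only [List.mem_finRange, true_iff, List.mem_append, hl, List.mem_filter,
        List.mem_cons, List.not_mem_nil, or_false, true_and, decide_eq_true_eq]
      tauto
    · rw [List.nodup_append]
      refine ⟨(List.nodup_finRange d).filter _, by simp [hab], ?_⟩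
      intro i hi j hj
      simp only [hl, List.mem_filter, decide_eq_true_eq] at hi
      simp only [List.mem_cons, List.not_mem_nil, or_false] at hj
      rcases hj with rfl | rfl
      · exact hi.2.1
      · exact hi.2.2
  rw [DD_perm (List.nodup_finRange d) hperm, DD_perm (List.nodup_finRange d) hperm,
    DD_append, DD_append]
  have h1 : DD [a, b] (act (Matrix.transvection a b c) f) =
      act (Matrix.transvection a b c) (DD [a, b] f) := by
    simp only [DD, List.foldr_cons, List.foldr_nil]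
    rw [pderiv_act_transvection hab, if_neg hab.symm, add_zero, pderiv_act_transvection hab,
      if_pos rfl, pderiv_pderiv, mul_zero, add_zero]
  rw [h1]
  generalize DD [a, b] f = g
  have hmem : ∀ i ∈ l, i ≠ a := by
    intro i hi
    simp only [hl, List.mem_filter, decide_eq_true_eq] at hi
    exact hi.2.1
  clear_value l
  clear hperm hl
  induction l with
  | nil => rfl
  | cons i l ih =>
      rw [DD_cons, DD_cons, ih (fun j hj => hmem j (List.mem_cons_of_mem _ hj)),
        pderiv_act_transvection hab, if_neg (hmem i List.mem_cons_self), add_zero]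

lemma kappa_act_transvection {d : ℕ} {a b : Fin d} (hab : a ≠ b) (c : ZMod 2) (f : P d) :
    kappa d (act (Matrix.transvection a b c) f) =
      act (Matrix.transvection a b c) (kappa d f) := by
  apply sq_inj
  rw [kappa_sq, DD_act_transvection hab, ← kappa_sq, map_pow]

/-- Kameko's map commutes with the action of `GL_d(F_2)`. -/
lemma kappa_act {d : ℕ} (w : Matrix (Fin d) (Fin d) (ZMod 2)) (hw : w.det ≠ 0) (f : P d) :
    kappa d (act w f) = act w (kappa d f) := by
  revert f
  refine Matrix.diagonal_transvection_induction_of_det_ne_zero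
    (fun w => ∀ f, kappa d (act w f) = act w (kappa d f)) w hw ?_ ?_ ?_
  · intro D hD f
    have hD1 : D = 1 := by
      funext i
      rw [Matrix.det_diagonal] at hD
      have h := (Finset.prod_ne_zero_iff.1 hD) i (Finset.mem_univ i)
      revert h
      generalize D i = x
      revert x
      simp only [Pi.one_apply]
      decide
    rw [hD1, show (Matrix.diagonal (1 : Fin d → ZMod 2)) = 1 from Matrix.diagonal_one, act_one,
      act_one]
  · intro t f
    exact kappa_act_transvection t.hij t.c f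
  · intro A B _ _ hA hB f
    rw [act_mul, hA, hB, ← act_mul]

lemma degree_halve {d : ℕ} (t : Fin d →₀ ℕ) (ht : ∀ i, Odd (t i)) :
    t.degree = 2 * (halve t).degree + d := by
  rw [Finsupp.degree_eq_sum, Finsupp.degree_eq_sum, Finset.mul_sum]
  have h1 : ∑ i : Fin d, (2 * (halve t) i + 1) = ∑ i : Fin d, 2 * (halve t) i + d := by
    rw [Finset.sum_add_distrib]; simp
  rw [← h1]
  refine Finset.sum_congr rfl fun i _ => ?_
  obtain ⟨m, hm⟩ := ht i
  simp only [halve, Finsupp.mapRange_apply]
  omega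

lemma IsPrim.kappa {d n : ℕ} {θ : Module.Dual (ZMod 2) (P d)} (hθ : IsPrim d n θ) :
    IsPrim d (d + 2 * n) (θ ∘ₗ kappa d) := by
  refine ⟨?_, ?_⟩
  · intro m hm f hf
    rw [LinearMap.comp_apply, MvPolynomial.as_sum f, map_sum, map_sum]
    apply Finset.sum_eq_zero
    intro t ht
    have h1 : monomial t (coeff t f) = (coeff t f) • (monomial t 1 : P d) := by
      simp [smul_monomial]
    rw [h1, map_smul, map_smul, kappa_monomial]
    split_ifs with hodd
    · have hdeg : t.degree = m := by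
        have := hf (mem_support_iff.1 ht)
        rw [Finsupp.degree_eq_weight_one]
        exact this
      have hne : (halve t).degree ≠ n := by
        intro h
        have := degree_halve t hodd
        omega
      rw [hθ.degree _ hne _ (isHomogeneous_monomial 1 rfl), smul_zero]
    · simp
  · intro k hk f
    rw [LinearMap.comp_apply]
    rcases Nat.even_or_odd' k with ⟨c, rfl | rfl⟩
    · rw [kappa_Sq_even]
      exact hθ.kills c (by omega) _
    · rw [kappa_Sq_odd, map_zero]

lemma IsPrim.act {d n : ℕ} (w : Matrix (Fin d) (Fin d) (ZMod 2))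
    {θ : Module.Dual (ZMod 2) (P d)} (hθ : IsPrim d n θ) :
    IsPrim d n (θ ∘ₗ (act w).toLinearMap) := by
  refine ⟨?_, ?_⟩
  · intro m hm f hf
    exact hθ.degree m hm _ (act_isHomogeneous w hf)
  · intro k hk f
    simp only [LinearMap.comp_apply, AlgHom.toLinearMap_apply]
    rw [← Sq_act]
    exact hθ.kills k hk _

lemma IsPrim.add {d n : ℕ} {θ θ' : Module.Dual (ZMod 2) (P d)} (h : IsPrim d n θ)
    (h' : IsPrim d n θ') : IsPrim d n (θ + θ') := by
  refine ⟨?_, ?_⟩
  · intro m hm f hf; simp [h.degree m hm f hf, h'.degree m hm f hf]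
  · intro k hk f; simp [h.kills k hk f, h'.kills k hk f]

lemma IsPrim.smul {d n : ℕ} {θ : Module.Dual (ZMod 2) (P d)} (h : IsPrim d n θ)
    (a : ZMod 2) : IsPrim d n (a • θ) := by
  refine ⟨?_, ?_⟩
  · intro m hm f hf; simp [h.degree m hm f hf]
  · intro k hk f; simp [h.kills k hk f]

lemma IsPrim.zero (d n : ℕ) : IsPrim d n 0 :=
  ⟨fun _ _ _ _ => rfl, fun _ _ _ => rfl⟩

lemma IsPrim.sub {d n : ℕ} {θ θ' : Module.Dual (ZMod 2) (P d)} (h : IsPrim d n θ)
    (h' : IsPrim d n θ') : IsPrim d n (θ - θ') := by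
  refine ⟨?_, ?_⟩
  · intro m hm f hf; simp [h.degree m hm f hf, h'.degree m hm f hf]
  · intro k hk f; simp [h.kills k hk f, h'.kills k hk f]

lemma det_ne_zero {d : ℕ} (g : Matrix.GeneralLinearGroup (Fin d) (ZMod 2)) :
    (g : Matrix (Fin d) (Fin d) (ZMod 2)).det ≠ 0 := by
  have := g.isUnit
  rw [Matrix.isUnit_iff_isUnit_det] at this
  exact this.ne_zero

/-- The elements of `Aug d n` are primitive of degree `n`. -/
lemma Aug_isPrim {d n : ℕ} {θ : Module.Dual (ZMod 2) (P d)} (h : θ ∈ Aug d n) :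
    IsPrim d n θ := by
  induction h using Submodule.span_induction with
  | mem ψ hψ =>
      obtain ⟨g, θ, hθ, rfl⟩ := hψ
      exact (hθ.act _).sub hθ
  | zero => exact IsPrim.zero d n
  | add a b _ _ ha hb => exact ha.add hb
  | smul c a _ ha => exact ha.smul c

/-- Kameko's map is `GL_d(F_2)`-equivariant, so it maps `Aug d n` to `Aug d (d + 2 n)`; hence it
induces a map on the coinvariants. -/
lemma Aug_kappa {d n : ℕ} {θ : Module.Dual (ZMod 2) (P d)} (h : θ ∈ Aug d n) :
    θ ∘ₗ kappa d ∈ Aug d (d + 2 * n) := by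
  induction h using Submodule.span_induction with
  | mem ψ hψ =>
      obtain ⟨g, θ, hθ, rfl⟩ := hψ
      refine Submodule.subset_span ⟨g, θ ∘ₗ kappa d, hθ.kappa, ?_⟩
      apply LinearMap.ext
      intro f
      rw [LinearMap.comp_apply, LinearMap.sub_apply, LinearMap.sub_apply, LinearMap.comp_apply,
        LinearMap.comp_apply, LinearMap.comp_apply, LinearMap.comp_apply,
        AlgHom.toLinearMap_apply, AlgHom.toLinearMap_apply, kappa_act _ (det_ne_zero g)]
  | zero => rw [LinearMap.zero_comp]; exact Submodule.zero_mem _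
  | add a b _ _ ha hb => rw [LinearMap.add_comp]; exact Submodule.add_mem _ ha hb
  | smul c a _ ha => rw [LinearMap.smul_comp]; exact Submodule.smul_mem _ _ ha

/-- Sanity check: on the dual monomial basis, `θ ↦ θ ∘ kappa` sends `a^{(s)}` to `a^{(2s+1)}`. -/
lemma kameko_dual_basis {d : ℕ} (s : Fin d →₀ ℕ) :
    (lcoeff (ZMod 2) s) ∘ₗ kappa d =
      lcoeff (ZMod 2) (2 • s + Finsupp.equivFunOnFinite.symm (fun _ => 1)) := by
  apply MvPolynomial.linearMap_ext
  intro t
  apply LinearMap.ext_ring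
  simp only [LinearMap.comp_apply, lcoeff_apply, kappa_monomial, coeff_monomial]
  split_ifs with h1 h2 h2
  · rw [coeff_monomial, if_pos]
    ext i
    rw [h2]
    simp [halve]
  · rw [coeff_monomial, if_neg]
    intro h3
    apply h2
    rw [← h3]
    ext i
    obtain ⟨m, hm⟩ := h1 i
    simp only [halve, Finsupp.add_apply, Finsupp.smul_apply, Finsupp.mapRange_apply,
      Finsupp.equivFunOnFinite_symm_apply_apply, hm]
    rw [smul_eq_mul]
    omega
  · exfalso
    apply h1
    intro i
    rw [h2]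
    simp
  · simp


/-! ### Spikes give primitive elements -/

lemma choose_even_of_add_eq (m : ℕ) : ∀ a b : ℕ, a + b + 1 = 2 ^ m → 0 < b →
    ((a.choose b : ℕ) : ZMod 2) = 0 := by
  induction m with
  | zero => intro a b h hb; simp at h; omega
  | succ m ih =>
      intro a b h hb
      have hL := Choose.choose_modEq_choose_mod_mul_choose_div_nat (n := a) (k := b) (p := 2)
      have hL' : ((a.choose b : ℕ) : ZMod 2) =
          (((a % 2).choose (b % 2) * (a / 2).choose (b / 2) : ℕ) : ZMod 2) :=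
        (ZMod.natCast_eq_natCast_iff _ _ _).2 hL
      rw [hL']
      rw [pow_succ] at h
      rcases Nat.even_or_odd' b with ⟨c, rfl | rfl⟩
      · -- b even, so a odd
        have ha : a % 2 = 1 := by omega
        have h2 : a / 2 + c + 1 = 2 ^ m := by omega
        have := ih (a / 2) c h2 (by omega)
        rw [ha, Nat.mul_mod_right, Nat.mul_div_cancel_left _ (by norm_num : 0 < 2)]
        simp [this]
      · have ha : a % 2 = 0 := by omega
        rw [ha]
        have : (2 * c + 1) % 2 = 1 := by omega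
        rw [this]; simp

lemma SqT_monomial {d : ℕ} (s : Fin d →₀ ℕ) :
    SqT d (monomial s 1) = ∑ p ∈ Fintype.piFinset (fun i => Finset.range (s i + 1)),
      Polynomial.X ^ (∑ i, p i) * Polynomial.C
        (((∏ i, ((s i).choose (p i) : ZMod 2))) •
          (monomial (s + Finsupp.equivFunOnFinite.symm p) 1 : P d)) := by
  have h1 : (monomial s 1 : P d) = ∏ i, X i ^ s i := by
    rw [monomial_eq, Finsupp.prod_fintype _ _ (by simp)]; simp
  rw [h1, map_prod]
  have h2 : ∀ i, SqT d (X i ^ s i) = ∑ m ∈ Finset.range (s i + 1),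
      Polynomial.X ^ m * Polynomial.C (((s i).choose m : ZMod 2) • (X i ^ (s i + m) : P d)) := by
    intro i
    rw [map_pow, SqT_X, add_comm, add_pow]
    refine Finset.sum_congr rfl fun m hm => ?_
    rw [Finset.mem_range] at hm
    rw [mul_pow, ← Polynomial.C_pow, ← Polynomial.C_pow, mul_assoc, mul_assoc]
    congr 1
    rw [← Polynomial.C_eq_natCast, ← Polynomial.C_mul, ← Polynomial.C_mul]
    congr 1
    rw [smul_eq_C_mul, map_natCast, ← mul_assoc, ← pow_mul, ← pow_add, mul_comm]
    congr 2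
    omega
  rw [Finset.prod_congr rfl (fun i _ => h2 i), Finset.prod_univ_sum]
  refine Finset.sum_congr rfl fun p _ => ?_
  rw [Finset.prod_mul_distrib, Finset.prod_pow_eq_pow_sum, ← map_prod]
  congr 2
  rw [Finset.prod_smul]
  congr 1
  rw [monomial_eq, Finsupp.prod_fintype _ _ (by simp)]
  simp

/-- The dual monomial basis elements `a^{(r)}`, where all `r_i + 1` are powers of two,
are annihilated by the Steenrod operations. -/
lemma spike_Sq {d : ℕ} (r : Fin d →₀ ℕ) (hr : ∀ i, ∃ m, r i + 1 = 2 ^ m) (k : ℕ) (hk : 0 < k)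
    (f : P d) : lcoeff (ZMod 2) r (Sq d k f) = 0 := by
  induction f using MvPolynomial.induction_on' with
  | add p q hp hq => rw [Sq_add, map_add, hp, hq, add_zero]
  | monomial s a =>
      have h1 : monomial s a = a • (monomial s 1 : P d) := by simp [smul_monomial]
      rw [h1, Sq_smul, map_smul, Sq_apply, SqT_monomial, Polynomial.finsetSum_coeff, map_sum]
      rw [Finset.sum_eq_zero, smul_zero]
      intro p _
      rw [Polynomial.coeff_mul_C, Polynomial.coeff_X_pow]
      split_ifs with hkp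
      · rw [one_mul, map_smul, lcoeff_apply, coeff_monomial]
        split_ifs with hsp
        · -- some `p i > 0`
          obtain ⟨i, hi⟩ : ∃ i, 0 < p i := by
            by_contra hcon
            push Not at hcon
            have : ∑ i, p i = 0 := Finset.sum_eq_zero (fun i _ => Nat.le_zero.1 (hcon i))
            omega
          obtain ⟨m, hm⟩ := hr i
          have h3 : s i + p i = r i := by
            rw [← hsp]; simp
          have h4 := choose_even_of_add_eq m (s i) (p i) (by omega) hi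
          rw [Finset.prod_eq_zero (Finset.mem_univ i) h4, zero_smul]
        · simp
      · simp

lemma spike_mem {d : ℕ} (r : Fin d →₀ ℕ) (hr : ∀ i, ∃ m, r i + 1 = 2 ^ m) :
    IsPrim d r.degree (lcoeff (ZMod 2) r) := by
  refine ⟨?_, fun k hk f => spike_Sq r hr k hk f⟩
  intro m hm f hf
  rw [lcoeff_apply]
  by_contra hne
  apply hm
  have := hf hne
  rw [Finsupp.degree_eq_weight_one]
  exact this.symm

/-! ### The action of a transvection on the dual monomial basis -/

lemma act_transvection_monomial {d : ℕ} {a b : Fin d} (hab : a ≠ b) (t : Fin d →₀ ℕ) :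
    act (Matrix.transvection a b (1 : ZMod 2)) (monomial t 1) =
      ∑ m ∈ Finset.range (t b + 1), ((t b).choose m : ZMod 2) •
        (monomial (t + Finsupp.single a m - Finsupp.single b m) 1 : P d) := by
  have h1 : (monomial t 1 : P d) = ∏ i, X i ^ t i := by
    rw [monomial_eq, Finsupp.prod_fintype _ _ (by simp)]; simp
  rw [h1, map_prod, ← Finset.mul_prod_erase _ _ (Finset.mem_univ b)]
  have h2 : ∏ i ∈ Finset.univ.erase b, act (Matrix.transvection a b (1 : ZMod 2)) (X i ^ t i) =
      ∏ i ∈ Finset.univ.erase b, (X i ^ t i : P d) := by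
    refine Finset.prod_congr rfl fun i hi => ?_
    rw [map_pow, act_transvection_X, if_neg (Finset.ne_of_mem_erase hi), add_zero]
  rw [h2, map_pow, act_transvection_X, if_pos rfl, map_one, one_mul, add_comm (X b), add_pow,
    Finset.sum_mul]
  refine Finset.sum_congr rfl fun m hm => ?_
  rw [Finset.mem_range] at hm
  have h3 : (monomial (t + Finsupp.single a m - Finsupp.single b m) 1 : P d) =
      ∏ i, X i ^ ((t + Finsupp.single a m - Finsupp.single b m) i) := by
    rw [monomial_eq, Finsupp.prod_fintype _ _ (by simp)]; simp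
  rw [h3, ← Finset.mul_prod_erase _ _ (Finset.mem_univ b),
    ← Finset.mul_prod_erase _ _ (Finset.mem_erase.2 ⟨hab, Finset.mem_univ a⟩),
    ← Finset.mul_prod_erase _ _ (Finset.mem_erase.2 ⟨hab, Finset.mem_univ a⟩)]
  have h4 : ∏ i ∈ (Finset.univ.erase b).erase a,
      (X i ^ ((t + Finsupp.single a m - Finsupp.single b m) i) : P d) =
      ∏ i ∈ (Finset.univ.erase b).erase a, (X i ^ t i : P d) := by
    refine Finset.prod_congr rfl fun i hi => ?_
    rw [Finset.mem_erase, Finset.mem_erase] at hi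
    congr 1
    simp [Finsupp.single_apply, hi.1.symm, hi.2.1.symm]
  rw [h4]
  have h5 : (t + Finsupp.single a m - Finsupp.single b m) b = t b - m := by
    simp [Finsupp.single_apply, hab]
  have h6 : (t + Finsupp.single a m - Finsupp.single b m) a = t a + m := by
    simp [Finsupp.single_apply, hab.symm]
  rw [h5, h6, smul_eq_C_mul, map_natCast, pow_add]
  ring

lemma coeff_act_transvection {d : ℕ} {a b : Fin d} (hab : a ≠ b) (r : Fin d →₀ ℕ) :
    (lcoeff (ZMod 2) r) ∘ₗ (act (Matrix.transvection a b (1 : ZMod 2))).toLinearMap =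
      ∑ m ∈ Finset.range (r a + 1), ((r b + m).choose m : ZMod 2) •
        lcoeff (ZMod 2) (r + Finsupp.single b m - Finsupp.single a m) := by
  apply MvPolynomial.linearMap_ext
  intro t
  apply LinearMap.ext_ring
  simp only [LinearMap.comp_apply, AlgHom.toLinearMap_apply]
  rw [act_transvection_monomial hab, map_sum]
  simp only [LinearMap.sum_apply, LinearMap.smul_apply, map_smul, lcoeff_apply, coeff_monomial]
  have key : ∀ m, t + Finsupp.single a m = r + Finsupp.single b m → t b = r b + m ∧ t a + m = r a := by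
    intro m h
    have hb := DFunLike.congr_fun h b
    have ha := DFunLike.congr_fun h a
    simp [Finsupp.single_apply, hab, hab.symm] at ha hb
    exact ⟨hb, ha⟩
  have hL : ∀ m ∈ Finset.range (t b + 1), (((t b).choose m : ZMod 2) •
      (if t + Finsupp.single a m - Finsupp.single b m = r then (1 : ZMod 2) else 0)) =
      if t + Finsupp.single a m = r + Finsupp.single b m then ((t b).choose m : ZMod 2) else 0 := by
    intro m hm
    rw [Finset.mem_range] at hm
    have hiff : t + Finsupp.single a m - Finsupp.single b m = r ↔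
        t + Finsupp.single a m = r + Finsupp.single b m := by
      constructor
      · intro h
        rw [← h, tsub_add_cancel_of_le]
        rw [Finsupp.single_le_iff]
        simp [Finsupp.single_apply, hab]
        omega
      · intro h; rw [h, add_tsub_cancel_right]
    simp [hiff]
  have hR : ∀ m ∈ Finset.range (r a + 1), (((r b + m).choose m : ZMod 2) •
      (if t = r + Finsupp.single b m - Finsupp.single a m then (1 : ZMod 2) else 0)) =
      if t + Finsupp.single a m = r + Finsupp.single b m then ((t b).choose m : ZMod 2) else 0 := by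
    intro m hm
    rw [Finset.mem_range] at hm
    have hiff : t = r + Finsupp.single b m - Finsupp.single a m ↔
        t + Finsupp.single a m = r + Finsupp.single b m := by
      constructor
      · intro h
        rw [h, tsub_add_cancel_of_le]
        rw [Finsupp.single_le_iff]
        simp [Finsupp.single_apply, hab.symm]
        omega
      · intro h; rw [← h, add_tsub_cancel_right]
    by_cases h : t + Finsupp.single a m = r + Finsupp.single b m
    · simp [hiff, h, (key m h).1]
    · simp [hiff, h]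
  rw [Finset.sum_congr rfl hL, Finset.sum_congr rfl hR]
  rw [← Finset.sum_filter, ← Finset.sum_filter]
  congr 1
  ext m
  simp only [Finset.mem_filter, Finset.mem_range]
  constructor
  · rintro ⟨_, h⟩
    have := key m h
    exact ⟨by omega, h⟩
  · rintro ⟨_, h⟩
    have := key m h
    exact ⟨by omega, h⟩


/-! ### `h_1^{d-1} h_{j+1} = 0` in the coinvariants, for `d ≥ 5` -/

/-- The exponent vector with entries `a, b, c, e` at the indices `0, 1, 2, 3`, entry `N` at the
index `4` and entries `1` at all further indices. -/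
noncomputable def ex (d N a b c e : ℕ) : Fin d →₀ ℕ :=
  Finsupp.equivFunOnFinite.symm (fun i =>
    if (i : ℕ) = 0 then a else if (i : ℕ) = 1 then b else if (i : ℕ) = 2 then c
    else if (i : ℕ) = 3 then e else if (i : ℕ) = 4 then N else 1)

lemma ex_apply (d N a b c e : ℕ) (i : Fin d) : ex d N a b c e i =
    if (i : ℕ) = 0 then a else if (i : ℕ) = 1 then b else if (i : ℕ) = 2 then c
    else if (i : ℕ) = 3 then e else if (i : ℕ) = 4 then N else 1 := by
  simp [ex]

lemma ex_degree {d : ℕ} (hd : 5 ≤ d) (N a b c e : ℕ) :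
    (ex d N a b c e).degree = a + b + c + e + N + (d - 5) := by
  obtain ⟨k, rfl⟩ := Nat.exists_eq_add_of_le hd
  rw [Finsupp.degree_eq_sum, Fin.sum_univ_add, Fin.sum_univ_five]
  simp only [ex_apply, Fin.val_castAdd, Fin.val_natAdd]
  have h : ∀ i : Fin k, (if 5 + (i : ℕ) = 0 then a else if 5 + (i : ℕ) = 1 then b else
      if 5 + (i : ℕ) = 2 then c else if 5 + (i : ℕ) = 3 then e else if 5 + (i : ℕ) = 4 then N
      else 1) = 1 := by
    intro i
    rw [if_neg (by omega), if_neg (by omega), if_neg (by omega), if_neg (by omega),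
      if_neg (by omega)]
  rw [Finset.sum_congr rfl (fun i _ => h i)]
  simp

/-- the functional dual to the monomial with exponent vector `ex`. -/
noncomputable def q (d N a b c e : ℕ) : Module.Dual (ZMod 2) (P d) :=
  lcoeff (ZMod 2) (ex d N a b c e)

lemma mem_Aug_of {d n : ℕ} {θ : Module.Dual (ZMod 2) (P d)} (hθ : IsPrim d n θ)
    (w : Matrix (Fin d) (Fin d) (ZMod 2)) (hw : IsUnit w.det) :
    θ ∘ₗ (act w).toLinearMap - θ ∈ Aug d n :=
  Submodule.subset_span ⟨Matrix.GeneralLinearGroup.mk'' w hw, θ, hθ, rfl⟩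

lemma mem_Aug_transvection {d n : ℕ} {θ θ' : Module.Dual (ZMod 2) (P d)} (hθ : IsPrim d n θ)
    {a b : Fin d} (hab : a ≠ b)
    (h : θ ∘ₗ (act (Matrix.transvection a b (1 : ZMod 2))).toLinearMap = θ + θ') :
    θ' ∈ Aug d n := by
  have := mem_Aug_of hθ (Matrix.transvection a b (1 : ZMod 2))
    (by rw [Matrix.det_transvection_of_ne _ _ hab]; exact isUnit_one)
  rw [h, add_sub_cancel_left] at this
  exact this

section chain

variable {d : ℕ} (hd : 5 ≤ d) (N : ℕ)

lemma q_mem {N a b c e : ℕ} (hN : ∃ m, N + 1 = 2 ^ m) (ha : ∃ m, a + 1 = 2 ^ m)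
    (hb : ∃ m, b + 1 = 2 ^ m) (hc : ∃ m, c + 1 = 2 ^ m) (he : ∃ m, e + 1 = 2 ^ m)
    {M : ℕ} (hM : M = a + b + c + e + N + (d - 5)) (hd : 5 ≤ d) :
    IsPrim d M (q d N a b c e) := by
  rw [hM, ← ex_degree hd]
  apply spike_mem
  intro i
  rw [ex_apply]
  split_ifs
  · exact ha
  · exact hb
  · exact hc
  · exact he
  · exact hN
  · exact ⟨1, rfl⟩

lemma ex_shift01 (h0 : 0 < d) (h1 : 1 < d) (N a b c e m : ℕ) (hm : m ≤ a) :
    ex d N a b c e + Finsupp.single ⟨1, h1⟩ m - Finsupp.single ⟨0, h0⟩ m =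
      ex d N (a - m) (b + m) c e := by
  ext i
  simp only [Finsupp.tsub_apply, Finsupp.add_apply, ex_apply, Finsupp.single_apply, Fin.ext_iff]
  split_ifs <;> omega

lemma ex_shift02 (h0 : 0 < d) (h2 : 2 < d) (N a b c e m : ℕ) (hm : m ≤ a) :
    ex d N a b c e + Finsupp.single ⟨2, h2⟩ m - Finsupp.single ⟨0, h0⟩ m =
      ex d N (a - m) b (c + m) e := by
  ext i
  simp only [Finsupp.tsub_apply, Finsupp.add_apply, ex_apply, Finsupp.single_apply, Fin.ext_iff]
  split_ifs <;> omega

lemma ex_shift12 (h1 : 1 < d) (h2 : 2 < d) (N a b c e m : ℕ) (hm : m ≤ b) :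
    ex d N a b c e + Finsupp.single ⟨2, h2⟩ m - Finsupp.single ⟨1, h1⟩ m =
      ex d N a (b - m) (c + m) e := by
  ext i
  simp only [Finsupp.tsub_apply, Finsupp.add_apply, ex_apply, Finsupp.single_apply, Fin.ext_iff]
  split_ifs <;> omega

lemma ex_shift30 (h0 : 0 < d) (h3 : 3 < d) (N a b c e m : ℕ) (hm : m ≤ e) :
    ex d N a b c e + Finsupp.single ⟨0, h0⟩ m - Finsupp.single ⟨3, h3⟩ m =
      ex d N (a + m) b c (e - m) := by
  ext i
  simp only [Finsupp.tsub_apply, Finsupp.add_apply, ex_apply, Finsupp.single_apply, Fin.ext_iff]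
  split_ifs <;> omega

lemma ex_shift31 (h1 : 1 < d) (h3 : 3 < d) (N a b c e m : ℕ) (hm : m ≤ e) :
    ex d N a b c e + Finsupp.single ⟨1, h1⟩ m - Finsupp.single ⟨3, h3⟩ m =
      ex d N a (b + m) c (e - m) := by
  ext i
  simp only [Finsupp.tsub_apply, Finsupp.add_apply, ex_apply, Finsupp.single_apply, Fin.ext_iff]
  split_ifs <;> omega

lemma ex_shift32 (h2 : 2 < d) (h3 : 3 < d) (N a b c e m : ℕ) (hm : m ≤ e) :
    ex d N a b c e + Finsupp.single ⟨2, h2⟩ m - Finsupp.single ⟨3, h3⟩ m =
      ex d N a b (c + m) (e - m) := by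
  ext i
  simp only [Finsupp.tsub_apply, Finsupp.add_apply, ex_apply, Finsupp.single_apply, Fin.ext_iff]
  split_ifs <;> omega

include hd

lemma step1_0 {M : ℕ} (hM : M = 4 + N + (d - 5)) (hN : ∃ m, N + 1 = 2 ^ m) :
    q d N 3 0 0 1 ∈ Aug d M := by
  have h0 : 0 < d := by omega
  have h3 : 3 < d := by omega
  have hab : (⟨3, h3⟩ : Fin d) ≠ ⟨0, h0⟩ := by simp [Fin.ext_iff]
  refine mem_Aug_transvection (θ := q d N 1 0 0 3) (q_mem hN ⟨1, rfl⟩ ⟨0, rfl⟩ ⟨0, rfl⟩ ⟨2, rfl⟩
    (by omega) hd) hab ?_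
  rw [q, coeff_act_transvection hab]
  have e3 : ex d N 1 0 0 3 ⟨3, h3⟩ = 3 := by simp [ex_apply]
  have e0 : ex d N 1 0 0 3 ⟨0, h0⟩ = 1 := by simp [ex_apply]
  rw [e3, e0]
  simp only [Finset.sum_range_succ, Finset.sum_range_zero, zero_add]
  rw [ex_shift30 h0 h3 N 1 0 0 3 0 (by norm_num), ex_shift30 h0 h3 N 1 0 0 3 1 (by norm_num),
    ex_shift30 h0 h3 N 1 0 0 3 2 (by norm_num), ex_shift30 h0 h3 N 1 0 0 3 3 (by norm_num)]
  have c0 : (((1 + 0).choose 0 : ℕ) : ZMod 2) = 1 := by decide
  have c1 : (((1 + 1).choose 1 : ℕ) : ZMod 2) = 0 := by decide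
  have c2 : (((1 + 2).choose 2 : ℕ) : ZMod 2) = 1 := by decide
  have c3 : (((1 + 3).choose 3 : ℕ) : ZMod 2) = 0 := by decide
  rw [c0, c1, c2, c3]
  simp [q]

lemma step1_1 {M : ℕ} (hM : M = 4 + N + (d - 5)) (hN : ∃ m, N + 1 = 2 ^ m) :
    q d N 0 3 0 1 ∈ Aug d M := by
  have h0 : 1 < d := by omega
  have h3 : 3 < d := by omega
  have hab : (⟨3, h3⟩ : Fin d) ≠ ⟨1, h0⟩ := by simp [Fin.ext_iff]
  refine mem_Aug_transvection (θ := q d N 0 1 0 3) (q_mem hN ⟨0, rfl⟩ ⟨1, rfl⟩ ⟨0, rfl⟩ ⟨2, rfl⟩
    (by omega) hd) hab ?_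
  rw [q, coeff_act_transvection hab]
  have e3 : ex d N 0 1 0 3 ⟨3, h3⟩ = 3 := by simp [ex_apply]
  have e0 : ex d N 0 1 0 3 ⟨1, h0⟩ = 1 := by simp [ex_apply]
  rw [e3, e0]
  simp only [Finset.sum_range_succ, Finset.sum_range_zero, zero_add]
  rw [ex_shift31 h0 h3 N 0 1 0 3 0 (by norm_num), ex_shift31 h0 h3 N 0 1 0 3 1 (by norm_num),
    ex_shift31 h0 h3 N 0 1 0 3 2 (by norm_num), ex_shift31 h0 h3 N 0 1 0 3 3 (by norm_num)]
  have c0 : (((1 + 0).choose 0 : ℕ) : ZMod 2) = 1 := by decide
  have c1 : (((1 + 1).choose 1 : ℕ) : ZMod 2) = 0 := by decide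
  have c2 : (((1 + 2).choose 2 : ℕ) : ZMod 2) = 1 := by decide
  have c3 : (((1 + 3).choose 3 : ℕ) : ZMod 2) = 0 := by decide
  rw [c0, c1, c2, c3]
  simp [q]

lemma step1_2 {M : ℕ} (hM : M = 4 + N + (d - 5)) (hN : ∃ m, N + 1 = 2 ^ m) :
    q d N 0 0 3 1 ∈ Aug d M := by
  have h0 : 2 < d := by omega
  have h3 : 3 < d := by omega
  have hab : (⟨3, h3⟩ : Fin d) ≠ ⟨2, h0⟩ := by simp [Fin.ext_iff]
  refine mem_Aug_transvection (θ := q d N 0 0 1 3) (q_mem hN ⟨0, rfl⟩ ⟨0, rfl⟩ ⟨1, rfl⟩ ⟨2, rfl⟩
    (by omega) hd) hab ?_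
  rw [q, coeff_act_transvection hab]
  have e3 : ex d N 0 0 1 3 ⟨3, h3⟩ = 3 := by simp [ex_apply]
  have e0 : ex d N 0 0 1 3 ⟨2, h0⟩ = 1 := by simp [ex_apply]
  rw [e3, e0]
  simp only [Finset.sum_range_succ, Finset.sum_range_zero, zero_add]
  rw [ex_shift32 h0 h3 N 0 0 1 3 0 (by norm_num), ex_shift32 h0 h3 N 0 0 1 3 1 (by norm_num),
    ex_shift32 h0 h3 N 0 0 1 3 2 (by norm_num), ex_shift32 h0 h3 N 0 0 1 3 3 (by norm_num)]
  have c0 : (((1 + 0).choose 0 : ℕ) : ZMod 2) = 1 := by decide
  have c1 : (((1 + 1).choose 1 : ℕ) : ZMod 2) = 0 := by decide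
  have c2 : (((1 + 2).choose 2 : ℕ) : ZMod 2) = 1 := by decide
  have c3 : (((1 + 3).choose 3 : ℕ) : ZMod 2) = 0 := by decide
  rw [c0, c1, c2, c3]
  simp [q]

lemma step2_01 {M : ℕ} (hM : M = 4 + N + (d - 5)) (hN : ∃ m, N + 1 = 2 ^ m) :
    q d N 2 1 0 1 + q d N 1 2 0 1 ∈ Aug d M := by
  have h0 : 0 < d := by omega
  have h1 : 1 < d := by omega
  have hab : (⟨0, h0⟩ : Fin d) ≠ ⟨1, h1⟩ := by simp [Fin.ext_iff]
  have key : q d N 2 1 0 1 + q d N 1 2 0 1 + q d N 0 3 0 1 ∈ Aug d M := by
    refine mem_Aug_transvection (θ := q d N 3 0 0 1) (q_mem hN ⟨2, rfl⟩ ⟨0, rfl⟩ ⟨0, rfl⟩ ⟨1, rfl⟩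
      (by omega) hd) hab ?_
    rw [q, coeff_act_transvection hab]
    have e3 : ex d N 3 0 0 1 ⟨0, h0⟩ = 3 := by simp [ex_apply]
    have e0 : ex d N 3 0 0 1 ⟨1, h1⟩ = 0 := by simp [ex_apply]
    rw [e3, e0]
    simp only [Finset.sum_range_succ, Finset.sum_range_zero, zero_add]
    rw [ex_shift01 h0 h1 N 3 0 0 1 0 (by norm_num), ex_shift01 h0 h1 N 3 0 0 1 1 (by norm_num),
      ex_shift01 h0 h1 N 3 0 0 1 2 (by norm_num), ex_shift01 h0 h1 N 3 0 0 1 3 (by norm_num)]
    simp [q, add_assoc]
  have h2 := (Aug d M).sub_mem key (step1_1 hd N hM hN)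
  rwa [add_sub_cancel_right] at h2

lemma step2_12 {M : ℕ} (hM : M = 4 + N + (d - 5)) (hN : ∃ m, N + 1 = 2 ^ m) :
    q d N 0 2 1 1 + q d N 0 1 2 1 ∈ Aug d M := by
  have h0 : 1 < d := by omega
  have h1 : 2 < d := by omega
  have hab : (⟨1, h0⟩ : Fin d) ≠ ⟨2, h1⟩ := by simp [Fin.ext_iff]
  have key : q d N 0 2 1 1 + q d N 0 1 2 1 + q d N 0 0 3 1 ∈ Aug d M := by
    refine mem_Aug_transvection (θ := q d N 0 3 0 1) (q_mem hN ⟨0, rfl⟩ ⟨2, rfl⟩ ⟨0, rfl⟩ ⟨1, rfl⟩
      (by omega) hd) hab ?_
    rw [q, coeff_act_transvection hab]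
    have e3 : ex d N 0 3 0 1 ⟨1, h0⟩ = 3 := by simp [ex_apply]
    have e0 : ex d N 0 3 0 1 ⟨2, h1⟩ = 0 := by simp [ex_apply]
    rw [e3, e0]
    simp only [Finset.sum_range_succ, Finset.sum_range_zero, zero_add]
    rw [ex_shift12 h0 h1 N 0 3 0 1 0 (by norm_num), ex_shift12 h0 h1 N 0 3 0 1 1 (by norm_num),
      ex_shift12 h0 h1 N 0 3 0 1 2 (by norm_num), ex_shift12 h0 h1 N 0 3 0 1 3 (by norm_num)]
    simp [q, add_assoc]
  have h2 := (Aug d M).sub_mem key (step1_2 hd N hM hN)
  rwa [add_sub_cancel_right] at h2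

lemma step3 {M : ℕ} (hM : M = 4 + N + (d - 5)) (hN : ∃ m, N + 1 = 2 ^ m) :
    q d N 1 1 1 1 ∈ Aug d M := by
  have h0 : 0 < d := by omega
  have h2 : 2 < d := by omega
  have hab : (⟨0, h0⟩ : Fin d) ≠ ⟨2, h2⟩ := by simp [Fin.ext_iff]
  have key : q d N 1 1 1 1 + (q d N 0 2 1 1 + q d N 0 1 2 1) ∈ Aug d M := by
    refine mem_Aug_transvection (θ := q d N 2 1 0 1 + q d N 1 2 0 1)
      (Aug_isPrim (step2_01 hd N hM hN)) hab ?_
    rw [LinearMap.add_comp, q, q, coeff_act_transvection hab, coeff_act_transvection hab]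
    have e3 : ex d N 2 1 0 1 ⟨0, h0⟩ = 2 := by simp [ex_apply]
    have e0 : ex d N 2 1 0 1 ⟨2, h2⟩ = 0 := by simp [ex_apply]
    have e3' : ex d N 1 2 0 1 ⟨0, h0⟩ = 1 := by simp [ex_apply]
    have e0' : ex d N 1 2 0 1 ⟨2, h2⟩ = 0 := by simp [ex_apply]
    rw [e3, e0, e3', e0']
    simp only [Finset.sum_range_succ, Finset.sum_range_zero, zero_add]
    rw [ex_shift02 h0 h2 N 2 1 0 1 0 (by norm_num), ex_shift02 h0 h2 N 2 1 0 1 1 (by norm_num),
      ex_shift02 h0 h2 N 2 1 0 1 2 (by norm_num), ex_shift02 h0 h2 N 1 2 0 1 0 (by norm_num),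
      ex_shift02 h0 h2 N 1 2 0 1 1 (by norm_num)]
    simp only [q, Nat.choose_self, Nat.cast_one, one_smul, Nat.reduceSub, Nat.reduceAdd,
      Nat.sub_zero, Nat.sub_self, add_zero, zero_add]
    abel
  have h3 := (Aug d M).sub_mem key (step2_12 hd N hM hN)
  rwa [add_sub_cancel_right] at h3

end chain


/-! ### A `GL_d`-invariant class modulo hit elements -/

/-- The hit elements: the span of the images of the `Sq^k`, `k > 0`. -/
noncomputable def Hit (d : ℕ) : Submodule (ZMod 2) (P d) :=
  Submodule.span (ZMod 2) {g | ∃ k, 0 < k ∧ ∃ f : P d, g = Sq d k f}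

lemma Sq_mem_Hit {d k : ℕ} (hk : 0 < k) (f : P d) : Sq d k f ∈ Hit d :=
  Submodule.subset_span ⟨k, hk, f, rfl⟩

lemma act_mem_Hit {d : ℕ} (w : Matrix (Fin d) (Fin d) (ZMod 2)) {u : P d} (hu : u ∈ Hit d) :
    act w u ∈ Hit d := by
  have : Hit d ≤ (Hit d).comap (act w).toLinearMap := by
    rw [Hit, Submodule.span_le]
    rintro g ⟨k, hk, f, rfl⟩
    simp only [Submodule.comap_coe, Set.mem_preimage, AlgHom.toLinearMap_apply, SetLike.mem_coe]
    rw [← Sq_act]
    exact Submodule.subset_span ⟨k, hk, _, rfl⟩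
  exact this hu

/-- `x` behaves like a linear form: `Sq_t x = x + t x^2`. -/
def IsLin {d : ℕ} (x : P d) : Prop :=
  SqT d x = Polynomial.C x + Polynomial.X * Polynomial.C (x ^ 2)

lemma IsLin.X {d : ℕ} (i : Fin d) : IsLin (MvPolynomial.X i : P d) := SqT_X d i

lemma IsLin.add {d : ℕ} {x y : P d} (hx : IsLin x) (hy : IsLin y) : IsLin (x + y) := by
  unfold IsLin at *
  rw [map_add, hx, hy, CharTwo.add_sq]
  simp only [map_add]
  ring

/-- Multiplication of a square of a hit element by a linear form gives a hit element. -/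
lemma hit_cons {d : ℕ} {x u : P d} (hx : IsLin x) (hu : u ∈ Hit d) : x * u ^ 2 ∈ Hit d := by
  induction hu using Submodule.span_induction with
  | mem g hg =>
      obtain ⟨k, hk, f, rfl⟩ := hg
      have : Sq d (2 * k) (x * f ^ 2) = x * (Sq d k f) ^ 2 := by
        rw [Sq_apply, map_mul, hx, map_pow (SqT d) f 2, add_mul, Polynomial.coeff_add,
          Polynomial.coeff_C_mul, coeff_sq_even, mul_assoc]
        obtain ⟨k, rfl⟩ := Nat.exists_eq_succ_of_ne_zero (Nat.pos_iff_ne_zero.1 hk)
        rw [show 2 * k.succ = (2 * k + 1) + 1 by omega, Polynomial.coeff_X_mul,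
          Polynomial.coeff_C_mul, coeff_sq_odd, mul_zero, add_zero]
        rfl
      rw [← this]
      exact Sq_mem_Hit (by omega) _
  | zero => simp
  | add a b _ _ ha hb =>
      rw [CharTwo.add_sq, mul_add]
      exact (Hit d).add_mem ha hb
  | smul c a _ ha =>
      rw [smul_pow, mul_smul_comm]
      exact (Hit d).smul_mem _ ha

lemma hit_sq1 {d : ℕ} {x y : P d} (hx : IsLin x) (hy : IsLin y) (G : P d) :
    (x * y ^ 2 + x ^ 2 * y) * G ^ 4 ∈ Hit d := by
  have h0 : (SqT d G).coeff 0 = G := Sq_zero_apply d G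
  have h1 : ((SqT d (G ^ 2)) ^ 2).coeff 0 = G ^ 4 := by
    have := coeff_sq_even (SqT d (G ^ 2)) 0
    rw [mul_zero] at this
    rw [this, map_pow]
    have := coeff_sq_even (SqT d G) 0
    rw [mul_zero] at this
    rw [this, h0]; ring
  have h2 : ((SqT d (G ^ 2)) ^ 2).coeff 1 = 0 := coeff_sq_odd _ 0
  have : Sq d 1 (x * y * (G ^ 2) ^ 2) = (x * y ^ 2 + x ^ 2 * y) * G ^ 4 := by
    rw [Sq_apply, map_mul, map_mul, hx, hy, map_pow (SqT d) (G ^ 2) 2]
    have h3 : (Polynomial.C x + Polynomial.X * Polynomial.C (x ^ 2)) *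
        (Polynomial.C y + Polynomial.X * Polynomial.C (y ^ 2)) =
        Polynomial.C (x * y) + Polynomial.X * (Polynomial.C (x * y ^ 2 + x ^ 2 * y) +
          Polynomial.X * Polynomial.C (x ^ 2 * y ^ 2)) := by
      simp only [map_mul, map_add]; ring
    rw [h3, add_mul, Polynomial.coeff_add, Polynomial.coeff_C_mul, h2, mul_zero, zero_add,
      mul_assoc, Polynomial.coeff_X_mul, Polynomial.mul_coeff_zero, h1, Polynomial.coeff_add,
      Polynomial.coeff_C_zero, Polynomial.mul_coeff_zero, Polynomial.coeff_X_zero, zero_mul,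
      add_zero]
  rw [← this]
  exact Sq_mem_Hit one_pos _

lemma hit_comm_sq1 {d : ℕ} {x y : P d} (hx : IsLin x) (hy : IsLin y) {a b : ℕ} (ha : Odd a)
    (hb : Odd b) : x ^ (a + 1) * y ^ b + x ^ a * y ^ (b + 1) ∈ Hit d := by
  obtain ⟨u, rfl⟩ := ha
  obtain ⟨v, rfl⟩ := hb
  have h : Sq d 1 ((x * y) * (x ^ u * y ^ v) ^ 2) =
      x ^ (2 * u + 1 + 1) * y ^ (2 * v + 1) + x ^ (2 * u + 1) * y ^ (2 * v + 1 + 1) := by
    rw [Sq_apply, map_mul, map_mul, hx, hy, map_pow (SqT d) (x ^ u * y ^ v) 2]
    have h3 : (Polynomial.C x + Polynomial.X * Polynomial.C (x ^ 2)) *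
        (Polynomial.C y + Polynomial.X * Polynomial.C (y ^ 2)) =
        Polynomial.C (x * y) + Polynomial.X * (Polynomial.C (x * y ^ 2 + x ^ 2 * y) +
          Polynomial.X * Polynomial.C (x ^ 2 * y ^ 2)) := by
      simp only [map_mul, map_add]; ring
    have h1 : ((SqT d (x ^ u * y ^ v)) ^ 2).coeff 0 = (x ^ u * y ^ v) ^ 2 := by
      have := coeff_sq_even (SqT d (x ^ u * y ^ v)) 0
      rw [mul_zero] at this
      rw [this]
      congr 1
      exact Sq_zero_apply d _
    have h2 : ((SqT d (x ^ u * y ^ v)) ^ 2).coeff 1 = 0 := coeff_sq_odd _ 0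
    rw [h3, add_mul, Polynomial.coeff_add, Polynomial.coeff_C_mul, h2, mul_zero, zero_add,
      mul_assoc, Polynomial.coeff_X_mul, Polynomial.mul_coeff_zero, h1, Polynomial.coeff_add,
      Polynomial.coeff_C_zero, Polynomial.mul_coeff_zero, Polynomial.coeff_X_zero, zero_mul,
      add_zero]
    ring
  rw [← h]
  exact Sq_mem_Hit one_pos _

/-- All mixed monomials `x^a y^b` with `a + b = 2^j - 1`, `a, b > 0` agree modulo hit elements. -/
lemma mixed {d : ℕ} {x y : P d} (hx : IsLin x) (hy : IsLin y) (j : ℕ) (hj : 2 ≤ j) :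
    ∀ a b a' b' : ℕ, a + b + 1 = 2 ^ j → a' + b' + 1 = 2 ^ j → 0 < a → 0 < b → 0 < a' → 0 < b' →
      x ^ a * y ^ b + x ^ a' * y ^ b' ∈ Hit d := by
  -- it suffices to compare with a fixed one
  suffices h : ∃ a₀ b₀ : ℕ, ∀ a b : ℕ, a + b + 1 = 2 ^ j → 0 < a → 0 < b →
      x ^ a * y ^ b + x ^ a₀ * y ^ b₀ ∈ Hit d by
    obtain ⟨a₀, b₀, h⟩ := h
    intro a b a' b' h1 h2 ha hb ha' hb'
    have := (Hit d).add_mem (h a b h1 ha hb) (h a' b' h2 ha' hb')
    have e : x ^ a * y ^ b + x ^ a₀ * y ^ b₀ + (x ^ a' * y ^ b' + x ^ a₀ * y ^ b₀) =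
        x ^ a * y ^ b + x ^ a' * y ^ b' + (x ^ a₀ * y ^ b₀ + x ^ a₀ * y ^ b₀) := by ring
    rwa [e, CharTwo.add_self_eq_zero, add_zero] at this
  induction j, hj using Nat.le_induction with
  | base =>
      refine ⟨1, 2, ?_⟩
      intro a b h ha hb
      have h4 : (2 : ℕ) ^ 2 = 4 := by norm_num
      rw [h4] at h
      rcases (show (a = 1 ∧ b = 2) ∨ (a = 2 ∧ b = 1) by omega) with ⟨rfl, rfl⟩ | ⟨rfl, rfl⟩
      · rw [CharTwo.add_self_eq_zero]; exact (Hit d).zero_mem
      · exact hit_comm_sq1 hx hy (a := 1) (b := 1) odd_one odd_one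
  | succ j hj ih =>
      obtain ⟨a₀, b₀, ih⟩ := ih
      have hj4 : 4 ≤ 2 ^ j := by
        calc 4 = 2 ^ 2 := by norm_num
          _ ≤ 2 ^ j := Nat.pow_le_pow_right (by norm_num) hj
      -- comparison for exponents `(2a, 2b+1)` and `(2a+1, 2b)`
      have hE : ∀ a b : ℕ, a + b + 1 = 2 ^ j → 0 < a → 0 < b →
          x ^ (2 * a) * y ^ (2 * b + 1) + x ^ (2 * a₀) * y ^ (2 * b₀ + 1) ∈ Hit d := by
        intro a b h ha hb
        have := hit_cons hy (ih a b h ha hb)
        have e : y * (x ^ a * y ^ b + x ^ a₀ * y ^ b₀) ^ 2 =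
            x ^ (2 * a) * y ^ (2 * b + 1) + x ^ (2 * a₀) * y ^ (2 * b₀ + 1) := by
          rw [CharTwo.add_sq]; ring
        rwa [e] at this
      have hO : ∀ a b : ℕ, a + b + 1 = 2 ^ j → 0 < a → 0 < b →
          x ^ (2 * a + 1) * y ^ (2 * b) + x ^ (2 * a₀ + 1) * y ^ (2 * b₀) ∈ Hit d := by
        intro a b h ha hb
        have := hit_cons hx (ih a b h ha hb)
        have e : x * (x ^ a * y ^ b + x ^ a₀ * y ^ b₀) ^ 2 =
            x ^ (2 * a + 1) * y ^ (2 * b) + x ^ (2 * a₀ + 1) * y ^ (2 * b₀) := by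
          rw [CharTwo.add_sq]; ring
        rwa [e] at this
      refine ⟨2 * a₀, 2 * b₀ + 1, ?_⟩
      have htrans : ∀ {u v w : P d}, u + v ∈ Hit d → v + w ∈ Hit d → u + w ∈ Hit d := by
        intro u v w h1 h2
        have := (Hit d).add_mem h1 h2
        have e : u + v + (v + w) = u + w + (v + v) := by ring
        rwa [e, CharTwo.add_self_eq_zero, add_zero] at this
      have hsymm : ∀ {u v : P d}, u + v ∈ Hit d → v + u ∈ Hit d := by
        intro u v h; rwa [add_comm]
      -- odd comparison element is equivalent to the even one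
      have hlink : x ^ (2 * a₀ + 1) * y ^ (2 * b₀) + x ^ (2 * a₀) * y ^ (2 * b₀ + 1) ∈ Hit d := by
        -- use exponents (3, 2^{j+1}-4) ~ (4, 2^{j+1} - 5)
        have h3 := hO 1 (2 ^ j - 2) (by omega) (by norm_num) (by omega)
        have h4 := hE 2 (2 ^ j - 3) (by omega) (by norm_num) (by omega)
        have h5 := hit_comm_sq1 hx hy (a := 3) (b := 2 * (2 ^ j - 3) + 1) (by decide) ⟨_, rfl⟩
        have e1 : 2 * (2 ^ j - 3) + 1 + 1 = 2 * (2 ^ j - 2) := by omega
        rw [e1] at h5
        exact htrans (hsymm h3) (htrans (hsymm h5) h4)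
      intro a b h ha hb
      rw [pow_succ] at h
      rcases Nat.even_or_odd' a with ⟨c, rfl | rfl⟩
      · -- a even, b odd
        obtain ⟨e, rfl⟩ : ∃ e, b = 2 * e + 1 := ⟨b / 2, by omega⟩
        rcases Nat.eq_zero_or_pos e with rfl | he
        · -- b = 1, a = 2^{j+1} - 2
          have h5 := hit_comm_sq1 hx hy (a := 2 * c - 1) (b := 1) ⟨c - 1, by omega⟩ odd_one
          have e1 : 2 * c - 1 + 1 = 2 * c := by omega
          rw [e1] at h5
          have h6 := hO (c - 1) 1 (by omega) (by omega) one_pos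
          have e2 : 2 * (c - 1) + 1 = 2 * c - 1 := by omega
          rw [e2] at h6
          exact htrans h5 (htrans h6 hlink)
        · exact hE c e (by omega) (by omega) he
      · obtain ⟨e, rfl⟩ : ∃ e, b = 2 * e := ⟨b / 2, by omega⟩
        rcases Nat.eq_zero_or_pos c with rfl | hc
        · have h5 := hit_comm_sq1 hx hy (a := 1) (b := 2 * e - 1) odd_one ⟨e - 1, by omega⟩
          have e1 : 2 * e - 1 + 1 = 2 * e := by omega
          rw [e1] at h5
          have h6 := hE 1 (e - 1) (by omega) one_pos (by omega)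
          have e2 : 2 * (e - 1) + 1 = 2 * e - 1 := by omega
          rw [e2] at h6
          exact htrans (hsymm h5) h6
        · exact htrans (hO c e (by omega) hc (by omega)) hlink

/-- `(x+y)^n ≡ x^n + y^n` modulo hit elements, for `n = 2^j - 1`, `j ≥ 2`. -/
lemma add_pow_hit {d : ℕ} {x y : P d} (hx : IsLin x) (hy : IsLin y) (j : ℕ) (hj : 2 ≤ j) :
    (x + y) ^ (2 ^ j - 1) + x ^ (2 ^ j - 1) + y ^ (2 ^ j - 1) ∈ Hit d := by
  induction j, hj using Nat.le_induction with
  | base =>
      have h2 : (2 : P d) = 0 := CharTwo.two_eq_zero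
      have h : (x + y) ^ (2 ^ 2 - 1) + x ^ (2 ^ 2 - 1) + y ^ (2 ^ 2 - 1) =
          x ^ (1 + 1) * y ^ 1 + x ^ 1 * y ^ (1 + 1) := by
        have : (x + y) ^ (2 ^ 2 - 1) + x ^ (2 ^ 2 - 1) + y ^ (2 ^ 2 - 1) =
          x ^ 2 * y ^ 1 + x ^ 1 * y ^ 2 + 
            2 * (x ^ 2 * y + x * y ^ 2 + x ^ 3 + y ^ 3) := by
          norm_num; ring
        rw [this, h2, zero_mul, add_zero]
      rw [h]
      exact hit_comm_sq1 hx hy (a := 1) (b := 1) odd_one odd_one
  | succ j hj ih =>
      have hj4 : 4 ≤ 2 ^ j := by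
        calc 4 = 2 ^ 2 := by norm_num
          _ ≤ 2 ^ j := Nat.pow_le_pow_right (by norm_num) hj
      set n := 2 ^ j - 1 with hn
      have hN : 2 ^ (j + 1) - 1 = 2 * n + 1 := by rw [pow_succ]; omega
      rw [hN]
      have h1 := hit_cons (hx.add hy) ih
      have h2 := mixed hx hy (j + 1) (by omega) 1 (2 * n) (2 * n) 1
        (by rw [pow_succ]; omega) (by rw [pow_succ]; omega) one_pos (by omega) (by omega) one_pos
      have h3 := (Hit d).add_mem h1 h2
      have e : (x + y) * ((x + y) ^ n + x ^ n + y ^ n) ^ 2 +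
          (x ^ 1 * y ^ (2 * n) + x ^ (2 * n) * y ^ 1) =
          (x + y) ^ (2 * n + 1) + x ^ (2 * n + 1) + y ^ (2 * n + 1) +
            ((x * y ^ (2 * n) + x ^ (2 * n) * y) + (x * y ^ (2 * n) + x ^ (2 * n) * y)) := by
        rw [CharTwo.add_sq, CharTwo.add_sq]; ring
      rwa [e, CharTwo.add_self_eq_zero, add_zero] at h3


/-- The polynomial `∑_{i_1 < ⋯ < i_m} x_{i_1} x_{i_2}^2 ⋯ x_{i_{m-1}}^{2^{m-2}} x_{i_m}^{2^j - 2^{m-1}}`,
for a list of elements `x_i`, defined by recursion on the list. -/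
def F {R : Type*} [CommSemiring R] : List R → ℕ → R
  | [], _ => 0
  | x :: L, j => x ^ (2 ^ j - 1) + x * (F L (j - 1)) ^ 2 + F L j

lemma F_map {R S : Type*} [CommSemiring R] [CommSemiring S] (φ : R →+* S) (L : List R) (j : ℕ) :
    F (L.map φ) j = φ (F L j) := by
  induction L generalizing j with
  | nil => simp [F]
  | cons x L ih => simp [F, ih]

lemma htrans {d : ℕ} {u v w : P d} (h1 : u + v ∈ Hit d) (h2 : v + w ∈ Hit d) : u + w ∈ Hit d := by
  have := (Hit d).add_mem h1 h2
  have e : u + v + (v + w) = u + w + (v + v) := by ring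
  rwa [e, CharTwo.add_self_eq_zero, add_zero] at this

lemma hrefl {d : ℕ} (u : P d) : u + u ∈ Hit d := by
  rw [CharTwo.add_self_eq_zero]; exact (Hit d).zero_mem

lemma F_cons_congr {d : ℕ} {x : P d} (hx : IsLin x) {L L' : List (P d)} {j : ℕ}
    (h1 : F L (j - 1) + F L' (j - 1) ∈ Hit d) (h2 : F L j + F L' j ∈ Hit d) :
    F (x :: L) j + F (x :: L') j ∈ Hit d := by
  have h3 := (Hit d).add_mem (hit_cons hx h1) h2
  have e : x * (F L (j - 1) + F L' (j - 1)) ^ 2 + (F L j + F L' j) =
      (x ^ (2 ^ j - 1) + x * (F L (j - 1)) ^ 2 + F L j) +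
      (x ^ (2 ^ j - 1) + x * (F L' (j - 1)) ^ 2 + F L' j) +
      (x ^ (2 ^ j - 1) + x ^ (2 ^ j - 1)) := by
    rw [CharTwo.add_self_eq_zero, CharTwo.add_sq, add_zero]
    have h4 : x ^ (2 ^ j - 1) + x ^ (2 ^ j - 1) = 0 := CharTwo.add_self_eq_zero _
    linear_combination (-1 : P d) * h4
  rw [e, CharTwo.add_self_eq_zero (x ^ (2 ^ j - 1)), add_zero] at h3
  exact h3

lemma F_swap {d : ℕ} {x y : P d} (hx : IsLin x) (hy : IsLin y) (L : List (P d)) {j : ℕ}
    (hj : 2 ≤ j) : F (x :: y :: L) j + F (y :: x :: L) j ∈ Hit d := by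
  obtain ⟨k, rfl⟩ := Nat.exists_eq_add_of_le' hj
  have hk : 1 ≤ 2 ^ k := Nat.one_le_two_pow
  have hmix := mixed hx hy (k + 2) (by omega) 1 (2 * (2 ^ (k + 1) - 1)) (2 * (2 ^ (k + 1) - 1)) 1
    (by rw [pow_succ, pow_succ]; omega) (by rw [pow_succ, pow_succ]; omega) one_pos
    (by rw [pow_succ]; omega) (by rw [pow_succ]; omega) one_pos
  have hs := hit_sq1 hx hy (F L k)
  have h := (Hit d).add_mem hmix hs
  have e : x ^ 1 * y ^ (2 * (2 ^ (k + 1) - 1)) + x ^ (2 * (2 ^ (k + 1) - 1)) * y ^ 1 +
      (x * y ^ 2 + x ^ 2 * y) * (F L k) ^ 4 = F (x :: y :: L) (k + 2) + F (y :: x :: L) (k + 2) := by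
    simp only [F, Nat.add_sub_cancel, show k + 2 - 1 = k + 1 by omega,
      show k + 1 - 1 = k by omega]
    rw [CharTwo.add_sq, CharTwo.add_sq, CharTwo.add_sq, CharTwo.add_sq]
    have h1 : x ^ (2 ^ (k + 2) - 1) + x ^ (2 ^ (k + 2) - 1) = 0 := CharTwo.add_self_eq_zero _
    have h2 : y ^ (2 ^ (k + 2) - 1) + y ^ (2 ^ (k + 2) - 1) = 0 := CharTwo.add_self_eq_zero _
    have h3 : F L (k + 2) + F L (k + 2) = 0 := CharTwo.add_self_eq_zero _
    have h4 : x * F L (k + 1) ^ 2 + x * F L (k + 1) ^ 2 = 0 := CharTwo.add_self_eq_zero _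
    have h5 : y * F L (k + 1) ^ 2 + y * F L (k + 1) ^ 2 = 0 := CharTwo.add_self_eq_zero _
    linear_combination (-1 : P d) * h1 + (-1 : P d) * h2 + (-1 : P d) * h3 + (-1 : P d) * h4 +
      (-1 : P d) * h5
  rwa [e] at h

lemma F_perm {d : ℕ} {L L' : List (P d)} (h : L.Perm L') :
    ∀ (j : ℕ), L.length ≤ j → (∀ x ∈ L, IsLin x) → F L j + F L' j ∈ Hit d := by
  induction h with
  | nil => intro j _ _; exact hrefl _
  | cons x _ ih =>
      intro j hj hL
      rw [List.length_cons] at hj
      exact F_cons_congr (hL x List.mem_cons_self)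
        (ih (j - 1) (by omega) (fun y hy => hL y (List.mem_cons_of_mem _ hy)))
        (ih j (by omega) (fun y hy => hL y (List.mem_cons_of_mem _ hy)))
  | swap x y l =>
      intro j hj hL
      simp only [List.length_cons] at hj
      exact F_swap (hL y (by simp)) (hL x (by simp)) l (by omega)
  | trans h1 _ ih1 ih2 =>
      intro j hj hL
      refine htrans (ih1 j hj hL) (ih2 j ?_ ?_)
      · rw [← h1.length_eq]; exact hj
      · intro x hx; exact hL x (h1.mem_iff.2 hx)

lemma F_end {d : ℕ} {x y : P d} (hx : IsLin x) (hy : IsLin y) (L : List (P d))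
    (hL : ∀ z ∈ L, IsLin z) : ∀ j, L.length + 2 ≤ j →
    F (L ++ [x + y, y]) j + F (L ++ [x, y]) j ∈ Hit d := by
  induction L with
  | nil =>
      intro j hj
      simp only [List.length_nil, zero_add] at hj
      have h := add_pow_hit hx hy j hj
      have e : (x + y) ^ (2 ^ j - 1) + x ^ (2 ^ j - 1) + y ^ (2 ^ j - 1) =
          F ([] ++ [x + y, y]) j + F ([] ++ [x, y]) j := by
        simp only [List.nil_append, F, add_zero]
        have h1 : y * (y ^ (2 ^ (j - 1) - 1)) ^ 2 = y ^ (2 ^ j - 1) := by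
          rw [← pow_mul, ← pow_succ']
          congr 1
          obtain ⟨k, rfl⟩ := Nat.exists_eq_add_of_le' hj
          have hk : 1 ≤ 2 ^ k := Nat.one_le_two_pow
          rw [show k + 2 - 1 = k + 1 by omega, pow_succ, pow_succ, pow_succ]
          omega
        have h2 : y ^ (2 ^ j - 1) + y ^ (2 ^ j - 1) = 0 := CharTwo.add_self_eq_zero _
        have h3 : x * (y ^ (2 ^ (j - 1) - 1) + y * 0 ^ 2) ^ 2 +
          x * (y ^ (2 ^ (j - 1) - 1) + y * 0 ^ 2) ^ 2 = 0 := CharTwo.add_self_eq_zero _
        have h4 : (x + y) ^ (2 ^ j - 1) + (x + y) * (y ^ (2 ^ (j - 1) - 1) + y * 0 ^ 2) ^ 2 +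
            (y ^ (2 ^ j - 1) + y * 0 ^ 2) +
            (x ^ (2 ^ j - 1) + x * (y ^ (2 ^ (j - 1) - 1) + y * 0 ^ 2) ^ 2 +
            (y ^ (2 ^ j - 1) + y * 0 ^ 2)) =
            (x + y) ^ (2 ^ j - 1) + x ^ (2 ^ j - 1) + y * (y ^ (2 ^ (j - 1) - 1)) ^ 2 +
            (x * (y ^ (2 ^ (j - 1) - 1) + y * 0 ^ 2) ^ 2 +
              x * (y ^ (2 ^ (j - 1) - 1) + y * 0 ^ 2) ^ 2) + 
              (y ^ (2 ^ j - 1) + y ^ (2 ^ j - 1)) := by ring
        rw [h4, h1, h3, h2, add_zero, add_zero]
      rwa [e] at h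
  | cons z L ih =>
      intro j hj
      rw [List.length_cons] at hj
      have hL' : ∀ w ∈ L, IsLin w := fun w hw => hL w (List.mem_cons_of_mem _ hw)
      exact F_cons_congr (hL z List.mem_cons_self) (ih hL' (j - 1) (by omega))
        (ih hL' j (by omega))

/-- the list of variables. -/
noncomputable def vars (d : ℕ) : List (P d) := (List.finRange d).map X

lemma vars_length (d : ℕ) : (vars d).length = d := by simp [vars]

lemma vars_isLin (d : ℕ) : ∀ x ∈ vars d, IsLin x := by
  intro x hx
  simp only [vars, List.mem_map] at hx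
  obtain ⟨i, _, rfl⟩ := hx
  exact IsLin.X i

lemma F_vars_transvection {d j : ℕ} (hj : d ≤ j) {a b : Fin d} (hab : a ≠ b) (c : ZMod 2) :
    act (Matrix.transvection a b c) (F (vars d) j) + F (vars d) j ∈ Hit d := by
  classical
  rcases (show c = 0 ∨ c = 1 by revert c; decide) with rfl | rfl
  · rw [Matrix.transvection_zero, act_one]; exact hrefl _
  -- reorder the list of variables as (others) ++ [X b, X a]
  set l : List (Fin d) := (List.finRange d).filter (fun i => i ≠ a ∧ i ≠ b) with hl
  have hperm : (List.finRange d).Perm (l ++ [b, a]) := by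
    rw [List.perm_ext_iff_of_nodup (List.nodup_finRange d)]
    · intro i
      simp only [List.mem_finRange, true_iff, List.mem_append, hl, List.mem_filter,
        List.mem_cons, List.not_mem_nil, or_false, true_and, decide_eq_true_eq]
      tauto
    · rw [List.nodup_append]
      refine ⟨(List.nodup_finRange d).filter _, by simp [hab.symm], ?_⟩
      intro i hi j hj
      simp only [hl, List.mem_filter, decide_eq_true_eq] at hi
      simp only [List.mem_cons, List.not_mem_nil, or_false] at hj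
      rcases hj with rfl | rfl
      · exact hi.2.2
      · exact hi.2.1
  have hlen : l.length + 2 = d := by
    have := hperm.length_eq
    simpa using this.symm
  set φ : P d →+* P d := (act (Matrix.transvection a b (1 : ZMod 2)) : P d →+* P d) with hφ
  have h1 : act (Matrix.transvection a b (1 : ZMod 2)) (F (vars d) j) = F ((vars d).map φ) j := by
    rw [F_map]; rfl
  have h2 : ((vars d).map φ).Perm ((l.map X) ++ [X b + X a, X a]) := by
    rw [vars, List.map_map]
    have h3 := hperm.map (fun i => φ (X i : P d))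
    rw [List.map_append] at h3
    have h4 : l.map (fun i => φ (X i : P d)) = l.map X := by
      refine List.map_congr_left fun i hi => ?_
      simp only [hl, List.mem_filter, decide_eq_true_eq] at hi
      simp only [hφ, RingHom.coe_coe]
      rw [act_transvection_X, if_neg hi.2.2, add_zero]
    have h5 : [b, a].map (fun i => φ (X i : P d)) = [X b + X a, X a] := by
      simp only [List.map_cons, List.map_nil, hφ, RingHom.coe_coe]
      rw [act_transvection_X, act_transvection_X, if_pos rfl, if_neg hab, map_one, one_mul,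
        add_zero]
    rw [h4, h5] at h3
    exact h3
  have h6 : (vars d).Perm ((l.map X) ++ [X b, X a]) := by
    have h3 := hperm.map (fun i => (X i : P d))
    rw [List.map_append] at h3
    exact h3
  have hlin1 : ∀ x ∈ (vars d).map φ, IsLin x := by
    intro x hx
    have := h2.mem_iff.1 hx
    simp only [List.mem_append, List.mem_map, List.mem_cons, List.not_mem_nil, or_false] at this
    rcases this with ⟨i, _, rfl⟩ | rfl | rfl
    · exact IsLin.X i
    · exact (IsLin.X b).add (IsLin.X a)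
    · exact IsLin.X a
  rw [h1]
  have s1 := F_perm h2 j (by rw [List.length_map, vars_length]; exact hj) hlin1
  have s2 := F_end (IsLin.X b) (IsLin.X a) (l.map X)
    (by intro z hz; rw [List.mem_map] at hz; obtain ⟨i, _, rfl⟩ := hz; exact IsLin.X i) j
    (by rw [List.length_map]; omega)
  have s3 := F_perm h6 j (by rw [vars_length]; exact hj) (vars_isLin d)
  rw [add_comm] at s3
  exact htrans s1 (htrans s2 s3)

/-- `F (vars d) j` is `GL_d(F_2)`-invariant modulo hit elements when `j ≥ d`. -/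
lemma F_vars_invariant {d j : ℕ} (hj : d ≤ j) (w : Matrix (Fin d) (Fin d) (ZMod 2))
    (hw : w.det ≠ 0) : act w (F (vars d) j) + F (vars d) j ∈ Hit d := by
  refine Matrix.diagonal_transvection_induction_of_det_ne_zero
    (fun w => act w (F (vars d) j) + F (vars d) j ∈ Hit d) w hw ?_ ?_ ?_
  · intro D hD
    have hD1 : D = 1 := by
      funext i
      rw [Matrix.det_diagonal] at hD
      have h := (Finset.prod_ne_zero_iff.1 hD) i (Finset.mem_univ i)
      revert h
      generalize D i = x
      revert x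
      simp only [Pi.one_apply]
      decide
    rw [hD1, show (Matrix.diagonal (1 : Fin d → ZMod 2)) = 1 from Matrix.diagonal_one, act_one]
    exact hrefl _
  · intro t
    exact F_vars_transvection hj t.hij t.c
  · intro A B _ _ hA hB
    rw [act_mul]
    have h1 := act_mem_Hit A hB
    rw [map_add] at h1
    exact htrans h1 hA

/-! ### The coefficient of the spike in `F` -/

lemma F_single {R : Type*} [CommSemiring R] {d : ℕ} (i₀ : Fin d) (T : R) :
    ∀ (l : List (Fin d)), l.Nodup → ∀ j, l.length ≤ j →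
      F (l.map (fun i => if i = i₀ then T else 0)) j =
        if i₀ ∈ l then T ^ (2 ^ j - 1) else 0 := by
  intro l
  induction l with
  | nil => intro _ j _; simp [F]
  | cons i l ih =>
      intro hl j hj
      rw [List.nodup_cons] at hl
      rw [List.length_cons] at hj
      rw [List.map_cons, F, ih hl.2 (j - 1) (by omega), ih hl.2 j (by omega)]
      have hj2 : 2 ^ j - 1 ≠ 0 := by
        have : 2 ≤ 2 ^ j := by
          calc 2 = 2 ^ 1 := by norm_num
            _ ≤ 2 ^ j := Nat.pow_le_pow_right (by norm_num) (by omega)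
        omega
      by_cases hi : i = i₀
      · subst hi
        simp [hl.1]
      · rw [if_neg hi, zero_pow hj2, zero_mul, zero_add, zero_add]
        have : (i₀ ∈ i :: l) ↔ i₀ ∈ l := by
          rw [List.mem_cons]
          constructor
          · rintro (h | h)
            · exact absurd h.symm hi
            · exact h
          · exact Or.inr
        simp only [this]

lemma coeff_single_eq {d : ℕ} (i₀ : Fin d) (n : ℕ) (f : P d) :
    coeff (Finsupp.single i₀ n) f =
      (aeval (fun i => if i = i₀ then (Polynomial.X : Polynomial (ZMod 2)) else 0) f).coeff n := by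
  induction f using MvPolynomial.induction_on' with
  | add p q hp hq => rw [coeff_add, map_add, Polynomial.coeff_add, hp, hq]
  | monomial t a =>
      rw [aeval_monomial, coeff_monomial]
      have h1 : (t.prod fun i k => (if i = i₀ then (Polynomial.X : Polynomial (ZMod 2)) else 0) ^ k) =
          if (∀ i, i ≠ i₀ → t i = 0) then Polynomial.X ^ (t i₀) else 0 := by
        rw [Finsupp.prod_fintype _ _ (by simp)]
        split_ifs with h
        · rw [← Finset.mul_prod_erase _ _ (Finset.mem_univ i₀), if_pos rfl,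
            Finset.prod_eq_one, mul_one]
          intro i hi
          rw [h i (Finset.ne_of_mem_erase hi), pow_zero]
        · push Not at h
          obtain ⟨i, hi, hti⟩ := h
          apply Finset.prod_eq_zero (Finset.mem_univ i)
          rw [if_neg hi, zero_pow hti]
      rw [h1]
      split_ifs with h2 h3 h3
      · subst h2
        rw [Finsupp.single_eq_same]
        simp [Polynomial.algebraMap_eq]
      · exfalso
        apply h3
        intro i hi
        rw [h2, Finsupp.single_apply, if_neg (fun h => hi h.symm)]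
      · rw [Polynomial.algebraMap_eq, Polynomial.coeff_C_mul, Polynomial.coeff_X_pow, if_neg,
          mul_zero]
        intro h4
        apply h2
        ext i
        rw [Finsupp.single_apply]
        split_ifs with h5
        · rw [← h5, h4]
        · rw [h3 i (fun h => h5 h.symm)]
      · simp

lemma coeff_F_vars {d j : ℕ} (hj : d ≤ j) (i₀ : Fin d) :
    coeff (Finsupp.single i₀ (2 ^ j - 1)) (F (vars d) j) = 1 := by
  rw [coeff_single_eq]
  have h1 := F_map
    ((aeval (fun i => if i = i₀ then (Polynomial.X : Polynomial (ZMod 2)) else 0) :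
      P d →ₐ[ZMod 2] Polynomial (ZMod 2)) : P d →+* Polynomial (ZMod 2)) (vars d) j
  have h2 : (vars d).map ((aeval (fun i => if i = i₀ then (Polynomial.X : Polynomial (ZMod 2)) else 0) :
      P d →ₐ[ZMod 2] Polynomial (ZMod 2)) : P d →+* Polynomial (ZMod 2)) =
      (List.finRange d).map (fun i => if i = i₀ then (Polynomial.X : Polynomial (ZMod 2)) else 0) := by
    rw [vars, List.map_map]
    refine List.map_congr_left fun i _ => ?_
    simp
  rw [h2, F_single i₀ _ _ (List.nodup_finRange d) j (by simpa using hj), if_pos (List.mem_finRange i₀)] at h1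
  rw [RingHom.coe_coe] at h1
  rw [← h1]
  simp

/-! ### The main theorem -/

/-- For every `d ≥ 5` and every `j ≥ d`, Kameko's squaring operation
`F_2 ⊗_{GL_d} PH_n → F_2 ⊗_{GL_d} PH_{d+2n}` is not injective in the positive degree
`n = 2^j - 1`. -/
theorem notInjective_ge_five (d : ℕ) (hd : 5 ≤ d) (j : ℕ) (hj : d ≤ j) : NotInjective d (2 ^ j - 1) := by
  set n : ℕ := 2 ^ j - 1 with hn
  have h2j : 1 ≤ 2 ^ j := Nat.one_le_two_pow
  have h4 : 4 < d := by omega
  let i₄ : Fin d := ⟨4, h4⟩
  refine ⟨lcoeff (ZMod 2) (Finsupp.single i₄ n), ?_, ?_, ?_⟩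
  · -- the element `a_5^{(n)}` is primitive
    have := spike_mem (d := d) (Finsupp.single i₄ n) (by
      intro i
      rw [Finsupp.single_apply]
      split_ifs
      · exact ⟨j, by omega⟩
      · exact ⟨0, rfl⟩)
    rwa [Finsupp.degree_single] at this
  · -- its class is nonzero
    intro hθ
    have hker : Aug d n ≤ LinearMap.ker (LinearMap.applyₗ (F (vars d) j) :
        Module.Dual (ZMod 2) (P d) →ₗ[ZMod 2] ZMod 2) := by
      rw [Aug, Submodule.span_le]
      rintro ψ ⟨g, φ, hφ, rfl⟩
      simp only [SetLike.mem_coe, LinearMap.mem_ker, LinearMap.applyₗ_apply_apply]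
      have h1 : (φ ∘ₗ (act (g : Matrix (Fin d) (Fin d) (ZMod 2))).toLinearMap - φ) (F (vars d) j) =
          φ (act (g : Matrix (Fin d) (Fin d) (ZMod 2)) (F (vars d) j) + F (vars d) j) := by
        rw [map_add, LinearMap.sub_apply, CharTwo.sub_eq_add]
        rfl
      rw [h1]
      have h2 := F_vars_invariant hj (g : Matrix (Fin d) (Fin d) (ZMod 2)) (det_ne_zero g)
      -- primitive elements vanish on hit elements
      have h3 : Hit d ≤ LinearMap.ker φ := by
        rw [Hit, Submodule.span_le]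
        rintro _ ⟨k, hk, f, rfl⟩
        exact hφ.kills k hk f
      exact h3 h2
    have h5 := hker hθ
    rw [LinearMap.mem_ker, LinearMap.applyₗ_apply_apply, lcoeff_apply, coeff_F_vars hj i₄] at h5
    exact one_ne_zero h5
  · -- its image vanishes
    have h1 := step3 hd (2 * n + 1) (M := d + 2 * n) (by omega) ⟨j + 1, by rw [pow_succ]; omega⟩
    have h2 : (lcoeff (ZMod 2) (Finsupp.single i₄ n)) ∘ₗ kappa d = q d (2 * n + 1) 1 1 1 1 := by
      rw [kameko_dual_basis, q]
      congr 1
      ext i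
      simp only [Finsupp.add_apply, Finsupp.smul_apply, Finsupp.single_apply, ex_apply,
        Finsupp.equivFunOnFinite_symm_apply_apply, i₄, Fin.ext_iff]
      split_ifs <;> simp_all
    rw [h2]; exact h1

end Pool.Agent.helper69.Kam
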