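import Pool.Agent.helper69.Kam.CaseII
import Pool.Agent.helper69.Kam.Tables

set_option autoImplicit false

open MvPolynomial

namespace Pool.Agent.helper69.Kam

/-! ### Linear functionals encoded by masks -/

/-- the sum of the values selected by a mask. -/
def ev1 (u : ℕ → ZMod 2) (m : ℕ) : ZMod 2 :=
  ∑ S ∈ Finset.range 64, if m.testBit S then u S else 0

/-- the sum of the values selected by a mask with four blocks. -/
def ev2 (u : Fin 4 → ℕ → ZMod 2) (M : ℕ) : ZMod 2 :=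
  ∑ i : Fin 4, ∑ S ∈ Finset.range 64, if M.testBit (64 * (i : ℕ) + S) then u i S else 0

lemma ite_xor (x y : Bool) (u : ZMod 2) :
    (if (x ^^ y) = true then u else 0) = (if x = true then u else 0) + (if y = true then u else 0) := by
  cases x <;> cases y <;> simp [CharTwo.add_self_eq_zero]

lemma ev1_xor (u : ℕ → ZMod 2) (a b : ℕ) : ev1 u (a ^^^ b) = ev1 u a + ev1 u b := by
  simp only [ev1, Nat.testBit_xor, ite_xor, Finset.sum_add_distrib]

lemma ev2_xor (u : Fin 4 → ℕ → ZMod 2) (a b : ℕ) : ev2 u (a ^^^ b) = ev2 u a + ev2 u b := by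
  simp only [ev2, Nat.testBit_xor, ite_xor, Finset.sum_add_distrib]

lemma ev1_zero (u : ℕ → ZMod 2) : ev1 u 0 = 0 := by simp [ev1]

lemma ev2_zero (u : Fin 4 → ℕ → ZMod 2) : ev2 u 0 = 0 := by simp [ev2]

lemma ev1_bit (u : ℕ → ZMod 2) {S : ℕ} (hS : S < 64) : ev1 u (2 ^ S) = u S := by
  rw [ev1, Finset.sum_eq_single S]
  · simp
  · intro T _ hT
    rw [Nat.testBit_two_pow, if_neg]
    simpa using Ne.symm hT
  · intro h
    exact absurd (Finset.mem_range.2 hS) h

lemma ev2_shift (u : Fin 4 → ℕ → ZMod 2) (i : Fin 4) {m : ℕ} (hm : m < 2 ^ 64) :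
    ev2 u (m <<< (64 * (i : ℕ))) = ev1 (u i) m := by
  rw [ev2, Finset.sum_eq_single i]
  · rw [ev1]
    refine Finset.sum_congr rfl fun S _ => ?_
    rw [Nat.testBit_shiftLeft]
    have h1 : decide (64 * (i : ℕ) + S ≥ 64 * (i : ℕ)) = true := by simp
    rw [h1, Bool.true_and, Nat.add_sub_cancel_left]
  · intro j _ hji
    apply Finset.sum_eq_zero
    intro S hS
    rw [Finset.mem_range] at hS
    rw [Nat.testBit_shiftLeft, if_neg]
    rw [Bool.and_eq_true, decide_eq_true_eq]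
    rintro ⟨h1, h2⟩
    have hne : (j : ℕ) ≠ i := fun h => hji (Fin.ext h)
    have hlt : (i : ℕ) < j := by omega
    have h3 : 64 ≤ 64 * (j : ℕ) + S - 64 * (i : ℕ) := by omega
    have h4 : m < 2 ^ (64 * (j : ℕ) + S - 64 * (i : ℕ)) :=
      lt_of_lt_of_le hm (Nat.pow_le_pow_right (by norm_num) h3)
    rw [Nat.testBit_lt_two_pow h4] at h2
    exact absurd h2 (by simp)
  · intro h
    exact absurd (Finset.mem_univ i) h

lemma ev2_bit (u : Fin 4 → ℕ → ZMod 2) (i : Fin 4) {S : ℕ} (hS : S < 64) :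
    ev2 u (Ub i S) = u i S := by
  have h : Ub i S = (2 ^ S) <<< (64 * (i : ℕ)) := by
    rw [Ub, Nat.shiftLeft_eq, ← pow_add, add_comm]
  rw [h, ev2_shift u i (Nat.pow_lt_pow_right (by norm_num) hS), ev1_bit _ hS]

lemma ev1_sel (u : ℕ → ZMod 2) (L : List ℕ) (hL : ∀ a ∈ L, ev1 u a = 0) :
    ∀ t, ev1 u (xorSel L t) = 0 := by
  induction L with
  | nil => intro t; exact ev1_zero u
  | cons a L ih =>
      intro t
      rw [xorSel, ev1_xor, ih (fun b hb => hL b (List.mem_cons_of_mem _ hb)), add_zero]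
      split_ifs
      · exact hL a List.mem_cons_self
      · exact ev1_zero u

lemma ev2_sel (u : Fin 4 → ℕ → ZMod 2) (L : List ℕ) (hL : ∀ a ∈ L, ev2 u a = 0) :
    ∀ t, ev2 u (xorSel L t) = 0 := by
  induction L with
  | nil => intro t; exact ev2_zero u
  | cons a L ih =>
      intro t
      rw [xorSel, ev2_xor, ih (fun b hb => hL b (List.mem_cons_of_mem _ hb)), add_zero]
      split_ifs
      · exact hL a List.mem_cons_self
      · exact ev2_zero u

lemma ev1_CmR (u : ℕ → ZMod 2) (c n : ℕ) :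
    ev1 u (CmR c n) = ∑ k ∈ Finset.range n, if sup k &&& c = c then ev1 u (Dm k) else 0 := by
  induction n with
  | zero => rw [CmR, ev1_zero, Finset.range_zero, Finset.sum_empty]
  | succ n ih =>
      have h : ev1 u (if sup n &&& c = c then Dm n else 0) =
          if sup n &&& c = c then ev1 u (Dm n) else 0 := by
        split_ifs
        · rfl
        · exact ev1_zero u
      rw [CmR, ev1_xor, ih, Finset.sum_range_succ, h]

/-! ### The third contractions -/

/-- the quadratic monomial of an edge. -/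
noncomputable def px (p : Fin 6) : P 4 := X (ea p) * X (eb p)

lemma px_eI {a b : Fin 4} (h : a ≠ b) : px (eI a b) = X a * X b := by
  rcases eI_ea a b h with ⟨h1, h2⟩ | ⟨h1, h2⟩
  · rw [px, h1, h2]
  · rw [px, h1, h2, mul_comm]

/-- the third contractions. -/
noncomputable def gg (θ : Du 4) (p q r : Fin 6) : Du 4 := tw (px r) (tw (px q) (tw (px p) θ))

lemma pureL_lt : ∀ m ∈ pureL, m < 2 ^ 64 := by decide +kernel

section caseI

variable {M N N' N'' : ℕ} {θ : Du 4} (hθ : IsPrim 4 M θ) (hM : M = 2 + 2 * N)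
  (hN : N = 2 + 2 * N') (hN' : N' = 2 + 2 * N'') (h0 : 0 < N'')

include hθ hM

lemma gam_isPrim (p : Fin 6) : IsPrim 4 N (tw (px p) θ) := hθ.tw2 hM _ _

include hN

lemma gam2_isPrim (p q : Fin 6) : IsPrim 4 N' (tw (px q) (tw (px p) θ)) :=
  (gam_isPrim hθ hM p).tw2 hN _ _

include hN'

lemma gg_isPrim (p q r : Fin 6) : IsPrim 4 N'' (gg θ p q r) :=
  (gam2_isPrim hθ hM hN p q).tw2 hN' _ _

lemma gg_s12 (p q r : Fin 6) : gg θ p q r = gg θ q p r := by
  have h := tw_symm hθ hM (by omega) (ea p) (eb p) (ea q) (eb q)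
  exact congrArg (tw (px r)) h

lemma gg_s23 (p q r : Fin 6) : gg θ p q r = gg θ p r q := by
  rw [gg, gg]
  exact tw_symm (gam_isPrim hθ hM p) hN (by omega) _ _ _ _

omit hN hN' in
/-- relation (C). -/
lemma rel_C2 (a b c : Fin 4) (f : P 4) :
    tw (X b * X c) (tw (X b * X c) θ) (X a * f) + tw (X a * X c) (tw (X a * X c) θ) (X b * f) +
      tw (X a * X b) (tw (X a * X b) θ) (X c * f) = 0 := by
  have h := hθ.relT a b c (X a * X b * X c * f ^ 2)
  rw [tw_tw_apply, tw_tw_apply, tw_tw_apply,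
    show X b * X c * (X a * f) ^ 2 = X a * (X a * X b * X c * f ^ 2) by ring,
    show X a * X c * (X b * f) ^ 2 = X b * (X a * X b * X c * f ^ 2) by ring,
    show X a * X b * (X c * f) ^ 2 = X c * (X a * X b * X c * f ^ 2) by ring]
  exact h

omit hN hN' hM in
/-- relation (D). -/
lemma rel_D (a b c d : Fin 4) (f : P 4) :
    tw (X b * X c) θ (X a * X b * X c * X d * f ^ 2) =
      tw (X c * X d) (tw (X a * X c) θ) (X b * f) + tw (X b * X d) (tw (X a * X b) θ) (X c * f) := by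
  have h := hθ.relT a b c (X b * X c * X d * f ^ 2)
  rw [tw_tw_apply, tw_tw_apply,
    show X c * X d * (X b * f) ^ 2 = X b * (X b * X c * X d * f ^ 2) by ring,
    show X b * X d * (X c * f) ^ 2 = X c * (X b * X c * X d * f ^ 2) by ring,
    show X a * X b * X c * X d * f ^ 2 = X a * (X b * X c * X d * f ^ 2) by ring]
  rw [add_assoc] at h
  exact CharTwo.add_eq_zero.1 h

/-- adjacent edges: `g(p,p,q) = g(q,q,p)`. -/
lemma gg_adj {a b c : Fin 4} (hab : a ≠ b) (hac : a ≠ c) :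
    gg θ (eI a c) (eI a c) (eI a b) = gg θ (eI a b) (eI a b) (eI a c) := by
  apply du_eq_of_add
  apply LinearMap.ext
  intro f
  have h := rel_C2 hθ hM a b c (X a * f ^ 2)
  have hz : tw (X b * X c) (tw (X b * X c) θ) (X a * (X a * f ^ 2)) = 0 := by
    rw [show X a * (X a * f ^ 2) = (X a * f) ^ 2 by ring]
    exact (((hθ.tw2 hM b c).tw2 hN b c)).sq (by omega) _
  rw [hz, zero_add] at h
  rw [LinearMap.add_apply, gg, gg, px_eI hab, px_eI hac,
    tw_tw_apply (X a * X b) (X a * X c) (tw (X a * X c) θ) f,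
    tw_tw_apply (X a * X c) (X a * X b) (tw (X a * X b) θ) f,
    show X a * X b * f ^ 2 = X b * (X a * f ^ 2) by ring,
    show X a * X c * f ^ 2 = X c * (X a * f ^ 2) by ring]
  exact h

/-- relation F3. -/
lemma gg_F3 {a b c d : Fin 4} (hab : a ≠ b) (hac : a ≠ c) (had : a ≠ d) (hbc : b ≠ c)
    (hbd : b ≠ d) (hcd : c ≠ d) :
    gg θ (eI b c) (eI b c) (eI a d) + gg θ (eI a c) (eI a c) (eI b d) +
      gg θ (eI a b) (eI a b) (eI c d) = 0 := by
  apply LinearMap.ext
  intro f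
  have h := rel_C2 hθ hM a b c (X d * f ^ 2)
  rw [LinearMap.add_apply, LinearMap.add_apply, gg, gg, gg, px_eI hbc, px_eI had, px_eI hac,
    px_eI hbd, px_eI hab, px_eI hcd, tw_apply, tw_apply (X b * X d), tw_apply (X c * X d),
    mul_assoc (X a), mul_assoc (X b), mul_assoc (X c)]
  exact h

/-- relation T on the third index. -/
lemma gg_T {a b c : Fin 4} (hab : a ≠ b) (hac : a ≠ c) (hbc : b ≠ c) (p q : Fin 6) (f : P 4) :
    gg θ p q (eI b c) (X a * f) + gg θ p q (eI a c) (X b * f) + gg θ p q (eI a b) (X c * f) = 0 := by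
  rw [gg, gg, gg, px_eI hbc, px_eI hac, px_eI hab]
  exact (gam2_isPrim hθ hM hN p q).relT a b c f

include h0

/-- disjoint edges: `g(p,p,q) = g(q,q,p)`. -/
lemma gg_disj {a b c d : Fin 4} (hab : a ≠ b) (hac : a ≠ c) (had : a ≠ d) (hbc : b ≠ c)
    (hbd : b ≠ d) (hcd : c ≠ d) :
    gg θ (eI a b) (eI a b) (eI c d) = gg θ (eI c d) (eI c d) (eI a b) := by
  have esym : ∀ x y : Fin 4, eI x y = eI y x := by decide
  -- the defects are independent of the matching
  have E1 : ∀ a b c d : Fin 4, a ≠ b → a ≠ c → a ≠ d → b ≠ c → b ≠ d → c ≠ d → ∀ f,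
      gg θ (eI a c) (eI a c) (eI b d) f + gg θ (eI b d) (eI b d) (eI a c) f =
      gg θ (eI a b) (eI a b) (eI c d) f + gg θ (eI c d) (eI c d) (eI a b) f := by
    intro a b c d hab hac had hbc hbd hcd f
    have h1 := LinearMap.congr_fun (gg_F3 hθ hM hN hN' hab hac had hbc hbd hcd) f
    have h2 := LinearMap.congr_fun (gg_F3 hθ hM hN hN' (a := b) (b := c) (c := d) (d := a) hbc hbd
      (Ne.symm hab) hcd (Ne.symm hac) (Ne.symm had)) f
    rw [esym b a, esym c a, esym d a] at h2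
    simp only [LinearMap.add_apply, LinearMap.zero_apply] at h1 h2
    revert h1 h2
    generalize gg θ (eI b c) (eI b c) (eI a d) f = x1
    generalize gg θ (eI a c) (eI a c) (eI b d) f = x2
    generalize gg θ (eI a b) (eI a b) (eI c d) f = x3
    generalize gg θ (eI c d) (eI c d) (eI a b) f = x4
    generalize gg θ (eI b d) (eI b d) (eI a c) f = x5
    revert x1 x2 x3 x4 x5
    decide
  -- vanishing on the multiples of `x_a`
  have E2 : ∀ a b c d : Fin 4, a ≠ b → a ≠ c → a ≠ d → b ≠ c → b ≠ d → c ≠ d → ∀ f,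
      gg θ (eI a b) (eI a b) (eI c d) (X a * f) + gg θ (eI c d) (eI c d) (eI a b) (X a * f) = 0 := by
    intro a b c d hab hac had hbc hbd hcd f
    have t1 := gg_T hθ hM hN hN' hab hac hbc (eI a d) (eI a d) f
    have t2 := gg_T hθ hM hN hN' hab had hbd (eI a c) (eI a c) f
    have t3 := gg_T hθ hM hN hN' hac had hcd (eI a b) (eI a b) f
    -- adjacency
    have a1 : gg θ (eI a c) (eI a c) (eI a d) = gg θ (eI a d) (eI a d) (eI a c) :=
      gg_adj hθ hM hN hN' had hac
    have a2 : gg θ (eI a b) (eI a b) (eI a d) = gg θ (eI a d) (eI a d) (eI a b) :=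
      gg_adj hθ hM hN hN' had hab
    have a3 : gg θ (eI a b) (eI a b) (eI a c) = gg θ (eI a c) (eI a c) (eI a b) :=
      gg_adj hθ hM hN hN' hac hab
    rw [a1] at t2
    rw [a2, a3] at t3
    have s1 := LinearMap.congr_fun (gg_F3 hθ hM hN hN' (a := b) (b := c) (c := d) (d := a) hbc hbd
      (Ne.symm hab) hcd (Ne.symm hac) (Ne.symm had)) (X a * f)
    rw [esym b a, esym c a, esym d a] at s1
    have s2 := E1 a b c d hab hac had hbc hbd hcd (X a * f)
    have s3 := E1 a b d c hab had hac hbd hbc (Ne.symm hcd) (X a * f)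
    rw [esym d c] at s3
    simp only [LinearMap.add_apply, LinearMap.zero_apply] at s1
    revert t1 t2 t3 s1 s2 s3
    generalize gg θ (eI a d) (eI a d) (eI b c) (X a * f) = y1
    generalize gg θ (eI a d) (eI a d) (eI a c) (X b * f) = y2
    generalize gg θ (eI a d) (eI a d) (eI a b) (X c * f) = y3
    generalize gg θ (eI a c) (eI a c) (eI b d) (X a * f) = y4
    generalize gg θ (eI a c) (eI a c) (eI a b) (X d * f) = y5
    generalize gg θ (eI a b) (eI a b) (eI c d) (X a * f) = y6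
    generalize gg θ (eI c d) (eI c d) (eI a b) (X a * f) = y7
    generalize gg θ (eI b d) (eI b d) (eI a c) (X a * f) = y8
    generalize gg θ (eI b c) (eI b c) (eI a d) (X a * f) = y9
    intro t1 t2 t3 s1 s2 s3
    have h2 : (2 : ZMod 2) = 0 := by decide
    linear_combination t1 + t2 + t3 + s1 + s2 + s3 -
      (y2 + y3 + y5 + y1 + y4 - y6 - y7 + y8 + y9) * h2
  apply du_eq_of_add
  apply ext_X
  · intro i f
    rw [LinearMap.add_apply, LinearMap.zero_apply]
    rcases cover4 hab hac had hbc hbd hcd i with rfl | rfl | rfl | rfl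
    · exact E2 i b c d hab hac had hbc hbd hcd f
    · have := E2 i a c d (Ne.symm hab) hbc hbd hac had hcd f
      rwa [esym i a] at this
    · have := E2 i d a b hcd (Ne.symm hac) (Ne.symm hbc) (Ne.symm had) (Ne.symm hbd) hab f
      rwa [add_comm] at this
    · have := E2 i c a b (Ne.symm hcd) (Ne.symm had) (Ne.symm hbd) (Ne.symm hac) (Ne.symm hbc) hab f
      rwa [add_comm, esym i c] at this
  · rw [LinearMap.zero_apply]
    exact ((gg_isPrim hθ hM hN hN' _ _ _).add (gg_isPrim hθ hM hN hN' _ _ _)).degree 0 (by omega) 1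
      (isHomogeneous_one _ _)

/-- `g(p,p,q) = g(p,q,q)` for all edges. -/
lemma gg_V (p q : Fin 6) : gg θ p p q = gg θ p q q := by
  have h1 : gg θ p q q = gg θ q q p := by
    rw [gg_s12 hθ hM hN hN', gg_s23 hθ hM hN hN']
  rw [h1]
  -- the relative position of two edges
  have key : ∀ p q : Fin 6, p = q ∨
      (∃ a b c : Fin 4, a ≠ b ∧ a ≠ c ∧ p = eI a c ∧ q = eI a b) ∨
      (∃ a b c d : Fin 4, a ≠ b ∧ a ≠ c ∧ a ≠ d ∧ b ≠ c ∧ b ≠ d ∧ c ≠ d ∧ p = eI a b ∧
        q = eI c d) := by decide +kernel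
  rcases key p q with rfl | ⟨a, b, c, hab, hac, rfl, rfl⟩ |
    ⟨a, b, c, d, hab, hac, had, hbc, hbd, hcd, rfl, rfl⟩
  · rfl
  · exact gg_adj hθ hM hN hN' hab hac
  · exact gg_disj hθ hM hN hN' h0 hab hac had hbc hbd hcd

/-- the third contraction as a function of triples. -/
lemma gg_tri (p q r : Fin 6) :
    gg θ (tri (cn p q r)).1 (tri (cn p q r)).2.1 (tri (cn p q r)).2.2 = gg θ p q r := by
  rw [tri_eq]
  have e1 : ∀ x : Fin 6 × Fin 6 × Fin 6, gg θ (st1 x).1 (st1 x).2.1 (st1 x).2.2 =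
      gg θ x.1 x.2.1 x.2.2 := by
    intro x
    rw [st1]
    split_ifs
    · rfl
    · exact gg_s12 hθ hM hN hN' _ _ _
  have e2 : ∀ x : Fin 6 × Fin 6 × Fin 6, gg θ (st2 x).1 (st2 x).2.1 (st2 x).2.2 =
      gg θ x.1 x.2.1 x.2.2 := by
    intro x
    rw [st2]
    split_ifs
    · rfl
    · exact gg_s23 hθ hM hN hN' _ _ _
  have e3 : ∀ x : Fin 6 × Fin 6 × Fin 6, gg θ (st3 x).1 (st3 x).2.1 (st3 x).2.2 =
      gg θ x.1 x.2.1 x.2.2 := by
    intro x
    rw [st3]
    split_ifs with h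
    · simp only
      rw [← h]
      exact (gg_V hθ hM hN hN' h0 _ _).symm
    · rfl
  rw [e3, e1, e2, e1]

omit hθ hM hN hN' h0 in
/-- the third contractions indexed by codes. -/
noncomputable def gS (θ : Du 4) (S : ℕ) : Du 4 := gg θ (tri S).1 (tri S).2.1 (tri S).2.2

lemma gS_cn (p q r : Fin 6) : gS θ (cn p q r) = gg θ p q r := gg_tri hθ hM hN hN' h0 p q r

lemma ev2_U (f : P 4) (i : Fin 4) (p q r : Fin 6) :
    ev2 (fun i S => gS θ S (X i * f)) (Ub i (cn p q r)) = gg θ p q r (X i * f) := by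
  rw [ev2_bit _ _ (cn_lt p q r), gS_cn hθ hM hN hN' h0]

lemma ev1_U (f : P 4) (p q r : Fin 6) :
    ev1 (fun S => gS θ S f) (2 ^ cn p q r) = gg θ p q r f := by
  rw [ev1_bit _ (cn_lt p q r), gS_cn hθ hM hN hN' h0]

/-- the pure relations. -/
lemma pure_zero (f : P 4) : ∀ m ∈ pureL, ev1 (fun S => gS θ S f) m = 0 := by
  intro m hm
  rw [pureL, List.mem_append] at hm
  rcases hm with hm | hm
  · rw [List.mem_map] at hm
    obtain ⟨p, _, rfl⟩ := hm
    rw [ev1_xor, ev1_xor, ev1_U hθ hM hN hN' h0, ev1_U hθ hM hN hN' h0, ev1_U hθ hM hN hN' h0]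
    -- relation (B)
    have hB := relB hθ (0 : Fin 4) 1 2 3
    have h := LinearMap.congr_fun (congrArg (tw (px p)) hB) f
    rw [map_add, map_add, map_zero, LinearMap.add_apply, LinearMap.add_apply,
      LinearMap.zero_apply] at h
    have g1 : gg θ p 0 5 = tw (px p) (tw (X 2 * X 3) (tw (X 0 * X 1) θ)) := by
      rw [gg_s12 hθ hM hN hN', gg_s23 hθ hM hN hN']; rfl
    have g2 : gg θ p 1 4 = tw (px p) (tw (X 1 * X 3) (tw (X 0 * X 2) θ)) := by
      rw [gg_s12 hθ hM hN hN', gg_s23 hθ hM hN hN']; rfl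
    have g3 : gg θ p 2 3 = tw (px p) (tw (X 0 * X 3) (tw (X 1 * X 2) θ)) := by
      rw [gg_s23 hθ hM hN hN', gg_s12 hθ hM hN hN', gg_s23 hθ hM hN hN']; rfl
    rw [g1, g2, g3]
    rw [← h]
    ring
  · rw [List.mem_singleton] at hm
    subst hm
    rw [ev1_xor, ev1_xor, ev1_U hθ hM hN hN' h0, ev1_U hθ hM hN hN' h0, ev1_U hθ hM hN hN' h0]
    have h := LinearMap.congr_fun (gg_F3 hθ hM hN hN' (a := 0) (b := 1) (c := 2) (d := 3)
      (by decide) (by decide) (by decide) (by decide) (by decide) (by decide)) f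
    rw [LinearMap.add_apply, LinearMap.add_apply, LinearMap.zero_apply] at h
    have e1 : eI 1 2 = 3 := by decide
    have e2 : eI 0 3 = 2 := by decide
    have e3 : eI 0 2 = 1 := by decide
    have e4 : eI 1 3 = 4 := by decide
    have e5 : eI 0 1 = 0 := by decide
    have e6 : eI 2 3 = 5 := by decide
    rw [e1, e2, e3, e4, e5, e6] at h
    rw [← gg_V hθ hM hN hN' h0 0 5, ← gg_V hθ hM hN hN' h0 1 4]
    have g3 : gg θ 2 3 3 = gg θ 3 3 2 := by
      rw [gg_s12 hθ hM hN hN', gg_s23 hθ hM hN hN']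
    rw [g3, ← h]
    ring

/-- all relations. -/
lemma rel_zero (f : P 4) : ∀ m ∈ RL, ev2 (fun i S => gS θ S (X i * f)) m = 0 := by
  intro m hm
  rw [RL_eq, relList, List.mem_append, List.mem_append, List.mem_append] at hm
  rcases hm with ((hm | hm) | hm) | hm
  · -- relation T
    rw [List.mem_flatMap] at hm
    obtain ⟨x, hx, hm⟩ := hm
    rw [List.mem_flatMap] at hm
    obtain ⟨p, _, hm⟩ := hm
    rw [List.mem_map] at hm
    obtain ⟨q, _, rfl⟩ := hm
    obtain ⟨h1, h2, h3⟩ := tri3_ne x hx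
    rw [relTm, ev2_xor, ev2_xor, ev2_U hθ hM hN hN' h0, ev2_U hθ hM hN hN' h0,
      ev2_U hθ hM hN hN' h0]
    exact gg_T hθ hM hN hN' h1 h2 h3 p q f
  · -- relation C
    rw [List.mem_map] at hm
    obtain ⟨x, hx, rfl⟩ := hm
    obtain ⟨h1, h2, h3⟩ := tri3_ne x hx
    rw [relCm, ev2_xor, ev2_xor, ev2_U hθ hM hN hN' h0, ev2_U hθ hM hN hN' h0,
      ev2_U hθ hM hN hN' h0, gg, gg, gg, px_eI h1, px_eI h2, px_eI h3]
    generalize x.1 = a
    generalize x.2.1 = b
    generalize x.2.2 = c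
    have h := rel_C2 hθ hM a b c (X a * X b * X c * f ^ 2)
    rw [tw_tw_apply (X b * X c) (X b * X c) (tw (X b * X c) θ),
      tw_tw_apply (X a * X c) (X a * X c) (tw (X a * X c) θ),
      tw_tw_apply (X a * X b) (X a * X b) (tw (X a * X b) θ),
      show X b * X c * (X a * f) ^ 2 = X a * (X a * X b * X c * f ^ 2) by ring,
      show X a * X c * (X b * f) ^ 2 = X b * (X a * X b * X c * f ^ 2) by ring,
      show X a * X b * (X c * f) ^ 2 = X c * (X a * X b * X c * f ^ 2) by ring]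
    exact h
  · -- relation E
    rw [List.mem_map] at hm
    obtain ⟨x, hx, rfl⟩ := hm
    obtain ⟨h1, h2, h3, h4, h5, h6⟩ := quads_ne x hx
    revert h1 h2 h3 h4 h5 h6
    generalize x.1 = a
    generalize x.2.1 = b
    generalize x.2.2.1 = c
    generalize x.2.2.2 = d
    intro hab hac had hbc hbd hcd
    rw [relEm, ev2_xor, ev2_xor, ev2_xor, ev2_U hθ hM hN hN' h0, ev2_U hθ hM hN hN' h0,
      ev2_U hθ hM hN hN' h0, ev2_U hθ hM hN hN' h0]
    have hC := rel_C2 hθ hM a b c (X b * X c * X d * f ^ 2)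
    have hD := rel_D (gam_isPrim hθ hM (eI b c)) a b c d f
    rw [px_eI hbc] at hD
    have c1 : tw (X b * X c) (tw (X b * X c) θ) (X a * (X b * X c * X d * f ^ 2)) =
        gg θ (eI b c) (eI a c) (eI c d) (X b * f) + gg θ (eI b c) (eI a b) (eI b d) (X c * f) := by
      rw [gg, gg, px_eI hbc, px_eI hac, px_eI hcd, px_eI hab, px_eI hbd, ← hD,
        show X a * (X b * X c * X d * f ^ 2) = X a * X b * X c * X d * f ^ 2 by ring]
    have c2 : tw (X a * X c) (tw (X a * X c) θ) (X b * (X b * X c * X d * f ^ 2)) =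
        gg θ (eI a c) (eI a c) (eI c d) (X b * f) := by
      rw [gg, px_eI hac, px_eI hcd, tw_tw_apply (X c * X d) (X a * X c) (tw (X a * X c) θ),
        show X b * (X b * X c * X d * f ^ 2) = X c * X d * (X b * f) ^ 2 by ring]
    have c3 : tw (X a * X b) (tw (X a * X b) θ) (X c * (X b * X c * X d * f ^ 2)) =
        gg θ (eI a b) (eI a b) (eI b d) (X c * f) := by
      rw [gg, px_eI hab, px_eI hbd, tw_tw_apply (X b * X d) (X a * X b) (tw (X a * X b) θ),
        show X c * (X b * X c * X d * f ^ 2) = X b * X d * (X c * f) ^ 2 by ring]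
    rw [c1, c2, c3] at hC
    rw [← hC]
    ring
  · -- pure relations
    rw [List.mem_flatMap] at hm
    obtain ⟨i, _, hm⟩ := hm
    rw [List.mem_map] at hm
    obtain ⟨m', hm', rfl⟩ := hm
    rw [ev2_shift _ i (pureL_lt m' hm')]
    exact pure_zero hθ hM hN hN' h0 (X i * f) m' hm'

end caseI

end Pool.Agent.helper69.Kam
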