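import Pool.Agent.helper69.Kam.CaseIII

set_option autoImplicit false

open MvPolynomial

namespace Pool.Agent.helper69.Kam

/-! ### Symmetry of the second contractions -/

lemma Sq_two_mul_sq {d : ℕ} (a f : P d) :
    Sq d 2 (a * f ^ 2) = Sq d 2 a * f ^ 2 + a * (Sq d 1 f) ^ 2 := by
  have h := Sq_mul_sq_even 1 a f
  rw [mul_one, Finset.sum_eq_add_of_mem (0, 1) (1, 0) (by simp) (by simp) (by simp)] at h
  · rw [h, mul_zero, mul_one, Sq_zero_apply, Sq_zero_apply]; ring
  · rintro ⟨x, y⟩ hx hne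
    rw [Finset.HasAntidiagonal.mem_antidiagonal] at hx
    simp only at hx
    exfalso
    rcases (show (x = 0 ∧ y = 1) ∨ (x = 1 ∧ y = 0) by omega) with ⟨rfl, rfl⟩ | ⟨rfl, rfl⟩
    · exact hne.1 rfl
    · exact hne.2 rfl

/-- Relation (B). -/
lemma relB {d n : ℕ} {θ : Du d} (hθ : IsPrim d n θ) (a b c w : Fin d) :
    tw (X a * X w) (tw (X b * X c) θ) + tw (X b * X w) (tw (X a * X c) θ) +
      tw (X c * X w) (tw (X a * X b) θ) = 0 := by
  apply LinearMap.ext
  intro f
  have h := hθ.relT a b c (X w * f ^ 2)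
  rw [← mul_assoc, ← mul_assoc, ← mul_assoc] at h
  exact h

/-- Relation (Q) on fourth powers. -/
lemma relQ {n : ℕ} {θ : Du 4} (hθ : IsPrim 4 n θ) (a b c e : Fin 4) :
    tw (X a * X b) (tw (X c * X e) θ) + tw (X a * X c) (tw (X b * X e) θ) +
      tw (X a * X e) (tw (X b * X c) θ) + tw (X b * X c) (tw (X a * X e) θ) +
      tw (X b * X e) (tw (X a * X c) θ) + tw (X c * X e) (tw (X a * X b) θ) = 0 := by
  apply LinearMap.ext
  intro f
  have h := hθ.kills 2 (by norm_num) (X a * X b * X c * X e * (f ^ 2) ^ 2)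
  have hz : Sq 4 1 (f ^ 2) = 0 := by
    have := Sq_odd_sq (d := 4) 0 f
    simpa using this
  rw [Sq_two_mul_sq, hz, zero_pow (by norm_num), mul_zero, add_zero, Sq_two_XXXX] at h
  have e1 : (X a ^ 2 * X b ^ 2 * X c * X e + X a ^ 2 * X b * X c ^ 2 * X e +
      X a ^ 2 * X b * X c * X e ^ 2 + X a * X b ^ 2 * X c ^ 2 * X e +
      X a * X b ^ 2 * X c * X e ^ 2 + X a * X b * X c ^ 2 * X e ^ 2) * (f ^ 2) ^ 2 =
      X c * X e * (X a * X b * f ^ 2) ^ 2 + X b * X e * (X a * X c * f ^ 2) ^ 2 +
      X b * X c * (X a * X e * f ^ 2) ^ 2 + X a * X e * (X b * X c * f ^ 2) ^ 2 +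
      X a * X c * (X b * X e * f ^ 2) ^ 2 + (X a * X b * (X c * X e * f ^ 2) ^ 2 : P 4) := by ring
  rw [e1, map_add, map_add, map_add, map_add, map_add] at h
  exact h

/-- Symmetry of the second contractions. -/
lemma tw_symm {n N : ℕ} {θ : Du 4} (hθ : IsPrim 4 n θ) (hn : n = 2 + 2 * N) (hN : 0 < N)
    (i j k l : Fin 4) :
    tw (X k * X l) (tw (X i * X j) θ) = tw (X i * X j) (tw (X k * X l) θ) := by
  have hn0 : 0 < n := by omega
  set G : Fin 4 → Fin 4 → Fin 4 → Fin 4 → Du 4 :=
    fun i j k l => tw (X k * X l) (tw (X i * X j) θ) with hG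
  have c1 : ∀ i j k l, G i j k l = G j i k l := by
    intro i j k l; simp only [hG]; rw [mul_comm (X i)]
  have c2 : ∀ i j k l, G i j k l = G i j l k := by
    intro i j k l; simp only [hG]; rw [mul_comm (X k)]
  have z1 : ∀ i k l, G i i k l = 0 := by
    intro i k l; simp only [hG]; rw [tw_self hθ hn0, map_zero]
  have z2 : ∀ i j k, G i j k k = 0 := by
    intro i j k; simp only [hG]; rw [tw_self (hθ.tw2 hn i j) hN]
  have hB : ∀ a b c w, G b c a w + G a c b w + G a b c w = 0 := fun a b c w => relB hθ a b c w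
  -- disjoint pairs
  have e1 : ∀ a b c e, G a c b e + G b e a c = G a b c e + G c e a b := by
    intro a b c e
    have h1 := hB a b c e
    have h2 := hB b c e a
    -- h2 : G c e b a + G b e c a + G b c e a = 0
    rw [c2 c e b a, c2 b e c a, c2 b c e a] at h2
    apply LinearMap.ext
    intro f
    have h1' := LinearMap.congr_fun h1 f
    have h2' := LinearMap.congr_fun h2 f
    simp only [LinearMap.add_apply, LinearMap.zero_apply] at h1' h2' ⊢
    revert h1' h2'
    generalize G b c a e f = x1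
    generalize G a c b e f = x2
    generalize G a b c e f = x3
    generalize G c e a b f = x4
    generalize G b e a c f = x5
    revert x1 x2 x3 x4 x5
    decide
  have disj : ∀ a b c e, G a b c e = G c e a b := by
    intro a b c e
    have h1 := e1 a b c e
    have h2 := e1 a b e c
    -- G a e b c + G b c a e = G a b e c + G e c a b
    rw [c2 a b e c, c1 e c a b] at h2
    have hq := relQ hθ a b c e
    have hq' : G c e a b + G b e a c + G b c a e + G a e b c + G a c b e + G a b c e = 0 := hq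
    apply LinearMap.ext
    intro f
    have h1' := LinearMap.congr_fun h1 f
    have h2' := LinearMap.congr_fun h2 f
    have h3' := LinearMap.congr_fun hq' f
    simp only [LinearMap.add_apply, LinearMap.zero_apply] at h1' h2' h3' ⊢
    revert h1' h2' h3'
    generalize G b c a e f = x1
    generalize G a c b e f = x2
    generalize G a b c e f = x3
    generalize G c e a b f = x4
    generalize G b e a c f = x5
    generalize G a e b c f = x6
    revert x1 x2 x3 x4 x5 x6
    decide
  -- all cases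
  show G i j k l = G k l i j
  by_cases hij : i = j
  · subst hij; rw [z1, z2]
  by_cases hkl : k = l
  · subst hkl; rw [z1, z2]
  exact disj i j k l

/-! ### Symmetric matrices over `F_2` -/

/-- the coordinate vectors and their sums. -/
def ei (i : Fin 4) : Fin 4 → ZMod 2 := Pi.single i 1

/-- every symmetric matrix over `F_2` is a sum of matrices `w w^T`. -/
lemma symm_matrix (s : Fin 4 → Fin 4 → ZMod 2) (hs : ∀ i j, s i j = s j i) :
    ∃ N : (Fin 4 → ZMod 2) → ZMod 2, ∀ a b, ∑ w, N w * (w a * w b) = s a b := by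
  let ind : (Fin 4 → ZMod 2) → (Fin 4 → ZMod 2) → ZMod 2 := fun u w => if w = u then 1 else 0
  have hind : ∀ u a b, ∑ w, ind u w * (w a * w b) = u a * u b := by
    intro u a b
    simp only [ind, ite_mul, one_mul, zero_mul]
    rw [Finset.sum_ite_eq']
    simp
  let pr : Fin 4 → Fin 4 → (Fin 4 → ZMod 2) → ZMod 2 := fun i j w =>
    s i j * (ind (ei i + ei j) w + ind (ei i) w + ind (ei j) w)
  have hpr : ∀ i j a b, ∑ w, pr i j w * (w a * w b) =
      s i j * (ei i a * ei j b + ei j a * ei i b) := by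
    intro i j a b
    have h1 : ∀ w, pr i j w * (w a * w b) = s i j * (ind (ei i + ei j) w * (w a * w b)) +
        s i j * (ind (ei i) w * (w a * w b)) + s i j * (ind (ei j) w * (w a * w b)) := by
      intro w; simp only [pr]; ring
    rw [Finset.sum_congr rfl (fun w _ => h1 w), Finset.sum_add_distrib, Finset.sum_add_distrib,
      ← Finset.mul_sum, ← Finset.mul_sum, ← Finset.mul_sum, hind, hind, hind]
    simp only [Pi.add_apply]
    generalize s i j = x
    generalize ei i a = y
    generalize ei i b = z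
    generalize ei j a = t
    generalize ei j b = r
    revert x y z t r
    decide
  refine ⟨fun w => s 0 0 * ind (ei 0) w + s 1 1 * ind (ei 1) w + s 2 2 * ind (ei 2) w +
    s 3 3 * ind (ei 3) w + pr 0 1 w + pr 0 2 w + pr 0 3 w + pr 1 2 w + pr 1 3 w + pr 2 3 w, ?_⟩
  intro a b
  simp only [add_mul, Finset.sum_add_distrib, mul_assoc, ← Finset.mul_sum, hind, hpr]
  have h10 := hs 1 0
  have h20 := hs 2 0
  have h30 := hs 3 0
  have h21 := hs 2 1
  have h31 := hs 3 1
  have h32 := hs 3 2
  rcases fin4_cases a with rfl | rfl | rfl | rfl <;> rcases fin4_cases b with rfl | rfl | rfl | rfl <;>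
    simp [ei, h10, h20, h30, h21, h31, h32]

/-! ### The functionals `zeta2` -/

/-- the functional `ζ` with two Kameko steps. -/
noncomputable def zeta2 (N : ℕ) (v w : Fin 4 → ZMod 2) : Du 4 :=
  (((lcoeff (ZMod 2) (Finsupp.single (0 : Fin 2) N)) ∘ₗ kappa 2) ∘ₗ kappa 2) ∘ₗ
    (sub (rows v w)).toLinearMap

lemma zeta2_tw (N : ℕ) (v w : Fin 4 → ZMod 2) (i j : Fin 4) :
    tw (X i * X j) (zeta2 N v w) = (v i * w j + w i * v j) • zeta1 N v w := by
  rw [zeta2, tw_kappa_sub, minor_rows]; rfl

lemma zeta2_isPrim {N : ℕ} (hN : ∃ m, N + 1 = 2 ^ m) (v w : Fin 4 → ZMod 2) :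
    IsPrim 4 (2 + 2 * (2 + 2 * N)) (zeta2 N v w) :=
  ((lcoeff2_isPrim hN).kappa.kappa).subst _

/-- the span of the functionals `zeta2`. -/
noncomputable def S2 (N : ℕ) : Submodule (ZMod 2) (Du 4) :=
  Submodule.span (ZMod 2) {σ | ∃ v w, σ = zeta2 N v w}

lemma zeta2_mem (N : ℕ) (v w : Fin 4 → ZMod 2) : zeta2 N v w ∈ S2 N :=
  Submodule.subset_span ⟨v, w, rfl⟩

lemma zeta2_act (N : ℕ) (v w : Fin 4 → ZMod 2) (g : Matrix (Fin 4) (Fin 4) (ZMod 2)) :
    zeta2 N v w ∘ₗ (act g).toLinearMap = zeta2 N (Matrix.vecMul v g) (Matrix.vecMul w g) := by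
  have h : rows v w * g = rows (Matrix.vecMul v g) (Matrix.vecMul w g) := by
    ext i j
    rw [Matrix.mul_apply]
    fin_cases i <;> simp [rows, Matrix.vecMul, dotProduct]
  rw [zeta2, comp_sub_act, h]
  rfl

lemma S2_act {N : ℕ} {σ : Du 4} (hσ : σ ∈ S2 N) (g : Matrix (Fin 4) (Fin 4) (ZMod 2)) :
    σ ∘ₗ (act g).toLinearMap ∈ S2 N := by
  induction hσ using Submodule.span_induction with
  | mem σ h =>
      obtain ⟨v, w, rfl⟩ := h
      rw [zeta2_act]
      exact zeta2_mem _ _ _
  | zero => rw [LinearMap.zero_comp]; exact Submodule.zero_mem _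
  | add a b _ _ ha hb => rw [LinearMap.add_comp]; exact Submodule.add_mem _ ha hb
  | smul c a _ ha => rw [LinearMap.smul_comp]; exact Submodule.smul_mem _ _ ha

lemma S2_le_Spl {N : ℕ} (hN : ∃ m, N + 1 = 2 ^ m) : S2 N ≤ Spl 4 (2 + 2 * (2 + 2 * N)) := by
  rw [S2, Submodule.span_le]
  rintro σ ⟨v, w, rfl⟩
  exact Spl_mem (lcoeff2_isPrim hN).kappa.kappa _

/-! ### The covering statement in case II -/

/-- relation (D), when the second contractions vanish. -/
lemma four_of_two {n N : ℕ} {θ : Du 4} (hθ : IsPrim 4 n θ) (hn : n = 2 + 2 * N) (hN : 0 < N)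
    (hNe : Even N)
    (h2 : ∀ i j k l, i ≠ j → k ≠ l → tw (X k * X l) (tw (X i * X j) θ) = 0) (i j : Fin 4)
    (hij : i ≠ j) : tw (X i * X j) θ = 0 := by
  refine ext4_even hNe (hθ.tw2 hn i j).deg (tw_one_eq (hθ.tw2 hn i j) hN)
    (fun k l hkl => h2 i j k l hij hkl) ?_
  obtain ⟨a, d, hia, hid, hja, hjd, had⟩ := two_others hij
  have hc : (X 0 * X 1 * X 2 * X 3 : P 4) = X a * X i * X j * X d := by
    rw [← xs_univ_four, prod_four (Ne.symm hia) (Ne.symm hja) had hij hid hjd]
  rw [hc]
  apply LinearMap.ext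
  intro f
  have h := hθ.relT a i j (X i * X j * X d * f ^ 2)
  have e1 : tw (X a * X j) θ (X i * (X i * X j * X d * f ^ 2)) = 0 := by
    rw [show X i * (X i * X j * X d * f ^ 2) = X j * X d * (X i * f) ^ 2 by ring]
    exact LinearMap.congr_fun (h2 a j j d (Ne.symm hja) hjd) (X i * f)
  have e2 : tw (X a * X i) θ (X j * (X i * X j * X d * f ^ 2)) = 0 := by
    rw [show X j * (X i * X j * X d * f ^ 2) = X i * X d * (X j * f) ^ 2 by ring]
    exact LinearMap.congr_fun (h2 a i i d (Ne.symm hia) hid) (X j * f)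
  rw [e1, e2, add_zero, add_zero] at h
  rw [tw_apply, show X a * X i * X j * X d * f ^ 2 = X a * (X i * X j * X d * f ^ 2) by ring]
  exact h

lemma three_swap' {D : ℕ} {φ : Du 4} (hφ : IsPrim 4 D φ)
    (h1 : ∀ i j l, tw (X l) (tw (X i * X j) φ) = 0) (a b c e : Fin 4) :
    tw (X a * X b * X c) (tw (X a * X e) φ) = tw (X a * X e * X c) (tw (X a * X b) φ) := by
  have h := three_swap hφ h1 b a e c
  have e1 : (X b * X a * X c : P 4) = X a * X b * X c := by ring
  have e2 : (X b * X a : P 4) = X a * X b := by ring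
  rw [e1, e2] at h
  exact h

/-- Case II: `n + 3 = 2^{b+1} + 2`, `b ≥ 3`. -/
lemma cover_II {b : ℕ} (hb : 3 ≤ b) {θ : Du 4} (hθ : IsPrim 4 (4 + 2 * (2 ^ (b + 1) - 1)) θ) :
    ∃ ψ, IsPrim 4 (2 ^ (b + 1) - 1) ψ ∧ θ - ψ ∘ₗ kappa 4 ∈ S2 (2 ^ b - 1) := by
  obtain ⟨e, rfl⟩ : ∃ e, b = e + 3 := ⟨b - 3, by omega⟩
  have hp : 1 ≤ 2 ^ e := Nat.one_le_two_pow
  set E : ℕ := 2 ^ e with hE
  have q2 : 2 ^ (e + 3 - 1) = 4 * E := by
    rw [show e + 3 - 1 = e + 2 by omega, pow_add]; norm_num; ring
  have q3 : 2 ^ (e + 3) = 8 * E := by rw [pow_add]; norm_num; ring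
  have q4 : 2 ^ (e + 3 + 1) = 16 * E := by rw [pow_add, pow_add]; norm_num; ring
  set N' : ℕ := 2 ^ (e + 3) - 1 with hN'
  set m : ℕ := 2 ^ (e + 3 - 1) - 1 with hm
  set n : ℕ := 2 ^ (e + 3 + 1) - 1 with hn
  set N : ℕ := 16 * E with hN
  have hM : 4 + 2 * n = 2 + 2 * N := by omega
  have hNN : N = 2 + 2 * N' := by omega
  have hNm : N' = 1 + 2 * m := by omega
  have hm3 : 3 ≤ m := by omega
  have hN0 : 0 < N := by omega
  have hγ : ∀ i j, IsPrim 4 N (tw (X i * X j) θ) := fun i j => hθ.tw2 hM i j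
  have hγ2 : ∀ i j k l, IsPrim 4 N' (tw (X k * X l) (tw (X i * X j) θ)) :=
    fun i j k l => (hγ i j).tw2 hNN k l
  have hPL : ∀ i j k l, ∃ c, PLexp m (tw (X k * X l) (tw (X i * X j) θ)) c :=
    fun i j k l => PL (by omega) (hγ2 i j k l)
  set c : Fin 4 → Fin 4 → Fin 4 → Fin 4 → (Fin 4 → ZMod 2) → ZMod 2 :=
    fun i j k l => cc m (tw (X k * X l) (tw (X i * X j) θ)) with hc
  have hcT : ∀ i j a b c' v, v ≠ 0 → c i j b c' v * v a + c i j a c' v * v b +
      c i j a b v * v c' = 0 :=
    fun i j a b c' v hv => cc_T hm3 (hγ i j) (hPL i j) a b c' v hv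
  have hcS : ∀ i j k l, c i j k l = c k l i j := by
    intro i j k l
    simp only [hc]
    rw [tw_symm hθ hM hN0]
  have hcw : ∀ i j k l v, v ≠ 0 → c i j k l v = v k * c i j (pivot v) l v +
      c i j (pivot v) k v * v l := by
    intro i j k l v hv
    have h := hcT i j (pivot v) k l v hv
    rw [pivot_spec hv] at h
    have := zmod2_of_sum h
    rw [this]
    ring
  let s : (Fin 4 → ZMod 2) → Fin 4 → Fin 4 → ZMod 2 :=
    fun v j l => c (pivot v) j (pivot v) l v
  have hs : ∀ v j l, s v j l = s v l j := by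
    intro v j l
    simp only [s]
    rw [hcS]
  have hcs : ∀ i j k l v, v ≠ 0 → c i j k l v =
      v i * v k * s v j l + v j * v k * s v i l + v i * v l * s v j k + v j * v l * s v i k := by
    intro i j k l v hv
    rw [hcw i j k l v hv, hcS i j (pivot v) l, hcS i j (pivot v) k, hcw (pivot v) l i j v hv,
      hcw (pivot v) k i j v hv]
    have e1 : c (pivot v) l (pivot v) j v = s v j l := hs v l j
    have e2 : c (pivot v) l (pivot v) i v = s v i l := hs v l i
    have e3 : c (pivot v) k (pivot v) j v = s v j k := hs v k j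
    have e4 : c (pivot v) k (pivot v) i v = s v i k := hs v k i
    rw [e1, e2, e3, e4]
    ring
  choose Nf hNf using fun v => symm_matrix (s v) (hs v)
  have hcN : ∀ i j k l v, v ≠ 0 → c i j k l v =
      ∑ w, Nf v w * ((v i * w j + w i * v j) * (v k * w l + w k * v l)) := by
    intro i j k l v hv
    rw [hcs i j k l v hv, ← hNf v j l, ← hNf v i l, ← hNf v j k, ← hNf v i k, Finset.mul_sum,
      Finset.mul_sum, Finset.mul_sum, Finset.mul_sum, ← Finset.sum_add_distrib,
      ← Finset.sum_add_distrib, ← Finset.sum_add_distrib]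
    exact Finset.sum_congr rfl fun w _ => by ring
  -- subtract the functionals of the planes
  set σ : Du 4 := ∑ v, ∑ w, Nf v w • zeta2 N' v w with hσ
  have hNpow : ∃ m, N' + 1 = 2 ^ m := ⟨e + 3, by omega⟩
  have hσmem : σ ∈ S2 N' := by
    rw [hσ]
    exact Submodule.sum_mem _ fun v _ => Submodule.sum_mem _ fun w _ =>
      Submodule.smul_mem _ _ (zeta2_mem _ v w)
  have hσp : IsPrim 4 (4 + 2 * n) σ := by
    have := Spl_isPrim (S2_le_Spl hNpow hσmem)
    rwa [show 2 + 2 * (2 + 2 * N') = 4 + 2 * n by omega] at this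
  set θ' : Du 4 := θ + σ with hθ'
  have hθ'p : IsPrim 4 (4 + 2 * n) θ' := hθ.add hσp
  have h1 : ∀ i j k l r, tw (X r) (tw (X k * X l) (tw (X i * X j) θ')) = 0 := by
    intro i j k l r
    rw [hθ', map_add, map_add, map_add, cc_spec (hPL i j k l) r, hσ]
    have e0 : ∀ v w : Fin 4 → ZMod 2, tw (X r) (tw (X k * X l) (tw (X i * X j)
        (Nf v w • zeta2 N' v w))) =
        (Nf v w * ((v i * w j + w i * v j) * (v k * w l + w k * v l)) * v r) • evd v m := by
      intro v w
      simp only [map_smul, zeta2_tw, zeta1_tw, tw_evd v (isHomogeneous_X _ r) hNm, ev_X,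
        smul_smul]
      congr 1; ring
    simp only [map_sum, e0]
    rw [← Finset.sum_add_distrib]
    apply Finset.sum_eq_zero
    intro v _
    rw [← Finset.sum_smul, ← Finset.sum_mul, ← add_smul]
    by_cases hv : v = 0
    · subst hv
      simp
    · have := hcN i j k l v hv
      simp only [hc] at this
      rw [this, CharTwo.add_self_eq_zero, zero_smul]
  have hγ' : ∀ i j, IsPrim 4 N (tw (X i * X j) θ') := fun i j => hθ'p.tw2 hM i j
  have hsym := tw_symm hθ'p hM hN0
  have hout : ∀ i j a b c, tw (X a * X b * X c) (tw (X b * X c) (tw (X i * X j) θ')) = 0 :=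
    fun i j a b c => three_out (hγ' i j) (h1 i j) a b c
  have hγ20 : ∀ i j k l, i ≠ j → k ≠ l → tw (X k * X l) (tw (X i * X j) θ') = 0 := by
    intro i j k l hij hkl
    refine gamma_zero (φ := tw (X i * X j) θ') (N := N') ⟨m, by omega⟩
      (fun a b => ((hγ' i j).tw2 hNN a b).deg) (h1 i j) (hγ' i j) ?_ k l hkl
    intro a b c d had hab hac hdb hdc hbc
    -- the contraction with respect to `a, d`, on the triple `a, b, c`
    have key : ∀ a b c d, a ≠ d → a ≠ b → a ≠ c → d ≠ b → d ≠ c → b ≠ c → i ≠ d → j ≠ d →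
        tw (X a * X b * X c) (tw (X a * X d) (tw (X i * X j) θ')) = 0 := by
      intro a b c d had hab hac hdb hdc hbc hid hjd
      rw [hsym i j a d]
      -- `i`, `j` are among `a, b, c`
      rcases cover4 hab hac had hbc (Ne.symm hdb) (Ne.symm hdc) i with rfl | rfl | rfl | rfl
      · rcases cover4 hab hac had hbc (Ne.symm hdb) (Ne.symm hdc) j with rfl | rfl | rfl | rfl
        · exact absurd rfl hij
        · rw [show X i * X j * X c = (X c * X i * X j : P 4) by ring]; exact hout i d c i j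
        · rw [show X i * X b * X j = (X b * X i * X j : P 4) by ring]; exact hout i d b i j
        · exact absurd rfl hjd
      · rcases cover4 hab hac had hbc (Ne.symm hdb) (Ne.symm hdc) j with rfl | rfl | rfl | rfl
        · rw [show X j * X i * X c = (X c * X i * X j : P 4) by ring]; exact hout j d c i j
        · exact absurd rfl hij
        · exact hout a d a i j
        · exact absurd rfl hjd
      · rcases cover4 hab hac had hbc (Ne.symm hdb) (Ne.symm hdc) j with rfl | rfl | rfl | rfl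
        · rw [show X j * X b * X i = (X b * X i * X j : P 4) by ring]; exact hout j d b i j
        · rw [show X a * X j * X i = (X a * X i * X j : P 4) by ring]; exact hout a d a i j
        · exact absurd rfl hij
        · exact absurd rfl hjd
      · exact absurd rfl hid
    by_cases hd : i ≠ d ∧ j ≠ d
    · exact key a b c d had hab hac hdb hdc hbc hd.1 hd.2
    · -- switch `d` with `b` or `c`
      have hsw : ∀ b c, tw (X a * X b * X c) (tw (X a * X d) (tw (X i * X j) θ')) =
          tw (X a * X d * X c) (tw (X a * X b) (tw (X i * X j) θ')) := by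
        intro b c
        exact three_swap' (hγ' i j) (h1 i j) a b c d
      have hbd : (i ≠ b ∧ j ≠ b) ∨ (i ≠ c ∧ j ≠ c) := by
        by_contra hcon
        push Not at hcon
        obtain ⟨hx, hy⟩ := hcon
        rw [not_and_or, not_not, not_not] at hd
        rcases hd with rfl | rfl
        · have h1 := hx hdb
          have h2 := hy hdc
          exact hbc (h1.symm.trans h2)
        · by_cases hib : i = b
          · by_cases hic : i = c
            · exact hbc (hib.symm.trans hic)
            · exact hdc (hy hic)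
          · exact hdb (hx hib)
      rcases hbd with h | h
      · rw [hsw b c]
        exact key a d c b hab had hac (Ne.symm hdb) hbc hdc h.1 h.2
      · rw [show X a * X b * X c = (X a * X c * X b : P 4) by ring, hsw c b]
        exact key a d b c hac had hab (Ne.symm hdc) (Ne.symm hbc) hdb h.1 h.2
  have hγ0 := four_of_two hθ'p hM hN0 ⟨8 * E, by omega⟩ hγ20
  obtain ⟨ψ, hψ, hψ'⟩ := K4 hθ'p hγ0
  refine ⟨ψ, hψ, ?_⟩
  rw [← hψ', hθ', du_sub, ← add_assoc, du_add_self, zero_add]
  exact hσmem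

end Pool.Agent.helper69.Kam
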