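import Pool.Agent.helper69.Kam.NonFam

set_option autoImplicit false

open MvPolynomial

namespace Pool.Agent.helper69.Kam

/-! ### Coefficients of the point expansions -/

/-- the expansion property of `PL`. -/
def PLexp (m : ℕ) (φ : Du 4) (c : (Fin 4 → ZMod 2) → ZMod 2) : Prop :=
  ∀ i, tw (X i) φ = ∑ v, (c v * v i) • evd v m

open Classical in
/-- a choice of the coefficients in `PL`, depending only on the functional. -/
noncomputable def cc (m : ℕ) (φ : Du 4) : (Fin 4 → ZMod 2) → ZMod 2 :=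
  if h : φ ≠ 0 ∧ ∃ c, PLexp m φ c then h.2.choose else 0

lemma cc_zero (m : ℕ) : cc m 0 = 0 := by
  rw [cc, dif_neg]
  rintro ⟨h, _⟩
  exact h rfl

lemma cc_spec {m : ℕ} {φ : Du 4} (h : ∃ c, PLexp m φ c) : PLexp m φ (cc m φ) := by
  by_cases h0 : φ = 0
  · subst h0
    rw [cc_zero]
    intro i
    rw [map_zero]
    symm
    apply Finset.sum_eq_zero
    intro v _
    rw [Pi.zero_apply, zero_mul, zero_smul]
  · rw [cc, dif_pos ⟨h0, h⟩]
    exact (And.intro h0 h : φ ≠ 0 ∧ ∃ c, PLexp m φ c).2.choose_spec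

lemma exists_other (a b c : Fin 4) : ∃ e : Fin 4, a ≠ e ∧ b ≠ e ∧ c ≠ e := by
  revert a b c; decide

/-- the coefficient form of relation T. -/
lemma cc_T {D m : ℕ} (h3 : 3 ≤ m) {φ : Du 4}
    (hφ : IsPrim 4 D φ) (hPL : ∀ i j, ∃ c, PLexp m (tw (X i * X j) φ) c)
    (a b c : Fin 4) (v : Fin 4 → ZMod 2) (hv : v ≠ 0) :
    cc m (tw (X b * X c) φ) v * v a + cc m (tw (X a * X c) φ) v * v b +
      cc m (tw (X a * X b) φ) v * v c = 0 := by
  have h1 : ∑ v, (cc m (tw (X b * X c) φ) v * v a + cc m (tw (X a * X c) φ) v * v b +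
      cc m (tw (X a * X b) φ) v * v c) • evd v m = 0 := by
    have e1 := cc_spec (hPL b c) a
    have e2 := cc_spec (hPL a c) b
    have e3 := cc_spec (hPL a b) c
    simp only [add_smul, Finset.sum_add_distrib]
    rw [← e1, ← e2, ← e3]
    apply LinearMap.ext
    intro g
    exact hφ.relT a b c (g ^ 2)
  obtain ⟨e, ha, hb, hc⟩ := exists_other a b c
  have h2 := ind3 h3 _ h1 v (Pi.single e 1) hv (by
    intro h
    have := congrFun h e
    simp at this)
  rw [h2, Pi.single_eq_of_ne ha, Pi.single_eq_of_ne hb, Pi.single_eq_of_ne hc]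
  ring

/-! ### Setting the second variable to zero -/

/-- the coefficient of `x_0^n` after a rank two substitution. -/
lemma lcoeff_single_sub {c n : ℕ} (W : Matrix (Fin 2) (Fin c) (ZMod 2)) :
    (lcoeff (ZMod 2) (Finsupp.single (0 : Fin 2) n)) ∘ₗ (sub W).toLinearMap = evd (W 0) n := by
  apply LinearMap.ext
  intro f
  rw [LinearMap.comp_apply, AlgHom.toLinearMap_apply, lcoeff_apply, coeff_single_eq, evd,
    LinearMap.comp_apply, AlgHom.toLinearMap_apply, lcoeff_apply, coeff_single_eq]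
  congr 1
  have h : (aeval (fun i : Fin 2 => if i = 0 then (Polynomial.X : Polynomial (ZMod 2)) else 0)).comp
      (sub W) = (aeval (fun i : Fin 1 => if i = 0 then (Polynomial.X : Polynomial (ZMod 2)) else 0)).comp
      (sub (row (W 0))) := by
    apply MvPolynomial.algHom_ext
    intro j
    rw [AlgHom.comp_apply, AlgHom.comp_apply, sub_X, sub_row_X, Fin.sum_univ_two]
    simp
  exact DFunLike.congr_fun h f

/-- the `2 × 4` matrix with rows `v`, `w`. -/
def rows {c : ℕ} (v w : Fin c → ZMod 2) : Matrix (Fin 2) (Fin c) (ZMod 2) := ![v, w]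

lemma rows_zero {c : ℕ} (v w : Fin c → ZMod 2) : rows v w 0 = v := rfl

lemma minor_rows {c : ℕ} (v w : Fin c → ZMod 2) (i j : Fin c) :
    minor (rows v w) i j = v i * w j + w i * v j := rfl

/-- the functional `ζ` with one Kameko step. -/
noncomputable def zeta1 (N : ℕ) (v w : Fin 4 → ZMod 2) : Du 4 :=
  ((lcoeff (ZMod 2) (Finsupp.single (0 : Fin 2) N)) ∘ₗ kappa 2) ∘ₗ (sub (rows v w)).toLinearMap

lemma lcoeff2_isPrim {N : ℕ} (hN : ∃ m, N + 1 = 2 ^ m) :
    IsPrim 2 N (lcoeff (ZMod 2) (Finsupp.single (0 : Fin 2) N)) := by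
  have h := spike_mem (d := 2) (Finsupp.single 0 N) (by
    intro i
    rw [Finsupp.single_apply]
    split_ifs
    · exact hN
    · exact ⟨0, rfl⟩)
  rwa [Finsupp.degree_single] at h

lemma zeta1_tw (N : ℕ) (v w : Fin 4 → ZMod 2) (i j : Fin 4) :
    tw (X i * X j) (zeta1 N v w) = (v i * w j + w i * v j) • evd v N := by
  rw [zeta1, tw_kappa_sub, lcoeff_single_sub, rows_zero, minor_rows]

lemma zeta1_mem {N : ℕ} (hN : ∃ m, N + 1 = 2 ^ m) (v w : Fin 4 → ZMod 2) :
    zeta1 N v w ∈ Spl 4 (2 + 2 * N) := Spl_mem (lcoeff2_isPrim hN).kappa _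

lemma Spl_isPrim {c M : ℕ} {σ : Du c} (hσ : σ ∈ Spl c M) : IsPrim c M σ := by
  induction hσ using Submodule.span_induction with
  | mem σ h =>
      obtain ⟨φ, W, hφ, rfl⟩ := h
      exact hφ.subst W
  | zero => exact IsPrim.zero _ _
  | add a b _ _ ha hb => exact ha.add hb
  | smul c a _ ha => exact ha.smul c

/-! ### The three-odd parts -/

lemma tw_tw_apply {d : ℕ} (a b : P d) (φ : Du d) (f : P d) :
    tw a (tw b φ) f = tw b φ (a * f ^ 2) := rfl

section three

variable {D : ℕ} {φ : Du 4} (hφ : IsPrim 4 D φ)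
  (h1 : ∀ i j l, tw (X l) (tw (X i * X j) φ) = 0)

include hφ h1

lemma three_out (a b c : Fin 4) :
    tw (X a * X b * X c) (tw (X b * X c) φ) = 0 := by
  apply LinearMap.ext
  intro g
  have h := hφ.relT a b c (X b * X c * g ^ 2)
  have e1 : tw (X a * X c) φ (X b * (X b * X c * g ^ 2)) = 0 := by
    have := LinearMap.congr_fun (h1 a c c) (X b * g)
    rw [tw_apply] at this
    rw [show X b * (X b * X c * g ^ 2) = X c * (X b * g) ^ 2 by ring]
    exact this
  have e2 : tw (X a * X b) φ (X c * (X b * X c * g ^ 2)) = 0 := by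
    have := LinearMap.congr_fun (h1 a b b) (X c * g)
    rw [tw_apply] at this
    rw [show X c * (X b * X c * g ^ 2) = X b * (X c * g) ^ 2 by ring]
    exact this
  rw [e1, e2, add_zero, add_zero] at h
  rw [tw_apply, show X a * X b * X c * g ^ 2 = X a * (X b * X c * g ^ 2) by ring]
  exact h

lemma three_swap (a b c e : Fin 4) :
    tw (X a * X b * X e) (tw (X b * X c) φ) = tw (X b * X c * X e) (tw (X a * X b) φ) := by
  apply LinearMap.ext
  intro g
  have h := hφ.relT a b c (X b * X e * g ^ 2)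
  have e1 : tw (X a * X c) φ (X b * (X b * X e * g ^ 2)) = 0 := by
    have := LinearMap.congr_fun (h1 a c e) (X b * g)
    rw [tw_apply] at this
    rw [show X b * (X b * X e * g ^ 2) = X e * (X b * g) ^ 2 by ring]
    exact this
  rw [e1, add_zero] at h
  have h2 := CharTwo.add_eq_zero.1 h
  rw [tw_tw_apply, tw_tw_apply]
  rw [show X a * X b * X e * g ^ 2 = X a * (X b * X e * g ^ 2) by ring,
    show X b * X c * X e * g ^ 2 = X c * (X b * X e * g ^ 2) by ring]
  exact h2

end three

lemma cover4 {a b c e : Fin 4} (hab : a ≠ b) (hac : a ≠ c) (hae : a ≠ e) (hbc : b ≠ c)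
    (hbe : b ≠ e) (hce : c ≠ e) (x : Fin 4) : x = a ∨ x = b ∨ x = c ∨ x = e := by
  revert a b c e x; decide

/-- with the functional `tw (X i * X j) φ` of odd degree, vanishing of the three-odd parts. -/
lemma gamma_zero {D : ℕ} {φ : Du 4} {N : ℕ} (hN : Odd N)
    (hd : ∀ i j, Deg N (tw (X i * X j) φ)) (h1 : ∀ i j l, tw (X l) (tw (X i * X j) φ) = 0)
    (hφ : IsPrim 4 D φ)
    (h3 : ∀ i k l j : Fin 4, i ≠ j → i ≠ k → i ≠ l → j ≠ k → j ≠ l → k ≠ l →
      tw (X i * X k * X l) (tw (X i * X j) φ) = 0) (i j : Fin 4) (hij : i ≠ j) :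
    tw (X i * X j) φ = 0 := by
  refine ext4_odd hN (hd i j) (h1 i j) ?_
  intro a b c hab hac hbc
  -- the index omitted by `a, b, c`
  obtain ⟨e, hae, hbe, hce⟩ := exists_other a b c
  have hout := three_out hφ h1
  rcases cover4 hab hac hae hbc hbe hce i with rfl | rfl | rfl | rfl <;>
  rcases cover4 hab hac hae hbc hbe hce j with rfl | rfl | rfl | rfl
  · exact absurd rfl hij
  · rw [show X i * X j * X c = (X c * X i * X j : P 4) by ring]; exact hout c i j
  · rw [show X i * X b * X j = (X b * X i * X j : P 4) by ring]; exact hout b i j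
  · exact h3 i b c j hae hab hac (Ne.symm hbe) (Ne.symm hce) hbc
  · rw [show X j * X i * X c = (X c * X i * X j : P 4) by ring]; exact hout c i j
  · exact absurd rfl hij
  · exact hout a i j
  · have := h3 i a c j hbe (Ne.symm hab) hbc (Ne.symm hae) (Ne.symm hce) hac
    rw [show X a * X i * X c = (X i * X a * X c : P 4) by ring]; exact this
  · rw [show X j * X b * X i = (X b * X i * X j : P 4) by ring]; exact hout b i j
  · rw [show X a * X j * X i = (X a * X i * X j : P 4) by ring]; exact hout a i j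
  · exact absurd rfl hij
  · have := h3 i a b j hce (Ne.symm hac) (Ne.symm hbc) (Ne.symm hae) (Ne.symm hbe) hab
    rw [show X a * X b * X i = (X i * X a * X b : P 4) by ring]; exact this
  · have := h3 j b c i hae hab hac (Ne.symm hbe) (Ne.symm hce) hbc
    rw [mul_comm (X i) (X j)]; exact this
  · have := h3 j a c i hbe (Ne.symm hab) hbc (Ne.symm hae) (Ne.symm hce) hac
    rw [mul_comm (X i) (X j), show X a * X j * X c = (X j * X a * X c : P 4) by ring]; exact this
  · have := h3 j a b i hce (Ne.symm hac) (Ne.symm hbc) (Ne.symm hae) (Ne.symm hbe) hab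
    rw [mul_comm (X i) (X j), show X a * X b * X j = (X j * X a * X b : P 4) by ring]; exact this
  · exact absurd rfl hij

/-- the last step of case III: `β` vanishes. -/
lemma beta_zero {D E : ℕ} (hE : D = 2 + 2 * E) (hE0 : 0 < E) {β : Fin 4 → Du 4}
    (hβ : ∀ i, IsPrim 4 D (β i)) (hs : ∀ i j g, i ≠ j → β i (X j * g) = β j (X i * g)) :
    ∀ i, β i = 0 := by
  have hD0 : 0 < D := by omega
  -- pairs containing the index
  have n1 : ∀ a j, a ≠ j → tw (X a * X j) (β a) = 0 := by
    intro a j haj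
    apply LinearMap.ext
    intro g
    rw [tw_apply, show X a * X j * g ^ 2 = X j * (X a * g ^ 2) by ring, hs a j _ haj,
      show X a * (X a * g ^ 2) = (X a * g) ^ 2 by ring, (hβ j).sq hD0]
    rfl
  have n2 : ∀ a b c, a ≠ b → tw (X b * X c) (β a) = tw (X a * X c) (β b) := by
    intro a b c hab
    apply LinearMap.ext
    intro g
    rw [tw_apply, tw_apply, show X b * X c * g ^ 2 = X b * (X c * g ^ 2) by ring, hs a b _ hab,
      show X a * (X c * g ^ 2) = X a * X c * g ^ 2 by ring]
  have n3 : ∀ a b c h, a ≠ b → a ≠ c → b ≠ c → tw (X b * X c) (β a) (X a * h) = 0 := by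
    intro a b c h hab hac hbc
    have := (hβ a).relT a b c h
    rw [n1 a c hac, n1 a b hab, LinearMap.zero_apply, LinearMap.zero_apply, add_zero,
      add_zero] at this
    exact this
  have n4 : ∀ a b c h, a ≠ b → a ≠ c → b ≠ c → tw (X b * X c) (β a) (X b * h) = 0 := by
    intro a b c h hab hac hbc
    rw [n2 a b c hab]
    exact n3 b a c h (Ne.symm hab) hbc hac
  have n5 : ∀ a b c h, a ≠ b → a ≠ c → b ≠ c → tw (X b * X c) (β a) (X c * h) = 0 := by
    intro a b c h hab hac hbc
    rw [mul_comm (X b) (X c)]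
    exact n4 a c b h hac hab (Ne.symm hbc)
  have n6 : ∀ a b c e h, a ≠ b → a ≠ c → a ≠ e → b ≠ c → b ≠ e → c ≠ e →
      tw (X b * X c) (β a) (X e * h) = 0 := by
    intro a b c e h hab hac hae hbc hbe hce
    -- n_e := tw (X b * X c) (β a) (X e * h), symmetric in a, b, c
    have r1 := (hβ a).relT b c e h
    -- n_b + n_c + n_e = 0
    have r2 := (hβ b).relT a c e h
    have s1 : tw (X a * X e) (β b) (X c * h) = tw (X b * X e) (β a) (X c * h) := by
      rw [n2 a b e hab]
    have s2 : tw (X a * X c) (β b) (X e * h) = tw (X b * X c) (β a) (X e * h) := by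
      rw [n2 a b c hab]
    -- n_a = n_b
    have r3 := (hβ c).relT a b e h
    have s3 : tw (X a * X e) (β c) (X b * h) = tw (X c * X e) (β a) (X b * h) := by
      rw [n2 a c e hac]
    have s4 : tw (X a * X b) (β c) (X e * h) = tw (X b * X c) (β a) (X e * h) := by
      rw [← n2 a c b hac, mul_comm (X c) (X b)]
    have s5 : tw (X b * X e) (β c) (X a * h) = tw (X c * X e) (β b) (X a * h) := by
      rw [n2 b c e hbc]
    have r4 := (hβ e).relT a b c h
    have s6 : tw (X b * X c) (β e) (X a * h) = tw (X c * X e) (β b) (X a * h) := by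
      rw [mul_comm (X c) (X e), n2 b e c hbe]
    have s7 : tw (X a * X c) (β e) (X b * h) = tw (X c * X e) (β a) (X b * h) := by
      rw [mul_comm (X c) (X e), n2 a e c hae]
    have s8 : tw (X a * X b) (β e) (X c * h) = tw (X b * X e) (β a) (X c * h) := by
      rw [mul_comm (X b) (X e), n2 a e b hae]
    rw [s1, s2] at r2
    rw [s3, s4, s5] at r3
    rw [s6, s7, s8] at r4
    revert r1 r2 r3 r4
    generalize tw (X c * X e) (β a) (X b * h) = x
    generalize tw (X b * X e) (β a) (X c * h) = y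
    generalize tw (X b * X c) (β a) (X e * h) = z
    generalize tw (X c * X e) (β b) (X a * h) = w
    revert x y z w
    decide
  have n7 : ∀ a b c, a ≠ b → a ≠ c → b ≠ c → tw (X b * X c) (β a) = 0 := by
    intro a b c hab hac hbc
    apply ext_X
    · intro i g
      rw [LinearMap.zero_apply]
      obtain ⟨e, hae, hbe, hce⟩ := exists_other a b c
      have : i = a ∨ i = b ∨ i = c ∨ i = e := by
        revert a b c e i; decide
      rcases this with rfl | rfl | rfl | rfl
      · exact n3 i b c g hab hac hbc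
      · exact n4 a i c g hab hac hbc
      · exact n5 a b i g hab hac hbc
      · exact n6 a b c i g hab hac hae hbc hbe hce
    · rw [LinearMap.zero_apply]
      exact tw_degree (hβ a) ((isHomogeneous_X _ b).mul (isHomogeneous_X _ c)) (m := E)
        (by omega) 0 (by omega) 1 (isHomogeneous_one _ _)
  have n8 : ∀ a b c, b ≠ c → tw (X b * X c) (β a) = 0 := by
    intro a b c hbc
    by_cases hab : a = b
    · subst hab; exact n1 a c hbc
    · by_cases hac : a = c
      · subst hac; rw [mul_comm]; exact n1 a b hab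
      · exact n7 a b c hab hac hbc
  intro a
  refine ext4_even (n := D) ⟨1 + E, by omega⟩ (hβ a).deg (tw_one_eq (hβ a) hD0)
    (fun i j hij => n8 a i j hij) ?_
  have hgen : ∀ a b c e : Fin 4, a ≠ b → c ≠ e →
      tw (X a * X b * X c * X e) (β a) = 0 := by
    intro a b c e hab hce
    apply LinearMap.ext
    intro g
    rw [tw_apply, show X a * X b * X c * X e * g ^ 2 = X b * (X a * X c * X e * g ^ 2) by ring,
      hs a b _ hab, show X a * (X a * X c * X e * g ^ 2) = X c * X e * (X a * g) ^ 2 by ring]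
    exact LinearMap.congr_fun (n8 b c e hce) (X a * g)
  have hc : a = 0 ∨ a = 1 ∨ a = 2 ∨ a = 3 := by revert a; decide
  rcases hc with rfl | rfl | rfl | rfl
  · exact hgen 0 1 2 3 (by decide) (by decide)
  · rw [show (X 0 * X 1 * X 2 * X 3 : P 4) = X 1 * X 0 * X 2 * X 3 by ring]
    exact hgen 1 0 2 3 (by decide) (by decide)
  · rw [show (X 0 * X 1 * X 2 * X 3 : P 4) = X 2 * X 0 * X 1 * X 3 by ring]
    exact hgen 2 0 1 3 (by decide) (by decide)
  · rw [show (X 0 * X 1 * X 2 * X 3 : P 4) = X 3 * X 0 * X 1 * X 2 by ring]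
    exact hgen 3 0 1 2 (by decide) (by decide)

lemma fin4_cases (i : Fin 4) : i = 0 ∨ i = 1 ∨ i = 2 ∨ i = 3 := by revert i; decide

lemma exists_one {d : ℕ} {v : Fin d → ZMod 2} (hv : v ≠ 0) : ∃ i, v i = 1 := by
  obtain ⟨i, hi⟩ : ∃ i, v i ≠ 0 := by
    by_contra hcon
    push Not at hcon
    exact hv (funext hcon)
  refine ⟨i, ?_⟩
  revert hi
  generalize v i = x
  revert x; decide

open Classical in
/-- an index at which `v` is non-zero. -/
noncomputable def pivot (v : Fin 4 → ZMod 2) : Fin 4 :=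
  if hv : v ≠ 0 then (exists_one hv).choose else 0

lemma pivot_spec {v : Fin 4 → ZMod 2} (hv : v ≠ 0) : v (pivot v) = 1 := by
  rw [pivot, dif_pos hv]
  exact (exists_one hv).choose_spec

lemma zmod2_of_sum {x a b : ZMod 2} (h : x * 1 + a + b = 0) : x = a + b := by
  revert x a b; decide

/-- Case III: `n + 3 = 2^b + 1`, `b ≥ 4`. -/
lemma cover_III {b : ℕ} (hb : 4 ≤ b) {θ : Du 4} (hθ : IsPrim 4 (2 ^ (b + 1)) θ) :
    ∃ ψ, IsPrim 4 (2 ^ b - 2) ψ ∧ θ - ψ ∘ₗ kappa 4 ∈ Spl 4 (2 ^ (b + 1)) := by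
  obtain ⟨e, rfl⟩ : ∃ e, b = e + 4 := ⟨b - 4, by omega⟩
  have hp : 1 ≤ 2 ^ e := Nat.one_le_two_pow
  set E : ℕ := 2 ^ e with hE
  have q3 : 2 ^ (e + 4 - 1) = 8 * E := by
    rw [show e + 4 - 1 = e + 3 by omega, pow_add]; norm_num; ring
  have q4 : 2 ^ (e + 4) = 16 * E := by rw [pow_add]; norm_num; ring
  have q5 : 2 ^ (e + 4 + 1) = 32 * E := by rw [pow_add, pow_add]; norm_num; ring
  have hD : 2 ^ (e + 4 + 1) = 2 + 2 * (2 ^ (e + 4) - 1) := by omega
  set N : ℕ := 2 ^ (e + 4) - 1 with hN
  set m : ℕ := 2 ^ (e + 4 - 1) - 1 with hm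
  have hNm : N = 1 + 2 * m := by omega
  have hm3 : 3 ≤ m := by omega
  have hγ : ∀ i j, IsPrim 4 N (tw (X i * X j) θ) := fun i j => hθ.tw2 hD i j
  have hPL : ∀ i j, ∃ c, PLexp m (tw (X i * X j) θ) c := fun i j => PL (by omega) (hγ i j)
  set c : Fin 4 → Fin 4 → (Fin 4 → ZMod 2) → ZMod 2 := fun i j => cc m (tw (X i * X j) θ) with hc
  have hcT : ∀ a b c' v, v ≠ 0 → c b c' v * v a + c a c' v * v b + c a b v * v c' = 0 :=
    fun a b c' v hv => cc_T hm3 hθ hPL a b c' v hv
  let w : (Fin 4 → ZMod 2) → Fin 4 → ZMod 2 := fun v j => c (pivot v) j v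
  have hcw : ∀ i j v, v ≠ 0 → c i j v = v i * w v j + w v i * v j := by
    intro i j v hv
    have h := hcT (pivot v) i j v hv
    rw [pivot_spec hv] at h
    have := zmod2_of_sum h
    rw [this]
    simp only [w]
    ring
  -- subtract the functionals of the planes
  set σ : Du 4 := ∑ v, zeta1 N v (w v) with hσ
  have hNpow : ∃ m, N + 1 = 2 ^ m := ⟨e + 4, by omega⟩
  have hσmem : σ ∈ Spl 4 (2 ^ (e + 4 + 1)) := by
    rw [hσ, hD]
    exact Submodule.sum_mem _ fun v _ => zeta1_mem hNpow v (w v)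
  set θ' : Du 4 := θ + σ with hθ'
  have hθ'p : IsPrim 4 (2 ^ (e + 4 + 1)) θ' := hθ.add (Spl_isPrim hσmem)
  have h1 : ∀ i j l, tw (X l) (tw (X i * X j) θ') = 0 := by
    intro i j l
    rw [hθ', map_add, map_add, cc_spec (hPL i j) l, hσ, map_sum]
    have e1 : ∀ v : Fin 4 → ZMod 2, tw (X i * X j) (zeta1 N v (w v)) =
        (v i * w v j + w v i * v j) • evd v N := fun v => zeta1_tw N v (w v) i j
    rw [Finset.sum_congr rfl (fun v _ => e1 v), map_sum, ← Finset.sum_add_distrib]
    apply Finset.sum_eq_zero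
    intro v _
    rw [map_smul, tw_evd v (isHomogeneous_X _ l) hNm, ev_X, smul_smul, ← add_smul]
    by_cases hv : v = 0
    · subst hv
      simp
    · have := hcw i j v hv
      simp only [hc] at this
      rw [this, CharTwo.add_self_eq_zero, zero_smul]
  have hγ' : ∀ i j, IsPrim 4 N (tw (X i * X j) θ') := fun i j => hθ'p.tw2 hD i j
  -- the functionals beta
  let β : Fin 4 → Du 4 := ![tw (X 0 * X 2 * X 3) (tw (X 0 * X 1) θ'),
    tw (X 1 * X 2 * X 3) (tw (X 1 * X 0) θ'), tw (X 2 * X 1 * X 3) (tw (X 2 * X 0) θ'),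
    tw (X 3 * X 1 * X 2) (tw (X 3 * X 0) θ')]
  have hsw := three_swap hθ'p h1
  have hβ : ∀ i k l j : Fin 4, i ≠ j → i ≠ k → i ≠ l → j ≠ k → j ≠ l → k ≠ l →
      tw (X i * X k * X l) (tw (X i * X j) θ') = β i := by
    -- swapping `j` and `k`
    have hs1 : ∀ i j k l : Fin 4, tw (X i * X k * X l) (tw (X i * X j) θ') =
        tw (X i * X j * X l) (tw (X i * X k) θ') := by
      intro i j k l
      have := hsw k i j l
      rw [show X k * X i * X l = (X i * X k * X l : P 4) by ring, mul_comm (X k) (X i)] at this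
      exact this
    have hs2 : ∀ i j k l : Fin 4, tw (X i * X k * X l) (tw (X i * X j) θ') =
        tw (X i * X l * X k) (tw (X i * X j) θ') := by
      intro i j k l
      rw [show X i * X k * X l = (X i * X l * X k : P 4) by ring]
    have key : ∀ i j0 k0 l0 : Fin 4, i ≠ j0 → i ≠ k0 → i ≠ l0 → j0 ≠ k0 → j0 ≠ l0 → k0 ≠ l0 →
        ∀ k l j : Fin 4, i ≠ j → i ≠ k → i ≠ l → j ≠ k → j ≠ l → k ≠ l →
        tw (X i * X k * X l) (tw (X i * X j) θ') = tw (X i * X k0 * X l0) (tw (X i * X j0) θ') := by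
      intro i j0 k0 l0 h01 h02 h03 h04 h05 h06 k l j h1 h2 h3 h4 h5 h6
      have hj := cover4 h01 h02 h03 h04 h05 h06 j
      have hk := cover4 h01 h02 h03 h04 h05 h06 k
      have hl := cover4 h01 h02 h03 h04 h05 h06 l
      rcases hj with hj | hj | hj | hj
      · exact absurd hj.symm h1
      · rcases hk with hk | hk | hk | hk
        · exact absurd hk.symm h2
        · exact absurd (hj.trans hk.symm) h4
        · rcases hl with hl | hl | hl | hl
          · exact absurd hl.symm h3
          · exact absurd (hj.trans hl.symm) h5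
          · exact absurd (hk.trans hl.symm) h6
          · rw [hj, hk, hl]
        · rcases hl with hl | hl | hl | hl
          · exact absurd hl.symm h3
          · exact absurd (hj.trans hl.symm) h5
          · rw [hj, hk, hl, hs2]
          · exact absurd (hk.trans hl.symm) h6
      · rcases hk with hk | hk | hk | hk
        · exact absurd hk.symm h2
        · rcases hl with hl | hl | hl | hl
          · exact absurd hl.symm h3
          · exact absurd (hk.trans hl.symm) h6
          · exact absurd (hj.trans hl.symm) h5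
          · rw [hj, hk, hl, hs1]
        · exact absurd (hj.trans hk.symm) h4
        · rcases hl with hl | hl | hl | hl
          · exact absurd hl.symm h3
          · rw [hj, hk, hl, hs2, hs1]
          · exact absurd (hj.trans hl.symm) h5
          · exact absurd (hk.trans hl.symm) h6
      · rcases hk with hk | hk | hk | hk
        · exact absurd hk.symm h2
        · rcases hl with hl | hl | hl | hl
          · exact absurd hl.symm h3
          · exact absurd (hk.trans hl.symm) h6
          · rw [hj, hk, hl, hs1, hs2]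
          · exact absurd (hj.trans hl.symm) h5
        · rcases hl with hl | hl | hl | hl
          · exact absurd hl.symm h3
          · rw [hj, hk, hl, hs2, hs1, hs2]
          · exact absurd (hk.trans hl.symm) h6
          · exact absurd (hj.trans hl.symm) h5
        · exact absurd (hj.trans hk.symm) h4
    intro i k l j h1 h2 h3 h4 h5 h6
    rcases fin4_cases i with rfl | rfl | rfl | rfl
    · exact key 0 1 2 3 (by decide) (by decide) (by decide) (by decide) (by decide) (by decide)
        k l j h1 h2 h3 h4 h5 h6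
    · exact key 1 0 2 3 (by decide) (by decide) (by decide) (by decide) (by decide) (by decide)
        k l j h1 h2 h3 h4 h5 h6
    · exact key 2 0 1 3 (by decide) (by decide) (by decide) (by decide) (by decide) (by decide)
        k l j h1 h2 h3 h4 h5 h6
    · exact key 3 0 1 2 (by decide) (by decide) (by decide) (by decide) (by decide) (by decide)
        k l j h1 h2 h3 h4 h5 h6
  have hrest : ∀ i : Fin 4, ∃ j k l, i ≠ j ∧ i ≠ k ∧ i ≠ l ∧ j ≠ k ∧ j ≠ l ∧ k ≠ l := by decide
  -- primitivity of beta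
  have hβdeg : N = 3 + 2 * (8 * E - 2) := by omega
  have hβp : ∀ i, IsPrim 4 (8 * E - 2) (β i) := by
    intro i
    obtain ⟨j, k, l, hij, hik, hil, hjk, hjl, hkl⟩ := hrest i
    rw [← hβ i k l j hij hik hil hjk hjl hkl]
    refine ⟨?_, ?_⟩
    · intro m' hm' f hf
      exact tw_degree (hγ' i j) (((isHomogeneous_X _ i).mul (isHomogeneous_X _ k)).mul
        (isHomogeneous_X _ l)) (m := 8 * E - 2) (by omega) m' hm' f hf
    · intro r hr f
      have h := (hγ' i j).kills (2 * r) (by omega) (X i * X k * X l * f ^ 2)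
      rw [Sq_mul_sq_even, map_sum, ← Finset.add_sum_erase _ _ (a := (0, r)) (by simp),
        Finset.sum_eq_zero] at h
      · rw [tw_apply]
        rw [mul_zero, Sq_zero_apply, add_zero] at h
        exact h
      · rintro ⟨a, b⟩ hab
        rw [Finset.mem_erase, Finset.HasAntidiagonal.mem_antidiagonal] at hab
        obtain ⟨hne, hab⟩ := hab
        simp only at hab
        have ha : a ≠ 0 := by
          rintro rfl
          apply hne
          ext <;> simp; omega
        obtain ⟨a, rfl⟩ := Nat.exists_eq_succ_of_ne_zero ha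
        rcases Nat.eq_zero_or_pos a with rfl | ha'
        · rw [show 2 * (Nat.succ 0, b).1 = 2 by simp, Sq_two_XXX]
          have e1 : ((X i ^ 2 * X k ^ 2 * X l + X i ^ 2 * X k * X l ^ 2 + X i * X k ^ 2 * X l ^ 2) *
              Sq 4 (Nat.succ 0, b).2 f ^ 2 : P 4) =
              X l * (X i * X k * Sq 4 b f) ^ 2 + X k * (X i * X l * Sq 4 b f) ^ 2 +
              X i * (X k * X l * Sq 4 b f) ^ 2 := by ring
          have hz : ∀ a : Fin 4, ∀ g : P 4, tw (X i * X j) θ' (X a * g ^ 2) = 0 := fun a g =>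
            LinearMap.congr_fun (h1 i j a) g
          rw [e1, map_add, map_add, hz, hz, hz, add_zero, add_zero]
        · obtain ⟨a, rfl⟩ := Nat.exists_eq_succ_of_ne_zero (Nat.pos_iff_ne_zero.1 ha')
          rw [show 2 * (a.succ.succ, b).1 = (2 * a) + 4 by simp; ring, Sq_four_XXX]
          simp
  have hβs : ∀ i j g, i ≠ j → β i (X j * g) = β j (X i * g) := by
    intro b c g hbc
    obtain ⟨a, d, hba, hbd, hca, hcd, had⟩ := two_others hbc
    have h := (hγ' b c).kills 1 one_pos (X a * X b * X c * X d * g ^ 2)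
    rw [Sq_one_mul_sq, Sq_one_XXXX] at h
    have e1 : (X a ^ 2 * X b * X c * X d + X a * X b ^ 2 * X c * X d + X a * X b * X c ^ 2 * X d +
        X a * X b * X c * X d ^ 2) * g ^ 2 =
        X d * X b * X c * (X a * g) ^ 2 + X c * X a * X d * (X b * g) ^ 2 +
        X b * X a * X d * (X c * g) ^ 2 + (X a * X b * X c * (X d * g) ^ 2 : P 4) := by ring
    have ho : ∀ x, ∀ f : P 4, tw (X b * X c) θ' (X x * X b * X c * f ^ 2) = 0 := fun x f =>
      LinearMap.congr_fun (three_out hθ'p h1 x b c) f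
    have hb1 : tw (X b * X c) θ' (X b * X a * X d * (X c * g) ^ 2) = β b (X c * g) := by
      rw [← hβ b a d c hbc hba hbd hca hcd had]; rfl
    have hc1 : tw (X b * X c) θ' (X c * X a * X d * (X b * g) ^ 2) = β c (X b * g) := by
      rw [← hβ c a d b (Ne.symm hbc) hca hcd hba hbd had, mul_comm (X c) (X b)]; rfl
    rw [e1, map_add, map_add, map_add, ho, ho, hb1, hc1, zero_add, add_zero] at h
    exact (CharTwo.add_eq_zero.1 h).symm
  have hβ0 := beta_zero (D := 8 * E - 2) (E := 4 * E - 2) (by omega) (by omega) hβp hβs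
  have hγ0 : ∀ i j, i ≠ j → tw (X i * X j) θ' = 0 := by
    refine gamma_zero (N := N) ⟨m, by omega⟩ (fun i j => (hγ' i j).deg) h1 hθ'p ?_
    intro i k l j hij hik hil hjk hjl hkl
    rw [hβ i k l j hij hik hil hjk hjl hkl, hβ0]
  have hM : 2 ^ (e + 4 + 1) = 4 + 2 * (2 ^ (e + 4) - 2) := by omega
  rw [hM] at hθ'p
  obtain ⟨ψ, hψ, hψ'⟩ := K4 hθ'p hγ0
  refine ⟨ψ, hψ, ?_⟩
  rw [← hψ', hθ', du_sub, ← add_assoc, du_add_self, zero_add]
  exact hσmem

/-- Case III: injectivity. -/
lemma KInj_III {b : ℕ} (hb : 4 ≤ b) : KInj 4 (2 ^ b - 2) := by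
  have hp : 2 ^ 4 ≤ 2 ^ b := Nat.pow_le_pow_right (by norm_num) hb
  have h2 : 2 ^ b = 2 * 2 ^ (b - 1) := by
    rw [← pow_succ']; congr 1; omega
  refine KInj_of_planes (n := 2 ^ b - 2) (k := 1) (m := 2 ^ b - 3) one_pos (by omega) (by omega)
    ?_ ?_
  · rw [Nat.choose_one_right]
    have : Odd (2 ^ b - 3) := ⟨2 ^ (b - 1) - 2, by omega⟩
    exact (ZMod.natCast_eq_one_iff_odd).2 this
  · intro θ hθ
    have e : 4 + 2 * (2 ^ b - 2) = 2 ^ (b + 1) := by rw [pow_succ]; omega
    rw [e] at hθ ⊢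
    exact cover_III hb hθ

end Pool.Agent.helper69.Kam
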