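import Pool.Agent.helper69.Kam.CaseII

set_option autoImplicit false

open MvPolynomial

namespace Pool.Agent.helper69.Kam

/-! ### Transitivity on the non-zero vectors -/

/-- an invertible matrix with first row `v`. -/
def rowMat (v : Fin 4 → ZMod 2) : Matrix (Fin 4) (Fin 4) (ZMod 2) :=
  if v 0 = 1 then ![v, ![0, 1, 0, 0], ![0, 0, 1, 0], ![0, 0, 0, 1]]
  else if v 1 = 1 then ![v, ![1, 0, 0, 0], ![0, 0, 1, 0], ![0, 0, 0, 1]]
  else if v 2 = 1 then ![v, ![1, 0, 0, 0], ![0, 1, 0, 0], ![0, 0, 0, 1]]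
  else ![v, ![1, 0, 0, 0], ![0, 1, 0, 0], ![0, 0, 1, 0]]

/-- its inverse. -/
def rowInv (v : Fin 4 → ZMod 2) : Matrix (Fin 4) (Fin 4) (ZMod 2) :=
  if v 0 = 1 then ![v, ![0, 1, 0, 0], ![0, 0, 1, 0], ![0, 0, 0, 1]]
  else if v 1 = 1 then ![![0, 1, 0, 0], ![1, 0, v 2, v 3], ![0, 0, 1, 0], ![0, 0, 0, 1]]
  else if v 2 = 1 then ![![0, 1, 0, 0], ![0, 0, 1, 0], ![1, 0, 0, v 3], ![0, 0, 0, 1]]
  else ![![0, 1, 0, 0], ![0, 0, 1, 0], ![0, 0, 0, 1], ![1, 0, 0, 0]]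

lemma rowMat_inv : ∀ v : Fin 4 → ZMod 2, v ≠ 0 → rowMat v * rowInv v = 1 := by
  decide +kernel

lemma rowMat_row : ∀ v : Fin 4 → ZMod 2, Matrix.vecMul (Pi.single 0 1) (rowMat v) = v := by
  decide +kernel

lemma rowMat_unit {v : Fin 4 → ZMod 2} (hv : v ≠ 0) : IsUnit (rowMat v).det := by
  have h := congrArg Matrix.det (rowMat_inv v hv)
  rw [Matrix.det_mul, Matrix.det_one] at h
  exact IsUnit.of_mul_eq_one _ h

lemma evd_sub_mem {n : ℕ} (hn : ∃ m, n + 1 = 2 ^ m) {v : Fin 4 → ZMod 2} (hv : v ≠ 0) :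
    evd v n - evd (Pi.single 0 1) n ∈ Aug 4 n := by
  have h := mem_Aug_of (evd_isPrim (Pi.single (0 : Fin 4) (1 : ZMod 2)) hn) (rowMat v)
    (rowMat_unit hv)
  rwa [evd_act, rowMat_row] at h

/-- a sum of evaluations with vanishing coefficient sum is zero in the coinvariants. -/
lemma sum_evd_mem {n : ℕ} (hn : ∃ m, n + 1 = 2 ^ m) (hn0 : 0 < n)
    (c : (Fin 4 → ZMod 2) → ZMod 2) (hc : ∑ v, (if v = 0 then 0 else c v) = 0) :
    ∑ v, c v • evd v n ∈ Aug 4 n := by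
  have h1 : ∑ v, c v • evd v n =
      ∑ v : Fin 4 → ZMod 2, (if v = 0 then 0 else c v) • (evd v n - evd (Pi.single 0 1) n) := by
    have h2 : ∀ v : Fin 4 → ZMod 2, c v • evd v n =
        (if v = 0 then 0 else c v) • (evd v n - evd (Pi.single 0 1) n) +
        (if v = 0 then 0 else c v) • evd (Pi.single 0 1) n := by
      intro v
      rw [← smul_add, sub_add_cancel]
      split_ifs with hv
      · rw [hv, evd_zero hn0, smul_zero, zero_smul]
      · rfl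
    rw [Finset.sum_congr rfl (fun v _ => h2 v), Finset.sum_add_distrib, ← Finset.sum_smul, hc,
      zero_smul, add_zero]
  rw [h1]
  refine Submodule.sum_mem _ fun v _ => ?_
  by_cases hv : v = 0
  · rw [if_pos hv, zero_smul]; exact Submodule.zero_mem _
  · exact Submodule.smul_mem _ _ (evd_sub_mem hn hv)

/-! ### An invariant functional on the span of the `zeta2` -/

/-- `x^2 y + x y^2`. -/
def Lf {R : Type*} [CommRing R] (x y : R) : R := x ^ 2 * y + x * y ^ 2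

/-- the cubic form used in `Ff`. -/
def Cf {R : Type*} [CommRing R] (p q r : R) : R :=
  p ^ 3 + q ^ 3 + r ^ 3 + p ^ 2 * q + p ^ 2 * r + q ^ 2 * r + p * q * r

/-- the polynomial detecting the `zeta2`. -/
def Ff {R : Type*} [CommRing R] (K : ℕ) (x : Fin 4 → R) : R :=
  x 0 ^ (K + 3) * Cf (Lf (x 0) (x 1)) (Lf (x 0) (x 2)) (Lf (x 0) (x 3)) +
  x 1 ^ (K + 2) * (x 1 + x 0) * Cf (Lf (x 1) (x 0)) (Lf (x 1) (x 2)) (Lf (x 1) (x 3)) +
  x 2 ^ (K + 1) * (x 2 + x 0) * (x 2 + x 1) *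
    Cf (Lf (x 2) (x 0)) (Lf (x 2) (x 1)) (Lf (x 2) (x 3)) +
  x 3 ^ K * (x 3 + x 0) * (x 3 + x 1) * (x 3 + x 2) *
    Cf (Lf (x 3) (x 0)) (Lf (x 3) (x 1)) (Lf (x 3) (x 2))

lemma map_Ff {R S : Type*} [CommRing R] [CommRing S] (f : R →+* S) (K : ℕ) (x : Fin 4 → R) :
    f (Ff K x) = Ff K (fun i => f (x i)) := by
  simp only [Ff, Cf, Lf, map_add, map_mul, map_pow]

/-- the linear form `a x_0 + b x_1`. -/
noncomputable def lf (a b : ZMod 2) : P 2 := C a * X 0 + C b * X 1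

/-- `x_0 x_1 (x_0 + x_1)`. -/
noncomputable def LL : P 2 := X 0 ^ 2 * X 1 + X 0 * X 1 ^ 2

lemma p2_two : (2 : P 2) = 0 := CharTwo.two_eq_zero

lemma lf_sq (a b : ZMod 2) : lf a b ^ 2 = C a * X 0 ^ 2 + C b * X 1 ^ 2 := by
  rw [lf, CharTwo.add_sq, mul_pow, mul_pow, ← C_pow, ← C_pow, zmod2_sq, zmod2_sq]

lemma Lf_lf (a b c e : ZMod 2) : Lf (lf a b) (lf c e) = C (a * e + b * c) * LL := by
  have h2 := p2_two
  rw [Lf, lf_sq, lf_sq, lf, lf, LL, map_add, map_mul, map_mul]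
  linear_combination (C a * C c * X 0 ^ 3 + C b * C e * X 1 ^ 3) * h2

/-- the values of the cubic form on multiples. -/
def Pf (p q r : ZMod 2) : ZMod 2 := p + q + r + p * q + p * r + q * r + p * q * r

lemma Cf_lf (p q r : ZMod 2) (u : P 2) : Cf (C p * u) (C q * u) (C r * u) = C (Pf p q r) * u ^ 3 := by
  have e : ∀ (x : ZMod 2), x ^ 3 = x := by decide
  have e2 : ∀ (x : ZMod 2), x ^ 2 = x := by decide
  have h : Cf (C p * u) (C q * u) (C r * u) =
      C (p ^ 3 + q ^ 3 + r ^ 3 + p ^ 2 * q + p ^ 2 * r + q ^ 2 * r + p * q * r) * u ^ 3 := by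
    simp only [Cf, map_add, map_mul, map_pow]; ring
  rw [h, Pf, e p, e q, e r, e2 p, e2 q]

/-- one if `v`, `w` are linearly independent, zero otherwise. -/
def nz (v w : Fin 4 → ZMod 2) : ZMod 2 := if v = 0 ∨ w = 0 ∨ v = w then 0 else 1

lemma nz_formula : ∀ v w : Fin 4 → ZMod 2,
    v 0 * Pf (v 0 * w 1 + w 0 * v 1) (v 0 * w 2 + w 0 * v 2) (v 0 * w 3 + w 0 * v 3) +
    v 1 * (v 1 + v 0) *
      Pf (v 1 * w 0 + w 1 * v 0) (v 1 * w 2 + w 1 * v 2) (v 1 * w 3 + w 1 * v 3) +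
    v 2 * (v 2 + v 0) * (v 2 + v 1) *
      Pf (v 2 * w 0 + w 2 * v 0) (v 2 * w 1 + w 2 * v 1) (v 2 * w 3 + w 2 * v 3) +
    v 3 * (v 3 + v 0) * (v 3 + v 1) * (v 3 + v 2) *
      Pf (v 3 * w 0 + w 3 * v 0) (v 3 * w 1 + w 3 * v 1) (v 3 * w 2 + w 3 * v 2) = nz v w := by
  decide +kernel

lemma sub_rows_X (v w : Fin 4 → ZMod 2) (j : Fin 4) : sub (rows v w) (X j) = lf (v j) (w j) := by
  rw [sub_X, Fin.sum_univ_two]; rfl

lemma LL_cube : (LL : P 2) ^ 3 = X 1 ^ 3 * (X 0 ^ 3 * (X 0 + X 1) ^ 3) := by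
  rw [LL]; ring

lemma zeta2_eq (N : ℕ) (v w : Fin 4 → ZMod 2) :
    zeta2 N v w = (lcoeff (ZMod 2) (Finsupp.single 1 3 + Finsupp.single (0 : Fin 2) (4 * N + 3))) ∘ₗ
      (sub (rows v w)).toLinearMap := by
  rw [zeta2, kameko_dual_basis, kameko_dual_basis]
  congr 2
  ext i
  fin_cases i
  · simp; ring
  · simp

lemma zeta2_Ff (K N : ℕ) (hK : 4 * N = K + 6) (hK0 : 0 < K) (v w : Fin 4 → ZMod 2) :
    zeta2 N v w (Ff K X) = nz v w := by
  have h1 : sub (rows v w) (Ff K X) = Ff K (fun j => lf (v j) (w j)) := by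
    have := map_Ff ((sub (rows v w) : P 4 →ₐ[ZMod 2] P 2) : P 4 →+* P 2) K X
    simp only [RingHom.coe_coe] at this
    rw [this]
    congr 1
    funext j
    exact sub_rows_X v w j
  obtain ⟨K, rfl⟩ := Nat.exists_eq_succ_of_ne_zero (Nat.pos_iff_ne_zero.1 hK0)
  rw [Nat.succ_eq_add_one] at hK h1 ⊢
  set Q : P 2 := (lf (v 0) (w 0) ^ (K + 4) *
      C (Pf (v 0 * w 1 + w 0 * v 1) (v 0 * w 2 + w 0 * v 2) (v 0 * w 3 + w 0 * v 3)) +
    lf (v 1) (w 1) ^ (K + 3) * (lf (v 1) (w 1) + lf (v 0) (w 0)) *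
      C (Pf (v 1 * w 0 + w 1 * v 0) (v 1 * w 2 + w 1 * v 2) (v 1 * w 3 + w 1 * v 3)) +
    lf (v 2) (w 2) ^ (K + 2) * (lf (v 2) (w 2) + lf (v 0) (w 0)) * (lf (v 2) (w 2) + lf (v 1) (w 1)) *
      C (Pf (v 2 * w 0 + w 2 * v 0) (v 2 * w 1 + w 2 * v 1) (v 2 * w 3 + w 2 * v 3)) +
    lf (v 3) (w 3) ^ (K + 1) * (lf (v 3) (w 3) + lf (v 0) (w 0)) *
      (lf (v 3) (w 3) + lf (v 1) (w 1)) * (lf (v 3) (w 3) + lf (v 2) (w 2)) *
      C (Pf (v 3 * w 0 + w 3 * v 0) (v 3 * w 1 + w 3 * v 1) (v 3 * w 2 + w 3 * v 2))) *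
      (X 0 ^ 3 * (X 0 + X 1) ^ 3) with hQ
  have h2 : Ff (K + 1) (fun j => lf (v j) (w j)) = X 1 ^ 3 * Q := by
    rw [Ff]
    simp only [Lf_lf, Cf_lf, LL_cube]
    rw [hQ]; ring
  have h3 : (X 1 ^ 3 : P 2) = monomial (Finsupp.single 1 3) 1 := by
    rw [X_pow_eq_monomial]
  rw [zeta2_eq, LinearMap.comp_apply, AlgHom.toLinearMap_apply, h1, h2, h3, lcoeff_apply,
    coeff_monomial_mul, one_mul, coeff_single_eq]
  -- set the second variable to zero
  set ρ : P 2 →ₐ[ZMod 2] Polynomial (ZMod 2) :=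
    aeval (fun i : Fin 2 => if i = 0 then (Polynomial.X : Polynomial (ZMod 2)) else 0) with hρ
  have hρlf : ∀ a b : ZMod 2, ρ (lf a b) = Polynomial.C a * Polynomial.X := by
    intro a b
    simp [lf, hρ]
  have hρC : ∀ a : ZMod 2, ρ (C a) = Polynomial.C a := by
    intro a; simp [hρ]
  have hρ0 : ρ (X 0) = Polynomial.X := by simp [hρ]
  have hρ1 : ρ (X 1) = 0 := by simp [hρ]
  have hpow : ∀ (a : ZMod 2) (r : ℕ), (Polynomial.C a * Polynomial.X) ^ (r + 1) =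
      Polynomial.C a * Polynomial.X ^ (r + 1) := by
    intro a r
    rw [mul_pow, ← Polynomial.C_pow, pow_eq_self a (r + 1) (by omega)]
  have h4 : ρ Q = Polynomial.C (nz v w) * Polynomial.X ^ (K + 10) := by
    rw [← nz_formula v w, hQ]
    simp only [map_mul, map_add, map_pow, hρlf, hρC, hρ0, hρ1]
    rw [hpow, hpow, hpow, hpow]
    ring
  rw [h4, Polynomial.coeff_C_mul, Polynomial.coeff_X_pow, if_pos (by omega), mul_one]

/-! ### Invariance -/

lemma vecMul_inj {g : Matrix (Fin 4) (Fin 4) (ZMod 2)} (hg : g.det ≠ 0)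
    {v w : Fin 4 → ZMod 2} (h : Matrix.vecMul v g = Matrix.vecMul w g) : v = w := by
  have hu : IsUnit g.det := isUnit_iff_ne_zero.2 hg
  have h1 := congrArg (fun u => Matrix.vecMul u g⁻¹) h
  simp only [Matrix.vecMul_vecMul, Matrix.mul_nonsing_inv g hu, Matrix.vecMul_one] at h1
  exact h1

lemma nz_vecMul {g : Matrix (Fin 4) (Fin 4) (ZMod 2)} (hg : g.det ≠ 0) (v w : Fin 4 → ZMod 2) :
    nz (Matrix.vecMul v g) (Matrix.vecMul w g) = nz v w := by
  have h0 : ∀ v, Matrix.vecMul v g = 0 ↔ v = 0 := by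
    intro v
    constructor
    · intro h
      apply vecMul_inj hg
      rw [h, Matrix.zero_vecMul]
    · rintro rfl
      exact Matrix.zero_vecMul g
  have h1 : Matrix.vecMul v g = Matrix.vecMul w g ↔ v = w := ⟨fun h => vecMul_inj hg h, fun h => by rw [h]⟩
  simp only [nz, h0, h1]

lemma S2_invariant {K N : ℕ} (hK : 4 * N = K + 6) (hK0 : 0 < K) {σ : Du 4} (hσ : σ ∈ S2 N)
    {g : Matrix (Fin 4) (Fin 4) (ZMod 2)} (hg : g.det ≠ 0) :
    σ (act g (Ff K X)) = σ (Ff K X) := by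
  induction hσ using Submodule.span_induction with
  | mem σ h =>
      obtain ⟨v, w, rfl⟩ := h
      have h1 : zeta2 N v w (act g (Ff K X)) =
          zeta2 N (Matrix.vecMul v g) (Matrix.vecMul w g) (Ff K X) := by
        rw [← zeta2_act]; rfl
      rw [h1, zeta2_Ff K N hK hK0, zeta2_Ff K N hK hK0, nz_vecMul hg]
  | zero => rfl
  | add a b _ _ ha hb => rw [LinearMap.add_apply, LinearMap.add_apply, ha, hb]
  | smul c a _ ha => rw [LinearMap.smul_apply, LinearMap.smul_apply, ha]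

lemma AugS2_kills {K N : ℕ} (hK : 4 * N = K + 6) (hK0 : 0 < K) {σ : Du 4}
    (hσ : σ ∈ AugS (S2 N)) : σ (Ff K X) = 0 := by
  induction hσ using Submodule.span_induction with
  | mem σ h =>
      obtain ⟨g, τ, hτ, rfl⟩ := h
      rw [LinearMap.sub_apply, LinearMap.comp_apply, AlgHom.toLinearMap_apply,
        S2_invariant hK hK0 hτ (det_ne_zero g), sub_self]
  | zero => rfl
  | add a b _ _ ha hb => rw [LinearMap.add_apply, ha, hb, add_zero]
  | smul c a _ ha => rw [LinearMap.smul_apply, ha, smul_zero]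

/-! ### The Kameko image of an evaluation -/

lemma evd_single {d n : ℕ} (i : Fin d) :
    evd (Pi.single i (1 : ZMod 2)) n = lcoeff (ZMod 2) (Finsupp.single i n) := by
  apply ext_mon
  intro t
  rw [lcoeff_apply, coeff_monomial]
  by_cases ht : t.degree = n
  · rw [evd_mon _ ht]
    by_cases h : t = Finsupp.single i n
    · rw [if_pos h]
      apply Finset.prod_eq_one
      intro j _
      rw [h, Finsupp.single_apply]
      by_cases hij : i = j
      · subst hij; simp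
      · rw [if_neg hij, pow_zero]
    · rw [if_neg h]
      obtain ⟨j, hj, hj0⟩ : ∃ j, j ≠ i ∧ t j ≠ 0 := by
        by_contra hcon
        push Not at hcon
        apply h
        have h1 : t = Finsupp.single i (t i) := by
          ext j
          rw [Finsupp.single_apply]
          split_ifs with hij
          · rw [hij]
          · exact hcon j (Ne.symm hij)
        rw [h1] at ht
        rw [Finsupp.degree_single] at ht
        rw [h1, ht]
      apply Finset.prod_eq_zero (Finset.mem_univ j)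
      rw [Pi.single_eq_of_ne hj, zero_pow hj0]
  · rw [evd_mon_ne _ ht, if_neg]
    rintro rfl
    exact ht (Finsupp.degree_single _ _)

lemma sum_c3 (a b c : ℕ) : ∑ u : Fin 3 → ZMod 2, u 0 ^ a * u 1 ^ b * u 2 ^ c =
    if a ≠ 0 ∧ b ≠ 0 ∧ c ≠ 0 then 1 else 0 := by
  have hp : ∀ (x : ZMod 2) (r : ℕ), x ^ r = if r = 0 then 1 else x := by
    intro x r
    split_ifs with h
    · rw [h, pow_zero]
    · exact pow_eq_self x r h
  simp only [hp]
  by_cases ha : a = 0 <;> by_cases hb : b = 0 <;> by_cases hc : c = 0 <;>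
    simp only [ha, hb, hc, if_true, if_false, ne_eq, not_true, not_false_eq_true, and_true,
      and_false] <;> decide

lemma mon_four (t : Fin 4 →₀ ℕ) :
    (monomial t 1 : P 4) = X 0 ^ t 0 * X 1 ^ t 1 * X 2 ^ t 2 * X 3 ^ t 3 := by
  rw [monomial_eq, Finsupp.prod_fintype _ _ (by simp), Fin.prod_univ_four]
  simp

lemma sub_rows_mon (v w : Fin 4 → ZMod 2) (t : Fin 4 →₀ ℕ) :
    sub (rows v w) (X 0 ^ t 0 * X 1 ^ t 1 * X 2 ^ t 2 * X 3 ^ t 3) =
      lf (v 0) (w 0) ^ t 0 * lf (v 1) (w 1) ^ t 1 * lf (v 2) (w 2) ^ t 2 * lf (v 3) (w 3) ^ t 3 := by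
  simp only [map_mul, map_pow, sub_rows_X]

lemma KEvd (N : ℕ) : (evd (Pi.single (0 : Fin 4) (1 : ZMod 2)) (2 * N + 1)) ∘ₗ kappa 4 =
    ∑ c : Fin 3 → ZMod 2, zeta2 N (Pi.single 0 1) (Fin.cons 0 c) := by
  rw [evd_single, kameko_dual_basis]
  apply ext_mon
  intro t
  rw [lcoeff_apply, coeff_monomial, LinearMap.sum_apply]
  have h1 : ∀ c : Fin 3 → ZMod 2, zeta2 N (Pi.single 0 1) (Fin.cons 0 c) (monomial t 1) =
      if t 0 = 4 * N + 3 ∧ t 1 + t 2 + t 3 = 3 then c 0 ^ t 1 * c 1 ^ t 2 * c 2 ^ t 3 else 0 := by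
    intro c
    have hs := sub_rows_mon (Pi.single 0 1) (Fin.cons 0 c) t
    rw [zeta2_eq, LinearMap.comp_apply, AlgHom.toLinearMap_apply, mon_four, hs]
    have e0 : lf ((Pi.single 0 1 : Fin 4 → ZMod 2) 0) ((Fin.cons 0 c : Fin 4 → ZMod 2) 0) = X 0 := by
      simp [lf]
    have e1 : lf ((Pi.single 0 1 : Fin 4 → ZMod 2) 1) ((Fin.cons 0 c : Fin 4 → ZMod 2) 1) =
        C (c 0) * X 1 := by
      have : (Fin.cons 0 c : Fin 4 → ZMod 2) 1 = c 0 := rfl
      rw [this]; simp [lf]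
    have e2 : lf ((Pi.single 0 1 : Fin 4 → ZMod 2) 2) ((Fin.cons 0 c : Fin 4 → ZMod 2) 2) =
        C (c 1) * X 1 := by
      have : (Fin.cons 0 c : Fin 4 → ZMod 2) 2 = c 1 := rfl
      rw [this]; simp [lf]
    have e3 : lf ((Pi.single 0 1 : Fin 4 → ZMod 2) 3) ((Fin.cons 0 c : Fin 4 → ZMod 2) 3) =
        C (c 2) * X 1 := by
      have : (Fin.cons 0 c : Fin 4 → ZMod 2) 3 = c 2 := rfl
      rw [this]; simp [lf]
    rw [e0, e1, e2, e3]
    have e4 : (X 0 ^ t 0 * (C (c 0) * X 1) ^ t 1 * (C (c 1) * X 1) ^ t 2 * (C (c 2) * X 1) ^ t 3 :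
        P 2) = monomial (Finsupp.single 1 (t 1 + t 2 + t 3) + Finsupp.single 0 (t 0))
          (c 0 ^ t 1 * c 1 ^ t 2 * c 2 ^ t 3) := by
      rw [mul_pow, mul_pow, mul_pow, ← C_pow, ← C_pow, ← C_pow]
      have : monomial (Finsupp.single 1 (t 1 + t 2 + t 3) + Finsupp.single 0 (t 0))
          (c 0 ^ t 1 * c 1 ^ t 2 * c 2 ^ t 3) =
          C (c 0 ^ t 1 * c 1 ^ t 2 * c 2 ^ t 3) * ((X 1 ^ (t 1 + t 2 + t 3) * X 0 ^ t 0 : P 2)) := by
        rw [X_pow_eq_monomial, X_pow_eq_monomial, monomial_mul, one_mul, C_mul_monomial, mul_one]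
      rw [this, map_mul, map_mul]
      ring
    rw [e4, lcoeff_apply, coeff_monomial]
    have e5 : (Finsupp.single 1 (t 1 + t 2 + t 3) + Finsupp.single (0 : Fin 2) (t 0) =
        Finsupp.single 1 3 + Finsupp.single 0 (4 * N + 3)) ↔
        (t 0 = 4 * N + 3 ∧ t 1 + t 2 + t 3 = 3) := by
      constructor
      · intro h
        have h0 := DFunLike.congr_fun h 0
        have h1 := DFunLike.congr_fun h 1
        simp at h0 h1
        exact ⟨h0, h1⟩
      · rintro ⟨h0, h1⟩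
        rw [h0, h1]
    simp only [e5]
  rw [Finset.sum_congr rfl (fun c _ => h1 c)]
  by_cases hc : t 0 = 4 * N + 3 ∧ t 1 + t 2 + t 3 = 3
  · simp only [hc, and_self, if_true]
    rw [sum_c3]
    have : (t = 2 • Finsupp.single 0 (2 * N + 1) + Finsupp.equivFunOnFinite.symm (fun _ => 1)) ↔
        (t 1 ≠ 0 ∧ t 2 ≠ 0 ∧ t 3 ≠ 0) := by
      constructor
      · intro h
        rw [h]; simp
      · rintro ⟨h1, h2, h3⟩
        ext i
        rcases fin4_cases i with rfl | rfl | rfl | rfl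
        · simp; omega
        · simp; omega
        · simp; omega
        · simp; omega
    simp only [this]
  · simp only [hc, if_false, Finset.sum_const_zero]
    rw [if_neg]
    rintro rfl
    apply hc
    simp
    omega

lemma KEvd_value {K N : ℕ} (hK : 4 * N = K + 6) (hK0 : 0 < K) {v : Fin 4 → ZMod 2}
    (hv : v ≠ 0) : (evd v (2 * N + 1) ∘ₗ kappa 4) (Ff K X) = 1 := by
  have hdet : (rowMat v).det ≠ 0 := (rowMat_unit hv).ne_zero
  have h1 : evd v (2 * N + 1) ∘ₗ kappa 4 =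
      ((evd (Pi.single (0 : Fin 4) (1 : ZMod 2)) (2 * N + 1)) ∘ₗ kappa 4) ∘ₗ
        (act (rowMat v)).toLinearMap := by
    rw [← rowMat_row v, ← evd_act, rowMat_row v]
    apply LinearMap.ext
    intro f
    simp only [LinearMap.comp_apply, AlgHom.toLinearMap_apply]
    rw [kappa_act _ hdet]
  rw [h1, KEvd, LinearMap.comp_apply, AlgHom.toLinearMap_apply, LinearMap.sum_apply]
  have h2 : ∀ c : Fin 3 → ZMod 2,
      zeta2 N (Pi.single 0 1) (Fin.cons 0 c) (act (rowMat v) (Ff K X)) =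
        nz (Pi.single 0 1) (Fin.cons 0 c) := by
    intro c
    rw [S2_invariant hK hK0 (zeta2_mem _ _ _) hdet, zeta2_Ff K N hK hK0]
  rw [Finset.sum_congr rfl (fun c _ => h2 c)]
  decide

/-- Case II: injectivity. -/
lemma KInj_II {b : ℕ} (hb : 3 ≤ b) : KInj 4 (2 ^ (b + 1) - 1) := by
  have hp : 2 ^ 3 ≤ 2 ^ b := Nat.pow_le_pow_right (by norm_num) hb
  have h2 : 2 ^ (b + 1) = 2 * 2 ^ b := by rw [pow_succ]; ring
  set N : ℕ := 2 ^ b - 1 with hN
  have hn : 2 ^ (b + 1) - 1 = 2 * N + 1 := by omega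
  have hNpow : ∃ m, N + 1 = 2 ^ m := ⟨b, by omega⟩
  have hnpow : ∃ m, (2 ^ (b + 1) - 1) + 1 = 2 ^ m := ⟨b + 1, by omega⟩
  refine assembly (S2 N) (fun θ hθ => cover_II hb hθ) ?_
  intro ψ hψ hmem
  have h1 := AugS_le (fun σ hσ g => S2_act hσ g) hmem
  have h3 := S2_le_Spl hNpow h1
  obtain ⟨c, hc⟩ := SO (by omega) hψ.deg (inter h3)
  rw [hc]
  apply sum_evd_mem hnpow (by omega)
  have hK : 4 * N = (4 * N - 6) + 6 := by omega
  have hK0 : 0 < 4 * N - 6 := by omega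
  have h4 := AugS2_kills hK hK0 hmem
  rw [hc] at h4
  have h5 : ((∑ v, c v • evd v (2 ^ (b + 1) - 1)) ∘ₗ kappa 4) (Ff (4 * N - 6) X) =
      ∑ v, c v * ((evd v (2 ^ (b + 1) - 1) ∘ₗ kappa 4) (Ff (4 * N - 6) X)) := by
    rw [LinearMap.comp_apply, LinearMap.sum_apply]
    rfl
  rw [h5] at h4
  refine Eq.trans (Finset.sum_congr rfl fun v _ => ?_) h4
  split_ifs with hv
  · rw [hv, evd_zero (by omega)]
    simp
  · rw [hn, KEvd_value hK hK0 hv, mul_one]

end Pool.Agent.helper69.Kam
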