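import Pool.Agent.helper69.Kam.CaseI

set_option autoImplicit false
set_option linter.unusedSectionVars false

open MvPolynomial

namespace Pool.Agent.helper69.Kam

/-- the functionals `D`. -/
noncomputable def Dfun (θ : Du 4) (k : ℕ) : Du 4 :=
  ∑ S ∈ Finset.range 64, if (Dm k).testBit S then gS θ S else 0

lemma Dfun_apply (θ : Du 4) (k : ℕ) (f : P 4) :
    Dfun θ k f = ev1 (fun S => gS θ S f) (Dm k) := by
  rw [Dfun, LinearMap.sum_apply, ev1]
  refine Finset.sum_congr rfl fun S _ => ?_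
  split_ifs <;> rfl

/-- a functional killed by the annihilator is invariant under the projection. -/
lemma proj_inv {φ : Du 4} {Q : Matrix (Fin 4) (Fin 4) (ZMod 2)}
    (h : ∀ j f, φ ((∑ i, C ((Q + 1) i j) * X i) * f) = 0) :
    φ ∘ₗ (sub Q).toLinearMap = φ := by
  have key : ∀ t : Fin 4 →₀ ℕ, ∀ f, φ (sub Q (monomial t 1) * f) = φ (monomial t 1 * f) := by
    intro t
    refine monomial_ind (Q := fun t => ∀ f, φ (sub Q (monomial t 1) * f) = φ (monomial t 1 * f))
      ?_ ?_ t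
    · intro f
      have h1 : (monomial 0 1 : P 4) = 1 := rfl
      rw [h1, map_one]
    · intro t j ih f
      have e0 : sub Q (monomial t 1 * X j) = sub Q (monomial t 1) * sub Q (X j) := map_mul _ _ _
      rw [monomial_one_add_single, e0]
      have e : sub Q (X j) = X j + ∑ i, C ((Q + 1) i j) * X i := by
        rw [sub_X]
        simp only [Matrix.add_apply, map_add, add_mul, Finset.sum_add_distrib]
        have h2 : ∑ i, C ((1 : Matrix (Fin 4) (Fin 4) (ZMod 2)) i j) * X i = (X j : P 4) := by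
          rw [Finset.sum_eq_single j]
          · simp
          · intro i _ hi; simp [Matrix.one_apply_ne hi]
          · simp
        rw [h2, add_comm (X j : P 4), add_assoc, CharTwo.add_self_eq_zero, add_zero]
      rw [e, mul_add, add_mul, map_add]
      have h3 : φ (sub Q (monomial t 1) * (∑ i, C ((Q + 1) i j) * X i) * f) = 0 := by
        rw [show sub Q (monomial t 1) * (∑ i, C ((Q + 1) i j) * X i) * f =
          (∑ i, C ((Q + 1) i j) * X i) * (sub Q (monomial t 1) * f) by ring]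
        exact h j _
      rw [h3, add_zero, mul_assoc, ih, mul_assoc]
  apply ext_mon
  intro t
  have := key t 1
  rwa [mul_one, mul_one] at this

/-- comparison of three functionals on a product. -/
lemma sym_aux {A B D : Du 4} {x y g : P 4} (h1 : D (x * (y * g)) + A (x * (y * g)) = 0)
    (h2 : D (y * (x * g)) + B (y * (x * g)) = 0) :
    (A ∘ₗ LinearMap.mulLeft (ZMod 2) x) (y * g) = (B ∘ₗ LinearMap.mulLeft (ZMod 2) y) (x * g) := by
  have e : x * (y * g) = y * (x * g) := by ring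
  rw [e] at h1
  rw [LinearMap.comp_apply, LinearMap.comp_apply, LinearMap.mulLeft_apply,
    LinearMap.mulLeft_apply, e]
  exact (CharTwo.add_eq_zero.1 h1).symm.trans (CharTwo.add_eq_zero.1 h2)

section caseI

variable {M N N' N'' : ℕ} {θ : Du 4} (hθ : IsPrim 4 M θ) (hM : M = 2 + 2 * N)
  (hN : N = 2 + 2 * N') (hN' : N' = 2 + 2 * N'') (h0 : 0 < N'')

include hθ hM hN hN'

lemma Dfun_isPrim (k : ℕ) : IsPrim 4 N'' (Dfun θ k) := by
  rw [Dfun]
  refine IsPrim.sum _ fun S _ => ?_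
  split_ifs
  · exact gg_isPrim hθ hM hN hN' _ _ _
  · exact IsPrim.zero _ _

include h0

/-- the pure decomposition. -/
lemma pure_sum (p q r : Fin 6) (f : P 4) :
    (∑ k ∈ Finset.range 35, if sup k &&& cn p q r = cn p q r then Dfun θ k f else 0) =
      gg θ p q r f := by
  obtain ⟨e, he, hec⟩ := pTab_cover p q r
  have h1 := pTab_ok e he
  have h2 := congrArg (ev1 (fun S => gS θ S f)) h1
  rw [ev1_xor, ev1_sel _ _ (pure_zero hθ hM hN hN' h0 f), ev1_CmR, hec,
    ev1_U hθ hM hN hN' h0] at h2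
  have h3 := CharTwo.add_eq_zero.1 h2
  rw [h3]
  refine Finset.sum_congr rfl fun k _ => ?_
  split_ifs
  · exact Dfun_apply θ k f
  · rfl

/-- the functionals `D` on the annihilators. -/
lemma Dfun_ann {k : ℕ} (hk : k < 35) (a : Fin 4 → ZMod 2)
    (hv : ∑ i, bv (plV.getD k 0) i * a i = 0) (hw : ∑ i, bv (plW.getD k 0) i * a i = 0)
    (f : P 4) :
    ∑ i : Fin 4, a i * (Dfun θ k (X i * f) + Dfun θ (pi4 i) (X i * f)) = 0 := by
  by_cases ha : a = 0
  · rw [ha]; simp
  obtain ⟨e, he, hek, hea⟩ := wTab_cover hk a ha hv hw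
  have h1 := wTab_ok e he
  have h2 := congrArg (ev2 (fun i S => gS θ S (X i * f))) h1
  rw [ev2_sel _ _ (rel_zero hθ hM hN hN' h0 f), hek] at h2
  have hlt : ∀ i : Fin 4, Dm k ^^^ Dm (pi4 i) < 2 ^ 64 := fun i =>
    Nat.xor_lt_two_pow (Dm_lt k hk) (Dm_lt _ (ann_pi i))
  have hterm : ∀ i : Fin 4, ev2 (fun i S => gS θ S (X i * f))
      (if e.2.1.testBit i then (Dm k ^^^ Dm (pi4 i)) <<< (64 * (i : ℕ)) else 0) =
      a i * (Dfun θ k (X i * f) + Dfun θ (pi4 i) (X i * f)) := by
    intro i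
    have hai : a i = if e.2.1.testBit i then 1 else 0 := by rw [← hea]; rfl
    rw [hai]
    split_ifs
    · rw [ev2_shift _ i (hlt i), ev1_xor, Dfun_apply, Dfun_apply, one_mul]
    · rw [ev2_zero, zero_mul]
  rw [Wm, ev2_xor, ev2_xor, ev2_xor] at h2
  rw [Fin.sum_univ_four, ← hterm 0, ← hterm 1, ← hterm 2, ← hterm 3, ← h2]
  rfl

attribute [local irreducible] Dfun in
/-- the correction term. -/
lemma exists_phi0 : ∃ φ : Du 4, IsPrim 4 N'' φ ∧
    ∀ (i : Fin 4) (f : P 4), φ (X i * f) = Dfun θ (pi4 i) (X i * f) := by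
  have hsym : ∀ i j : Fin 4, ∀ g : P 4, (Dfun θ (pi4 i) ∘ₗ LinearMap.mulLeft (ZMod 2) (X i)) (X j * g) =
      (Dfun θ (pi4 j) ∘ₗ LinearMap.mulLeft (ZMod 2) (X j)) (X i * g) := by
    intro i j g
    by_cases hij : i = j
    · rw [hij]
    · obtain ⟨k, h1, h2, h3, h4⟩ := ann_pair i j hij
      have s1 := Dfun_ann hθ hM hN hN' h0 k.2 (Pi.single i 1) (by
        rw [Finset.sum_eq_single i]
        · rw [h1, zero_mul]
        · intro b _ hb; rw [Pi.single_eq_of_ne hb, mul_zero]
        · intro h; exact absurd (Finset.mem_univ i) h) (by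
        rw [Finset.sum_eq_single i]
        · rw [h2, zero_mul]
        · intro b _ hb; rw [Pi.single_eq_of_ne hb, mul_zero]
        · intro h; exact absurd (Finset.mem_univ i) h) (X j * g)
      have s2 := Dfun_ann hθ hM hN hN' h0 k.2 (Pi.single j 1) (by
        rw [Finset.sum_eq_single j]
        · rw [h3, zero_mul]
        · intro b _ hb; rw [Pi.single_eq_of_ne hb, mul_zero]
        · intro h; exact absurd (Finset.mem_univ j) h) (by
        rw [Finset.sum_eq_single j]
        · rw [h4, zero_mul]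
        · intro b _ hb; rw [Pi.single_eq_of_ne hb, mul_zero]
        · intro h; exact absurd (Finset.mem_univ j) h) (X i * g)
      rw [Finset.sum_eq_single i (fun b _ hb => by rw [Pi.single_eq_of_ne hb, zero_mul])
        (fun h => absurd (Finset.mem_univ i) h), Pi.single_eq_same, one_mul] at s1
      rw [Finset.sum_eq_single j (fun b _ hb => by rw [Pi.single_eq_of_ne hb, zero_mul])
        (fun h => absurd (Finset.mem_univ j) h), Pi.single_eq_same, one_mul] at s2
      exact sym_aux s1 s2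
  obtain ⟨φ, hφ, hφ1⟩ := koszul
    (fun i : Fin 4 => Dfun θ (pi4 i) ∘ₗ LinearMap.mulLeft (ZMod 2) (X i)) hsym
  refine ⟨φ, ⟨?_, ?_⟩, fun i f => hφ i f⟩
  · -- degree
    apply Deg_of_mon
    intro t ht
    by_cases ht0 : t = 0
    · rw [ht0]; exact hφ1
    · obtain ⟨i, hi⟩ := Finsupp.support_nonempty_iff.2 ht0
      rw [Finsupp.mem_support_iff] at hi
      rw [monomial_split hi, hφ, LinearMap.comp_apply, LinearMap.mulLeft_apply,
        ← monomial_split hi]
      exact (Dfun_isPrim hθ hM hN hN' _).deg.mon ht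
  · intro k hk f
    obtain ⟨k, rfl⟩ := Nat.exists_eq_succ_of_ne_zero (Nat.pos_iff_ne_zero.1 hk)
    have key : φ ∘ₗ (⟨⟨Sq 4 (k + 1), Sq_add 4 (k + 1)⟩, Sq_smul 4 (k + 1)⟩ :
        P 4 →ₗ[ZMod 2] P 4) = 0 := by
      apply ext_mon
      intro t
      show φ (Sq 4 (k + 1) (monomial t 1)) = 0
      by_cases ht0 : t = 0
      · have h1 : (monomial t 1 : P 4) = 1 := by rw [ht0]; rfl
        rw [h1, Sq_one_zero 4 _ (Nat.succ_pos k), map_zero]
      · obtain ⟨i, hi⟩ := Finsupp.support_nonempty_iff.2 ht0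
        rw [Finsupp.mem_support_iff] at hi
        have hs : ∀ h : P 4, φ (Sq 4 (k + 1) (h * X i)) = 0 := by
          intro h
          have e : Sq 4 (k + 1) (h * X i) = X i * (Sq 4 (k + 1) h + Sq 4 k h * X i) := by
            rw [Sq_mul_X_succ]; ring
          rw [e, hφ, LinearMap.comp_apply, LinearMap.mulLeft_apply, ← e]
          exact (Dfun_isPrim hθ hM hN hN' _).kills _ (Nat.succ_pos k) _
        rw [monomial_split hi, mul_comm]
        exact hs _
    exact LinearMap.congr_fun key f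

/-- Case I: `n + 3 = 2^s + 2^t`, `s ≥ t ≥ 2`, `s + t ≥ 5`. -/
lemma cover_I {n : ℕ} (hn : M = 4 + 2 * n) :
    ∃ ψ, IsPrim 4 n ψ ∧ θ - ψ ∘ₗ kappa 4 ∈ Spl 4 M := by
  obtain ⟨φ0, hφ0, hφ0X⟩ := exists_phi0 hθ hM hN hN' h0
  set φ' : ℕ → Du 4 := fun k => Dfun θ k + φ0 with hφ'
  have hφ'p : ∀ k, IsPrim 4 N'' (φ' k) := fun k => (Dfun_isPrim hθ hM hN hN' k).add hφ0
  -- vanishing on the annihilator
  have hann : ∀ k < 35, ∀ a : Fin 4 → ZMod 2, (∑ i, bv (plV.getD k 0) i * a i = 0) →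
      (∑ i, bv (plW.getD k 0) i * a i = 0) → ∀ f, φ' k ((∑ i, C (a i) * X i) * f) = 0 := by
    intro k hk a hv hw f
    have h1 := Dfun_ann hθ hM hN hN' h0 hk a hv hw f
    rw [← h1, Finset.sum_mul, map_sum]
    refine Finset.sum_congr rfl fun i _ => ?_
    rw [mul_assoc, ← smul_eq_C_mul, map_smul, smul_eq_mul, hφ', LinearMap.add_apply, hφ0X]
  -- sum over the planes
  have hsum : ∀ p q r f, (∑ k ∈ Finset.range 35, if sup k &&& cn p q r = cn p q r then φ' k f
      else 0) = gg θ p q r f := by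
    intro p q r f
    rw [← pure_sum hθ hM hN hN' h0 p q r f]
    have h1 : ∀ k ∈ Finset.range 35, (if sup k &&& cn p q r = cn p q r then φ' k f else 0) =
        (if sup k &&& cn p q r = cn p q r then Dfun θ k f else 0) +
        (if sup k &&& cn p q r = cn p q r then (1 : ZMod 2) else 0) * φ0 f := by
      intro k _
      split_ifs
      · rw [hφ', LinearMap.add_apply, one_mul]
      · rw [zero_mul, add_zero]
    rw [Finset.sum_congr rfl h1, Finset.sum_add_distrib, ← Finset.sum_mul, even_planes, zero_mul,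
      add_zero]
  -- the functionals on the planes
  set ψ2 : ℕ → Du 2 := fun k => φ' k ∘ₗ (sub (secM k)).toLinearMap with hψ2
  have hψ2p : ∀ k, IsPrim 2 N'' (ψ2 k) := fun k => (hφ'p k).subst _
  have hrec : ∀ k < 35, ψ2 k ∘ₗ (sub (plM k)).toLinearMap = φ' k := by
    intro k hk
    have h1 : ψ2 k ∘ₗ (sub (plM k)).toLinearMap = φ' k ∘ₗ (sub (secM k * plM k)).toLinearMap := by
      apply LinearMap.ext
      intro f
      rw [hψ2]
      simp only [LinearMap.comp_apply, AlgHom.toLinearMap_apply]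
      rw [sub_sub]
    rw [h1]
    have hz : plM k * (secM k * plM k + 1) = 0 := by
      rw [Matrix.mul_add, ← Matrix.mul_assoc, plM_secM ⟨k, hk⟩, Matrix.one_mul, Matrix.mul_one]
      ext a b
      exact CharTwo.add_self_eq_zero _
    generalize secM k * plM k = Q at hz
    apply proj_inv
    intro j f
    have hz0 := congrFun (congrFun hz 0) j
    have hz1 := congrFun (congrFun hz 1) j
    rw [Matrix.mul_apply] at hz0 hz1
    exact hann k hk (fun i => (Q + 1) i j) hz0 hz1 f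
  set σ : Du 4 := ∑ k ∈ Finset.range 35,
    (((ψ2 k ∘ₗ kappa 2) ∘ₗ kappa 2) ∘ₗ kappa 2) ∘ₗ (sub (plM k)).toLinearMap with hσ
  have hMdeg : M = 2 + 2 * (2 + 2 * (2 + 2 * N'')) := by omega
  have hσmem : σ ∈ Spl 4 M := by
    rw [hσ, hMdeg]
    exact Submodule.sum_mem _ fun k _ => Spl_mem (hψ2p k).kappa.kappa.kappa _
  set θ' : Du 4 := θ + σ with hθ'
  have hθ'p : IsPrim 4 M θ' := hθ.add (Spl_isPrim hσmem)
  have hg : ∀ p q r : Fin 6, gg θ' p q r = 0 := by
    intro p q r
    have h1 : gg θ' p q r = gg θ p q r + gg σ p q r := by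
      rw [gg, gg, gg, hθ', map_add, map_add, map_add]
    have h2 : gg σ p q r = gg θ p q r := by
      apply LinearMap.ext
      intro f
      rw [← hsum p q r f, hσ, gg, map_sum, map_sum, map_sum, LinearMap.sum_apply]
      refine Finset.sum_congr rfl fun k hk => ?_
      rw [Finset.mem_range] at hk
      have hm : ∀ p : Fin 6, minor (plM k) (ea p) (eb p) = if (sup k).testBit p then 1 else 0 :=
        fun p => minor_sup ⟨k, hk⟩ p
      rw [px, px, px, tw_kappa_sub, map_smul, tw_kappa_sub, map_smul, map_smul, tw_kappa_sub,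
        hrec k hk, hm, hm, hm, smul_smul, smul_smul, sup_cn ⟨k, hk⟩, LinearMap.smul_apply,
        smul_eq_mul]
      split_ifs
      · rw [one_mul]
      · rw [zero_mul]
    rw [h1, h2, du_add_self]
  have hpx : ∀ i j : Fin 4, i ≠ j → X i * X j = px (eI i j) := fun i j h => (px_eI h).symm
  have hγ2 : ∀ i j k l, i ≠ j → k ≠ l → tw (X k * X l) (tw (X i * X j) θ') = 0 := by
    intro i j k l hij hkl
    refine four_of_two (n := N) (N := N') (hθ'p.tw2 hM i j) hN (by omega) ⟨1 + N'', by omega⟩ ?_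
      k l hkl
    intro a b c d hab hcd
    rw [hpx i j hij, hpx a b hab, hpx c d hcd]
    exact hg _ _ _
  have hγ := four_of_two hθ'p hM (by omega) ⟨1 + N', by omega⟩ hγ2
  rw [hn] at hθ'p
  obtain ⟨ψ, hψ, hψ'⟩ := K4 hθ'p hγ
  refine ⟨ψ, hψ, ?_⟩
  rw [← hψ', hθ', du_sub, ← add_assoc, du_add_self, zero_add]
  exact hσmem

end caseI

/-- Case I: injectivity. -/
lemma KInj_I {s t : ℕ} (ht : 2 ≤ t) (hst : t ≤ s) (hs : 3 ≤ s) : KInj 4 (2 ^ s + 2 ^ t - 3) := by
  obtain ⟨t, rfl⟩ : ∃ e, t = e + 2 := ⟨t - 2, by omega⟩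
  obtain ⟨s, rfl⟩ : ∃ e, s = e + 2 := ⟨s - 2, by omega⟩
  have h1 : 1 ≤ 2 ^ t := Nat.one_le_two_pow
  have h2 : 2 ≤ 2 ^ s := by
    calc 2 = 2 ^ 1 := by norm_num
      _ ≤ 2 ^ s := Nat.pow_le_pow_right (by norm_num) (by omega)
  have e1 : 2 ^ (t + 2) = 4 * 2 ^ t := by rw [pow_add]; ring
  have e2 : 2 ^ (s + 2) = 4 * 2 ^ s := by rw [pow_add]; ring
  rw [e1, e2]
  set A := 2 ^ s with hA
  set B := 2 ^ t with hB
  refine KInj_of_planes (n := 4 * A + 4 * B - 3) (k := 2) (m := 4 * A + 4 * B - 5) (by norm_num)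
    (by omega) (by omega) ?_ ?_
  · -- `C(m, 2)` is odd for `m = 3` modulo `4`
    have h3 : 4 * A + 4 * B - 5 = 4 * (A + B - 2) + 3 := by omega
    rw [h3]
    have h4 : (4 * (A + B - 2) + 3).choose 2 = 2 * ((A + B - 2) * (4 * (A + B - 2) + 5)) + 3 +
        (2 * (A + B - 2) * (2 * (A + B - 2))) - 2 * (A + B - 2) * (2 * (A + B - 2)) := by
      rw [Nat.choose_two_right]
      generalize A + B - 2 = x
      have : (4 * x + 3) * (4 * x + 3 - 1) = 2 * (2 * (x * (4 * x + 5)) + 3) := by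
        rw [show 4 * x + 3 - 1 = 4 * x + 2 by omega]; ring
      rw [this, Nat.mul_div_cancel_left _ (by norm_num)]
      omega
    rw [h4, Nat.add_sub_cancel, Nat.cast_add, Nat.cast_mul]
    have h5 : ((2 : ℕ) : ZMod 2) = 0 := by decide
    rw [h5, zero_mul, zero_add]
    decide
  · intro θ hθ
    refine cover_I (M := 4 + 2 * (4 * A + 4 * B - 3)) (N := 4 * A + 4 * B - 2)
      (N' := 2 * A + 2 * B - 2) (N'' := A + B - 2) hθ (by omega) (by omega) (by omega) (by omega) rfl

end Pool.Agent.helper69.Kam
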