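import Pool.Agent.helper69.Kam.Inv4

set_option autoImplicit false
set_option maxRecDepth 100000

open MvPolynomial

namespace Pool.Agent.helper69.Kam

/-- the exponents of a polynomial of degree 18. -/
def F18 : List (ℕ × ℕ × ℕ × ℕ) := [
  (0, 0, 3, 15), (0, 0, 11, 7), (0, 0, 15, 3), (0, 2, 1, 15), (0, 2, 13, 3), (0, 2, 15, 1),
  (0, 3, 0, 15), (0, 3, 14, 1), (0, 3, 15, 0), (0, 10, 1, 7), (0, 10, 5, 3), (0, 10, 7, 1),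
  (0, 11, 0, 7), (0, 11, 6, 1), (0, 11, 7, 0), (0, 12, 3, 3), (0, 15, 0, 3), (0, 15, 2, 1),
  (0, 15, 3, 0), (2, 0, 1, 15), (2, 0, 13, 3), (2, 0, 15, 1), (2, 1, 0, 15), (2, 1, 14, 1),
  (2, 1, 15, 0), (2, 13, 0, 3), (2, 13, 2, 1), (2, 13, 3, 0), (2, 14, 1, 1), (2, 15, 0, 1),
  (2, 15, 1, 0), (3, 0, 0, 15), (3, 0, 14, 1), (3, 0, 15, 0), (3, 14, 0, 1), (3, 14, 1, 0),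
  (3, 15, 0, 0), (10, 0, 1, 7), (10, 0, 5, 3), (10, 0, 7, 1), (10, 1, 0, 7), (10, 1, 6, 1),
  (10, 1, 7, 0), (10, 5, 0, 3), (10, 5, 2, 1), (10, 5, 3, 0), (10, 6, 1, 1), (10, 7, 0, 1),
  (10, 7, 1, 0), (11, 0, 0, 7), (11, 0, 6, 1), (11, 0, 7, 0), (11, 6, 0, 1), (11, 6, 1, 0),
  (11, 7, 0, 0), (12, 0, 3, 3), (12, 3, 0, 3), (12, 3, 2, 1), (12, 3, 3, 0), (14, 2, 1, 1),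
  (15, 0, 0, 3), (15, 0, 2, 1), (15, 0, 3, 0), (15, 2, 0, 1), (15, 2, 1, 0), (15, 3, 0, 0),
  (1, 1, 1, 15), (1, 1, 13, 3), (1, 1, 15, 1), (1, 11, 3, 3), (1, 11, 5, 1), (1, 13, 1, 3),
  (1, 15, 1, 1), (3, 13, 1, 1), (9, 1, 1, 7), (9, 1, 3, 5), (9, 1, 7, 1), (9, 3, 1, 5),
  (9, 3, 3, 3), (9, 5, 3, 1), (9, 7, 1, 1), (11, 1, 1, 5), (11, 1, 5, 1), (11, 5, 1, 1),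
  (13, 1, 1, 3), (13, 1, 3, 1), (15, 1, 1, 1)]

/-- a certificate. -/
def C01 : List (ℕ × ℕ × ℕ × ℕ × ℕ) := [
  (1, 3, 6, 1, 7), (1, 14, 3, 0, 0), (1, 5, 5, 7, 0), (1, 5, 2, 8, 2), (1, 2, 8, 7, 0),
  (1, 17, 0, 0, 0), (1, 9, 4, 3, 1), (1, 2, 5, 2, 8), (1, 4, 4, 4, 5), (1, 3, 9, 2, 3),
  (1, 11, 2, 1, 3), (1, 1, 1, 15, 0), (1, 8, 0, 5, 4), (1, 9, 3, 2, 3), (1, 6, 2, 2, 7),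
  (1, 3, 11, 3, 0), (1, 9, 5, 3, 0), (1, 1, 4, 9, 3), (2, 7, 7, 0, 2), (2, 2, 5, 0, 9),
  (1, 9, 1, 5, 2), (1, 5, 3, 1, 8), (1, 14, 0, 3, 0), (1, 2, 9, 4, 2), (1, 8, 4, 5, 0),
  (2, 15, 0, 1, 0), (1, 5, 2, 4, 6), (1, 2, 3, 6, 6), (2, 3, 11, 2, 0), (2, 1, 3, 8, 4),
  (2, 7, 7, 1, 1), (2, 12, 1, 2, 1), (1, 2, 7, 4, 4), (2, 10, 3, 0, 3), (1, 4, 4, 6, 3),
  (2, 3, 4, 9, 0), (2, 1, 4, 9, 2), (2, 3, 3, 4, 6), (1, 1, 4, 11, 1), (2, 14, 0, 2, 0),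
  (1, 5, 3, 2, 7), (2, 1, 13, 2, 0), (2, 2, 2, 11, 1), (1, 11, 1, 2, 3), (2, 1, 8, 3, 4),
  (2, 5, 8, 2, 1), (1, 8, 1, 2, 6), (1, 6, 8, 0, 3), (1, 2, 9, 3, 3), (1, 2, 14, 1, 0),
  (1, 5, 3, 4, 5), (2, 9, 3, 1, 3), (2, 1, 8, 6, 1), (2, 8, 1, 5, 2), (2, 1, 4, 10, 1),
  (2, 4, 4, 6, 2), (1, 4, 5, 1, 7), (2, 2, 9, 1, 4), (1, 6, 6, 4, 1), (2, 2, 3, 8, 3),
  (2, 8, 0, 5, 3), (2, 4, 10, 2, 0), (2, 7, 2, 2, 5), (2, 3, 5, 1, 7), (2, 3, 9, 2, 2),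
  (2, 2, 5, 3, 6), (2, 8, 5, 2, 1), (1, 5, 9, 1, 2), (2, 5, 2, 8, 1), (1, 5, 10, 2, 0),
  (2, 3, 9, 0, 4), (1, 3, 3, 9, 2), (2, 8, 1, 3, 4), (2, 6, 5, 1, 4), (1, 9, 3, 0, 5),
  (1, 16, 0, 0, 1), (1, 11, 2, 3, 1), (1, 5, 7, 0, 5), (1, 1, 5, 11, 0), (2, 9, 2, 1, 4),
  (2, 6, 3, 7, 0), (2, 1, 5, 10, 0), (2, 6, 6, 4, 0), (2, 3, 5, 5, 3), (1, 5, 4, 7, 1),
  (1, 5, 3, 3, 6), (4, 5, 6, 0, 3), (1, 5, 10, 0, 2), (1, 3, 4, 9, 1), (4, 2, 4, 6, 2),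
  (1, 9, 3, 1, 4), (2, 9, 2, 3, 2), (2, 2, 12, 1, 1), (2, 4, 3, 9, 0), (2, 1, 6, 9, 0),
  (4, 1, 4, 5, 4), (1, 2, 6, 0, 9), (1, 3, 12, 1, 1), (2, 1, 1, 0, 14), (2, 3, 4, 0, 9),
  (1, 10, 5, 1, 1), (1, 9, 0, 3, 5), (4, 7, 6, 1, 0), (4, 1, 1, 12, 0), (2, 4, 3, 8, 1),
  (2, 2, 8, 1, 5), (1, 1, 13, 0, 3), (1, 1, 3, 10, 3), (4, 9, 1, 3, 1), (4, 3, 5, 0, 6),
  (1, 5, 3, 7, 2), (2, 7, 5, 4, 0), (2, 7, 7, 2, 0), (4, 1, 1, 11, 1), (4, 1, 9, 0, 4),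
  (1, 9, 7, 1, 0), (4, 4, 3, 6, 1), (1, 6, 8, 3, 0), (4, 2, 4, 5, 3), (2, 5, 10, 1, 0),
  (4, 5, 3, 6, 0), (1, 9, 7, 0, 1), (4, 1, 3, 6, 4), (4, 7, 4, 3, 0), (4, 13, 1, 0, 0),
  (1, 6, 3, 7, 1), (1, 10, 6, 1, 0), (1, 9, 6, 0, 2), (1, 4, 3, 5, 5), (4, 8, 3, 0, 3),
  (1, 1, 8, 7, 1), (4, 5, 1, 0, 8), (4, 4, 7, 0, 3), (2, 4, 2, 9, 1), (1, 3, 11, 1, 2),
  (2, 3, 4, 5, 4), (1, 1, 13, 1, 2), (4, 2, 5, 7, 0), (4, 1, 11, 1, 1), (2, 7, 2, 3, 4),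
  (2, 3, 7, 0, 6), (4, 5, 3, 5, 1), (2, 10, 2, 2, 2), (2, 3, 8, 5, 0), (4, 7, 2, 3, 2),
  (4, 3, 7, 0, 4), (1, 7, 7, 3, 0), (4, 6, 2, 1, 5), (4, 3, 6, 5, 0), (4, 1, 6, 7, 0),
  (4, 3, 11, 0, 0), (1, 7, 9, 1, 0), (2, 6, 2, 5, 3), (4, 2, 5, 4, 3), (1, 3, 8, 5, 1),
  (2, 4, 3, 5, 4), (2, 14, 2, 0, 0), (1, 7, 7, 1, 2), (4, 6, 5, 1, 2), (2, 7, 4, 3, 2),
  (4, 4, 2, 7, 1), (2, 10, 1, 1, 4), (1, 3, 13, 1, 0), (2, 3, 10, 1, 2), (1, 6, 4, 2, 5),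
  (2, 2, 10, 1, 3), (4, 9, 3, 1, 1), (4, 3, 5, 3, 3), (2, 10, 3, 3, 0), (4, 9, 1, 4, 0),
  (1, 5, 3, 9, 0), (1, 1, 2, 0, 14), (1, 2, 14, 0, 1), (1, 7, 6, 2, 2), (4, 4, 3, 0, 7),
  (4, 3, 4, 5, 2), (2, 1, 13, 0, 2), (4, 7, 6, 0, 1), (2, 6, 2, 1, 7), (2, 3, 9, 1, 3),
  (2, 6, 7, 0, 3), (4, 5, 3, 1, 5), (4, 7, 2, 2, 3), (4, 6, 5, 0, 3), (1, 11, 1, 3, 2),
  (2, 2, 6, 1, 7), (2, 2, 5, 6, 3), (1, 9, 2, 3, 3), (1, 1, 3, 5, 8), (2, 3, 10, 3, 0),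
  (4, 7, 0, 4, 3), (4, 7, 4, 2, 1), (4, 3, 3, 4, 4), (1, 9, 4, 1, 3), (2, 5, 3, 5, 3),
  (2, 3, 11, 0, 2), (4, 1, 9, 3, 1), (4, 3, 5, 5, 1), (2, 8, 2, 3, 3), (4, 1, 4, 7, 2),
  (4, 5, 3, 2, 4), (4, 5, 6, 2, 1), (4, 2, 5, 3, 4), (2, 3, 6, 7, 0), (4, 6, 4, 1, 3),
  (4, 6, 2, 3, 3), (1, 9, 0, 5, 3), (4, 3, 5, 2, 4), (1, 7, 0, 5, 5), (1, 1, 9, 5, 2),
  (2, 7, 0, 6, 3), (4, 3, 5, 1, 5), (1, 3, 6, 3, 5), (4, 3, 5, 4, 2), (2, 3, 3, 8, 2),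
  (4, 2, 6, 1, 5), (4, 3, 4, 0, 7), (2, 15, 0, 0, 1), (2, 2, 3, 5, 6), (2, 3, 3, 9, 1),
  (1, 9, 1, 0, 7), (4, 6, 3, 4, 1), (8, 3, 6, 0, 1), (1, 5, 11, 0, 1), (1, 3, 3, 0, 11),
  (1, 3, 13, 0, 1), (2, 3, 3, 0, 10), (4, 2, 3, 6, 3), (1, 9, 3, 5, 0), (1, 9, 1, 7, 0),
  (2, 3, 11, 1, 1), (1, 1, 9, 0, 7), (4, 7, 7, 0, 0), (1, 7, 4, 3, 3), (4, 7, 0, 3, 4),
  (1, 1, 1, 13, 2), (1, 11, 0, 3, 3), (1, 7, 9, 0, 1), (2, 4, 9, 0, 3), (1, 7, 7, 0, 3),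
  (1, 1, 13, 3, 0), (4, 7, 4, 0, 3), (2, 5, 3, 1, 7), (2, 11, 1, 3, 1), (2, 10, 3, 2, 1),
  (1, 1, 1, 0, 15), (2, 7, 0, 3, 6), (1, 5, 11, 1, 0), (4, 5, 3, 3, 3), (2, 11, 1, 1, 3),
  (4, 5, 3, 0, 6), (4, 7, 5, 1, 1)]

/-- a certificate. -/
def C12 : List (ℕ × ℕ × ℕ × ℕ × ℕ) := [
  (1, 0, 14, 0, 3), (1, 3, 11, 1, 2), (1, 9, 2, 5, 1), (1, 9, 2, 6, 0), (1, 2, 13, 2, 0),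
  (1, 2, 10, 2, 3), (1, 8, 2, 5, 2), (1, 1, 1, 14, 1), (1, 0, 11, 4, 2), (1, 0, 6, 6, 5),
  (1, 1, 12, 0, 4), (1, 14, 1, 2, 0), (1, 12, 1, 4, 0), (1, 7, 8, 0, 2), (1, 10, 1, 0, 6),
  (1, 7, 4, 3, 3), (1, 8, 6, 2, 1), (1, 0, 1, 13, 3), (1, 4, 1, 0, 12), (2, 0, 9, 2, 5),
  (1, 9, 4, 3, 1), (1, 2, 10, 5, 0), (1, 9, 1, 0, 7), (1, 0, 1, 1, 15), (2, 2, 1, 13, 0),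
  (1, 2, 3, 6, 6), (2, 0, 4, 6, 6), (1, 6, 7, 2, 2), (2, 9, 3, 1, 3), (2, 1, 11, 2, 2),
  (2, 0, 6, 5, 5), (1, 5, 6, 4, 2), (2, 0, 15, 1, 0), (2, 0, 7, 7, 2), (1, 0, 6, 10, 1),
  (2, 7, 4, 3, 2), (1, 5, 2, 9, 1), (2, 7, 8, 0, 1), (1, 12, 1, 0, 4), (1, 9, 3, 1, 4),
  (1, 9, 4, 0, 4), (2, 10, 6, 0, 0), (1, 1, 2, 13, 1), (1, 10, 5, 0, 2), (1, 4, 12, 1, 0),
  (2, 2, 1, 0, 13), (1, 2, 14, 0, 1), (2, 0, 9, 1, 6), (1, 4, 8, 2, 3), (2, 2, 5, 9, 0),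
  (1, 1, 8, 6, 2), (2, 6, 5, 1, 4), (2, 5, 6, 4, 1), (1, 6, 4, 6, 1), (1, 1, 1, 12, 3),
  (1, 5, 7, 3, 2), (2, 1, 8, 5, 2), (1, 9, 5, 1, 2), (2, 2, 4, 9, 1), (1, 1, 6, 8, 2),
  (1, 3, 10, 2, 2), (1, 4, 8, 4, 1), (1, 3, 5, 9, 0), (2, 0, 14, 0, 2), (2, 5, 5, 2, 4),
  (1, 13, 3, 0, 1), (2, 9, 1, 2, 4), (2, 0, 4, 10, 2), (2, 4, 9, 3, 0), (2, 0, 5, 10, 1),
  (1, 4, 5, 6, 2), (1, 5, 2, 6, 4), (1, 4, 9, 4, 0), (2, 9, 3, 3, 1), (1, 4, 13, 0, 0),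
  (2, 0, 6, 6, 4), (2, 12, 1, 3, 0), (1, 9, 1, 6, 1), (1, 4, 3, 9, 1), (1, 11, 1, 5, 0),
  (1, 1, 11, 1, 4), (2, 3, 2, 10, 1), (2, 1, 5, 5, 5), (2, 0, 15, 0, 1), (1, 1, 12, 1, 3),
  (1, 3, 9, 5, 0), (2, 1, 1, 12, 2), (4, 7, 4, 1, 2), (2, 0, 5, 3, 8), (2, 9, 2, 2, 3),
  (1, 0, 5, 5, 7), (1, 1, 9, 4, 3), (4, 0, 3, 11, 0), (1, 9, 1, 4, 3), (1, 0, 1, 12, 4),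
  (2, 2, 14, 0, 0), (4, 0, 10, 3, 1), (1, 11, 5, 0, 1), (2, 4, 6, 2, 4), (1, 11, 4, 0, 2),
  (2, 10, 1, 1, 4), (1, 3, 2, 10, 2), (1, 15, 1, 1, 0), (1, 3, 7, 7, 0), (2, 1, 9, 2, 4),
  (4, 5, 5, 2, 2), (2, 7, 3, 2, 4), (2, 1, 7, 7, 1), (1, 11, 3, 1, 2), (1, 1, 14, 1, 1),
  (2, 1, 1, 0, 14), (2, 0, 5, 8, 3), (4, 2, 11, 1, 0), (1, 12, 3, 2, 0), (2, 10, 2, 2, 2),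
  (1, 3, 13, 1, 0), (1, 1, 3, 11, 2), (1, 3, 12, 1, 1), (1, 0, 9, 5, 3), (4, 2, 5, 5, 2),
  (2, 0, 3, 10, 3), (4, 2, 9, 2, 1), (2, 0, 6, 3, 7), (4, 1, 9, 3, 1), (4, 0, 8, 5, 1),
  (2, 2, 3, 10, 1), (2, 0, 3, 11, 2), (1, 6, 6, 2, 3), (4, 1, 5, 6, 2), (1, 3, 1, 13, 0),
  (2, 1, 14, 0, 1), (2, 4, 10, 1, 1), (4, 7, 2, 4, 1), (4, 1, 6, 5, 2), (2, 7, 2, 6, 1),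
  (1, 9, 3, 3, 2), (1, 7, 4, 5, 1), (4, 0, 14, 0, 0), (2, 5, 7, 3, 1), (1, 10, 5, 1, 1),
  (4, 2, 4, 5, 3), (2, 4, 3, 5, 4), (1, 1, 5, 8, 3), (1, 11, 4, 1, 1), (1, 7, 3, 4, 3),
  (4, 3, 6, 4, 1), (1, 0, 3, 11, 3), (1, 5, 1, 10, 1), (1, 0, 5, 11, 1), (1, 9, 1, 5, 2),
  (1, 7, 5, 1, 4), (4, 0, 7, 4, 3), (4, 0, 1, 5, 8), (1, 8, 3, 3, 3), (4, 6, 4, 3, 1),
  (1, 11, 3, 0, 3), (2, 8, 3, 3, 2), (2, 9, 4, 1, 2), (1, 0, 9, 7, 1), (2, 7, 6, 1, 2),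
  (2, 5, 1, 9, 1), (2, 14, 1, 1, 0), (2, 8, 1, 5, 2), (2, 11, 2, 0, 3), (2, 1, 11, 3, 1),
  (4, 0, 7, 5, 2), (1, 5, 7, 4, 1), (2, 3, 7, 2, 4), (1, 1, 11, 3, 2), (2, 9, 1, 0, 6),
  (2, 4, 8, 3, 1), (2, 4, 4, 5, 3), (2, 1, 5, 9, 1), (2, 2, 11, 1, 2), (2, 11, 2, 2, 1),
  (1, 1, 13, 1, 2), (2, 0, 10, 3, 3), (4, 3, 7, 2, 2), (4, 4, 3, 5, 2), (1, 2, 1, 13, 1),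
  (2, 0, 7, 8, 1), (1, 1, 11, 4, 1), (2, 1, 11, 0, 4), (4, 9, 3, 0, 2), (2, 0, 1, 11, 4),
  (1, 3, 7, 5, 2), (4, 0, 1, 1, 12), (1, 1, 13, 0, 3), (2, 0, 3, 6, 7), (2, 11, 3, 0, 2),
  (1, 1, 7, 7, 2), (1, 3, 11, 3, 0), (2, 2, 7, 6, 1), (1, 3, 3, 11, 0), (2, 4, 1, 0, 11),
  (2, 2, 3, 11, 0), (4, 1, 1, 11, 1), (4, 4, 5, 3, 2), (4, 6, 1, 5, 2), (4, 0, 3, 6, 5),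
  (1, 9, 3, 2, 3), (2, 3, 7, 5, 1), (2, 2, 7, 7, 0), (4, 1, 5, 5, 3), (1, 12, 1, 1, 3),
  (1, 9, 5, 0, 3), (1, 3, 10, 3, 1), (4, 0, 6, 3, 5), (1, 0, 11, 5, 1), (2, 10, 3, 2, 1),
  (1, 0, 7, 7, 3), (4, 0, 7, 7, 0), (1, 0, 9, 1, 7), (1, 0, 1, 9, 7), (2, 3, 9, 3, 1),
  (2, 1, 3, 11, 1), (1, 0, 3, 13, 1), (1, 11, 5, 1, 0), (1, 1, 1, 0, 15), (1, 11, 3, 3, 0),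
  (2, 10, 3, 3, 0), (2, 2, 11, 3, 0), (2, 11, 3, 1, 1)]

/-- a certificate. -/
def C23 : List (ℕ × ℕ × ℕ × ℕ × ℕ) := [
  (1, 4, 12, 1, 0), (4, 0, 2, 12, 0), (1, 1, 2, 10, 4), (1, 8, 2, 3, 4), (1, 0, 9, 4, 4),
  (1, 2, 10, 4, 1), (1, 12, 2, 2, 1), (1, 0, 11, 2, 4), (1, 4, 8, 3, 2), (1, 2, 3, 4, 8),
  (1, 0, 2, 10, 5), (1, 8, 6, 3, 0), (1, 3, 0, 12, 2), (1, 3, 0, 14, 0), (8, 1, 1, 8, 0),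
  (1, 6, 5, 4, 2), (1, 0, 0, 17, 0), (1, 1, 6, 6, 4), (8, 8, 1, 1, 0), (2, 1, 9, 2, 4),
  (1, 4, 0, 2, 11), (4, 0, 12, 1, 1), (1, 10, 2, 4, 1), (2, 14, 0, 1, 1), (2, 7, 5, 4, 0),
  (2, 12, 0, 2, 2), (2, 1, 3, 4, 8), (4, 9, 1, 4, 0), (2, 4, 2, 8, 2), (1, 4, 2, 10, 1),
  (2, 0, 2, 5, 9), (2, 1, 1, 12, 2), (1, 6, 1, 8, 2), (1, 14, 1, 2, 0), (1, 9, 5, 1, 2),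
  (1, 0, 0, 5, 12), (4, 2, 0, 1, 11), (2, 2, 0, 14, 0), (2, 0, 10, 4, 2), (1, 0, 4, 10, 3),
  (1, 15, 0, 1, 1), (2, 8, 4, 3, 1), (2, 0, 0, 3, 13), (2, 2, 0, 5, 9), (1, 2, 10, 1, 4),
  (1, 1, 1, 9, 6), (2, 4, 0, 11, 1), (1, 2, 1, 9, 5), (1, 3, 3, 7, 4), (2, 2, 1, 9, 4),
  (2, 0, 10, 6, 0), (2, 0, 0, 15, 1), (1, 0, 3, 11, 3), (1, 2, 11, 2, 2), (4, 10, 0, 1, 3),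
  (1, 5, 2, 6, 4), (1, 12, 3, 1, 1), (1, 5, 1, 10, 1), (2, 0, 4, 11, 1), (2, 2, 0, 11, 3),
  (2, 2, 8, 5, 1), (1, 11, 5, 1, 0), (1, 0, 11, 3, 3), (4, 1, 4, 8, 1), (2, 5, 3, 6, 2),
  (1, 0, 3, 3, 11), (1, 13, 0, 2, 2), (1, 2, 1, 4, 10), (1, 0, 3, 5, 9), (4, 1, 2, 9, 2),
  (2, 2, 0, 9, 5), (1, 10, 1, 5, 1), (2, 0, 4, 9, 3), (1, 0, 3, 13, 1), (2, 3, 6, 6, 1),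
  (1, 11, 1, 4, 1), (1, 3, 7, 6, 1), (1, 1, 8, 7, 1), (8, 5, 4, 1, 0), (2, 0, 2, 1, 13),
  (2, 0, 2, 3, 11), (1, 15, 1, 1, 0), (2, 10, 4, 1, 1), (2, 4, 11, 1, 0), (4, 1, 3, 8, 2),
  (2, 7, 1, 4, 4), (1, 1, 2, 7, 7), (2, 0, 10, 3, 3), (1, 1, 11, 3, 2), (2, 11, 1, 2, 2),
  (2, 6, 1, 7, 2), (1, 0, 3, 12, 2), (1, 10, 4, 2, 1), (1, 4, 7, 5, 1), (1, 0, 3, 9, 5),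
  (4, 1, 12, 1, 0), (1, 3, 7, 5, 2), (1, 3, 0, 9, 5), (2, 10, 0, 6, 0), (1, 1, 2, 3, 11),
  (1, 1, 2, 13, 1), (1, 1, 14, 1, 1), (2, 1, 13, 2, 0), (1, 6, 1, 9, 1), (2, 2, 5, 5, 4),
  (4, 0, 0, 7, 7), (2, 10, 2, 3, 1), (2, 3, 4, 7, 2), (1, 3, 0, 1, 13), (2, 10, 0, 3, 3),
  (2, 2, 1, 11, 2), (1, 1, 2, 5, 9), (1, 3, 5, 8, 1), (1, 11, 0, 3, 3), (1, 0, 11, 1, 5),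
  (2, 5, 2, 7, 2), (4, 5, 1, 6, 2), (1, 0, 11, 5, 1), (2, 9, 3, 2, 2), (4, 3, 4, 5, 2),
  (1, 10, 5, 1, 1), (1, 3, 0, 13, 1), (1, 9, 2, 1, 5), (2, 2, 10, 3, 1), (1, 4, 5, 7, 1),
  (1, 1, 1, 11, 4), (4, 1, 5, 4, 4), (2, 2, 0, 7, 7), (1, 9, 7, 1, 0), (2, 1, 1, 1, 13),
  (1, 1, 2, 11, 3), (1, 9, 2, 3, 3), (8, 1, 1, 3, 5), (4, 1, 1, 9, 3), (4, 4, 1, 7, 2),
  (1, 11, 0, 5, 1), (8, 5, 3, 1, 1), (1, 1, 11, 4, 1), (1, 1, 1, 10, 5), (4, 4, 3, 5, 2),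
  (2, 9, 1, 1, 5), (2, 3, 3, 8, 2), (1, 3, 0, 3, 11), (1, 5, 5, 6, 1), (1, 1, 1, 13, 2),
  (1, 11, 1, 3, 2), (1, 6, 5, 5, 1), (1, 0, 3, 7, 7), (1, 3, 13, 1, 0), (2, 6, 3, 5, 2),
  (2, 6, 6, 3, 1), (1, 3, 0, 5, 9), (1, 5, 3, 5, 4), (4, 0, 10, 1, 3), (1, 3, 0, 11, 3),
  (2, 0, 2, 7, 7), (4, 2, 6, 5, 1), (2, 4, 3, 7, 2), (1, 6, 1, 7, 3), (2, 11, 1, 3, 1),
  (2, 2, 6, 7, 1), (1, 5, 2, 7, 3), (8, 1, 7, 1, 1), (4, 4, 6, 3, 1), (1, 5, 2, 9, 1),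
  (1, 9, 5, 2, 1), (1, 0, 15, 1, 1), (2, 10, 5, 1, 0), (4, 6, 4, 3, 1), (4, 1, 1, 11, 1),
  (1, 5, 1, 8, 3), (1, 1, 2, 1, 13), (2, 1, 1, 11, 3), (1, 11, 0, 1, 5), (2, 1, 2, 11, 2),
  (2, 0, 2, 11, 3), (2, 2, 0, 3, 11), (4, 1, 4, 7, 2), (1, 1, 15, 1, 0), (1, 0, 3, 1, 13),
  (1, 3, 0, 7, 7), (2, 1, 11, 3, 1), (2, 9, 1, 3, 3), (2, 1, 1, 3, 11), (2, 1, 1, 7, 7)]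

/-- a certificate. -/
def C30 : List (ℕ × ℕ × ℕ × ℕ × ℕ) := [
  (8, 0, 0, 0, 10), (1, 0, 2, 5, 10), (4, 1, 0, 4, 9), (4, 5, 0, 8, 1), (1, 0, 3, 8, 6),
  (1, 2, 8, 4, 3), (1, 12, 2, 1, 2), (1, 0, 4, 0, 13), (1, 4, 0, 7, 6), (1, 4, 4, 0, 9),
  (1, 10, 2, 0, 5), (1, 2, 6, 3, 6), (4, 2, 0, 0, 12), (1, 5, 2, 4, 6), (1, 10, 2, 4, 1),
  (1, 7, 2, 2, 6), (1, 4, 4, 4, 5), (1, 4, 2, 5, 6), (1, 0, 2, 11, 4), (1, 2, 2, 4, 9),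
  (1, 4, 9, 0, 4), (1, 0, 6, 4, 7), (4, 5, 0, 0, 9), (1, 4, 10, 2, 1), (2, 5, 2, 1, 8),
  (4, 1, 4, 0, 9), (1, 1, 0, 10, 6), (1, 0, 8, 8, 1), (1, 5, 0, 4, 8), (2, 1, 0, 1, 14),
  (1, 2, 1, 6, 8), (2, 0, 2, 6, 8), (1, 0, 10, 6, 1), (1, 0, 0, 1, 16), (1, 0, 5, 2, 10),
  (4, 0, 2, 0, 12), (8, 1, 1, 0, 8), (2, 6, 1, 4, 5), (2, 12, 3, 0, 1), (2, 10, 1, 1, 4),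
  (2, 0, 13, 0, 3), (4, 1, 12, 0, 1), (2, 11, 4, 0, 1), (2, 0, 2, 1, 13), (2, 4, 4, 2, 6),
  (1, 8, 0, 0, 9), (2, 1, 10, 4, 1), (1, 6, 0, 7, 4), (1, 2, 4, 4, 7), (2, 0, 1, 1, 14),
  (2, 7, 5, 0, 4), (2, 12, 0, 2, 2), (1, 2, 3, 6, 6), (1, 2, 10, 0, 5), (2, 5, 4, 4, 3),
  (1, 9, 0, 0, 8), (2, 0, 9, 4, 3), (2, 1, 4, 5, 6), (1, 4, 4, 5, 4), (4, 1, 3, 0, 10),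
  (1, 11, 0, 3, 3), (1, 11, 3, 0, 3), (2, 6, 4, 0, 6), (1, 0, 6, 5, 6), (1, 0, 5, 1, 11),
  (2, 10, 5, 0, 1), (2, 5, 0, 4, 7), (8, 2, 4, 1, 3), (2, 6, 0, 1, 9), (2, 10, 0, 2, 4),
  (4, 1, 11, 0, 2), (1, 0, 3, 7, 7), (2, 8, 5, 0, 3), (8, 3, 4, 0, 3), (1, 12, 1, 1, 3),
  (2, 1, 10, 1, 4), (1, 0, 1, 10, 6), (1, 9, 3, 2, 3), (1, 0, 0, 11, 6), (4, 0, 9, 1, 4),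
  (1, 6, 2, 1, 8), (4, 0, 4, 1, 9), (4, 5, 8, 0, 1), (2, 0, 6, 8, 2), (2, 6, 1, 0, 9),
  (8, 2, 6, 1, 1), (8, 0, 6, 2, 2), (1, 3, 1, 1, 12), (1, 5, 1, 1, 10), (1, 1, 13, 2, 1),
  (2, 9, 0, 3, 4), (2, 1, 0, 4, 11), (1, 4, 11, 1, 1), (8, 0, 0, 3, 7), (2, 4, 5, 3, 4),
  (1, 6, 7, 2, 2), (1, 9, 2, 1, 5), (1, 1, 15, 0, 1), (1, 13, 0, 3, 1), (1, 13, 2, 0, 2),
  (1, 2, 2, 1, 12), (1, 1, 0, 13, 3), (1, 2, 5, 1, 9), (1, 11, 2, 1, 3), (2, 2, 6, 2, 6),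
  (1, 5, 7, 0, 5), (2, 2, 10, 1, 3), (2, 0, 2, 7, 7), (2, 1, 2, 2, 11), (8, 1, 1, 2, 6),
  (1, 10, 5, 1, 1), (4, 2, 1, 3, 8), (8, 1, 5, 2, 2), (1, 9, 0, 6, 2), (4, 1, 0, 3, 10),
  (1, 3, 3, 0, 11), (4, 1, 0, 11, 2), (1, 0, 7, 3, 7), (1, 0, 5, 9, 3), (1, 11, 1, 1, 4),
  (1, 1, 1, 0, 15), (8, 1, 0, 0, 9), (2, 6, 7, 0, 3), (2, 5, 8, 1, 2), (1, 1, 1, 8, 7),
  (1, 0, 0, 4, 13), (2, 9, 0, 2, 5), (1, 8, 1, 3, 5), (2, 7, 4, 1, 4), (1, 1, 3, 1, 12),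
  (2, 3, 6, 1, 6), (2, 10, 1, 3, 2), (8, 0, 3, 0, 7), (1, 0, 10, 2, 5), (4, 11, 0, 0, 3),
  (1, 1, 0, 15, 1), (1, 9, 7, 0, 1), (2, 0, 7, 2, 7), (1, 1, 11, 3, 2), (2, 7, 2, 2, 5),
  (2, 2, 11, 2, 1), (2, 7, 4, 2, 3), (8, 7, 0, 2, 1), (2, 0, 3, 10, 3), (2, 7, 0, 2, 7),
  (4, 4, 3, 3, 4), (1, 1, 2, 1, 13), (8, 3, 0, 0, 7), (4, 0, 0, 11, 3), (2, 2, 11, 0, 3),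
  (8, 1, 2, 0, 7), (2, 0, 11, 2, 3), (4, 6, 3, 1, 4), (2, 2, 3, 3, 8), (1, 5, 5, 2, 5),
  (1, 1, 9, 2, 5), (1, 1, 14, 1, 1), (4, 4, 1, 3, 6), (1, 1, 7, 1, 8), (1, 9, 5, 1, 2),
  (1, 0, 3, 9, 5), (4, 4, 6, 1, 3), (4, 1, 7, 2, 4), (2, 2, 2, 3, 9), (2, 2, 6, 1, 7),
  (2, 3, 0, 3, 10), (2, 3, 1, 2, 10), (1, 5, 0, 9, 3), (1, 0, 1, 5, 11), (2, 6, 6, 1, 3),
  (1, 1, 5, 0, 11), (1, 1, 0, 5, 11), (1, 3, 5, 0, 9), (1, 0, 11, 3, 3), (1, 2, 11, 3, 1),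
  (1, 1, 1, 6, 9), (4, 3, 0, 7, 4), (4, 0, 6, 3, 5), (8, 1, 0, 8, 1), (1, 4, 5, 1, 7),
  (4, 5, 4, 2, 3), (1, 4, 1, 1, 11), (2, 3, 7, 0, 6), (2, 2, 11, 1, 2), (1, 2, 1, 5, 9),
  (1, 1, 0, 7, 9), (1, 1, 3, 6, 7), (4, 0, 3, 7, 4), (1, 5, 8, 1, 3), (2, 1, 2, 3, 10),
  (2, 2, 2, 5, 7), (1, 9, 0, 3, 5), (4, 2, 7, 0, 5), (2, 7, 2, 4, 3), (1, 1, 2, 7, 7),
  (4, 2, 5, 1, 6), (2, 3, 0, 10, 3), (1, 1, 11, 2, 3), (4, 4, 1, 2, 7), (1, 1, 12, 3, 1),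
  (1, 2, 3, 1, 11), (2, 0, 9, 5, 2), (4, 6, 0, 5, 3), (1, 3, 3, 2, 9), (4, 0, 6, 5, 3),
  (4, 6, 3, 0, 5), (1, 7, 1, 2, 7), (2, 8, 2, 3, 3), (1, 9, 1, 3, 4), (4, 3, 5, 0, 6),
  (1, 13, 1, 2, 1), (1, 0, 9, 1, 7), (1, 1, 1, 3, 12), (4, 3, 0, 5, 6), (1, 8, 1, 1, 7),
  (4, 1, 2, 4, 7), (2, 2, 1, 3, 10), (2, 2, 3, 1, 10), (2, 11, 0, 2, 3), (2, 10, 2, 1, 3),
  (1, 0, 3, 11, 3), (1, 3, 0, 9, 5), (4, 1, 6, 1, 6), (4, 3, 4, 1, 6), (1, 9, 0, 5, 3),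
  (4, 0, 2, 7, 5), (4, 0, 3, 5, 6), (2, 0, 10, 3, 3), (1, 8, 3, 3, 3), (1, 4, 3, 3, 7),
  (1, 0, 3, 1, 13), (4, 2, 4, 1, 7), (1, 9, 5, 0, 3), (1, 13, 3, 0, 1), (1, 8, 1, 5, 3),
  (1, 1, 7, 0, 9), (1, 9, 0, 7, 1), (4, 0, 7, 3, 4), (2, 6, 3, 1, 6), (1, 5, 0, 5, 7),
  (2, 9, 5, 1, 1), (2, 6, 0, 3, 7), (4, 3, 0, 4, 7), (2, 8, 3, 2, 3), (4, 0, 2, 5, 7),
  (1, 1, 4, 3, 9), (1, 10, 1, 3, 3), (2, 1, 3, 1, 11), (1, 1, 0, 3, 13), (4, 5, 3, 0, 6),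
  (4, 6, 5, 0, 3), (1, 1, 0, 1, 15), (1, 1, 13, 0, 3), (2, 2, 2, 1, 11), (1, 0, 1, 13, 3),
  (4, 4, 3, 0, 7), (2, 1, 11, 2, 2), (1, 7, 0, 3, 7), (1, 3, 2, 3, 9), (4, 1, 1, 5, 7),
  (2, 3, 0, 6, 7), (1, 1, 3, 0, 13), (4, 2, 0, 7, 5), (2, 7, 2, 0, 7), (1, 9, 6, 1, 1),
  (4, 11, 1, 1, 1), (2, 3, 3, 1, 9), (1, 0, 3, 5, 9), (2, 1, 11, 1, 3), (2, 3, 0, 2, 11),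
  (2, 0, 11, 3, 2), (2, 2, 0, 11, 3), (2, 11, 2, 0, 3), (2, 0, 6, 3, 7), (2, 0, 2, 11, 3),
  (1, 3, 0, 11, 3), (4, 0, 7, 2, 5), (2, 0, 3, 6, 7), (2, 4, 3, 2, 7), (1, 0, 5, 5, 7),
  (1, 7, 3, 0, 7), (2, 3, 2, 0, 11), (2, 9, 3, 1, 3), (4, 7, 0, 0, 7), (4, 0, 6, 1, 7),
  (2, 1, 1, 7, 7), (4, 4, 7, 0, 3), (4, 5, 3, 1, 5), (2, 1, 3, 3, 9), (2, 4, 2, 3, 7),
  (4, 1, 7, 1, 5), (2, 9, 1, 3, 3), (2, 1, 5, 3, 7), (2, 7, 1, 1, 7), (2, 11, 1, 1, 3),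
  (2, 3, 1, 3, 9), (4, 1, 3, 3, 7)]

lemma F18_ok : fok 19 F18 = true := by decide +kernel

lemma C01_ok : cok 19 C01 = true := by decide +kernel

lemma C12_ok : cok 19 C12 = true := by decide +kernel

lemma C23_ok : cok 19 C23 = true := by decide +kernel

lemma C30_ok : cok 19 C30 = true := by decide +kernel

lemma C01_eq : Nat.beq (dmask 19 0 1 F18) (hmask 19 C01) = true := by decide +kernel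

lemma C12_eq : Nat.beq (dmask 19 1 2 F18) (hmask 19 C12) = true := by decide +kernel

lemma C23_eq : Nat.beq (dmask 19 2 3 F18) (hmask 19 C23) = true := by decide +kernel

lemma C30_eq : Nat.beq (dmask 19 3 0 F18) (hmask 19 C30) = true := by decide +kernel

/-- the class of the polynomial is invariant. -/
lemma F18_inv (w : Matrix (Fin 4) (Fin 4) (ZMod 2)) (hw : w.det ≠ 0) :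
    act w (pol F18) + pol F18 ∈ Hit 4 := by
  refine InvH.of_four ?_ ?_ ?_ ?_ w hw
  · exact cert (by decide) F18_ok C01_ok (Nat.eq_of_beq_eq_true C01_eq)
  · exact cert (by decide) F18_ok C12_ok (Nat.eq_of_beq_eq_true C12_eq)
  · exact cert (by decide) F18_ok C23_ok (Nat.eq_of_beq_eq_true C23_eq)
  · exact cert (by decide) F18_ok C30_ok (Nat.eq_of_beq_eq_true C30_eq)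

end Pool.Agent.helper69.Kam
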