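import Pool.Agent.helper69.Kam.Parity

set_option autoImplicit false

open MvPolynomial

namespace Pool.Agent.helper69.Kam

/-- the evaluation at a point. -/
noncomputable def ev {d : ℕ} (v : Fin d → ZMod 2) : P d →ₐ[ZMod 2] ZMod 2 := aeval v

lemma ev_X {d : ℕ} (v : Fin d → ZMod 2) (i : Fin d) : ev v (X i) = v i := by simp [ev]

lemma ev_mon {d : ℕ} (v : Fin d → ZMod 2) (t : Fin d →₀ ℕ) :
    ev v (monomial t 1) = ∏ i, v i ^ t i := by
  rw [ev, aeval_monomial, map_one, one_mul, Finsupp.prod_fintype _ _ (by simp)]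

/-- a row vector. -/
def row {d : ℕ} (v : Fin d → ZMod 2) : Matrix (Fin 1) (Fin d) (ZMod 2) := fun _ j => v j

/-- the evaluation at `v` on polynomials of degree `n`. -/
noncomputable def evd {d : ℕ} (v : Fin d → ZMod 2) (n : ℕ) : Du d :=
  (lcoeff (ZMod 2) (Finsupp.single 0 n)) ∘ₗ (sub (row v)).toLinearMap

lemma sub_row_X {d : ℕ} (v : Fin d → ZMod 2) (i : Fin d) :
    sub (row v) (X i) = C (v i) * X 0 := by
  rw [sub_X]; simp [row]

lemma sub_row_hom {d m : ℕ} (v : Fin d → ZMod 2) (f : P d) (hf : f.IsHomogeneous m) :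
    sub (row v) f = C (ev v f) * X 0 ^ m := by
  rw [MvPolynomial.as_sum f, map_sum, map_sum, map_sum, Finset.sum_mul]
  refine Finset.sum_congr rfl fun t ht => ?_
  have hdeg : t.degree = m := by
    have := hf (mem_support_iff.1 ht)
    rw [Finsupp.degree_eq_weight_one]
    exact this
  have h1 : monomial t (coeff t f) = (coeff t f) • (monomial t 1 : P d) := by
    simp [smul_monomial]
  rw [h1, map_smul, map_smul, smul_eq_mul, C_mul, ev_mon, smul_eq_C_mul, mul_assoc]
  congr 1
  rw [monomial_eq, Finsupp.prod_fintype _ _ (by simp), C_1, one_mul, map_prod]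
  simp only [map_pow, sub_row_X]
  rw [← hdeg, Finsupp.degree_eq_sum, map_prod, ← Finset.prod_pow_eq_pow_sum,
    ← Finset.prod_mul_distrib]
  refine Finset.prod_congr rfl fun i _ => ?_
  rw [mul_pow, C_pow]

lemma evd_hom {d n : ℕ} (v : Fin d → ZMod 2) (f : P d) (hf : f.IsHomogeneous n) :
    evd v n f = ev v f := by
  rw [evd, LinearMap.comp_apply, AlgHom.toLinearMap_apply, sub_row_hom v f hf, lcoeff_apply,
    coeff_C_mul, coeff_X_pow]
  simp

lemma evd_hom_ne {d n m : ℕ} (hm : m ≠ n) (v : Fin d → ZMod 2) (f : P d)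
    (hf : f.IsHomogeneous m) : evd v n f = 0 := by
  rw [evd, LinearMap.comp_apply, AlgHom.toLinearMap_apply, sub_row_hom v f hf, lcoeff_apply,
    coeff_C_mul, coeff_X_pow, if_neg, mul_zero]
  intro h
  apply hm
  have := DFunLike.congr_fun h 0
  simpa using this

lemma evd_deg {d : ℕ} (v : Fin d → ZMod 2) (n : ℕ) : Deg n (evd v n) :=
  fun _ hm f hf => evd_hom_ne hm v f hf

lemma evd_mon {d : ℕ} (v : Fin d → ZMod 2) {n : ℕ} {t : Fin d →₀ ℕ} (ht : t.degree = n) :
    evd v n (monomial t 1) = ∏ i, v i ^ t i := by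
  rw [evd_hom v _ (isHomogeneous_monomial 1 ht), ev_mon]

lemma evd_mon_ne {d : ℕ} (v : Fin d → ZMod 2) {n : ℕ} {t : Fin d →₀ ℕ} (ht : t.degree ≠ n) :
    evd v n (monomial t 1) = 0 := evd_hom_ne ht v _ (isHomogeneous_monomial 1 rfl)

/-- primitivity in degrees `2^b - 1`. -/
lemma evd_isPrim {d : ℕ} (v : Fin d → ZMod 2) {n : ℕ} (hn : ∃ m, n + 1 = 2 ^ m) :
    IsPrim d n (evd v n) := by
  have h := spike_mem (d := 1) (Finsupp.single 0 n) (by
    intro i
    obtain ⟨m, hm⟩ := hn
    have : i = 0 := Subsingleton.elim _ _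
    subst this
    exact ⟨m, by simpa using hm⟩)
  rw [Finsupp.degree_single] at h
  exact h.subst (row v)

lemma evd_act {d : ℕ} (v : Fin d → ZMod 2) (n : ℕ) (g : Matrix (Fin d) (Fin d) (ZMod 2)) :
    evd v n ∘ₗ (act g).toLinearMap = evd (Matrix.vecMul v g) n := by
  apply LinearMap.ext
  intro f
  rw [evd, evd, LinearMap.comp_apply, LinearMap.comp_apply, LinearMap.comp_apply,
    AlgHom.toLinearMap_apply, AlgHom.toLinearMap_apply, AlgHom.toLinearMap_apply, sub_act]
  rfl

lemma evd_mul {d n m r : ℕ} (v : Fin d → ZMod 2) {a : P d} (ha : a.IsHomogeneous r)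
    (hn : n = r + m) (f : P d) : evd v n (a * f) = ev v a * evd v m f := by
  have key : evd v n ∘ₗ LinearMap.mulLeft (ZMod 2) a = ev v a • evd v m := by
    apply ext_mon
    intro t
    rw [LinearMap.comp_apply, LinearMap.mulLeft_apply, LinearMap.smul_apply, smul_eq_mul]
    by_cases ht : t.degree = m
    · have h1 : (monomial t 1 : P d).IsHomogeneous m := isHomogeneous_monomial 1 ht
      have h2 : (a * monomial t 1).IsHomogeneous n := by rw [hn]; exact ha.mul h1
      rw [evd_hom v _ h2, evd_hom v _ h1, map_mul]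
    · rw [evd_mon_ne v ht, mul_zero]
      exact evd_hom_ne (m := r + t.degree) (by omega) v _
        (ha.mul (isHomogeneous_monomial 1 rfl))
  exact LinearMap.congr_fun key f

lemma tw_evd {d n m r : ℕ} (v : Fin d → ZMod 2) {a : P d} (ha : a.IsHomogeneous r)
    (hn : n = r + 2 * m) : tw a (evd v n) = ev v a • evd v m := by
  apply ext_mon
  intro t
  rw [tw_apply, LinearMap.smul_apply, smul_eq_mul]
  have h1 : ((monomial t 1 : P d) ^ 2).IsHomogeneous (t.degree * 2) :=
    (isHomogeneous_monomial 1 rfl).pow 2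
  rw [evd_mul v ha (m := n - r) (by omega)]
  by_cases ht : t.degree = m
  · have h2 : ((monomial t 1 : P d) ^ 2).IsHomogeneous (n - r) := by
      rw [show n - r = t.degree * 2 by omega]; exact h1
    rw [evd_hom v _ h2, evd_hom v _ (isHomogeneous_monomial 1 ht), map_pow, zmod2_sq]
  · rw [evd_mon_ne v ht, evd_hom_ne (m := t.degree * 2) (by omega) v _ h1]

/-! ### Sums over all points -/

/-- Möbius inversion over `F_2`. -/
lemma mobius {d : ℕ} (S U : Finset (Fin d)) :
    ∑ v : Fin d → ZMod 2, (∏ i ∈ S, v i) * (∏ i ∈ Uᶜ, (1 + v i)) = if S = U then 1 else 0 := by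
  classical
  have h1 : ∀ v : Fin d → ZMod 2, (∏ i ∈ S, v i) * (∏ i ∈ Uᶜ, (1 + v i)) =
      ∏ i, ((if i ∈ S then v i else 1) * (if i ∈ U then 1 else 1 + v i)) := by
    intro v
    rw [Finset.prod_mul_distrib]
    congr 1
    · rw [Finset.prod_ite_mem, Finset.univ_inter]
    · have : ∀ i, (if i ∈ U then (1 : ZMod 2) else 1 + v i) = if i ∈ Uᶜ then 1 + v i else 1 := by
        intro i
        by_cases h : i ∈ U <;> simp [h]
      rw [Finset.prod_congr rfl (fun i _ => this i), Finset.prod_ite_mem, Finset.univ_inter]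
  rw [Finset.sum_congr rfl (fun v _ => h1 v)]
  have h2 := Finset.prod_univ_sum (R := ZMod 2) (fun _ : Fin d => (Finset.univ : Finset (ZMod 2)))
    (fun i x => (if i ∈ S then x else 1) * (if i ∈ U then 1 else 1 + x))
  rw [Fintype.piFinset_univ] at h2
  rw [← h2]
  have h3 : ∀ i : Fin d, ∑ x : ZMod 2, ((if i ∈ S then x else 1) * (if i ∈ U then 1 else 1 + x)) =
      if (i ∈ S ↔ i ∈ U) then 1 else 0 := by
    intro i
    by_cases hS : i ∈ S <;> by_cases hU : i ∈ U <;> simp only [hS, hU, if_true, if_false] <;> decide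
  rw [Finset.prod_congr rfl (fun i _ => h3 i)]
  split_ifs with h
  · subst h
    exact Finset.prod_eq_one (fun i _ => by simp)
  · obtain ⟨i, hi⟩ : ∃ i, ¬(i ∈ S ↔ i ∈ U) := by
      by_contra hcon
      push Not at hcon
      exact h (Finset.ext hcon)
    exact Finset.prod_eq_zero (Finset.mem_univ i) (if_neg hi)

lemma pow_eq_self (x : ZMod 2) (n : ℕ) (hn : n ≠ 0) : x ^ n = x := by
  rcases (show x = 0 ∨ x = 1 by revert x; decide) with rfl | rfl
  · exact zero_pow hn
  · exact one_pow n

lemma prod_pow_support {d : ℕ} (v : Fin d → ZMod 2) (t : Fin d →₀ ℕ) :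
    ∏ i, v i ^ t i = ∏ i ∈ t.support, v i := by
  rw [← Finset.prod_subset (Finset.subset_univ t.support)]
  · refine Finset.prod_congr rfl fun i hi => ?_
    exact pow_eq_self _ _ (Finsupp.mem_support_iff.1 hi)
  · intro i _ hi
    rw [Finsupp.notMem_support_iff.1 hi, pow_zero]

/-- the exponent vector with support `S` and degree `m`. -/
noncomputable def canon {d : ℕ} (S : Finset (Fin d)) (i : Fin d) (m : ℕ) : Fin d →₀ ℕ :=
  Finsupp.equivFunOnFinite.symm (fun j => if j ∈ S then 1 else 0) + Finsupp.single i (m - S.card)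

lemma canon_support {d : ℕ} {S : Finset (Fin d)} {i : Fin d} (hi : i ∈ S) (m : ℕ) :
    (canon S i m).support = S := by
  ext j
  simp only [canon, Finsupp.mem_support_iff, Finsupp.add_apply,
    Finsupp.equivFunOnFinite_symm_apply_apply]
  constructor
  · intro h
    by_contra hj
    apply h
    rw [if_neg hj, Finsupp.single_apply, if_neg (by rintro rfl; exact hj hi), add_zero]
  · intro h
    rw [if_pos h]; omega

lemma canon_degree {d : ℕ} {S : Finset (Fin d)} (i : Fin d) {m : ℕ} (hm : S.card ≤ m) :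
    (canon S i m).degree = m := by
  rw [canon, map_add, Finsupp.degree_single, Finsupp.degree_eq_sum]
  simp only [Finsupp.equivFunOnFinite_symm_apply_apply]
  rw [Finset.sum_ite_mem, Finset.univ_inter]
  simp only [Finset.sum_const, smul_eq_mul, mul_one]
  omega

lemma sum_evd_support {d m : ℕ} (c : (Fin d → ZMod 2) → ZMod 2) {t : Fin d →₀ ℕ}
    (ht : t.degree = m) :
    (∑ v, c v • evd v m) (monomial t 1) = ∑ v, c v * ∏ i ∈ t.support, v i := by
  rw [LinearMap.sum_apply]
  refine Finset.sum_congr rfl fun v _ => ?_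
  rw [LinearMap.smul_apply, smul_eq_mul, evd_mon v ht, prod_pow_support]

/-- Independence of the evaluations, general form. -/
lemma ind_gen {m : ℕ} (c : (Fin 4 → ZMod 2) → ZMod 2) (h : ∑ v, c v • evd v m = 0)
    (v0 : Fin 4 → ZMod 2) (hv0 : v0 ≠ 0) (hm : 3 ≤ m) :
    c v0 = if 4 ≤ m then 0 else c 1 := by
  classical
  -- the sums over supports
  have hS : ∀ S : Finset (Fin 4), S.Nonempty → S.card ≤ m → ∑ v, c v * ∏ i ∈ S, v i = 0 := by
    intro S hne hcard
    obtain ⟨i, hi⟩ := hne
    have := LinearMap.congr_fun h (monomial (canon S i m) 1)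
    rwa [sum_evd_support c (canon_degree i hcard), canon_support hi, LinearMap.zero_apply] at this
  -- the delta function
  set Z : Finset (Fin 4) := Finset.univ.filter (fun i => v0 i = 0) with hZ
  have hdelta : ∀ v : Fin 4 → ZMod 2, (if v = v0 then (1 : ZMod 2) else 0) =
      ∑ T ∈ Z.powerset, ∏ i ∈ Zᶜ ∪ T, v i := by
    intro v
    have h1 : ∀ T ∈ Z.powerset, ∏ i ∈ Zᶜ ∪ T, v i = (∏ i ∈ Zᶜ, v i) * ∏ i ∈ T, v i := by
      intro T hT
      rw [Finset.prod_union]
      rw [Finset.mem_powerset] at hT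
      exact Finset.disjoint_of_subset_right hT (disjoint_compl_left)
    rw [Finset.sum_congr rfl h1, ← Finset.mul_sum]
    have h2 : ∑ T ∈ Z.powerset, ∏ i ∈ T, v i = ∏ i ∈ Z, (1 + v i) := by
      rw [Finset.prod_one_add]
    rw [h2]
    split_ifs with hv
    · subst hv
      rw [Finset.prod_eq_one, Finset.prod_eq_one, one_mul]
      · intro i hi
        rw [hZ, Finset.mem_filter] at hi
        rw [hi.2, add_zero]
      · intro i hi
        rw [hZ, Finset.mem_compl, Finset.mem_filter] at hi
        have : v i ≠ 0 := fun h => hi ⟨Finset.mem_univ i, h⟩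
        revert this
        generalize v i = x
        revert x; decide
    · obtain ⟨i, hi⟩ : ∃ i, v i ≠ v0 i := by
        by_contra hcon
        push Not at hcon
        exact hv (funext hcon)
      symm
      by_cases h0 : v0 i = 0
      · have : ∏ i ∈ Z, (1 + v i) = 0 := by
          apply Finset.prod_eq_zero (i := i)
          · rw [hZ, Finset.mem_filter]; exact ⟨Finset.mem_univ i, h0⟩
          · rw [h0] at hi
            revert hi
            generalize v i = x
            revert x; decide
        rw [this, mul_zero]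
      · have : ∏ i ∈ Zᶜ, v i = 0 := by
          apply Finset.prod_eq_zero (i := i)
          · rw [hZ, Finset.mem_compl, Finset.mem_filter]; exact fun h => h0 h.2
          · revert hi h0
            generalize v i = x
            generalize v0 i = y
            revert x y; decide
        rw [this, zero_mul]
  have hc : c v0 = ∑ T ∈ Z.powerset, ∑ v, c v * ∏ i ∈ Zᶜ ∪ T, v i := by
    rw [Finset.sum_comm]
    simp only [← Finset.mul_sum]
    rw [← Finset.sum_congr rfl (fun v _ => by rw [← hdelta v])]
    simp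
  have hne : ∀ T, (Zᶜ ∪ T).Nonempty := by
    intro T
    obtain ⟨i, hi⟩ : ∃ i, v0 i ≠ 0 := by
      by_contra hcon
      push Not at hcon
      exact hv0 (funext hcon)
    exact ⟨i, Finset.mem_union_left _ (by rw [hZ, Finset.mem_compl, Finset.mem_filter]; exact fun h => hi h.2)⟩
  rw [hc]
  split_ifs with h4
  · apply Finset.sum_eq_zero
    intro T _
    apply hS _ (hne T)
    have := Finset.card_le_univ (Zᶜ ∪ T)
    rw [Fintype.card_fin] at this
    omega
  · rw [Finset.sum_eq_single Z]
    · have huniv : Zᶜ ∪ Z = Finset.univ := by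
        rw [Finset.union_comm, Finset.union_compl]
      rw [huniv, Finset.sum_eq_single 1]
      · simp
      · intro v _ hv
        obtain ⟨i, hi⟩ : ∃ i, v i ≠ 1 := by
          by_contra hcon
          push Not at hcon
          exact hv (funext hcon)
        have : v i = 0 := by
          revert hi
          generalize v i = x
          revert x; decide
        rw [Finset.prod_eq_zero (Finset.mem_univ i) this, mul_zero]
      · simp
    · intro T hT hTZ
      apply hS _ (hne T)
      rw [Finset.mem_powerset] at hT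
      have hlt : (Zᶜ ∪ T).card < 4 := by
        have h1 : Zᶜ ∪ T ≠ Finset.univ := by
          intro h2
          apply hTZ
          apply Finset.Subset.antisymm hT
          intro i hi
          have : i ∈ Zᶜ ∪ T := by rw [h2]; exact Finset.mem_univ i
          rw [Finset.mem_union, Finset.mem_compl] at this
          rcases this with h3 | h3
          · exact absurd hi h3
          · exact h3
        have h2 := (Finset.card_lt_iff_ne_univ _).2 h1
        simpa using h2
      omega
    · intro h5
      exact absurd (Finset.mem_powerset.2 (Finset.Subset.refl Z)) h5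

lemma ind4 {m : ℕ} (hm : 4 ≤ m) (c : (Fin 4 → ZMod 2) → ZMod 2) (h : ∑ v, c v • evd v m = 0)
    (v : Fin 4 → ZMod 2) (hv : v ≠ 0) : c v = 0 := by
  rw [ind_gen c h v hv (by omega), if_pos hm]

lemma ind3 {m : ℕ} (hm : 3 ≤ m) (c : (Fin 4 → ZMod 2) → ZMod 2) (h : ∑ v, c v • evd v m = 0)
    (v w : Fin 4 → ZMod 2) (hv : v ≠ 0) (hw : w ≠ 0) : c v = c w := by
  rw [ind_gen c h v hv hm, ind_gen c h w hw hm]

end Pool.Agent.helper69.Kam
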