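import Pool.Agent.helper69.Kam.Mask

set_option autoImplicit false

open MvPolynomial

namespace Pool.Agent.helper69.Kam

/-- primitive functionals vanish on hit elements. -/
lemma IsPrim.hit {d n : ℕ} {φ : Du d} (hφ : IsPrim d n φ) {u : P d} (hu : u ∈ Hit d) :
    φ u = 0 := by
  have h3 : Hit d ≤ LinearMap.ker φ := by
    rw [Hit, Submodule.span_le]
    rintro _ ⟨k, hk, f, rfl⟩
    exact hφ.kills k hk f
  exact h3 hu

lemma Aug_apply_zero {d n : ℕ} {f : P d}
    (hf : ∀ w : Matrix (Fin d) (Fin d) (ZMod 2), w.det ≠ 0 → act w f + f ∈ Hit d)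
    {α : Du d} (hα : α ∈ Aug d n) : α f = 0 := by
  induction hα using Submodule.span_induction with
  | mem α hm =>
      obtain ⟨g, φ, hφ, rfl⟩ := hm
      have h1 : (φ ∘ₗ (act (g : Matrix (Fin d) (Fin d) (ZMod 2))).toLinearMap - φ) f =
          φ (act (g : Matrix (Fin d) (Fin d) (ZMod 2)) f + f) := by
        rw [map_add, LinearMap.sub_apply, CharTwo.sub_eq_add]
        rfl
      rw [h1]
      exact hφ.hit (hf _ (det_ne_zero g))
  | zero => rfl
  | add a b _ _ ha hb => rw [LinearMap.add_apply, ha, hb, add_zero]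
  | smul c a _ ha => rw [LinearMap.smul_apply, ha, smul_zero]

/-- invariance modulo hit elements. -/
def InvH {d : ℕ} (f : P d) (w : Matrix (Fin d) (Fin d) (ZMod 2)) : Prop := act w f + f ∈ Hit d

lemma InvH.mul {d : ℕ} {f : P d} {A B : Matrix (Fin d) (Fin d) (ZMod 2)} (hA : InvH f A)
    (hB : InvH f B) : InvH f (A * B) := by
  rw [InvH, act_mul]
  have h1 := act_mem_Hit A hB
  rw [map_add] at h1
  exact htrans h1 hA

/-- the commutator of two transvections. -/
lemma InvH.comm {d : ℕ} {f : P d} {i j k : Fin d} (hij : i ≠ j) (hjk : j ≠ k) (hik : i ≠ k)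
    (h1 : InvH f (Matrix.transvection i j 1)) (h2 : InvH f (Matrix.transvection j k 1)) :
    InvH f (Matrix.transvection i k 1) := by
  have e : Matrix.transvection i k (1 : ZMod 2) = Matrix.transvection i j 1 *
      (Matrix.transvection j k 1 * (Matrix.transvection i j 1 * Matrix.transvection j k 1)) := by
    have e1 : Matrix.single i j (1 : ZMod 2) * Matrix.single i j 1 = 0 :=
      Matrix.single_mul_single_of_ne _ _ _ _ hij.symm _
    have e2 : Matrix.single j k (1 : ZMod 2) * Matrix.single j k 1 = 0 :=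
      Matrix.single_mul_single_of_ne _ _ _ _ hjk.symm _
    have e3 : Matrix.single j k (1 : ZMod 2) * Matrix.single i j 1 = 0 :=
      Matrix.single_mul_single_of_ne _ _ _ _ hik.symm _
    have e4 : Matrix.single i j (1 : ZMod 2) * Matrix.single j k 1 = Matrix.single i k 1 := by
      rw [Matrix.single_mul_single_same, one_mul]
    rw [Matrix.transvection, Matrix.transvection, Matrix.transvection]
    generalize Matrix.single i j (1 : ZMod 2) = x at *
    generalize Matrix.single j k (1 : ZMod 2) = y at *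
    rw [← e4]
    have h2 : ∀ M : Matrix (Fin d) (Fin d) (ZMod 2), M + M = 0 := by
      intro M; ext a b; exact CharTwo.add_self_eq_zero _
    have h3 : (1 + x) * ((1 + y) * ((1 + x) * (1 + y))) =
        1 + x * y + (x + x) + (y + y) + (x * y + x * y) + y * x + (y * y) * 1 + x * x + y * x * y +
        x * x * y + x * (y * x) + x * (y * y) + x * (y * x) * y := by
      noncomm_ring
    rw [h3, h2, h2, h2, e1, e2, e3]
    simp
  rw [e]
  exact h1.mul (h2.mul (h1.mul h2))

/-- invariance under all transvections gives invariance under the general linear group. -/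
lemma InvH.all {d : ℕ} {f : P d}
    (h : ∀ i j : Fin d, i ≠ j → InvH f (Matrix.transvection i j 1))
    (w : Matrix (Fin d) (Fin d) (ZMod 2)) (hw : w.det ≠ 0) : act w f + f ∈ Hit d := by
  refine Matrix.diagonal_transvection_induction_of_det_ne_zero
    (fun w => InvH f w) w hw ?_ ?_ ?_
  · intro D hD
    have hD1 : D = 1 := by
      funext i
      rw [Matrix.det_diagonal] at hD
      have h := (Finset.prod_ne_zero_iff.1 hD) i (Finset.mem_univ i)
      revert h
      generalize D i = x
      revert x
      simp only [Pi.one_apply]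
      decide
    rw [hD1, show (Matrix.diagonal (1 : Fin d → ZMod 2)) = 1 from Matrix.diagonal_one, InvH,
      act_one]
    exact hrefl _
  · intro t
    rcases t with ⟨i, j, hij, c⟩
    show InvH f (Matrix.transvection i j c)
    rcases (show c = 0 ∨ c = 1 by revert c; decide) with rfl | rfl
    · rw [Matrix.transvection_zero, InvH, act_one]
      exact hrefl _
    · exact h i j hij
  · intro A B _ _ hA hB
    exact hA.mul hB

/-- four transvections suffice in rank four. -/
lemma InvH.of_four {f : P 4} (h01 : InvH f (Matrix.transvection 0 1 1))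
    (h12 : InvH f (Matrix.transvection 1 2 1)) (h23 : InvH f (Matrix.transvection 2 3 1))
    (h30 : InvH f (Matrix.transvection 3 0 1)) (w : Matrix (Fin 4) (Fin 4) (ZMod 2))
    (hw : w.det ≠ 0) : act w f + f ∈ Hit 4 := by
  have h02 := InvH.comm (by decide) (by decide) (by decide) h01 h12
  have h13 := InvH.comm (by decide) (by decide) (by decide) h12 h23
  have h20 := InvH.comm (by decide) (by decide) (by decide) h23 h30
  have h31 := InvH.comm (by decide) (by decide) (by decide) h30 h01
  have h03 := InvH.comm (by decide) (by decide) (by decide) h02 h23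
  have h10 := InvH.comm (by decide) (by decide) (by decide) h13 h30
  have h21 := InvH.comm (by decide) (by decide) (by decide) h20 h01
  have h32 := InvH.comm (by decide) (by decide) (by decide) h31 h12
  refine InvH.all (fun i j hij => ?_) w hw
  match i, j, hij with
  | 0, 0, h => exact absurd rfl h
  | 0, 1, _ => exact h01
  | 0, 2, _ => exact h02
  | 0, 3, _ => exact h03
  | 1, 0, _ => exact h10
  | 1, 1, h => exact absurd rfl h
  | 1, 2, _ => exact h12
  | 1, 3, _ => exact h13
  | 2, 0, _ => exact h20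
  | 2, 1, _ => exact h21
  | 2, 2, h => exact absurd rfl h
  | 2, 3, _ => exact h23
  | 3, 0, _ => exact h30
  | 3, 1, _ => exact h31
  | 3, 2, _ => exact h32
  | 3, 3, h => exact absurd rfl h

/-! ### Certificates -/

/-- an exponent vector. -/
def v4 (x : ℕ × ℕ × ℕ × ℕ) : Fin 4 → ℕ := ![x.1, x.2.1, x.2.2.1, x.2.2.2]

/-- the polynomial with given monomials. -/
noncomputable def pol (F : List (ℕ × ℕ × ℕ × ℕ)) : P 4 := (F.map (fun x => mn (v4 x))).sum

/-- the exponents are small. -/
def sm (B m : ℕ) (x : ℕ × ℕ × ℕ × ℕ) : Bool :=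
  decide (x.1 + m < B) && (decide (x.2.1 + m < B) && (decide (x.2.2.1 + m < B) &&
    decide (x.2.2.2 + m < B)))

lemma sm_spec {B m : ℕ} {x : ℕ × ℕ × ℕ × ℕ} (h : sm B m x = true) (j : Fin 4) :
    v4 x j + m < B := by
  simp only [sm, Bool.and_eq_true, decide_eq_true_eq] at h
  obtain ⟨h0, h1, h2, h3⟩ := h
  have hx : j = 0 ∨ j = 1 ∨ j = 2 ∨ j = 3 := by revert j; decide
  rcases hx with rfl | rfl | rfl | rfl
  · exact h0
  · exact h1
  · exact h2
  · exact h3

/-- the difference of a polynomial and its image, as a mask. -/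
def dmask (B : ℕ) (a b : Fin 4) (F : List (ℕ × ℕ × ℕ × ℕ)) : ℕ :=
  xl (F.map fun x => actm B a b (v4 x) ^^^ (1 <<< code B (v4 x)))

/-- a sum of squares of monomials, as a mask. -/
def hmask (B : ℕ) (C : List (ℕ × ℕ × ℕ × ℕ × ℕ)) : ℕ :=
  xl (C.map fun x => sqm B x.1 (v4 x.2))

/-- the bounds on the polynomial. -/
def fok (B : ℕ) (F : List (ℕ × ℕ × ℕ × ℕ)) : Bool :=
  F.all fun x => sm B 0 x && decide (x.1 + x.2.1 + x.2.2.1 + x.2.2.2 < B)

/-- the bounds on the certificate. -/
def cok (B : ℕ) (C : List (ℕ × ℕ × ℕ × ℕ × ℕ)) : Bool :=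
  C.all fun x => sm B x.1 x.2 && decide (0 < x.1)

lemma hmask_hit {B : ℕ} {C : List (ℕ × ℕ × ℕ × ℕ × ℕ)} (h : cok B C = true) :
    toP B (hmask B C) ∈ Hit 4 := by
  rw [hmask, (isX_toP B).list, List.map_map]
  rw [cok, List.all_eq_true] at h
  apply list_sum_mem
  intro y hy
  rw [List.mem_map] at hy
  obtain ⟨x, hx, rfl⟩ := hy
  have h1 := h x hx
  rw [Bool.and_eq_true, decide_eq_true_eq] at h1
  rw [Function.comp_apply, sqm_spec (sm_spec h1.1)]
  exact Sq_mem_Hit h1.2 _

lemma dmask_spec {B : ℕ} {a b : Fin 4} (hab : a ≠ b) {F : List (ℕ × ℕ × ℕ × ℕ)}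
    (h : fok B F = true) :
    toP B (dmask B a b F) = act (Matrix.transvection a b (1 : ZMod 2)) (pol F) + pol F := by
  rw [dmask, (isX_toP B).list, List.map_map, pol]
  rw [fok, List.all_eq_true] at h
  induction F with
  | nil => simp
  | cons x F ih =>
      rw [List.map_cons, List.map_cons, List.sum_cons, List.sum_cons,
        ih (fun y hy => h y (List.mem_cons_of_mem _ hy)), map_add, Function.comp_apply, toP_xor]
      have h1 := h x List.mem_cons_self
      rw [Bool.and_eq_true, decide_eq_true_eq] at h1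
      have h2 : ∀ j, v4 x j < B := fun j => by
        have := sm_spec h1.1 j
        omega
      have h3 : v4 x a + v4 x b < B := by
        have hle : v4 x a + v4 x b ≤ ∑ j, v4 x j := by
          rw [← Finset.sum_pair hab]
          exact Finset.sum_le_sum_of_subset (Finset.subset_univ _)
        have hs : ∑ j, v4 x j = x.1 + x.2.1 + x.2.2.1 + x.2.2.2 := by
          rw [Fin.sum_univ_four]; rfl
        omega
      rw [actm_spec hab h2 h3, toP_bit h2]
      abel

lemma cert {B : ℕ} {a b : Fin 4} (hab : a ≠ b) {F : List (ℕ × ℕ × ℕ × ℕ)}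
    {C : List (ℕ × ℕ × ℕ × ℕ × ℕ)} (hF : fok B F = true) (hC : cok B C = true)
    (h : dmask B a b F = hmask B C) : InvH (pol F) (Matrix.transvection a b 1) := by
  rw [InvH, ← dmask_spec hab hF, h]
  exact hmask_hit hC

end Pool.Agent.helper69.Kam
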