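import Pool.Agent.helper69.Kam.Base

set_option autoImplicit false

open MvPolynomial

namespace Pool.Agent.helper69.Kam

/-- functionals on `P_d`. -/
abbrev Du (d : ℕ) : Type := Module.Dual (ZMod 2) (P d)

/-! ### Rectangular substitutions -/

/-- the substitution `x_j ↦ ∑ i, W i j • x_i` from `P_c` to `P_d`. -/
noncomputable def sub {c d : ℕ} (W : Matrix (Fin d) (Fin c) (ZMod 2)) : P c →ₐ[ZMod 2] P d :=
  aeval (fun j => ∑ i, C (W i j) * X i)

lemma sub_X {c d : ℕ} (W : Matrix (Fin d) (Fin c) (ZMod 2)) (j : Fin c) :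
    sub W (X j) = ∑ i, C (W i j) * X i := by
  simp [sub]

lemma sub_C {c d : ℕ} (W : Matrix (Fin d) (Fin c) (ZMod 2)) (a : ZMod 2) :
    sub W (C a) = (C a : P d) := by
  simp [sub, MvPolynomial.algebraMap_eq]

lemma act_eq_sub {d : ℕ} (W : Matrix (Fin d) (Fin d) (ZMod 2)) : act W = sub W := rfl

lemma SqT_C (d : ℕ) (a : ZMod 2) : SqT d (C a) = Polynomial.C (C a) := by
  simp [SqT, MvPolynomial.algebraMap_eq]

lemma sub_X_sq {c d : ℕ} (W : Matrix (Fin d) (Fin c) (ZMod 2)) (j : Fin c) :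
    (∑ i, (C (W i j) * X i : P d)) ^ 2 = ∑ i, C (W i j) * X i ^ 2 := by
  rw [CharTwo.sum_sq]
  refine Finset.sum_congr rfl fun i _ => ?_
  rw [mul_pow, ← C_pow, zmod2_sq]

lemma SqT_sub_hom {c d : ℕ} (W : Matrix (Fin d) (Fin c) (ZMod 2)) :
    (SqT d).comp (sub W) = (Polynomial.mapAlgHom (sub W)).comp (SqT c) := by
  apply MvPolynomial.algHom_ext
  intro j
  simp only [AlgHom.comp_apply]
  have hL : SqT d (sub W (X j)) =
      ∑ i, (Polynomial.C (C (W i j) * X i) + Polynomial.X * Polynomial.C (C (W i j) * X i ^ 2)) := by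
    rw [sub_X, map_sum]
    refine Finset.sum_congr rfl fun i _ => ?_
    rw [map_mul, SqT_C, SqT_X, Polynomial.C_mul, Polynomial.C_mul]
    ring
  have hR : (Polynomial.mapAlgHom (sub W)) (SqT c (X j)) =
      Polynomial.C (∑ i, (C (W i j) * X i : P d)) +
        Polynomial.X * Polynomial.C ((∑ i, (C (W i j) * X i : P d)) ^ 2) := by
    rw [SqT_X, map_add, map_mul]
    simp only [Polynomial.coe_mapAlgHom, Polynomial.map_C, Polynomial.map_X,
      RingHom.coe_coe]
    rw [map_pow, sub_X]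
  rw [hL, hR, sub_X_sq, map_sum, map_sum, Finset.mul_sum, ← Finset.sum_add_distrib]

lemma Sq_sub {c d : ℕ} (W : Matrix (Fin d) (Fin c) (ZMod 2)) (k : ℕ) (f : P c) :
    Sq d k (sub W f) = sub W (Sq c k f) := by
  have h := DFunLike.congr_fun (SqT_sub_hom W) f
  simp only [AlgHom.comp_apply, Polynomial.coe_mapAlgHom] at h
  rw [Sq_apply, h, Polynomial.coeff_map]
  rfl

lemma sub_sub {b c d : ℕ} (V : Matrix (Fin d) (Fin c) (ZMod 2))
    (W : Matrix (Fin c) (Fin b) (ZMod 2)) (f : P b) :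
    sub V (sub W f) = sub (V * W) f := by
  have h : (sub V).comp (sub W) = sub (V * W) := by
    apply MvPolynomial.algHom_ext
    intro j
    simp only [AlgHom.comp_apply]
    rw [sub_X, sub_X, map_sum]
    simp only [map_mul, sub_X, Matrix.mul_apply, map_sum, Finset.sum_mul, Finset.mul_sum]
    rw [Finset.sum_comm]
    refine Finset.sum_congr rfl fun i _ => ?_
    refine Finset.sum_congr rfl fun k _ => ?_
    rw [sub_C]
    ring
  rw [← h]; rfl

lemma sub_act {c d : ℕ} (V : Matrix (Fin d) (Fin c) (ZMod 2))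
    (W : Matrix (Fin c) (Fin c) (ZMod 2)) (f : P c) :
    sub V (act W f) = sub (V * W) f := sub_sub V W f

lemma sub_isHomogeneous {c d : ℕ} (W : Matrix (Fin d) (Fin c) (ZMod 2)) {f : P c} {m : ℕ}
    (hf : f.IsHomogeneous m) : (sub W f).IsHomogeneous m := by
  have := hf.aeval (fun j => ∑ i, (C (W i j) * X i : P d)) (n := 1) ?_
  · simpa [sub] using this
  · intro j
    apply MvPolynomial.IsHomogeneous.sum
    intro i _
    simpa using (isHomogeneous_C (Fin d) (W i j)).mul (isHomogeneous_X (ZMod 2) i)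

lemma IsPrim.subst {c d n : ℕ} (W : Matrix (Fin d) (Fin c) (ZMod 2))
    {θ : Du d} (hθ : IsPrim d n θ) :
    IsPrim c n (θ ∘ₗ (Kam.sub W).toLinearMap) := by
  refine ⟨?_, ?_⟩
  · intro m hm f hf
    exact hθ.degree m hm _ (sub_isHomogeneous W hf)
  · intro k hk f
    simp only [LinearMap.comp_apply, AlgHom.toLinearMap_apply]
    rw [← Sq_sub]
    exact hθ.kills k hk _

/-! ### Induction on monomials -/

lemma monomial_ind {d : ℕ} {Q : (Fin d →₀ ℕ) → Prop} (h0 : Q 0)
    (h1 : ∀ t i, Q t → Q (t + Finsupp.single i 1)) (t : Fin d →₀ ℕ) : Q t := by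
  have key : ∀ n : ℕ, ∀ t : Fin d →₀ ℕ, t.degree = n → Q t := by
    intro n
    induction n with
    | zero =>
        intro t ht
        rw [Finsupp.degree_eq_zero_iff] at ht
        rw [ht]; exact h0
    | succ n ih =>
        intro t ht
        have hne : t ≠ 0 := by
          rintro rfl
          simp at ht
        obtain ⟨i, hi⟩ := Finsupp.support_nonempty_iff.2 hne
        rw [Finsupp.mem_support_iff] at hi
        have hle : Finsupp.single i 1 ≤ t := by
          rw [Finsupp.single_le_iff]; omega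
        have e : t - Finsupp.single i 1 + Finsupp.single i 1 = t := tsub_add_cancel_of_le hle
        rw [← e]
        apply h1
        apply ih
        have h2 := congrArg Finsupp.degree e
        rw [map_add, Finsupp.degree_single, ht] at h2
        omega
  exact key _ t rfl

lemma ext_mon {d : ℕ} {θ θ' : Du d} (h : ∀ t, θ (monomial t 1) = θ' (monomial t 1)) : θ = θ' := by
  apply MvPolynomial.linearMap_ext
  intro t
  apply LinearMap.ext_ring
  exact h t

lemma monomial_one_add_single {d : ℕ} (t : Fin d →₀ ℕ) (i : Fin d) :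
    (monomial (t + Finsupp.single i 1) 1 : P d) = monomial t 1 * X i := by
  rw [X, monomial_mul, one_mul]

/-! ### Top squares -/

lemma Sq_one_zero (d : ℕ) (k : ℕ) (hk : 0 < k) : Sq d k (1 : P d) = 0 := by
  have := Sq_C d k hk 1
  rwa [C_1] at this

lemma Sq_top_monomial {d : ℕ} (t : Fin d →₀ ℕ) :
    (∀ k, t.degree < k → Sq d k (monomial t 1 : P d) = 0) ∧
      Sq d t.degree (monomial t 1 : P d) = (monomial t 1) ^ 2 := by
  refine monomial_ind (Q := fun t => (∀ k, t.degree < k → Sq d k (monomial t 1 : P d) = 0) ∧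
      Sq d t.degree (monomial t 1 : P d) = (monomial t 1) ^ 2) ?_ ?_ t
  · refine ⟨?_, ?_⟩
    · intro k hk
      have : (monomial 0 1 : P d) = 1 := rfl
      rw [this]
      exact Sq_one_zero d k (by simpa using hk)
    · have : (monomial 0 1 : P d) = 1 := rfl
      rw [this, map_zero, Sq_zero_apply, one_pow]
  · rintro t i ⟨h1, h2⟩
    rw [map_add, Finsupp.degree_single, monomial_one_add_single]
    refine ⟨?_, ?_⟩
    · intro k hk
      obtain ⟨k, rfl⟩ := Nat.exists_eq_succ_of_ne_zero (by omega : k ≠ 0)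
      rw [Nat.succ_eq_add_one, Sq_mul_X_succ, h1 _ (by omega), h1 _ (by omega)]
      ring
    · rw [Sq_mul_X_succ, h2, h1 _ (by omega)]
      ring

/-- primitive functionals of positive degree vanish on squares. -/
lemma IsPrim.sq {d n : ℕ} {θ : Du d} (hθ : IsPrim d n θ) (hn : 0 < n) (f : P d) :
    θ (f ^ 2) = 0 := by
  induction f using MvPolynomial.induction_on' with
  | monomial t a =>
      have h1 : monomial t a = a • (monomial t 1 : P d) := by simp [smul_monomial]
      rw [h1, smul_pow, map_smul]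
      rcases Nat.eq_zero_or_pos t.degree with h | h
      · have h2 : ((monomial t 1 : P d) ^ 2).IsHomogeneous 0 := by
          have := (isHomogeneous_monomial (R := ZMod 2) 1 h).pow 2
          simpa using this
        rw [hθ.degree 0 (by omega) _ h2, smul_zero]
      · rw [← (Sq_top_monomial t).2, hθ.kills _ h, smul_zero]
  | add p q hp hq => rw [CharTwo.add_sq, map_add, hp, hq, add_zero]

/-! ### The Cartan formula -/

lemma Sq_mul {d : ℕ} (k : ℕ) (a f : P d) :
    Sq d k (a * f) = ∑ p ∈ Finset.HasAntidiagonal.antidiagonal k, Sq d p.1 a * Sq d p.2 f := by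
  rw [Sq_apply, map_mul, Polynomial.coeff_mul]
  rfl

/-- `Sq^{2k}(a f^2) = ∑ Sq^{2i}(a) (Sq^j f)^2`, sum over `i + j = k`. -/
lemma Sq_mul_sq_even {d : ℕ} (k : ℕ) (a f : P d) :
    Sq d (2 * k) (a * f ^ 2) =
      ∑ p ∈ Finset.HasAntidiagonal.antidiagonal k, Sq d (2 * p.1) a * (Sq d p.2 f) ^ 2 := by
  rw [Sq_mul]
  symm
  refine Finset.sum_of_injOn (fun p => (2 * p.1, 2 * p.2)) ?_ ?_ ?_ ?_
  · rintro ⟨a1, b1⟩ _ ⟨a2, b2⟩ _ h
    simp only [Prod.mk.injEq] at h
    ext <;> simp <;> omega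
  · rintro ⟨a1, b1⟩ h
    rw [Finset.mem_coe, Finset.HasAntidiagonal.mem_antidiagonal] at h ⊢
    simp only at h ⊢
    omega
  · rintro ⟨a1, b1⟩ h hn
    rw [Finset.HasAntidiagonal.mem_antidiagonal] at h
    simp only at h
    rcases Nat.even_or_odd' b1 with ⟨c, rfl | rfl⟩
    · exfalso
      apply hn
      refine ⟨(k - c, c), ?_, ?_⟩
      · rw [Finset.mem_coe, Finset.HasAntidiagonal.mem_antidiagonal]
        simp only
        omega
      · show (2 * (k - c), 2 * c) = (a1, 2 * c)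
        rw [show 2 * (k - c) = a1 by omega]
    · rw [Sq_odd_sq, mul_zero]
  · rintro ⟨a1, b1⟩ _
    simp only
    rw [Sq_even_sq]

lemma Sq_one_mul_sq {d : ℕ} (a f : P d) : Sq d 1 (a * f ^ 2) = Sq d 1 a * f ^ 2 := by
  rw [Sq_mul, Finset.sum_eq_single (1, 0)]
  · rw [Sq_zero_apply]
  · rintro ⟨a1, b1⟩ hab hne
    rw [Finset.HasAntidiagonal.mem_antidiagonal] at hab
    simp only at hab
    have hb : b1 = 1 := by
      rcases (show b1 = 0 ∨ b1 = 1 by omega) with h | h
      · exfalso; apply hne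
        subst h
        ext <;> simp; omega
      · exact h
    subst hb
    have h := Sq_odd_sq (d := d) 0 f
    simp only [mul_zero, zero_add] at h
    rw [h, mul_zero]
  · intro hn
    exfalso; apply hn; simp

/-! ### Squares of small products of variables -/

lemma Sq_X {d : ℕ} (k : ℕ) (i : Fin d) :
    Sq d k (X i) = if k = 0 then X i else if k = 1 then X i ^ 2 else 0 := by
  rw [Sq_apply, SqT_X, Polynomial.coeff_add]
  rcases k with _ | _ | k
  · rw [Polynomial.coeff_C_zero, Polynomial.mul_coeff_zero, Polynomial.coeff_X_zero]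
    simp
  · rw [Polynomial.coeff_C_succ, Polynomial.coeff_X_mul, Polynomial.coeff_C_zero]
    simp
  · rw [Polynomial.coeff_C_succ, Polynomial.coeff_X_mul, Polynomial.coeff_C_succ]
    simp

lemma Sq_one_X {d : ℕ} (i : Fin d) : Sq d 1 (X i) = X i ^ 2 := by simp [Sq_X]

lemma Sq_two_X {d : ℕ} (k : ℕ) (i : Fin d) : Sq d (k + 2) (X i) = 0 := by
  rw [Sq_X]; simp

lemma Sq_mul_X_one {d : ℕ} (f : P d) (i : Fin d) :
    Sq d 1 (f * X i) = Sq d 1 f * X i + f * X i ^ 2 := by
  have := Sq_mul_X_succ d 0 f i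
  rwa [zero_add, Sq_zero_apply] at this

lemma Sq_mul_X_two {d : ℕ} (f : P d) (i : Fin d) :
    Sq d 2 (f * X i) = Sq d 2 f * X i + Sq d 1 f * X i ^ 2 :=
  Sq_mul_X_succ d 1 f i

lemma Sq_one_XX {d : ℕ} (a b : Fin d) :
    Sq d 1 (X a * X b) = X a ^ 2 * X b + X a * X b ^ 2 := by
  rw [Sq_mul_X_one, Sq_one_X]

lemma Sq_two_XX {d : ℕ} (a b : Fin d) :
    Sq d 2 (X a * X b) = X a ^ 2 * X b ^ 2 := by
  rw [Sq_mul_X_two, Sq_one_X, Sq_two_X 0]
  ring

lemma Sq_three_XX {d : ℕ} (k : ℕ) (a b : Fin d) : Sq d (k + 3) (X a * X b) = 0 := by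
  rw [Sq_mul_X_succ d (k + 2), Sq_two_X k, Sq_two_X (k + 1)]
  ring

lemma Sq_one_XXX {d : ℕ} (a b c : Fin d) :
    Sq d 1 (X a * X b * X c) =
      X a ^ 2 * X b * X c + X a * X b ^ 2 * X c + X a * X b * X c ^ 2 := by
  rw [Sq_mul_X_one, Sq_one_XX]
  ring

lemma Sq_two_XXX {d : ℕ} (a b c : Fin d) :
    Sq d 2 (X a * X b * X c) =
      X a ^ 2 * X b ^ 2 * X c + X a ^ 2 * X b * X c ^ 2 + X a * X b ^ 2 * X c ^ 2 := by
  rw [Sq_mul_X_two, Sq_one_XX, Sq_two_XX]
  ring

lemma Sq_four_XXX {d : ℕ} (k : ℕ) (a b c : Fin d) : Sq d (k + 4) (X a * X b * X c) = 0 := by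
  rw [Sq_mul_X_succ d (k + 3), Sq_three_XX k, Sq_three_XX (k + 1)]
  ring

lemma Sq_one_XXXX {d : ℕ} (a b c e : Fin d) :
    Sq d 1 (X a * X b * X c * X e) =
      X a ^ 2 * X b * X c * X e + X a * X b ^ 2 * X c * X e + X a * X b * X c ^ 2 * X e
        + X a * X b * X c * X e ^ 2 := by
  rw [Sq_mul_X_one, Sq_one_XXX]
  ring

lemma Sq_two_XXXX {d : ℕ} (a b c e : Fin d) :
    Sq d 2 (X a * X b * X c * X e) =
      X a ^ 2 * X b ^ 2 * X c * X e + X a ^ 2 * X b * X c ^ 2 * X e
        + X a ^ 2 * X b * X c * X e ^ 2 + X a * X b ^ 2 * X c ^ 2 * X e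
        + X a * X b ^ 2 * X c * X e ^ 2 + X a * X b * X c ^ 2 * X e ^ 2 := by
  rw [Sq_mul_X_two, Sq_one_XXX, Sq_two_XXX]
  ring

/-! ### Contractions -/

/-- `tw a θ` is the functional `f ↦ θ (a f^2)`. -/
noncomputable def tw {d : ℕ} (a : P d) : Du d →ₗ[ZMod 2] Du d where
  toFun θ :=
    { toFun := fun f => θ (a * f ^ 2)
      map_add' := fun f g => by rw [CharTwo.add_sq, mul_add, map_add]
      map_smul' := fun c f => by
        rw [smul_pow, zmod2_sq, mul_smul_comm, map_smul]; rfl }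
  map_add' := fun _ _ => rfl
  map_smul' := fun _ _ => rfl

lemma tw_apply {d : ℕ} (a : P d) (θ : Du d) (f : P d) : tw a θ f = θ (a * f ^ 2) := rfl

lemma tw_degree {d n m r : ℕ} {θ : Du d} (hθ : IsPrim d n θ) {a : P d}
    (ha : a.IsHomogeneous r) (hn : r + 2 * m = n) (m' : ℕ) (hm : m' ≠ m) (f : P d)
    (hf : f.IsHomogeneous m') : tw a θ f = 0 := by
  rw [tw_apply]
  apply hθ.degree (r + m' * 2) (by omega)
  exact ha.mul (hf.pow 2)

/-- `f ↦ θ (x_i f^2)` is primitive. -/
lemma IsPrim.tw1 {d n m : ℕ} {θ : Du d} (hθ : IsPrim d n θ) (hn : n = 1 + 2 * m) (i : Fin d) :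
    IsPrim d m (tw (X i) θ) := by
  refine ⟨?_, ?_⟩
  · intro m' hm' f hf
    exact tw_degree hθ (isHomogeneous_X _ i) hn.symm m' hm' f hf
  · intro k hk f
    have h := hθ.kills (2 * k) (by omega) (X i * f ^ 2)
    rw [Sq_mul_sq_even, map_sum, Finset.sum_eq_single (0, k)] at h
    · rw [tw_apply]
      rw [mul_zero, Sq_zero_apply] at h
      exact h
    · rintro ⟨a, b⟩ hab hne
      rw [Finset.HasAntidiagonal.mem_antidiagonal] at hab
      simp only at hab
      have ha : a ≠ 0 := by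
        rintro rfl
        apply hne
        ext <;> simp; omega
      obtain ⟨a, rfl⟩ := Nat.exists_eq_succ_of_ne_zero ha
      rw [show 2 * (a.succ, b).1 = 2 * a + 2 by simp; ring, Sq_two_X]
      simp
    · intro hn
      exfalso; apply hn
      simp

/-- `f ↦ θ (x_i x_j f^2)` is primitive. -/
lemma IsPrim.tw2 {d n m : ℕ} {θ : Du d} (hθ : IsPrim d n θ) (hn : n = 2 + 2 * m) (i j : Fin d) :
    IsPrim d m (tw (X i * X j) θ) := by
  refine ⟨?_, ?_⟩
  · intro m' hm' f hf
    exact tw_degree hθ ((isHomogeneous_X _ i).mul (isHomogeneous_X _ j)) (by omega) m' hm' f hf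
  · intro k hk f
    have h := hθ.kills (2 * k) (by omega) (X i * X j * f ^ 2)
    rw [Sq_mul_sq_even, map_sum, ← Finset.add_sum_erase _ _ (a := (0, k)) (by simp),
      Finset.sum_eq_zero] at h
    · rw [tw_apply]
      rw [mul_zero, Sq_zero_apply, add_zero] at h
      exact h
    · rintro ⟨a, b⟩ hab
      rw [Finset.mem_erase, Finset.HasAntidiagonal.mem_antidiagonal] at hab
      obtain ⟨hne, hab⟩ := hab
      simp only at hab
      have ha : a ≠ 0 := by
        rintro rfl
        apply hne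
        ext <;> simp; omega
      obtain ⟨a, rfl⟩ := Nat.exists_eq_succ_of_ne_zero ha
      rcases Nat.eq_zero_or_pos a with rfl | ha'
      · rw [show 2 * (Nat.succ 0, b).1 = 2 by simp, Sq_two_XX]
        have e : (X i ^ 2 * X j ^ 2 * Sq d (Nat.succ 0, b).2 f ^ 2 : P d) =
            (X i * X j * Sq d b f) ^ 2 := by ring
        rw [e]
        exact hθ.sq (by omega) _
      · obtain ⟨a, rfl⟩ := Nat.exists_eq_succ_of_ne_zero (Nat.pos_iff_ne_zero.1 ha')
        rw [show 2 * (a.succ.succ, b).1 = (2 * a + 1) + 3 by simp; ring, Sq_three_XX]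
        simp

/-- relation T. -/
lemma IsPrim.relT {d n : ℕ} {θ : Du d} (hθ : IsPrim d n θ) (a b c : Fin d) (h : P d) :
    tw (X b * X c) θ (X a * h) + tw (X a * X c) θ (X b * h) + tw (X a * X b) θ (X c * h) = 0 := by
  have h1 := hθ.kills 1 one_pos (X a * X b * X c * h ^ 2)
  rw [Sq_one_mul_sq, Sq_one_XXX, add_mul, add_mul, map_add, map_add] at h1
  simp only [tw_apply]
  rw [← h1]
  congr 1
  · congr 1
    · congr 1; ring
    · congr 1; ring
  · congr 1; ring

lemma tw_self {d n : ℕ} {θ : Du d} (hθ : IsPrim d n θ) (hn : 0 < n) (a : Fin d) :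
    tw (X a * X a) θ = 0 := by
  apply LinearMap.ext
  intro f
  rw [tw_apply, show X a * X a * f ^ 2 = (X a * f) ^ 2 by ring, hθ.sq hn]
  rfl

/-! ### Kameko's map and substitutions -/

lemma DD_mul_sq {d : ℕ} (l : List (Fin d)) (a f : P d) : DD l (a * f ^ 2) = DD l a * f ^ 2 := by
  induction l with
  | nil => rfl
  | cons i l ih =>
      rw [DD_cons, DD_cons, ih, pderiv_mul]
      have : pderiv i (f ^ 2) = 0 := by
        rw [sq, pderiv_mul, mul_comm, CharTwo.add_self_eq_zero]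
      rw [this, mul_zero, add_zero]

lemma kappa_mul_sq {d : ℕ} (a f : P d) : kappa d (a * f ^ 2) = kappa d a * f := by
  apply sq_inj
  rw [kappa_sq, DD_mul_sq, mul_pow, kappa_sq]

lemma kappa_two_XX : kappa 2 (X 0 * X 1) = 1 := by
  have h : (X 0 * X 1 : P 2) = monomial (Finsupp.single 0 1 + Finsupp.single 1 1) 1 := by
    rw [X, X, monomial_mul, one_mul]
  rw [h, kappa_monomial, if_pos]
  · have : halve (Finsupp.single (0 : Fin 2) 1 + Finsupp.single 1 1) = 0 := by
      ext i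
      fin_cases i <;> simp [halve]
    rw [this]; rfl
  · intro i
    fin_cases i <;> simp

lemma kappa_sq' {d : ℕ} (hd : 0 < d) (f : P d) : kappa d (f ^ 2) = 0 := by
  rw [← one_mul (f ^ 2), kappa_mul_sq]
  have h : kappa d (1 : P d) = 0 := by
    have h1 : (1 : P d) = monomial 0 1 := rfl
    rw [h1, kappa_monomial, if_neg]
    intro h
    have := h ⟨0, hd⟩
    simp at this
  rw [h, zero_mul]

/-- the two-by-two minors of a `2 × 4` matrix. -/
def minor {c : ℕ} (W : Matrix (Fin 2) (Fin c) (ZMod 2)) (i j : Fin c) : ZMod 2 :=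
  W 0 i * W 1 j + W 1 i * W 0 j

lemma kappa_sub_XX {c : ℕ} (W : Matrix (Fin 2) (Fin c) (ZMod 2)) (i j : Fin c) (f : P c) :
    kappa 2 (sub W (X i * X j * f ^ 2)) = minor W i j • sub W f := by
  rw [map_mul, map_pow, kappa_mul_sq, map_mul, sub_X, sub_X, Fin.sum_univ_two, Fin.sum_univ_two]
  have e : (C (W 0 i) * X 0 + C (W 1 i) * X 1) * (C (W 0 j) * X 0 + C (W 1 j) * X 1) =
      (W 0 i * W 0 j) • (X 0 ^ 2 : P 2) + (W 1 i * W 1 j) • (X 1 ^ 2 : P 2) +
        (minor W i j) • (X 0 * X 1) := by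
    simp only [smul_eq_C_mul, minor, map_mul, map_add]
    ring
  rw [e, map_add, map_add, map_smul, map_smul, map_smul, kappa_sq' (by norm_num),
    kappa_sq' (by norm_num), kappa_two_XX, smul_zero, smul_zero, zero_add, zero_add,
    smul_mul_assoc, one_mul]

/-- contraction of a Kameko image. -/
lemma tw_kappa_sub {c : ℕ} (φ : Du 2) (W : Matrix (Fin 2) (Fin c) (ZMod 2)) (i j : Fin c) :
    tw (X i * X j) ((φ ∘ₗ kappa 2) ∘ₗ (sub W).toLinearMap) =
      minor W i j • (φ ∘ₗ (sub W).toLinearMap) := by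
  apply LinearMap.ext
  intro f
  rw [tw_apply, LinearMap.comp_apply, AlgHom.toLinearMap_apply, LinearMap.comp_apply,
    kappa_sub_XX, map_smul]
  rfl

end Pool.Agent.helper69.Kam
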