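import Pool.Agent.helper69.Kam.NonFam

set_option autoImplicit false

open MvPolynomial

namespace Pool.Agent.helper69.Kam

/-- from `P_4` to `P_3`. -/
def dn34 : Matrix (Fin 3) (Fin 4) (ZMod 2) := ![![1, 0, 0, 0], ![0, 1, 0, 0], ![0, 0, 1, 0]]

/-- from `P_3` to `P_4`. -/
def up43 : Matrix (Fin 4) (Fin 3) (ZMod 2) := ![![1, 0, 0], ![0, 1, 0], ![0, 0, 1], ![0, 0, 0]]

lemma dn_up : dn34 * up43 = 1 := by decide +kernel

lemma sub_dn_up (f : P 3) : sub dn34 (sub up43 f) = f := by
  rw [sub_sub, dn_up, ← act_eq_sub, act_one]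

lemma sub_dn_X (i : Fin 3) : sub dn34 (X i.castSucc) = X i := by
  rw [sub_X, Fin.sum_univ_three]
  have hi : i = 0 ∨ i = 1 ∨ i = 2 := by revert i; decide
  rcases hi with rfl | rfl | rfl <;> simp [dn34]

lemma evd_up (v : Fin 4 → ZMod 2) (n : ℕ) :
    evd v n ∘ₗ (sub up43).toLinearMap = evd (Matrix.vecMul v up43) n := by
  apply LinearMap.ext
  intro f
  rw [evd, evd, LinearMap.comp_apply, LinearMap.comp_apply, LinearMap.comp_apply,
    AlgHom.toLinearMap_apply, AlgHom.toLinearMap_apply, AlgHom.toLinearMap_apply, sub_sub]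
  rfl

lemma vecMul_up (v : Fin 4 → ZMod 2) (i : Fin 3) : Matrix.vecMul v up43 i = v i.castSucc := by
  rw [Matrix.vecMul, dotProduct, Fin.sum_univ_four]
  have hi : i = 0 ∨ i = 1 ∨ i = 2 := by revert i; decide
  rcases hi with rfl | rfl | rfl <;> simp [up43]

/-- the structure lemma in rank three. -/
lemma PL3 {b : ℕ} (hb : 3 ≤ b) {φ : Du 3} (hφ : IsPrim 3 (2 ^ b - 1) φ) :
    ∃ c : (Fin 4 → ZMod 2) → ZMod 2, ∀ i : Fin 3,
      tw (X i) φ = ∑ v, (c v * Matrix.vecMul v up43 i) •
        evd (Matrix.vecMul v up43) (2 ^ (b - 1) - 1) := by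
  obtain ⟨c, hc⟩ := PL hb (hφ.subst dn34)
  refine ⟨c, fun i => ?_⟩
  apply LinearMap.ext
  intro f
  have h1 := LinearMap.congr_fun (hc i.castSucc) (sub up43 f)
  rw [tw_apply, LinearMap.comp_apply, AlgHom.toLinearMap_apply, map_mul, map_pow, sub_dn_up,
    sub_dn_X] at h1
  rw [tw_apply, h1, LinearMap.sum_apply, LinearMap.sum_apply]
  refine Finset.sum_congr rfl fun v _ => ?_
  rw [LinearMap.smul_apply, LinearMap.smul_apply, vecMul_up, ← evd_up]
  rfl

lemma sum_evd_transfer {d m m' : ℕ} {c : (Fin d → ZMod 2) → ZMod 2} (hm : d ≤ m) (hm' : 0 < m')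
    (h : ∑ v, c v • evd v m = 0) : ∑ v, c v • evd v m' = 0 := by
  apply ext_mon
  intro t
  by_cases ht : t.degree = m'
  · have hne : t ≠ 0 := by
      rintro rfl
      simp at ht
      omega
    obtain ⟨i, hi⟩ := Finsupp.support_nonempty_iff.2 hne
    have hcard : t.support.card ≤ m := le_trans (by simpa using Finset.card_le_univ t.support) hm
    have h1 := LinearMap.congr_fun h (monomial (canon t.support i m) 1)
    rw [sum_evd_support c (canon_degree i hcard), canon_support hi] at h1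
    rw [sum_evd_support c ht, h1]
    rfl
  · rw [LinearMap.sum_apply, LinearMap.zero_apply]
    refine Finset.sum_eq_zero fun v _ => ?_
    rw [LinearMap.smul_apply, evd_mon_ne v ht, smul_zero]

lemma kappa3_X (i : Fin 3) : kappa 3 (X i) = 0 := by
  rw [X, kappa_monomial, if_neg]
  have hex : ∀ i : Fin 3, ∃ j : Fin 3, j ≠ i := by decide
  intro h
  obtain ⟨j, hj⟩ := hex i
  have := h j
  rw [Finsupp.single_eq_of_ne hj] at this
  simp at this

/-- Kameko's map is injective on the coinvariants in rank three, in the degrees `2^k - 2`,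
`k ≥ 2`. -/
lemma KInj3_fam {k : ℕ} (hk : 2 ≤ k) : KInj 3 (2 ^ k - 2) := by
  obtain ⟨e, rfl⟩ : ∃ e, k = e + 2 := ⟨k - 2, by omega⟩
  have hp : 1 ≤ 2 ^ e := Nat.one_le_two_pow
  have e2 : 2 ^ (e + 2) = 4 * 2 ^ e := by rw [pow_add]; ring
  have e3 : 2 ^ (e + 3) = 8 * 2 ^ e := by rw [pow_add]; ring
  rw [e2]
  set n := 4 * 2 ^ e - 2 with hn
  have hM : 3 + 2 * n = 2 ^ (e + 3) - 1 := by rw [e3]; omega
  have hm1 : 2 ^ (e + 3 - 1) - 1 = n + 1 := by
    rw [show e + 3 - 1 = e + 2 by omega, e2]; omega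
  set S : Submodule (ZMod 2) (Du 3) :=
    Submodule.span (ZMod 2) (Set.range fun v : Fin 3 → ZMod 2 => evd v (3 + 2 * n)) with hS
  have hSmem : ∀ v : Fin 3 → ZMod 2, evd v (3 + 2 * n) ∈ S := fun v =>
    Submodule.subset_span ⟨v, rfl⟩
  refine assembly S ?_ ?_
  · intro θ hθ
    rw [hM] at hθ
    obtain ⟨c, hc⟩ := PL3 (by omega) hθ
    set σ : Du 3 := ∑ v : Fin 4 → ZMod 2, c v • evd (Matrix.vecMul v up43) (3 + 2 * n) with hσ
    have hσS : σ ∈ S := Submodule.sum_mem _ fun v _ => Submodule.smul_mem _ _ (hSmem _)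
    have hσp : IsPrim 3 (3 + 2 * n) σ := by
      refine IsPrim.sum _ fun v _ => (evd_isPrim _ ⟨e + 3, ?_⟩).smul _
      rw [hM, e3]; omega
    rw [← hM] at hθ
    have hz : ∀ i, tw (X i) (θ - σ) = 0 := by
      intro i
      rw [map_sub, hc i, hσ, map_sum, sub_eq_zero]
      refine Finset.sum_congr rfl fun v _ => ?_
      rw [map_smul, tw_evd _ (isHomogeneous_X _ i) (m := n + 1) (by omega), ev_X, smul_smul, hm1]
    obtain ⟨ψ, hψ, he⟩ := K3 (hθ.sub hσp) hz
    refine ⟨ψ, hψ, ?_⟩
    rw [← he, sub_sub_cancel]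
    exact hσS
  · intro ψ _ hmem
    have hact : ∀ σ ∈ S, ∀ g : Matrix (Fin 3) (Fin 3) (ZMod 2), σ ∘ₗ (act g).toLinearMap ∈ S := by
      intro σ hσ g
      induction hσ using Submodule.span_induction with
      | mem σ h =>
          obtain ⟨v, rfl⟩ := h
          show evd v (3 + 2 * n) ∘ₗ (act g).toLinearMap ∈ S
          rw [evd_act]
          exact hSmem _
      | zero => rw [LinearMap.zero_comp]; exact Submodule.zero_mem _
      | add a b _ _ ha hb => rw [LinearMap.add_comp]; exact Submodule.add_mem _ ha hb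
      | smul c a _ ha => rw [LinearMap.smul_comp]; exact Submodule.smul_mem _ _ ha
    have h1 := AugS_le hact hmem
    rw [hS] at h1
    obtain ⟨c, hc⟩ := (Submodule.mem_span_range_iff_exists_fun (ZMod 2)).1 h1
    have h2 : ∑ v, c v • evd v (n + 2) = 0 := by
      apply ext_X
      · intro i g
        rw [sum_evd_mulX, LinearMap.zero_apply]
        have h3 := LinearMap.congr_fun (tw_sum_evd c (isHomogeneous_X _ i) (n := 3 + 2 * n)
          (m := n + 1) (by omega)) g
        rw [hc, tw_apply, LinearMap.comp_apply, kappa_mul_sq, kappa3_X, zero_mul, map_zero] at h3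
        simp only [ev_X] at h3
        exact h3.symm
      · rw [LinearMap.zero_apply, LinearMap.sum_apply]
        refine Finset.sum_eq_zero fun v _ => ?_
        have h4 : evd v (n + 2) (1 : P 3) = 0 := evd_hom_ne (m := 0) (by omega) v _
          (isHomogeneous_one _ _)
        rw [LinearMap.smul_apply, h4, smul_zero]
    have h5 := sum_evd_transfer (m' := 3 + 2 * n) (by omega) (by omega) h2
    rw [h5] at hc
    have h6 : ψ = 0 := comp_kappa_inj (by rw [← hc, LinearMap.zero_comp])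
    rw [h6]; exact Submodule.zero_mem _

/-! ### Degree zero -/

lemma act_one_poly {d : ℕ} (w : Matrix (Fin d) (Fin d) (ZMod 2)) : act w (1 : P d) = 1 := map_one _

/-- nothing is killed in degree zero. -/
lemma Aug_zero {d : ℕ} {α : Du d} (h : α ∈ Aug d 0) : α = 0 := by
  have h1 : α 1 = 0 := by
    induction h using Submodule.span_induction with
    | mem α hm =>
        obtain ⟨g, φ, hφ, rfl⟩ := hm
        rw [LinearMap.sub_apply, LinearMap.comp_apply, AlgHom.toLinearMap_apply, act_one_poly,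
          sub_self]
    | zero => rfl
    | add a b _ _ ha hb => rw [LinearMap.add_apply, ha, hb, add_zero]
    | smul c a _ ha => rw [LinearMap.smul_apply, ha, smul_zero]
  have h2 := (Aug_isPrim h).deg
  apply ext_mon
  intro t
  by_cases ht : t.degree = 0
  · rw [Finsupp.degree_eq_zero_iff] at ht
    rw [ht]; exact h1
  · exact h2.mon ht

/-- in degree zero there is only one functional. -/
lemma prim_zero {d : ℕ} {θ : Du d} (h : IsPrim d 0 θ) : θ = θ 1 • lcoeff (ZMod 2) 0 := by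
  apply ext_mon
  intro t
  rw [LinearMap.smul_apply, lcoeff_apply, coeff_monomial]
  by_cases ht : t = 0
  · rw [ht, if_pos rfl, smul_eq_mul, mul_one]; rfl
  · rw [if_neg ht, smul_zero]
    exact h.deg.mon (fun h' => ht (by rwa [Finsupp.degree_eq_zero_iff] at h'))

lemma one_isPrim (d : ℕ) : IsPrim d 0 (lcoeff (ZMod 2) (0 : Fin d →₀ ℕ)) := by
  have := spike_mem (d := d) 0 (fun i => ⟨0, rfl⟩)
  rwa [map_zero] at this

lemma one_not_Aug (d : ℕ) : lcoeff (ZMod 2) (0 : Fin d →₀ ℕ) ∉ Aug d 0 := by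
  intro h
  have h1 := LinearMap.congr_fun (Aug_zero h) (1 : P d)
  rw [LinearMap.zero_apply, lcoeff_apply, coeff_zero_one] at h1
  exact one_ne_zero h1

/-- the criterion in degree zero. -/
lemma KInj_zero_iff {d : ℕ} : KInj d 0 ↔
    lcoeff (ZMod 2) (Finsupp.equivFunOnFinite.symm (fun _ : Fin d => 1)) ∉ Aug d d := by
  have e : (lcoeff (ZMod 2) (0 : Fin d →₀ ℕ)) ∘ₗ kappa d =
      lcoeff (ZMod 2) (Finsupp.equivFunOnFinite.symm (fun _ : Fin d => 1)) := by
    rw [kameko_dual_basis, smul_zero, zero_add]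
  constructor
  · intro h hm
    refine one_not_Aug d (h _ (one_isPrim d) ?_)
    rw [e]
    exact hm
  · intro h θ hθ hm
    rw [prim_zero hθ, LinearMap.smul_comp, e] at hm
    rw [prim_zero hθ]
    rcases (show θ 1 = 0 ∨ θ 1 = 1 by generalize θ 1 = x; revert x; decide) with h0 | h0
    · rw [h0, zero_smul]; exact Submodule.zero_mem _
    · rw [h0, one_smul] at hm
      exact absurd hm h

/-! ### Rank three, degree zero -/

/-- a polynomial which takes the value one at every nonzero point. -/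
noncomputable def F3 : P 3 :=
  X 0 ^ 3 + X 1 ^ 3 + X 2 ^ 3 + X 0 ^ 2 * X 1 + X 0 ^ 2 * X 2 + X 1 ^ 2 * X 2 + X 0 * X 1 * X 2

lemma F3_hom : F3.IsHomogeneous 3 := by
  have hX : ∀ i : Fin 3, (X i : P 3).IsHomogeneous 1 := fun i => isHomogeneous_X _ i
  have h3 : ∀ i : Fin 3, (X i ^ 3 : P 3).IsHomogeneous 3 := fun i => (hX i).pow 3
  have h21 : ∀ i j : Fin 3, (X i ^ 2 * X j : P 3).IsHomogeneous 3 := fun i j =>
    ((hX i).pow 2).mul (hX j)
  have h111 : (X 0 * X 1 * X 2 : P 3).IsHomogeneous 3 := ((hX 0).mul (hX 1)).mul (hX 2)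
  exact ((((((h3 0).add (h3 1)).add (h3 2)).add (h21 0 1)).add (h21 0 2)).add (h21 1 2)).add h111

lemma F3_ev (v : Fin 3 → ZMod 2) : ev v F3 = if v = 0 then 0 else 1 := by
  simp only [F3, map_add, map_mul, map_pow, ev_X]
  revert v
  decide +kernel

lemma SO3 {φ : Du 3} (hφ : IsPrim 3 3 φ) : ∃ c : (Fin 3 → ZMod 2) → ZMod 2,
    φ = ∑ v, c v • evd v 3 := by
  refine SO (by norm_num) hφ.deg ?_
  intro i j _ g
  have key : φ ∘ₗ LinearMap.mulLeft (ZMod 2) (X i ^ 2 * X j) =
      φ ∘ₗ LinearMap.mulLeft (ZMod 2) (X i * X j ^ 2) := by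
    apply ext_mon
    intro t
    rw [LinearMap.comp_apply, LinearMap.comp_apply, LinearMap.mulLeft_apply,
      LinearMap.mulLeft_apply]
    by_cases ht : t = 0
    · have h1 : (monomial t 1 : P 3) = 1 := by rw [ht]; rfl
      rw [h1, mul_one, mul_one]
      have h2 := hφ.kills 1 one_pos (X i * X j)
      rw [Sq_one_XX, map_add] at h2
      exact CharTwo.add_eq_zero.1 h2
    · have hd : 0 + t.degree ≠ 0 := by
        intro h
        apply ht
        rw [zero_add, Finsupp.degree_eq_zero_iff] at h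
        exact h
      have hX : ∀ i : Fin 3, (X i : P 3).IsHomogeneous 1 := fun i => isHomogeneous_X _ i
      have hm : (monomial t 1 : P 3).IsHomogeneous t.degree := isHomogeneous_monomial 1 rfl
      rw [hφ.degree (1 * 2 + 1 + t.degree) (by omega) _ ((((hX i).pow 2).mul (hX j)).mul hm),
        hφ.degree (1 + 1 * 2 + t.degree) (by omega) _ (((hX i).mul ((hX j).pow 2)).mul hm)]
  exact LinearMap.congr_fun key g

lemma vecMul_ne {d : ℕ} (g : Matrix.GeneralLinearGroup (Fin d) (ZMod 2)) (v : Fin d → ZMod 2) :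
    Matrix.vecMul v (g : Matrix (Fin d) (Fin d) (ZMod 2)) = 0 ↔ v = 0 := by
  constructor
  · intro h
    have h1 := congrArg (fun w => Matrix.vecMul w
      ((g⁻¹ : Matrix.GeneralLinearGroup (Fin d) (ZMod 2)) : Matrix (Fin d) (Fin d) (ZMod 2))) h
    simp only [Matrix.vecMul_vecMul, Matrix.zero_vecMul] at h1
    rw [← Units.val_mul, mul_inv_cancel, Units.val_one, Matrix.vecMul_one] at h1
    exact h1
  · rintro rfl
    exact Matrix.zero_vecMul _

lemma KInj3_zero : KInj 3 0 := by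
  rw [KInj_zero_iff]
  intro h
  have key : ∀ α ∈ Aug 3 3, α F3 = 0 := by
    intro α hα
    induction hα using Submodule.span_induction with
    | mem α hm =>
        obtain ⟨g, φ, hφ, rfl⟩ := hm
        obtain ⟨c, hc⟩ := SO3 hφ
        have e1 : φ F3 = ∑ v, c v * (if v = 0 then 0 else 1) := by
          rw [hc, LinearMap.sum_apply]
          refine Finset.sum_congr rfl fun v _ => ?_
          rw [LinearMap.smul_apply, evd_hom v _ F3_hom, F3_ev, smul_eq_mul]
        have e2 : φ (act (g : Matrix (Fin 3) (Fin 3) (ZMod 2)) F3) =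
            ∑ v, c v * (if v = 0 then 0 else 1) := by
          rw [hc, LinearMap.sum_apply]
          refine Finset.sum_congr rfl fun v _ => ?_
          have e3 : evd v 3 (act (g : Matrix (Fin 3) (Fin 3) (ZMod 2)) F3) =
              evd (Matrix.vecMul v (g : Matrix (Fin 3) (Fin 3) (ZMod 2))) 3 F3 := by
            rw [← evd_act]; rfl
          rw [LinearMap.smul_apply, e3, evd_hom _ _ F3_hom, F3_ev, smul_eq_mul]
          simp only [vecMul_ne]
        rw [LinearMap.sub_apply, LinearMap.comp_apply, AlgHom.toLinearMap_apply, e1, e2, sub_self]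
    | zero => rfl
    | add a b _ _ ha hb => rw [LinearMap.add_apply, ha, hb, add_zero]
    | smul c a _ ha => rw [LinearMap.smul_apply, ha, smul_zero]
  have h1 := key _ h
  have h2 : lcoeff (ZMod 2) (Finsupp.equivFunOnFinite.symm (fun _ : Fin 3 => 1)) F3 = 1 := by
    have e : lcoeff (ZMod 2) (Finsupp.equivFunOnFinite.symm (fun _ : Fin 3 => 1)) =
        (lcoeff (ZMod 2) (0 : Fin 3 →₀ ℕ)) ∘ₗ kappa 3 := by
      rw [kameko_dual_basis, smul_zero, zero_add]
    have e2 : F3 = X 0 * X 0 ^ 2 + X 1 * X 1 ^ 2 + X 2 * X 2 ^ 2 + X 1 * X 0 ^ 2 + X 2 * X 0 ^ 2 +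
        X 2 * X 1 ^ 2 + xs Finset.univ := by
      rw [xs, Fin.prod_univ_three, F3]; ring
    rw [e, LinearMap.comp_apply, e2]
    simp only [map_add, kappa_mul_sq, kappa3_X, zero_mul, zero_add, kappa_xs_univ]
    rw [lcoeff_apply, coeff_zero_one]
  rw [h2] at h1
  exact one_ne_zero h1

end Pool.Agent.helper69.Kam
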