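import Pool.Agent.helper69.Kam.Small
import Pool.Agent.helper69.Kam.Rank3
import Pool.Agent.helper69.Kam.CaseIII
import Pool.Agent.helper69.Kam.CaseIIb
import Pool.Agent.helper69.Kam.CaseIb

set_option autoImplicit false

open MvPolynomial

namespace Pool.Agent.helper69.Kam

/-- rank four, positive degrees. -/
theorem KInj4 {n : ℕ} (hn : 1 ≤ n) : KInj 4 n := by
  by_cases h : ∀ s t, n + 3 ≠ 2 ^ s + 2 ^ t
  · exact KInj4_nonfam h
  push Not at h
  obtain ⟨s, t, hst⟩ := h
  wlog hle : t ≤ s generalizing s t
  · exact this t s (by rw [hst, add_comm]) (by omega)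
  have hps : 1 ≤ 2 ^ s := Nat.one_le_two_pow
  rcases t with _ | _ | t
  · -- `n = 2^s - 2`
    rw [pow_zero] at hst
    rcases s with _ | _ | _ | _ | s
    · omega
    · norm_num at hst; omega
    · have : n = 2 := by norm_num at hst; omega
      rw [this]; exact KInj4_2
    · have : n = 6 := by norm_num at hst; omega
      rw [this]; exact KInj4_6
    · have : n = 2 ^ (s + 4) - 2 := by
        have : s + 1 + 1 + 1 + 1 = s + 4 := rfl
        rw [this] at hst
        omega
      rw [this]
      exact KInj_III (by omega)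
  · -- `n = 2^s - 1`
    rw [zero_add, pow_one] at hst
    rcases s with _ | _ | _ | _ | s
    · omega
    · have : n = 1 := by norm_num at hst; omega
      rw [this]; exact KInj4_1
    · have : n = 3 := by norm_num at hst; omega
      rw [this]; exact KInj4_3
    · have : n = 7 := by norm_num at hst; omega
      rw [this]; exact KInj4_7
    · have : n = 2 ^ (s + 3 + 1) - 1 := by
        have : s + 1 + 1 + 1 + 1 = s + 3 + 1 := rfl
        rw [this] at hst
        omega
      rw [this]
      exact KInj_II (by omega)
  · by_cases hs : 3 ≤ s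
    · have : n = 2 ^ s + 2 ^ (t + 2) - 3 := by
        have : t + 1 + 1 = t + 2 := rfl
        rw [this] at hst
        omega
      rw [this]
      exact KInj_I (by omega) hle hs
    · have hs2 : s = 2 := by omega
      have ht0 : t = 0 := by omega
      subst hs2 ht0
      have : n = 5 := by norm_num at hst; omega
      rw [this]; exact KInj4_5

/-- rank three. -/
theorem KInj3 (n : ℕ) : KInj 3 n := by
  by_cases h : ∀ s, n + 2 ≠ 2 ^ s
  · exact KInj3_nonfam h
  push Not at h
  obtain ⟨s, hs⟩ := h
  rcases s with _ | _ | s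
  · omega
  · have : n = 0 := by norm_num at hs; omega
    rw [this]; exact KInj3_zero
  · have : n = 2 ^ (s + 2) - 2 := by
      have : s + 1 + 1 = s + 2 := rfl
      rw [this] at hs
      omega
    rw [this]
    exact KInj3_fam (by omega)

/-- degree zero, ranks at least four. -/
theorem not_KInj_zero {d : ℕ} (hd : 4 ≤ d) : ¬ KInj d 0 := by
  rw [KInj_zero_iff, not_not]
  rcases Nat.lt_or_ge 4 d with h5 | h4
  · have h := step3 (d := d) h5 1 (M := d) (by omega) ⟨1, rfl⟩
    have e : ex d 1 1 1 1 1 = Finsupp.equivFunOnFinite.symm (fun _ : Fin d => 1) := by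
      ext i
      rw [ex_apply, Finsupp.equivFunOnFinite_symm_apply_apply]
      split_ifs <;> rfl
    rw [q, e] at h
    exact h
  · obtain rfl : d = 4 := le_antisymm h4 hd
    apply Aug44
    have h := spike_mem (d := 4) (Finsupp.equivFunOnFinite.symm (fun _ : Fin 4 => 1))
      (fun i => ⟨1, rfl⟩)
    rwa [Finsupp.degree_eq_sum, Fin.sum_univ_four] at h

/-- ranks at least five. -/
theorem not_KInj_ge_five {d j : ℕ} (hd : 5 ≤ d) (hj : d ≤ j) : ¬ KInj d (2 ^ j - 1) := by
  intro h
  obtain ⟨θ, h1, h2, h3⟩ := notInjective_ge_five d hd j hj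
  exact h2 (h θ h1 h3)

/-- The main theorem. -/
theorem main (d : ℕ) (hd : 1 ≤ d) :
    ((∀ n, 1 ≤ n → KInj d n) ↔ d ≤ 4) ∧ (KInj d 0 ↔ d ≤ 3) := by
  constructor
  · constructor
    · intro h
      by_contra hlt
      have hd5 : 5 ≤ d := by omega
      refine not_KInj_ge_five hd5 le_rfl (h _ ?_)
      have : 2 ^ 1 ≤ 2 ^ d := Nat.pow_le_pow_right (by norm_num) hd
      omega
    · intro h n hn
      have : d = 1 ∨ d = 2 ∨ d = 3 ∨ d = 4 := by omega
      rcases this with rfl | rfl | rfl | rfl
      · exact KInj1 n
      · exact KInj2 n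
      · exact KInj3 n
      · exact KInj4 hn
  · constructor
    · intro h
      by_contra hlt
      exact not_KInj_zero (by omega) h
    · intro h
      have : d = 1 ∨ d = 2 ∨ d = 3 := by omega
      rcases this with rfl | rfl | rfl
      · exact KInj1 0
      · exact KInj2 0
      · exact KInj3 0

end Pool.Agent.helper69.Kam
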