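import Pool.Agent.helper69.Kam.Assembly

set_option autoImplicit false

open MvPolynomial

namespace Pool.Agent.helper69.Kam

/-! ### Parity of binomial coefficients -/

/-- the parities of the binomial coefficients, as binary digits. -/
def rw2 : ℕ → ℕ
  | 0 => 1
  | (a + 1) => rw2 a ^^^ (rw2 a <<< 1)

/-- the binomial coefficient is odd. -/
def od (a j : ℕ) : Bool := (rw2 a).testBit j

lemma od_zero_right (a : ℕ) : od a 0 = true := by
  induction a with
  | zero => decide
  | succ a ih =>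
      rw [od] at ih ⊢
      rw [rw2, Nat.testBit_xor, ih, Nat.testBit_shiftLeft]
      simp

lemma od_zero_succ (j : ℕ) : od 0 (j + 1) = false := by
  rw [od, rw2, Nat.testBit_succ]
  simp

lemma od_succ (a j : ℕ) : od (a + 1) (j + 1) = (od a (j + 1)).xor (od a j) := by
  rw [od, rw2, Nat.testBit_xor, Nat.testBit_shiftLeft]
  simp [od]

lemma od_choose (a : ℕ) : ∀ j, ((a.choose j : ℕ) : ZMod 2) = if od a j then 1 else 0 := by
  induction a with
  | zero =>
      intro j
      rcases j with _ | j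
      · rw [od_zero_right]; simp
      · rw [od_zero_succ]; simp
  | succ a ih =>
      intro j
      rcases j with _ | j
      · rw [od_zero_right]; simp
      · rw [Nat.choose_succ_succ, Nat.cast_add, ih, ih, od_succ]
        cases od a j <;> cases od a (j + 1) <;> decide

/-! ### Codes of monomials -/

/-- the code of a monomial. -/
def code (B : ℕ) (t : Fin 4 → ℕ) : ℕ := t 0 + B * (t 1 + B * (t 2 + B * t 3))

/-- the digits. -/
def dg (B i : ℕ) : Fin 4 → ℕ := ![i % B, i / B % B, i / B / B % B, i / B / B / B]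

lemma dg_code {B : ℕ} {t : Fin 4 → ℕ} (h : ∀ j, t j < B) : dg B (code B t) = t := by
  have hB : 0 < B := lt_of_le_of_lt (Nat.zero_le _) (h 0)
  funext j
  have h0 := h 0
  have h1 := h 1
  have h2 := h 2
  have e1 : code B t / B = t 1 + B * (t 2 + B * t 3) := by
    rw [code, Nat.add_mul_div_left _ _ hB, Nat.div_eq_of_lt h0, zero_add]
  have e2 : (t 1 + B * (t 2 + B * t 3)) / B = t 2 + B * t 3 := by
    rw [Nat.add_mul_div_left _ _ hB, Nat.div_eq_of_lt h1, zero_add]
  have e3 : (t 2 + B * t 3) / B = t 3 := by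
    rw [Nat.add_mul_div_left _ _ hB, Nat.div_eq_of_lt h2, zero_add]
  have hj : j = 0 ∨ j = 1 ∨ j = 2 ∨ j = 3 := by revert j; decide
  rcases hj with rfl | rfl | rfl | rfl
  · show code B t % B = _
    rw [code, Nat.add_mul_mod_self_left, Nat.mod_eq_of_lt h0]
  · show code B t / B % B = _
    rw [e1, Nat.add_mul_mod_self_left, Nat.mod_eq_of_lt h1]
  · show code B t / B / B % B = _
    rw [e1, e2, Nat.add_mul_mod_self_left, Nat.mod_eq_of_lt h2]
  · show code B t / B / B / B = _
    rw [e1, e2, e3]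

lemma code_lt {B : ℕ} {t : Fin 4 → ℕ} (h : ∀ j, t j < B) : code B t < B ^ 4 := by
  have e : B ^ 4 = B * (B * (B * B)) := by ring
  rw [e, code]
  have key : ∀ x y M : ℕ, x < B → y < M → x + B * y < B * M := by
    intro x y M hx hy
    calc x + B * y < B + B * y := by omega
      _ = B * (y + 1) := by ring
      _ ≤ B * M := Nat.mul_le_mul_left _ hy
  exact key _ _ _ (h 0) (key _ _ _ (h 1) (key _ _ _ (h 2) (h 3)))

/-- the monomial with given exponents. -/
noncomputable def mn (t : Fin 4 → ℕ) : P 4 := monomial (Finsupp.equivFunOnFinite.symm t) 1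

lemma mn_eq (t : Fin 4 → ℕ) :
    mn t = X 0 ^ t 0 * (X 1 ^ t 1 * (X 2 ^ t 2 * X 3 ^ t 3)) := by
  rw [mn, monomial_eq, Finsupp.prod_fintype _ _ (by simp), Fin.prod_univ_four]
  simp only [map_one, one_mul, Finsupp.equivFunOnFinite_symm_apply_apply]
  ring

lemma mn_vec (a b c e : ℕ) : mn ![a, b, c, e] = X 0 ^ a * (X 1 ^ b * (X 2 ^ c * X 3 ^ e)) := by
  rw [mn_eq]; rfl

/-- the polynomial of a bit mask. -/
noncomputable def toP (B m : ℕ) : P 4 :=
  ∑ i ∈ Finset.range (B ^ 4), if m.testBit i then mn (dg B i) else 0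

lemma toP_zero (B : ℕ) : toP B 0 = 0 := by
  rw [toP]
  refine Finset.sum_eq_zero fun i _ => ?_
  rw [Nat.zero_testBit]; rfl

lemma toP_xor (B m m' : ℕ) : toP B (m ^^^ m') = toP B m + toP B m' := by
  rw [toP, toP, toP, ← Finset.sum_add_distrib]
  refine Finset.sum_congr rfl fun i _ => ?_
  rw [Nat.testBit_xor]
  cases m.testBit i <;> cases m'.testBit i <;> simp [CharTwo.add_self_eq_zero]

lemma toP_bit {B : ℕ} {t : Fin 4 → ℕ} (h : ∀ j, t j < B) : toP B (1 <<< code B t) = mn t := by
  rw [toP, Finset.sum_eq_single (code B t)]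
  · rw [Nat.one_shiftLeft, Nat.testBit_two_pow_self, if_pos rfl, dg_code h]
  · intro i _ hi
    rw [Nat.one_shiftLeft, Nat.testBit_two_pow_of_ne (Ne.symm hi)]; rfl
  · intro h'
    exact absurd (Finset.mem_range.2 (code_lt h)) h'

/-! ### Sums -/

/-- iterated exclusive or. -/
def xsum : ℕ → (ℕ → ℕ) → ℕ
  | 0, _ => 0
  | (n + 1), f => xsum n f ^^^ f n

/-- exclusive or over a list. -/
def xl : List ℕ → ℕ
  | [] => 0
  | (a :: l) => a ^^^ xl l

/-- additive maps on masks. -/
structure IsX {M : Type*} [AddCommGroup M] (e : ℕ → M) : Prop where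
  zero : e 0 = 0
  xor : ∀ x y, e (x ^^^ y) = e x + e y

lemma IsX.sum {M : Type*} [AddCommGroup M] {e : ℕ → M} (he : IsX e) (n : ℕ) (f : ℕ → ℕ) :
    e (xsum n f) = ∑ i ∈ Finset.range n, e (f i) := by
  induction n with
  | zero => rw [xsum, he.zero]; rfl
  | succ n ih => rw [xsum, he.xor, ih, Finset.sum_range_succ]

lemma IsX.list {M : Type*} [AddCommGroup M] {e : ℕ → M} (he : IsX e) (l : List ℕ) :
    e (xl l) = (l.map e).sum := by
  induction l with
  | nil => rw [xl, he.zero]; rfl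
  | cons a l ih => rw [xl, he.xor, ih, List.map_cons, List.sum_cons]

lemma IsX.ite {M : Type*} [AddCommGroup M] {e : ℕ → M} (he : IsX e) (b : Bool) (x : ℕ) :
    e (if b then x else 0) = if b then e x else 0 := by
  cases b
  · exact he.zero
  · rfl

lemma isX_toP (B : ℕ) : IsX (toP B) := ⟨toP_zero B, toP_xor B⟩

lemma isX_cast : IsX (fun x : ℕ => (x : ZMod 2)) := by
  refine ⟨Nat.cast_zero, fun x y => ?_⟩
  rw [← Nat.cast_add]
  exact (ZMod.natCast_eq_natCast_iff _ _ _).2 (Nat.xor_mod_two_eq)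

/-! ### The squares of a monomial -/

/-- the square of a monomial. -/
def sqg (B : ℕ) (g : ℕ → ℕ) (k : ℕ) (t : Fin 4 → ℕ) : ℕ :=
  xsum (k + 1) fun i => if od (t 0) i then
    xsum (k + 1 - i) fun j => if od (t 1) j then
      xsum (k + 1 - i - j) fun l => if od (t 2) l then
        (if od (t 3) (k - i - j - l) then
          g (code B ![t 0 + i, t 1 + j, t 2 + l, t 3 + (k - i - j - l)]) else 0) else 0 else 0 else 0

lemma Sq_mul_range {d : ℕ} (k : ℕ) (i : Fin d) (a : ℕ) (f : P d) :
    Sq d k (X i ^ a * f) = ∑ j ∈ Finset.range (k + 1),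
      if od a j then X i ^ (a + j) * Sq d (k - j) f else 0 := by
  rw [Sq_mul, Finset.Nat.sum_antidiagonal_eq_sum_range_succ
    (fun p r => Sq d p (X i ^ a) * Sq d r f)]
  refine Finset.sum_congr rfl fun j _ => ?_
  rw [Sq_X_pow, od_choose]
  split_ifs
  · rw [one_smul]
  · rw [zero_smul, zero_mul]

lemma sqg_spec {M : Type*} [AddCommGroup M] {e : ℕ → M} (he : IsX e) (L : P 4 →+ M) {B : ℕ}
    {g : ℕ → ℕ} (hg : ∀ t : Fin 4 → ℕ, (∀ j, t j < B) → e (g (code B t)) = L (mn t))
    {k : ℕ} {t : Fin 4 → ℕ} (ht : ∀ j, t j + k < B) :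
    e (sqg B g k t) = L (Sq 4 k (mn t)) := by
  rw [sqg, he.sum, mn_eq, Sq_mul_range, map_sum]
  refine Finset.sum_congr rfl fun i hi => ?_
  rw [Finset.mem_range] at hi
  rw [he.ite, he.sum, apply_ite L, map_zero]
  congr 1
  rw [Sq_mul_range, Finset.mul_sum, map_sum]
  have e1 : k - i + 1 = k + 1 - i := by omega
  rw [e1]
  refine Finset.sum_congr rfl fun j hj => ?_
  rw [Finset.mem_range] at hj
  rw [he.ite, he.sum, mul_ite, mul_zero, apply_ite L, map_zero]
  congr 1
  rw [Sq_mul_range, Finset.mul_sum, Finset.mul_sum, map_sum]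
  have e2 : k - i - j + 1 = k + 1 - i - j := by omega
  rw [e2]
  refine Finset.sum_congr rfl fun l hl => ?_
  rw [Finset.mem_range] at hl
  rw [he.ite, he.ite, mul_ite, mul_ite, mul_zero, mul_zero, apply_ite L, map_zero]
  congr 1
  have h3 : Sq 4 (k - i - j - l) (X 3 ^ t 3 : P 4) = if od (t 3) (k - i - j - l) then
      X 3 ^ (t 3 + (k - i - j - l)) else 0 := by
    rw [Sq_X_pow, od_choose]
    split_ifs
    · rw [one_smul]
    · rw [zero_smul]
  rw [h3, mul_ite, mul_ite, mul_ite, mul_zero, mul_zero, mul_zero, apply_ite L, map_zero]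
  congr 1
  rw [hg, mn_vec]
  have := ht 0
  have := ht 1
  have := ht 2
  have := ht 3
  intro x
  have hx : x = 0 ∨ x = 1 ∨ x = 2 ∨ x = 3 := by revert x; decide
  rcases hx with rfl | rfl | rfl | rfl
  · show t 0 + i < B; omega
  · show t 1 + j < B; omega
  · show t 2 + l < B; omega
  · show t 3 + (k - i - j - l) < B; omega

/-- the square of a monomial, as a mask. -/
def sqm (B k : ℕ) (t : Fin 4 → ℕ) : ℕ := sqg B (fun i => 1 <<< i) k t

lemma sqm_spec {B k : ℕ} {t : Fin 4 → ℕ} (ht : ∀ j, t j + k < B) :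
    toP B (sqm B k t) = Sq 4 k (mn t) :=
  sqg_spec (isX_toP B) (AddMonoidHom.id _) (fun _ h => toP_bit h) ht

/-! ### The transvections -/

/-- the transvection `x_b ↦ x_b + x_a` on a monomial. -/
def actg (B : ℕ) (g : ℕ → ℕ) (a b : Fin 4) (t : Fin 4 → ℕ) : ℕ :=
  xsum (t b + 1) fun m => if od (t b) m then
    g (code B (fun j => if j = a then t a + m else if j = b then t b - m else t j)) else 0

lemma actg_spec {M : Type*} [AddCommGroup M] {e : ℕ → M} (he : IsX e) (L : P 4 →+ M) {B : ℕ}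
    {g : ℕ → ℕ} (hg : ∀ t : Fin 4 → ℕ, (∀ j, t j < B) → e (g (code B t)) = L (mn t))
    {a b : Fin 4} (hab : a ≠ b) {t : Fin 4 → ℕ} (ht : ∀ j, t j < B) (h2 : t a + t b < B) :
    e (actg B g a b t) = L (act (Matrix.transvection a b (1 : ZMod 2)) (mn t)) := by
  rw [actg, he.sum, mn, act_transvection_monomial hab, map_sum,
    Finsupp.equivFunOnFinite_symm_apply_apply]
  refine Finset.sum_congr rfl fun m hm => ?_
  rw [Finset.mem_range] at hm
  rw [he.ite, od_choose, ite_smul, one_smul, zero_smul, apply_ite L, map_zero]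
  congr 1
  rw [hg, mn]
  · congr 3
    ext j
    simp only [Finsupp.equivFunOnFinite_symm_apply_apply, Finsupp.add_apply, Finsupp.tsub_apply,
      Finsupp.single_apply]
    by_cases h1 : j = a
    · subst h1
      simp [hab, hab.symm]
    · by_cases h3 : j = b
      · subst h3
        simp [hab, hab.symm]
      · simp [h1, h3, Ne.symm h1, Ne.symm h3]
  · intro j
    have := ht j
    have := ht b
    split_ifs <;> omega

/-- the transvection on a monomial, as a mask. -/
def actm (B : ℕ) (a b : Fin 4) (t : Fin 4 → ℕ) : ℕ := actg B (fun i => 1 <<< i) a b t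

lemma actm_spec {B : ℕ} {a b : Fin 4} (hab : a ≠ b) {t : Fin 4 → ℕ} (ht : ∀ j, t j < B)
    (h2 : t a + t b < B) :
    toP B (actm B a b t) = act (Matrix.transvection a b (1 : ZMod 2)) (mn t) :=
  actg_spec (isX_toP B) (AddMonoidHom.id _) (fun _ h => toP_bit h) hab ht h2

end Pool.Agent.helper69.Kam
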