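import Pool.Agent.helper69.Kam.Assembly

set_option autoImplicit false

open MvPolynomial

namespace Pool.Agent.helper69.Kam

lemma SqT_pow_two {d : ℕ} (i : Fin d) (a : ℕ) :
    SqT d (X i ^ (2 ^ a)) = Polynomial.C (X i ^ (2 ^ a)) +
      Polynomial.X ^ (2 ^ a) * Polynomial.C (X i ^ (2 ^ (a + 1))) := by
  rw [map_pow, SqT_X, add_pow_char_pow, mul_pow, ← Polynomial.C_pow, ← Polynomial.C_pow, ← pow_mul,
    pow_succ, mul_comm 2]

lemma Sq_mul_pow {d : ℕ} (i : Fin d) (a k : ℕ) (f : P d) :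
    Sq d k (X i ^ (2 ^ a) * f) = X i ^ (2 ^ a) * Sq d k f +
      if 2 ^ a ≤ k then X i ^ (2 ^ (a + 1)) * Sq d (k - 2 ^ a) f else 0 := by
  rw [Sq_apply, map_mul, SqT_pow_two, add_mul, Polynomial.coeff_add, Polynomial.coeff_C_mul,
    mul_assoc, Polynomial.coeff_X_pow_mul']
  congr 1
  split_ifs
  · rw [Polynomial.coeff_C_mul]; rfl
  · rfl

/-- vanishing of `θ (x^{2^a} Sq^k f)`. -/
lemma van1 {d n : ℕ} {θ : Du d} (hθ : IsPrim d n θ) (i : Fin d) : ∀ k a : ℕ, ∀ f : P d,
    (∀ s, 2 ^ a + k ≠ 2 ^ s) → θ (X i ^ (2 ^ a) * Sq d k f) = 0 := by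
  intro k
  induction k using Nat.strong_induction_on with
  | _ k ih =>
      intro a f hT
      have hk : 0 < k := by
        rcases Nat.eq_zero_or_pos k with rfl | h
        · exact absurd rfl (hT a)
        · exact h
      have h := hθ.kills k hk (X i ^ (2 ^ a) * f)
      rw [Sq_mul_pow, map_add] at h
      have h2 : θ (if 2 ^ a ≤ k then X i ^ (2 ^ (a + 1)) * Sq d (k - 2 ^ a) f else 0) = 0 := by
        split_ifs with hle
        · have hpos : 0 < 2 ^ a := Nat.two_pow_pos a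
          apply ih (k - 2 ^ a) (by omega)
          intro s hs
          apply hT s
          rw [← hs, pow_succ]; omega
        · exact map_zero _
      rwa [h2, add_zero] at h

/-- vanishing of `θ (x^{2^a} y^{2^b} Sq^k f)`. -/
lemma van2 {d n : ℕ} {θ : Du d} (hθ : IsPrim d n θ) (i j : Fin d) : ∀ k a b : ℕ, ∀ f : P d,
    (∀ s t, 2 ^ a + 2 ^ b + k ≠ 2 ^ s + 2 ^ t) →
      θ (X i ^ (2 ^ a) * (X j ^ (2 ^ b) * Sq d k f)) = 0 := by
  intro k
  induction k using Nat.strong_induction_on with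
  | _ k ih =>
      intro a b f hT
      have hk : 0 < k := by
        rcases Nat.eq_zero_or_pos k with rfl | h
        · exact absurd rfl (hT a b)
        · exact h
      have hpa : 0 < 2 ^ a := Nat.two_pow_pos a
      have hpb : 0 < 2 ^ b := Nat.two_pow_pos b
      have h := hθ.kills k hk (X i ^ (2 ^ a) * (X j ^ (2 ^ b) * f))
      rw [Sq_mul_pow, Sq_mul_pow, Sq_mul_pow] at h
      -- the terms
      have t1 : 2 ^ b ≤ k → θ (X i ^ (2 ^ a) * (X j ^ (2 ^ (b + 1)) * Sq d (k - 2 ^ b) f)) = 0 := by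
        intro hle
        apply ih (k - 2 ^ b) (by omega)
        intro s t hs
        apply hT s t
        rw [← hs, pow_succ 2 b]; omega
      have t2 : 2 ^ a ≤ k → θ (X i ^ (2 ^ (a + 1)) * (X j ^ (2 ^ b) * Sq d (k - 2 ^ a) f)) = 0 := by
        intro hle
        apply ih (k - 2 ^ a) (by omega)
        intro s t hs
        apply hT s t
        rw [← hs, pow_succ 2 a]; omega
      have t3 : 2 ^ a ≤ k → 2 ^ b ≤ k - 2 ^ a →
          θ (X i ^ (2 ^ (a + 1)) * (X j ^ (2 ^ (b + 1)) * Sq d (k - 2 ^ a - 2 ^ b) f)) = 0 := by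
        intro hle hle2
        apply ih (k - 2 ^ a - 2 ^ b) (by omega)
        intro s t hs
        apply hT s t
        rw [← hs, pow_succ 2 a, pow_succ 2 b]; omega
      rw [mul_add, map_add, map_add] at h
      have u1 : θ (X i ^ 2 ^ a * if 2 ^ b ≤ k then X j ^ 2 ^ (b + 1) * Sq d (k - 2 ^ b) f else 0) =
          0 := by
        split_ifs with hle
        · exact t1 hle
        · rw [mul_zero, map_zero]
      have u2 : θ (if 2 ^ a ≤ k then
          X i ^ 2 ^ (a + 1) *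
            (X j ^ 2 ^ b * Sq d (k - 2 ^ a) f +
              if 2 ^ b ≤ k - 2 ^ a then X j ^ 2 ^ (b + 1) * Sq d (k - 2 ^ a - 2 ^ b) f else 0)
          else 0) = 0 := by
        split_ifs with hle hle2
        · rw [mul_add, map_add, t2 hle, t3 hle hle2, add_zero]
        · rw [add_zero, t2 hle]
        · exact map_zero _
      rw [u1, u2, add_zero, add_zero] at h
      exact h

/-- Kameko's map is onto in rank four unless `n + 3` is a sum of two powers of two. -/
lemma surj4 {n : ℕ} (hn : ∀ s t, n + 3 ≠ 2 ^ s + 2 ^ t) {θ : Du 4}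
    (hθ : IsPrim 4 (4 + 2 * n) θ) : ∃ ψ, IsPrim 4 n ψ ∧ θ = ψ ∘ₗ kappa 4 := by
  apply K4 hθ
  intro i j _
  apply ext_mon
  intro t
  rw [LinearMap.zero_apply]
  by_cases ht : t.degree = n + 1
  · rw [tw_apply, ← (Sq_top_monomial t).2]
    have := van2 hθ i j t.degree 0 0 (monomial t 1) (by
      intro s u hs
      apply hn s u
      rw [← hs, ht]; norm_num; omega)
    rw [pow_zero, pow_one, pow_one, ← mul_assoc] at this
    exact this
  · exact tw_degree hθ ((isHomogeneous_X _ i).mul (isHomogeneous_X _ j)) (m := n + 1) (by omega) _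
      ht _ (isHomogeneous_monomial 1 rfl)

/-- Kameko's map is onto in rank three unless `n + 2` is a power of two. -/
lemma surj3 {n : ℕ} (hn : ∀ s, n + 2 ≠ 2 ^ s) {θ : Du 3}
    (hθ : IsPrim 3 (3 + 2 * n) θ) : ∃ ψ, IsPrim 3 n ψ ∧ θ = ψ ∘ₗ kappa 3 := by
  apply K3 hθ
  intro i
  apply ext_mon
  intro t
  rw [LinearMap.zero_apply]
  by_cases ht : t.degree = n + 1
  · rw [tw_apply, ← (Sq_top_monomial t).2]
    have := van1 hθ i t.degree 0 (monomial t 1) (by
      intro s hs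
      apply hn s
      rw [← hs, ht]; norm_num; omega)
    rw [pow_zero, pow_one] at this
    exact this
  · exact tw_degree hθ (isHomogeneous_X _ i) (m := n + 1) (by omega) _
      ht _ (isHomogeneous_monomial 1 rfl)

lemma KInj4_nonfam {n : ℕ} (hn : ∀ s t, n + 3 ≠ 2 ^ s + 2 ^ t) : KInj 4 n :=
  KInj_of_surj fun _ hθ => surj4 hn hθ

lemma KInj3_nonfam {n : ℕ} (hn : ∀ s, n + 2 ≠ 2 ^ s) : KInj 3 n :=
  KInj_of_surj fun _ hθ => surj3 hn hθ

lemma KInj2 (n : ℕ) : KInj 2 n := KInj_of_surj fun _ hθ => K2 hθ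

lemma KInj1 (n : ℕ) : KInj 1 n := KInj_of_surj fun _ hθ => K1 hθ

end Pool.Agent.helper69.Kam
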