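import Pool.Agent.helper69.Kam.Evd

set_option autoImplicit false

open MvPolynomial

namespace Pool.Agent.helper69.Kam

/-! ### The Koszul lemma -/

lemma monomial_split {d : ℕ} {t : Fin d →₀ ℕ} {i : Fin d} (hi : t i ≠ 0) :
    (monomial t 1 : P d) = X i * monomial (t - Finsupp.single i 1) 1 := by
  have hle : Finsupp.single i 1 ≤ t := by
    rw [Finsupp.single_le_iff]; omega
  rw [X, monomial_mul, one_mul, add_tsub_cancel_of_le hle]

/-- exactness of the Koszul complex, dual form. -/
lemma koszul {d : ℕ} (ψ : Fin d → Du d) (h : ∀ i j g, ψ i (X j * g) = ψ j (X i * g)) :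
    ∃ B : Du d, (∀ i g, B (X i * g) = ψ i g) ∧ B 1 = 0 := by
  classical
  let val : (Fin d →₀ ℕ) → ZMod 2 := fun t =>
    if ht : t.support.Nonempty then ψ (t.support.min' ht)
      (monomial (t - Finsupp.single (t.support.min' ht) 1) 1) else 0
  let B : Du d := (MvPolynomial.basisMonomials (Fin d) (ZMod 2)).constr (ZMod 2) val
  have hB : ∀ t, B (monomial t 1) = val t := by
    intro t
    have := (MvPolynomial.basisMonomials (Fin d) (ZMod 2)).constr_basis (ZMod 2) val t
    simpa [B] using this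
  have key : ∀ t i, t i ≠ 0 → val t = ψ i (monomial (t - Finsupp.single i 1) 1) := by
    intro t i hi
    have ht : t.support.Nonempty := ⟨i, Finsupp.mem_support_iff.2 hi⟩
    simp only [val, dif_pos ht]
    set j := t.support.min' ht with hj
    have hjt : t j ≠ 0 := Finsupp.mem_support_iff.1 (t.support.min'_mem ht)
    by_cases hij : i = j
    · rw [hij]
    · have h1 : (t - Finsupp.single j 1 : Fin d →₀ ℕ) i ≠ 0 := by
        rw [Finsupp.tsub_apply, Finsupp.single_apply, if_neg (Ne.symm hij)]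
        simpa using hi
      have h2 : (t - Finsupp.single i 1 : Fin d →₀ ℕ) j ≠ 0 := by
        rw [Finsupp.tsub_apply, Finsupp.single_apply, if_neg hij]
        simpa using hjt
      rw [monomial_split h1, monomial_split h2, h]
      congr 3
      rw [tsub_right_comm]
  refine ⟨B, ?_, ?_⟩
  · intro i g
    have : B ∘ₗ LinearMap.mulLeft (ZMod 2) (X i) = ψ i := by
      apply ext_mon
      intro t
      rw [LinearMap.comp_apply, LinearMap.mulLeft_apply]
      have e : (X i * monomial t 1 : P d) = monomial (t + Finsupp.single i 1) 1 := by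
        rw [monomial_one_add_single, mul_comm]
      rw [e, hB, key _ i (by simp), add_tsub_cancel_right]
    exact LinearMap.congr_fun this g
  · have h1 : (1 : P d) = monomial 0 1 := rfl
    rw [h1, hB]
    simp [val]

lemma koszul_deg {d m : ℕ} {ψ : Fin d → Du d} (hψ : ∀ i, Deg m (ψ i)) {B : Du d}
    (hB : ∀ i g, B (X i * g) = ψ i g) (hB1 : B 1 = 0) : Deg (m + 1) B := by
  apply Deg_of_mon
  intro t ht
  by_cases h0 : t = 0
  · rw [h0]; exact hB1
  · obtain ⟨i, hi⟩ := Finsupp.support_nonempty_iff.2 h0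
    rw [Finsupp.mem_support_iff] at hi
    rw [monomial_split hi, hB]
    apply (hψ i).mon
    intro h
    apply ht
    have hle : Finsupp.single i 1 ≤ t := by
      rw [Finsupp.single_le_iff]; omega
    have e : t - Finsupp.single i 1 + Finsupp.single i 1 = t := tsub_add_cancel_of_le hle
    rw [← e, map_add, Finsupp.degree_single, h]

/-- two functionals agreeing on all multiples of variables and in degree zero are equal. -/
lemma ext_X {d : ℕ} {θ θ' : Du d} (h : ∀ i g, θ (X i * g) = θ' (X i * g)) (h1 : θ 1 = θ' 1) :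
    θ = θ' := by
  apply ext_mon
  intro t
  by_cases h0 : t = 0
  · rw [h0]; exact h1
  · obtain ⟨i, hi⟩ := Finsupp.support_nonempty_iff.2 h0
    rw [Finsupp.mem_support_iff] at hi
    rw [monomial_split hi, h]

/-! ### Functionals killing the ideal of the points -/

lemma SO_move {d : ℕ} {φ : Du d}
    (h : ∀ i j, i ≠ j → ∀ g, φ (X i ^ 2 * X j * g) = φ (X i * X j ^ 2 * g))
    (S : Finset (Fin d)) {i j : Fin d} (hi : i ∈ S) (hj : j ∈ S) (g : P d) :
    φ (xs S * X i * g) = φ (xs S * X j * g) := by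
  by_cases hij : i = j
  · rw [hij]
  · have e : (xs S : P d) = X i * X j * xs ((S.erase i).erase j) := by
      rw [xs, ← Finset.mul_prod_erase S _ hi,
        ← Finset.mul_prod_erase (S.erase i) _ (Finset.mem_erase.2 ⟨Ne.symm hij, hj⟩), xs]
      ring
    rw [e]
    have := h i j hij (xs ((S.erase i).erase j) * g)
    have e1 : X i * X j * xs ((S.erase i).erase j) * X i * g =
        X i ^ 2 * X j * (xs ((S.erase i).erase j) * g) := by ring
    have e2 : X i * X j * xs ((S.erase i).erase j) * X j * g =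
        X i * X j ^ 2 * (xs ((S.erase i).erase j) * g) := by ring
    rw [e1, e2, this]

lemma SO_supp {d : ℕ} {φ : Du d}
    (h : ∀ i j, i ≠ j → ∀ g, φ (X i ^ 2 * X j * g) = φ (X i * X j ^ 2 * g))
    (S : Finset (Fin d)) {i : Fin d} (hi : i ∈ S) (u : Fin d →₀ ℕ) :
    u.support ⊆ S → ∀ g, φ (xs S * monomial u 1 * g) = φ (xs S * X i ^ u.degree * g) := by
  refine monomial_ind (Q := fun u => u.support ⊆ S → ∀ g,
    φ (xs S * monomial u 1 * g) = φ (xs S * X i ^ u.degree * g)) ?_ ?_ u
  · intro _ g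
    have : (monomial 0 1 : P d) = 1 := rfl
    rw [this, map_zero, pow_zero]
  · intro u j ih hsub g
    have hj : j ∈ S := hsub (by rw [Finsupp.mem_support_iff]; simp)
    have hu : u.support ⊆ S := by
      intro k hk
      apply hsub
      rw [Finsupp.mem_support_iff] at hk ⊢
      simp only [Finsupp.add_apply]; omega
    rw [monomial_one_add_single, map_add, Finsupp.degree_single, pow_succ]
    have e1 : xs S * (monomial u 1 * X j) * g = xs S * monomial u 1 * (X j * g) := by ring
    have e2 : xs S * X i ^ u.degree * (X j * g) = xs S * X j * (X i ^ u.degree * g) := by ring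
    have e3 : xs S * (X i ^ u.degree * X i) * g = xs S * X i * (X i ^ u.degree * g) := by ring
    rw [e1, ih hu, e2, e3, SO_move h S hj hi]

lemma SO_dep {d n : ℕ} {φ : Du d}
    (h : ∀ i j, i ≠ j → ∀ g, φ (X i ^ 2 * X j * g) = φ (X i * X j ^ 2 * g))
    {t t' : Fin d →₀ ℕ} (ht : t.degree = n) (ht' : t'.degree = n) (hne : t ≠ 0)
    (hs : t.support = t'.support) : φ (monomial t 1) = φ (monomial t' 1) := by
  have key : ∀ r : Fin d →₀ ℕ, ∀ i ∈ r.support, φ (monomial r 1) =
      φ (xs r.support * X i ^ (r.degree - r.support.card)) := by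
    intro r i hi
    set e : Fin d →₀ ℕ := Finsupp.equivFunOnFinite.symm (fun j => if j ∈ r.support then 1 else 0)
      with he
    have hle : e ≤ r := by
      intro j
      simp only [he, Finsupp.equivFunOnFinite_symm_apply_apply]
      split_ifs with hj
      · rw [Finsupp.mem_support_iff] at hj; omega
      · omega
    have h1 : (monomial r 1 : P d) = xs r.support * monomial (r - e) 1 := by
      have h2 : (xs r.support : P d) = monomial e 1 := by
        rw [xs, monomial_eq, Finsupp.prod_fintype _ _ (by simp)]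
        simp only [he, Finsupp.equivFunOnFinite_symm_apply_apply, C_1, one_mul, pow_ite, pow_one,
          pow_zero]
        rw [Finset.prod_ite_mem, Finset.univ_inter]
      rw [h2, monomial_mul, one_mul, add_tsub_cancel_of_le hle]
    have h3 := SO_supp h r.support hi (r - e) (by
      intro j hj
      rw [Finsupp.mem_support_iff] at hj ⊢
      rw [Finsupp.tsub_apply] at hj
      omega) 1
    rw [mul_one, mul_one] at h3
    rw [h1, h3]
    congr 3
    have h4 : (r - e).degree + e.degree = r.degree := by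
      rw [← map_add, tsub_add_cancel_of_le hle]
    have h5 : e.degree = r.support.card := by
      rw [Finsupp.degree_eq_sum]
      simp only [he, Finsupp.equivFunOnFinite_symm_apply_apply]
      rw [Finset.sum_ite_mem, Finset.univ_inter]
      simp
    omega
  obtain ⟨i, hi⟩ := Finsupp.support_nonempty_iff.2 hne
  rw [key t i hi, key t' i (by rw [← hs]; exact hi), hs, ht, ht']

/-- A functional killing `(x_i^2 x_j + x_i x_j^2) g` is a sum of evaluations. -/
lemma SO {d n : ℕ} (hn : 0 < n) {φ : Du d} (hφ : Deg n φ)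
    (h : ∀ i j, i ≠ j → ∀ g, φ (X i ^ 2 * X j * g) = φ (X i * X j ^ 2 * g)) :
    ∃ c : (Fin d → ZMod 2) → ZMod 2, φ = ∑ v, c v • evd v n := by
  classical
  let lam : Finset (Fin d) → ZMod 2 := fun S =>
    if hS : S.Nonempty ∧ S.card ≤ n then φ (monomial (canon S hS.1.choose n) 1) else 0
  refine ⟨fun v => ∑ U, lam U * ∏ i ∈ Uᶜ, (1 + v i), ?_⟩
  apply ext_mon
  intro t
  by_cases ht : t.degree = n
  · rw [sum_evd_support _ ht]
    have e1 : ∀ v : Fin d → ZMod 2, (∑ U, lam U * ∏ i ∈ Uᶜ, (1 + v i)) * ∏ i ∈ t.support, v i =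
        ∑ U, lam U * ((∏ i ∈ t.support, v i) * ∏ i ∈ Uᶜ, (1 + v i)) := by
      intro v
      rw [Finset.sum_mul]
      exact Finset.sum_congr rfl fun U _ => by ring
    rw [Finset.sum_congr rfl (fun v _ => e1 v), Finset.sum_comm]
    have e2 : ∀ U, ∑ v : Fin d → ZMod 2, lam U * ((∏ i ∈ t.support, v i) * ∏ i ∈ Uᶜ, (1 + v i)) =
        if t.support = U then lam U else 0 := by
      intro U
      rw [← Finset.mul_sum, mobius]
      split_ifs <;> simp
    rw [Finset.sum_congr rfl (fun U _ => e2 U), Finset.sum_ite_eq, if_pos (Finset.mem_univ _)]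
    have hne : t ≠ 0 := by
      rintro rfl
      simp at ht
      omega
    have hsn : t.support.Nonempty := Finsupp.support_nonempty_iff.2 hne
    have hcard : t.support.card ≤ n := by
      rw [← ht, Finsupp.degree_apply, Finset.card_eq_sum_ones]
      apply Finset.sum_le_sum
      intro i hi
      rw [Finsupp.mem_support_iff] at hi; omega
    simp only [lam, dif_pos (And.intro hsn hcard)]
    apply SO_dep (n := n) h ht (canon_degree _ hcard) hne
    rw [canon_support]
    exact (And.intro hsn hcard).1.choose_spec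
  · rw [hφ.mon ht, LinearMap.sum_apply]
    symm
    apply Finset.sum_eq_zero
    intro v _
    rw [LinearMap.smul_apply, evd_mon_ne v ht, smul_zero]

/-! ### Primitives in degrees `2^b - 1` -/

lemma IsPrim.kz1 {d n : ℕ} {φ : Du d} (hφ : IsPrim d n φ) (i j : Fin d) (g : P d) :
    tw (X i) φ (X j * g) = tw (X j) φ (X i * g) := by
  have h := hφ.kills 1 one_pos (X i * X j * g ^ 2)
  rw [Sq_one_mul_sq, Sq_one_XX, add_mul, map_add] at h
  rw [tw_apply, tw_apply]
  have h2 := CharTwo.add_eq_zero.1 h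
  rw [show X i * (X j * g) ^ 2 = X i * X j ^ 2 * g ^ 2 by ring,
    show X j * (X i * g) ^ 2 = X i ^ 2 * X j * g ^ 2 by ring, h2]

lemma sum_evd_mulX {d m : ℕ} (c : (Fin d → ZMod 2) → ZMod 2) (i : Fin d) (g : P d) :
    (∑ v, c v • evd v (m + 1)) (X i * g) = (∑ v, (c v * v i) • evd v m) g := by
  rw [LinearMap.sum_apply, LinearMap.sum_apply]
  refine Finset.sum_congr rfl fun v _ => ?_
  rw [LinearMap.smul_apply, LinearMap.smul_apply, evd_mul v (isHomogeneous_X _ i) (add_comm m 1),
    ev_X, smul_eq_mul, smul_eq_mul, mul_assoc]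

lemma tw_sum_evd {d n m r : ℕ} (c : (Fin d → ZMod 2) → ZMod 2) {a : P d}
    (ha : a.IsHomogeneous r) (hn : n = r + 2 * m) :
    tw a (∑ v, c v • evd v n) = ∑ v, (c v * ev v a) • evd v m := by
  rw [map_sum]
  refine Finset.sum_congr rfl fun v _ => ?_
  rw [map_smul, tw_evd v ha hn, smul_smul]

lemma four_odd_gen {B : Du 4} (h2 : ∀ i j, tw (X i * X j) B = 0)
    (hS : ∀ i g, B (X i * Sq 4 1 g) = 0) (i j k l : Fin 4) (g : P 4) :
    B (X i * X j * X k * X l * (X i * g) ^ 2) = 0 := by
  have h1 := hS i (X i * X j * X k * X l * g ^ 2)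
  rw [Sq_one_mul_sq, Sq_one_XXXX] at h1
  have hz : ∀ a b : Fin 4, ∀ f : P 4, B (X a * X b * f ^ 2) = 0 := fun a b f =>
    LinearMap.congr_fun (h2 a b) f
  have e : X i * ((X i ^ 2 * X j * X k * X l + X i * X j ^ 2 * X k * X l +
      X i * X j * X k ^ 2 * X l + X i * X j * X k * X l ^ 2) * g ^ 2) =
      X i * X j * X k * X l * (X i * g) ^ 2 + X k * X l * (X i * X j * g) ^ 2 +
      X j * X l * (X i * X k * g) ^ 2 + (X j * X k * (X i * X l * g) ^ 2 : P 4) := by ring
  rw [e, map_add, map_add, map_add, hz, hz, hz, add_zero, add_zero, add_zero] at h1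
  exact h1

lemma four_odd_vanish {B : Du 4} (h2 : ∀ i j, tw (X i * X j) B = 0)
    (hS : ∀ i g, B (X i * Sq 4 1 g) = 0) (i : Fin 4) (g : P 4) :
    tw (X 0 * X 1 * X 2 * X 3) B (X i * g) = 0 := by
  rw [tw_apply]
  have hc : i = 0 ∨ i = 1 ∨ i = 2 ∨ i = 3 := by revert i; decide
  rcases hc with rfl | rfl | rfl | rfl
  · exact four_odd_gen h2 hS 0 1 2 3 g
  · have := four_odd_gen h2 hS 1 0 2 3 g
    rw [show (X 1 * X 0 * X 2 * X 3 : P 4) = X 0 * X 1 * X 2 * X 3 by ring] at this
    exact this
  · have := four_odd_gen h2 hS 2 0 1 3 g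
    rw [show (X 2 * X 0 * X 1 * X 3 : P 4) = X 0 * X 1 * X 2 * X 3 by ring] at this
    exact this
  · have := four_odd_gen h2 hS 3 0 1 2 g
    rw [show (X 3 * X 0 * X 1 * X 2 : P 4) = X 0 * X 1 * X 2 * X 3 by ring] at this
    exact this

lemma sum_all_evd {m : ℕ} (δ : ZMod 2) {t : Fin 4 →₀ ℕ} (ht : t.degree = m) :
    (∑ v : Fin 4 → ZMod 2, δ • evd v m) (monomial t 1) =
      if t.support = Finset.univ then δ else 0 := by
  rw [sum_evd_support (fun _ => δ) ht, ← Finset.mul_sum]
  have h := mobius t.support (Finset.univ : Finset (Fin 4))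
  rw [Finset.compl_univ] at h
  simp only [Finset.prod_empty, mul_one] at h
  rw [h]
  split_ifs <;> simp

lemma four_odd_eq {m : ℕ} (hm : Even m) {B : Du 4} (hBd : Deg m B) (h0 : tw 1 B = 0)
    (h2 : ∀ i j, tw (X i * X j) B = 0)
    (h4 : ∀ i g, tw (X 0 * X 1 * X 2 * X 3) B (X i * g) = 0) :
    ∃ δ : ZMod 2, B = ∑ v : Fin 4 → ZMod 2, δ • evd v m := by
  by_cases hm4 : m = 4
  · subst hm4
    refine ⟨B (X 0 * X 1 * X 2 * X 3), ?_⟩
    apply ext_mon
    intro t
    by_cases htd : t.degree = 4
    · rw [sum_all_evd _ htd]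
      split_ifs with hS
      · have ht1 : t = Finsupp.equivFunOnFinite.symm (fun _ => 1) := by
          have hpos : ∀ i, 1 ≤ t i := by
            intro i
            have : i ∈ t.support := by rw [hS]; exact Finset.mem_univ i
            rw [Finsupp.mem_support_iff] at this
            omega
          rw [Finsupp.degree_eq_sum, Fin.sum_univ_four] at htd
          have := hpos 0; have := hpos 1; have := hpos 2; have := hpos 3
          ext i
          have hi : i = 0 ∨ i = 1 ∨ i = 2 ∨ i = 3 := by revert i; decide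
          rcases hi with rfl | rfl | rfl | rfl <;> simp <;> omega
        rw [ht1, ← xs_univ_eq, xs_univ_four]
      · rw [monomial_eq_xs]
        have hodd : oddSet t ≠ Finset.univ := by
          intro h
          apply hS
          rw [Finset.eq_univ_iff_forall]
          intro i
          have : i ∈ oddSet t := by rw [h]; exact Finset.mem_univ i
          simp only [oddSet, Finset.mem_filter, Finset.mem_univ, true_and] at this
          rw [Finsupp.mem_support_iff]
          rintro h0
          rw [h0] at this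
          exact absurd this (by decide)
        have h1 : tw (xs (oddSet t)) B = 0 := by
          by_cases hc2 : (oddSet t).card % 2 = 4 % 2
          · have hle : (oddSet t).card ≤ 4 := by simpa using Finset.card_le_univ (oddSet t)
            rcases (show (oddSet t).card = 0 ∨ (oddSet t).card = 2 ∨ (oddSet t).card = 4 by omega)
              with h | h | h
            · rw [Finset.card_eq_zero] at h
              rw [h, xs_empty, h0]
            · obtain ⟨i, j, hij, h⟩ := Finset.card_eq_two.1 h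
              rw [h, xs_pair hij, h2]
            · exact absurd ((Finset.card_eq_iff_eq_univ _).1 (by rw [h]; simp)) hodd
          · exact tw_parity hBd _ hc2
        have h3 := LinearMap.congr_fun h1 (monomial (half t) 1)
        rw [tw_apply] at h3
        exact h3
    · rw [hBd.mon htd, LinearMap.sum_apply]
      symm
      apply Finset.sum_eq_zero
      intro v _
      rw [LinearMap.smul_apply, evd_mon_ne v htd, smul_zero]
  · refine ⟨0, ?_⟩
    simp only [zero_smul, Finset.sum_const_zero]
    refine ext4_even hm hBd h0 (fun i j _ => h2 i j) ?_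
    apply ext_X
    · intro i g
      rw [h4]; rfl
    · rw [tw_apply, one_pow, mul_one, LinearMap.zero_apply]
      apply hBd 4 (Ne.symm hm4)
      exact (((isHomogeneous_X _ _).mul (isHomogeneous_X _ _)).mul (isHomogeneous_X _ _)).mul
        (isHomogeneous_X _ _)

/-- the structure of primitive functionals in degree `2^b - 1`, `b ≥ 3`, on the monomials with
exactly one odd exponent. -/
lemma PL {b : ℕ} (hb : 3 ≤ b) {φ : Du 4} (hφ : IsPrim 4 (2 ^ b - 1) φ) :
    ∃ c : (Fin 4 → ZMod 2) → ZMod 2, ∀ i,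
      tw (X i) φ = ∑ v, (c v * v i) • evd v (2 ^ (b - 1) - 1) := by
  classical
  obtain ⟨e, rfl⟩ : ∃ e, b = e + 3 := ⟨b - 3, by omega⟩
  have hp : 1 ≤ 2 ^ e := Nat.one_le_two_pow
  set m2 : ℕ := 2 ^ (e + 1) - 1 with hm2
  have hm2' : m2 + 1 = 2 * 2 ^ e := by rw [hm2, pow_succ]; omega
  set m1 : ℕ := 2 ^ (e + 3 - 1) - 1 with hm1
  have hm1' : m1 = 1 + 2 * m2 := by
    rw [hm1, show e + 3 - 1 = e + 2 by omega, pow_succ, pow_succ]; omega
  have hn : 2 ^ (e + 3) - 1 = 1 + 2 * m1 := by
    rw [hm1', pow_succ, pow_succ, pow_succ]; omega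
  have hβ : ∀ i, IsPrim 4 m1 (tw (X i) φ) := fun i => hφ.tw1 hn i
  have hT : ∀ i j, IsPrim 4 m2 (tw (X j) (tw (X i) φ)) := fun i j => (hβ i).tw1 hm1' j
  obtain ⟨B1, hB1, hB1'⟩ := koszul (fun i => tw (X i) φ) (fun i j g => hφ.kz1 i j g)
  have hB1d : Deg (m1 + 1) B1 := koszul_deg (fun i => (hβ i).deg) hB1 hB1'
  -- symmetry of T
  have hTsymm : ∀ i j g, tw (X j) (tw (X i) φ) g = tw (X i) (tw (X j) φ) g := by
    intro i j g
    exact hφ.kz1 i j (g ^ 2)
  have hB2i : ∀ i, ∃ B : Du 4, (∀ j g, B (X j * g) = tw (X j) (tw (X i) φ) g) ∧ B 1 = 0 := by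
    intro i
    exact koszul (fun j => tw (X j) (tw (X i) φ)) (fun j k g => (hβ i).kz1 j k g)
  choose B2' hB2' hB2'1 using hB2i
  have hB2'd : ∀ i, Deg (m2 + 1) (B2' i) := fun i => koszul_deg (fun j => (hT i j).deg) (hB2' i) (hB2'1 i)
  obtain ⟨B2, hB2, hB21⟩ := koszul B2' (by
    intro i j g
    rw [hB2', hB2', hTsymm])
  have hB2d : Deg (m2 + 2) B2 := koszul_deg hB2'd hB2 hB21
  have hB2T : ∀ i j g, B2 (X i * X j * g) = tw (X j) (tw (X i) φ) g := by
    intro i j g
    rw [mul_assoc, hB2, hB2']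
  -- the ideal relation
  have hso : ∀ i j, i ≠ j → ∀ g, B2 (X i ^ 2 * X j * g) = B2 (X i * X j ^ 2 * g) := by
    intro i j _ g
    have h1 := hφ.kz1 i j (X i * X j * g ^ 2)
    have e1 : B2 (X i ^ 2 * X j * g) = tw (X i) φ (X j * (X i * X j * g ^ 2)) := by
      rw [show X i ^ 2 * X j * g = X i * X i * (X j * g) by ring, hB2T, tw_apply]
      exact congrArg (tw (X i) φ) (by ring)
    have e2 : B2 (X i * X j ^ 2 * g) = tw (X j) φ (X i * (X i * X j * g ^ 2)) := by
      rw [show X i * X j ^ 2 * g = X j * X j * (X i * g) by ring, hB2T, tw_apply]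
      exact congrArg (tw (X j) φ) (by ring)
    rw [e1, e2, h1]
  obtain ⟨c, hc⟩ := SO (by omega) hB2d hso
  -- the remaining part of B1
  set B : Du 4 := B1 + ∑ v, c v • evd v (m1 + 1) with hB
  have hBd : Deg (m1 + 1) B := by
    rw [hB]
    exact hB1d.add (Deg.sum _ (fun v _ => (evd_deg v _).smul _))
  have hBtw : ∀ i j, tw (X i * X j) B = 0 := by
    intro i j
    rw [hB, map_add, tw_sum_evd c ((isHomogeneous_X _ i).mul (isHomogeneous_X _ j)) (m := m2)
      (by omega)]
    apply LinearMap.ext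
    intro g
    have h1 : tw (X i * X j) B1 g = B2 (X i * X j * g) := by
      rw [tw_apply, mul_assoc, hB1, hB2T]
      rfl
    have h2 : B2 (X i * X j * g) = (∑ v, (c v * ev v (X i * X j)) • evd v m2) g := by
      have e3 : ∀ v : Fin 4 → ZMod 2, c v * v i * v j = c v * ev v (X i * X j) := by
        intro v
        rw [map_mul, ev_X, ev_X, mul_assoc]
      rw [hc, mul_assoc, sum_evd_mulX, sum_evd_mulX]
      simp only [e3]
    rw [LinearMap.add_apply, h1, h2, CharTwo.add_self_eq_zero]
    rfl
  have hBsq : tw 1 B = 0 := by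
    apply ext_X
    · intro i g
      rw [tw_apply, show (1 : P 4) * (X i * g) ^ 2 = X i * X i * g ^ 2 by ring]
      exact LinearMap.congr_fun (hBtw i i) g
    · rw [tw_apply, one_pow, one_mul, LinearMap.zero_apply]
      exact hBd 0 (by omega) 1 (isHomogeneous_one _ _)
  have hBSq : ∀ i g, B (X i * Sq 4 1 g) = 0 := by
    intro i g
    rw [hB, LinearMap.add_apply, hB1, sum_evd_mulX, (hβ i).kills 1 one_pos, zero_add,
      LinearMap.sum_apply]
    apply Finset.sum_eq_zero
    intro v _
    rw [LinearMap.smul_apply, (evd_isPrim v ⟨e + 2, by rw [hm1', pow_succ, pow_succ]; omega⟩).kills 1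
      one_pos, smul_zero]
  have hB4 : ∀ i g, tw (X 0 * X 1 * X 2 * X 3) B (X i * g) = 0 :=
    four_odd_vanish hBtw hBSq
  -- the value of `B` at `x_0 x_1 x_2 x_3`
  obtain ⟨δ, hfin⟩ := four_odd_eq (m := m1 + 1) ⟨m2 + 1, by omega⟩ hBd hBsq hBtw hB4
  have hB1eq : B1 = ∑ v, (c v + δ) • evd v (m1 + 1) := by
    have h1 : B1 = B + ∑ v, c v • evd v (m1 + 1) := by
      rw [hB, add_assoc, du_add_self, add_zero]
    rw [h1, hfin, ← Finset.sum_add_distrib]
    refine Finset.sum_congr rfl fun v _ => ?_
    rw [← add_smul, add_comm]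
  refine ⟨fun v => c v + δ, fun i => ?_⟩
  apply LinearMap.ext
  intro g
  rw [← hB1 i g, hB1eq, sum_evd_mulX]

end Pool.Agent.helper69.Kam
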