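import Pool.Agent.helper69.Kam.Level

set_option autoImplicit false

open MvPolynomial

namespace Pool.Agent.helper69.Kam

/-- a functional supported in degree `n`. -/
def Deg {d : ℕ} (n : ℕ) (θ : Du d) : Prop :=
  ∀ m, m ≠ n → ∀ f : P d, f.IsHomogeneous m → θ f = 0

lemma IsPrim.deg {d n : ℕ} {θ : Du d} (h : IsPrim d n θ) : Deg n θ := h.degree

lemma Deg.mon {d n : ℕ} {θ : Du d} (h : Deg n θ) {t : Fin d →₀ ℕ} (ht : t.degree ≠ n) :
    θ (monomial t 1) = 0 := h _ ht _ (isHomogeneous_monomial 1 rfl)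

lemma Deg_of_mon {d n : ℕ} {θ : Du d}
    (h : ∀ t : Fin d →₀ ℕ, t.degree ≠ n → θ (monomial t 1) = 0) : Deg n θ := by
  intro m hm f hf
  rw [MvPolynomial.as_sum f, map_sum]
  apply Finset.sum_eq_zero
  intro t ht
  have hdeg : t.degree = m := by
    have := hf (mem_support_iff.1 ht)
    rw [Finsupp.degree_eq_weight_one]
    exact this
  have h1 : monomial t (coeff t f) = (coeff t f) • (monomial t 1 : P d) := by
    simp [smul_monomial]
  rw [h1, map_smul, h t (by omega), smul_zero]

lemma Deg.add {d n : ℕ} {θ θ' : Du d} (h : Deg n θ) (h' : Deg n θ') : Deg n (θ + θ') := by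
  intro m hm f hf
  rw [LinearMap.add_apply, h m hm f hf, h' m hm f hf, add_zero]

lemma Deg.smul {d n : ℕ} {θ : Du d} (h : Deg n θ) (a : ZMod 2) : Deg n (a • θ) := by
  intro m hm f hf
  rw [LinearMap.smul_apply, h m hm f hf, smul_zero]

lemma Deg.zero {d : ℕ} (n : ℕ) : Deg n (0 : Du d) := fun _ _ _ _ => rfl

lemma Deg.sum {d n : ℕ} {ι : Type*} (s : Finset ι) {f : ι → Du d} (h : ∀ i ∈ s, Deg n (f i)) :
    Deg n (∑ i ∈ s, f i) := by
  classical
  induction s using Finset.induction_on with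
  | empty => simpa using Deg.zero n
  | insert a s ha ih =>
      rw [Finset.sum_insert ha]
      exact (h a (Finset.mem_insert_self _ _)).add
        (ih (fun i hi => h i (Finset.mem_insert_of_mem hi)))

lemma IsPrim.sum {d n : ℕ} {ι : Type*} (s : Finset ι) {f : ι → Du d}
    (h : ∀ i ∈ s, IsPrim d n (f i)) : IsPrim d n (∑ i ∈ s, f i) := by
  classical
  induction s using Finset.induction_on with
  | empty => simpa using IsPrim.zero d n
  | insert a s ha ih =>
      rw [Finset.sum_insert ha]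
      exact (h a (Finset.mem_insert_self _ _)).add
        (ih (fun i hi => h i (Finset.mem_insert_of_mem hi)))

lemma du_add_self {d : ℕ} (θ : Du d) : θ + θ = 0 := by
  apply LinearMap.ext
  intro f
  rw [LinearMap.add_apply, CharTwo.add_self_eq_zero]; rfl

lemma du_sub {d : ℕ} (θ θ' : Du d) : θ - θ' = θ + θ' := by
  apply LinearMap.ext
  intro f
  rw [LinearMap.add_apply, LinearMap.sub_apply, CharTwo.sub_eq_add]

lemma du_eq_of_add {d : ℕ} {θ θ' : Du d} (h : θ + θ' = 0) : θ = θ' := by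
  have : θ - θ' = 0 := by rw [du_sub, h]
  exact sub_eq_zero.1 this

/-! ### The parity decomposition -/

/-- the product of the variables in `S`. -/
noncomputable def xs {d : ℕ} (S : Finset (Fin d)) : P d := ∏ i ∈ S, X i

lemma xs_isHomogeneous {d : ℕ} (S : Finset (Fin d)) : (xs S).IsHomogeneous S.card := by
  have := MvPolynomial.IsHomogeneous.prod (R := ZMod 2) S (fun i : Fin d => (X i : P d))
    (fun _ => 1) (fun i _ => isHomogeneous_X _ i)
  simpa [xs] using this

/-- the odd part of an exponent vector. -/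
def oddSet {d : ℕ} (t : Fin d →₀ ℕ) : Finset (Fin d) := Finset.univ.filter (fun i => Odd (t i))

/-- the exponent vector `⌊t/2⌋`. -/
noncomputable def half {d : ℕ} (t : Fin d →₀ ℕ) : Fin d →₀ ℕ :=
  t.mapRange (fun m => m / 2) (by simp)

lemma monomial_eq_xs {d : ℕ} (t : Fin d →₀ ℕ) :
    (monomial t 1 : P d) = xs (oddSet t) * (monomial (half t) 1) ^ 2 := by
  have h1 : ∀ s : Fin d →₀ ℕ, (monomial s 1 : P d) = ∏ i, X i ^ s i := by
    intro s
    rw [monomial_eq, Finsupp.prod_fintype _ _ (by simp)]; simp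
  rw [h1, h1, xs, oddSet, Finset.prod_filter, ← Finset.prod_pow, ← Finset.prod_mul_distrib]
  refine Finset.prod_congr rfl fun i _ => ?_
  rw [← pow_mul]
  have h2 : half t i = t i / 2 := by simp [half]
  rw [h2]
  split_ifs with h
  · obtain ⟨m, hm⟩ := h
    have : t i / 2 = m := by omega
    rw [this, hm]; ring
  · rw [Nat.not_odd_iff_even] at h
    obtain ⟨m, hm⟩ := h
    have : t i / 2 = m := by omega
    rw [this, hm]; ring

lemma ext_parity {d : ℕ} {θ θ' : Du d} (h : ∀ S, tw (xs S) θ = tw (xs S) θ') : θ = θ' := by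
  apply ext_mon
  intro t
  rw [monomial_eq_xs]
  exact LinearMap.congr_fun (h (oddSet t)) (monomial (half t) 1)

lemma tw_parity {d n : ℕ} {θ : Du d} (hθ : Deg n θ) (S : Finset (Fin d))
    (hS : S.card % 2 ≠ n % 2) : tw (xs S) θ = 0 := by
  apply ext_mon
  intro t
  rw [tw_apply, LinearMap.zero_apply]
  apply hθ (S.card + t.degree * 2) (by omega)
  exact (xs_isHomogeneous S).mul ((isHomogeneous_monomial 1 rfl).pow 2)

lemma xs_univ_eq {d : ℕ} :
    (xs Finset.univ : P d) = monomial (Finsupp.equivFunOnFinite.symm (fun _ => 1)) 1 := by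
  rw [xs, monomial_eq, Finsupp.prod_fintype _ _ (by simp)]
  simp

lemma kappa_xs_univ {d : ℕ} : kappa d (xs Finset.univ) = 1 := by
  rw [xs_univ_eq, kappa_monomial, if_pos]
  · have : halve (Finsupp.equivFunOnFinite.symm (fun _ : Fin d => 1)) = 0 := by
      ext i; simp [halve]
    rw [this]; rfl
  · intro i; simp

/-- A primitive functional vanishing on all monomials with some even exponent is in the image
of Kameko's map. -/
lemma K_of_parity {d m : ℕ} {θ : Du d} (hθ : IsPrim d (d + 2 * m) θ)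
    (h : ∀ S, S ≠ Finset.univ → tw (xs S) θ = 0) :
    ∃ ψ, IsPrim d m ψ ∧ θ = ψ ∘ₗ kappa d := by
  have hfac : θ = tw (xs Finset.univ) θ ∘ₗ kappa d := by
    apply ext_mon
    intro t
    rw [monomial_eq_xs, LinearMap.comp_apply, kappa_mul_sq]
    by_cases hS : oddSet t = Finset.univ
    · rw [hS, kappa_xs_univ, one_mul]
      rfl
    · have h1 : kappa d (xs (oddSet t)) = 0 := by
        have e : (xs (oddSet t) : P d) =
            monomial (Finsupp.equivFunOnFinite.symm (fun i => if i ∈ oddSet t then 1 else 0)) 1 := by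
          rw [xs, monomial_eq, Finsupp.prod_fintype _ _ (by simp)]
          simp only [Finsupp.equivFunOnFinite_symm_apply_apply, C_1, one_mul, pow_ite, pow_one,
            pow_zero]
          rw [Finset.prod_ite_mem, Finset.univ_inter]
        rw [e, kappa_monomial, if_neg]
        intro hodd
        apply hS
        rw [Finset.eq_univ_iff_forall]
        intro i
        by_contra hi
        have := hodd i
        simp [hi] at this
      rw [h1, zero_mul, map_zero]
      have := LinearMap.congr_fun (h _ hS) (monomial (half t) 1)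
      rw [tw_apply] at this
      exact this
  refine ⟨tw (xs Finset.univ) θ, ⟨?_, ?_⟩, hfac⟩
  · intro m' hm' f hf
    refine tw_degree hθ (xs_isHomogeneous Finset.univ) ?_ m' hm' f hf
    rw [Finset.card_univ, Fintype.card_fin]
  · intro k hk f
    have h1 : kappa d (Sq d (2 * k) (xs Finset.univ * f ^ 2)) = Sq d k f := by
      rw [kappa_Sq_even, kappa_mul_sq, kappa_xs_univ, one_mul]
    have h2 := hθ.kills (2 * k) (by omega) (xs Finset.univ * f ^ 2)
    rw [hfac, LinearMap.comp_apply, h1] at h2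
    exact h2

lemma kappa_surj {d : ℕ} (f : P d) : ∃ g, kappa d g = f :=
  ⟨xs Finset.univ * f ^ 2, by rw [kappa_mul_sq, kappa_xs_univ, one_mul]⟩

lemma comp_kappa_inj {d : ℕ} {ψ ψ' : Du d} (h : ψ ∘ₗ kappa d = ψ' ∘ₗ kappa d) : ψ = ψ' := by
  apply LinearMap.ext
  intro f
  obtain ⟨g, rfl⟩ := kappa_surj f
  exact LinearMap.congr_fun h g

/-! ### Rank four -/

lemma tw_one_eq {d n : ℕ} {θ : Du d} (hθ : IsPrim d n θ) (hn : 0 < n) : tw 1 θ = 0 := by
  apply LinearMap.ext
  intro f
  rw [tw_apply, one_mul, hθ.sq hn]; rfl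

lemma xs_empty {d : ℕ} : (xs ∅ : P d) = 1 := by simp [xs]

lemma xs_pair {d : ℕ} {i j : Fin d} (h : i ≠ j) : (xs {i, j} : P d) = X i * X j := by
  simp [xs, Finset.prod_pair h]

lemma xs_single {d : ℕ} (i : Fin d) : (xs {i} : P d) = X i := by simp [xs]

lemma xs_univ_four : (xs Finset.univ : P 4) = X 0 * X 1 * X 2 * X 3 := by
  simp [xs, Fin.prod_univ_four]

lemma xs_triple {d : ℕ} {a b c : Fin d} (hab : a ≠ b) (hac : a ≠ c) (hbc : b ≠ c) :
    (xs {a, b, c} : P d) = X a * X b * X c := by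
  rw [xs, Finset.prod_insert (by simp [hab, hac]), Finset.prod_pair hbc, mul_assoc]

lemma ext4_even {n : ℕ} (hn : Even n) {θ : Du 4} (hθ : Deg n θ) (h0 : tw 1 θ = 0)
    (h2 : ∀ i j, i ≠ j → tw (X i * X j) θ = 0) (h4 : tw (X 0 * X 1 * X 2 * X 3) θ = 0) :
    θ = 0 := by
  apply ext_parity
  intro S
  rw [map_zero]
  by_cases hS : S.card % 2 = n % 2
  · have hle : S.card ≤ 4 := by simpa using Finset.card_le_univ S
    have : S.card = 0 ∨ S.card = 2 ∨ S.card = 4 := by
      obtain ⟨k, hk⟩ := hn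
      omega
    rcases this with h | h | h
    · rw [Finset.card_eq_zero] at h
      rw [h, xs_empty, h0]
    · obtain ⟨i, j, hij, rfl⟩ := Finset.card_eq_two.1 h
      rw [xs_pair hij, h2 i j hij]
    · have : S = Finset.univ := by
        rw [← Finset.card_eq_iff_eq_univ, h]; simp
      rw [this, xs_univ_four, h4]
  · exact tw_parity hθ S hS

lemma ext4_odd {n : ℕ} (hn : Odd n) {θ : Du 4} (hθ : Deg n θ)
    (h1 : ∀ i, tw (X i) θ = 0)
    (h3 : ∀ a b c, a ≠ b → a ≠ c → b ≠ c → tw (X a * X b * X c) θ = 0) :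
    θ = 0 := by
  apply ext_parity
  intro S
  rw [map_zero]
  by_cases hS : S.card % 2 = n % 2
  · have hle : S.card ≤ 4 := by simpa using Finset.card_le_univ S
    have : S.card = 1 ∨ S.card = 3 := by
      obtain ⟨k, hk⟩ := hn
      omega
    rcases this with h | h
    · obtain ⟨i, rfl⟩ := Finset.card_eq_one.1 h
      rw [xs_single, h1]
    · obtain ⟨a, b, c, hab, hac, hbc, rfl⟩ := Finset.card_eq_three.1 h
      rw [xs_triple hab hac hbc, h3 a b c hab hac hbc]
  · exact tw_parity hθ S hS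

/-- The image of Kameko's map in rank four. -/
lemma K4 {m : ℕ} {θ : Du 4} (hθ : IsPrim 4 (4 + 2 * m) θ)
    (h : ∀ i j, i ≠ j → tw (X i * X j) θ = 0) :
    ∃ ψ, IsPrim 4 m ψ ∧ θ = ψ ∘ₗ kappa 4 := by
  apply K_of_parity hθ
  intro S hSu
  by_cases hS : S.card % 2 = (4 + 2 * m) % 2
  · have hle : S.card ≤ 4 := by simpa using Finset.card_le_univ S
    have : S.card = 0 ∨ S.card = 2 ∨ S.card = 4 := by omega
    rcases this with h0 | h0 | h0
    · rw [Finset.card_eq_zero] at h0
      rw [h0, xs_empty, tw_one_eq hθ (by omega)]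
    · obtain ⟨i, j, hij, rfl⟩ := Finset.card_eq_two.1 h0
      rw [xs_pair hij, h i j hij]
    · exfalso
      apply hSu
      rw [← Finset.card_eq_iff_eq_univ, h0]; simp
  · exact tw_parity hθ.deg S hS

/-- The image of Kameko's map in rank three. -/
lemma K3 {m : ℕ} {θ : Du 3} (hθ : IsPrim 3 (3 + 2 * m) θ)
    (h : ∀ i, tw (X i) θ = 0) :
    ∃ ψ, IsPrim 3 m ψ ∧ θ = ψ ∘ₗ kappa 3 := by
  apply K_of_parity hθ
  intro S hSu
  by_cases hS : S.card % 2 = (3 + 2 * m) % 2
  · have hle : S.card ≤ 3 := by simpa using Finset.card_le_univ S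
    have : S.card = 1 ∨ S.card = 3 := by omega
    rcases this with h0 | h0
    · obtain ⟨i, rfl⟩ := Finset.card_eq_one.1 h0
      rw [xs_single, h]
    · exfalso
      apply hSu
      rw [← Finset.card_eq_iff_eq_univ, h0]; simp
  · exact tw_parity hθ.deg S hS

/-- The image of Kameko's map in rank two is everything. -/
lemma K2 {m : ℕ} {θ : Du 2} (hθ : IsPrim 2 (2 + 2 * m) θ) :
    ∃ ψ, IsPrim 2 m ψ ∧ θ = ψ ∘ₗ kappa 2 := by
  apply K_of_parity hθ
  intro S hSu
  by_cases hS : S.card % 2 = (2 + 2 * m) % 2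
  · have hle : S.card ≤ 2 := by simpa using Finset.card_le_univ S
    have : S.card = 0 ∨ S.card = 2 := by omega
    rcases this with h0 | h0
    · rw [Finset.card_eq_zero] at h0
      rw [h0, xs_empty, tw_one_eq hθ (by omega)]
    · exfalso
      apply hSu
      rw [← Finset.card_eq_iff_eq_univ, h0]; simp
  · exact tw_parity hθ.deg S hS

/-- The image of Kameko's map in rank one is everything. -/
lemma K1 {m : ℕ} {θ : Du 1} (hθ : IsPrim 1 (1 + 2 * m) θ) :
    ∃ ψ, IsPrim 1 m ψ ∧ θ = ψ ∘ₗ kappa 1 := by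
  apply K_of_parity hθ
  intro S hSu
  by_cases hS : S.card % 2 = (1 + 2 * m) % 2
  · have hle : S.card ≤ 1 := by simpa using Finset.card_le_univ S
    have h0 : S.card = 1 := by omega
    exfalso
    apply hSu
    rw [← Finset.card_eq_iff_eq_univ, h0]; simp
  · exact tw_parity hθ.deg S hS

end Pool.Agent.helper69.Kam
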