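import Pool.Agent.helper69.Kam.SmallTables
import Pool.Agent.helper69.Kam.Cert18

set_option autoImplicit false

open MvPolynomial

namespace Pool.Agent.helper69.Kam

lemma v4_inj {x y : ℕ × ℕ × ℕ × ℕ} (h : v4 x = v4 y) : x = y := by
  obtain ⟨a, b, c, e⟩ := x
  obtain ⟨a', b', c', e'⟩ := y
  have h0 : a = a' := congrFun h 0
  have h1 : b = b' := congrFun h 1
  have h2 : c = c' := congrFun h 2
  have h3 : e = e' := congrFun h 3
  rw [h0, h1, h2, h3]

lemma lcoeff_pol (F : List (ℕ × ℕ × ℕ × ℕ)) (y : ℕ × ℕ × ℕ × ℕ) :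
    lcoeff (ZMod 2) (Finsupp.equivFunOnFinite.symm (v4 y)) (pol F) =
      ((F.countP fun x => x == y : ℕ) : ZMod 2) := by
  induction F with
  | nil => simp [pol]
  | cons x F ih =>
      rw [pol, List.map_cons, List.sum_cons, map_add, ← pol, ih, List.countP_cons, Nat.cast_add,
        add_comm]
      congr 1
      rw [lcoeff_apply, mn, coeff_monomial]
      by_cases hxy : x = y
      · rw [hxy]; simp
      · rw [if_neg (fun h => hxy (v4_inj (Finsupp.equivFunOnFinite.symm.injective h)))]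
        simp [hxy]

lemma KInj4_1 : KInj 4 1 := KInj_of_trivial fun θ hθ => by
  have h := small_cert (s := ![1, 0, 0, 0]) rfl w1 wp1 g1 e1 hθ
  rwa [toP_zero, map_zero, zero_smul, sub_zero] at h

lemma KInj4_2 : KInj 4 2 := KInj_of_trivial fun θ hθ => by
  have h := small_cert (s := ![2, 0, 0, 0]) rfl w2 wp2 g2 e2 hθ
  rwa [toP_zero, map_zero, zero_smul, sub_zero] at h

lemma KInj4_3 : KInj 4 3 := KInj_of_trivial fun θ hθ => by
  have h := small_cert (s := ![3, 0, 0, 0]) rfl w3 wp3 g3 e3 hθ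
  rwa [toP_zero, map_zero, zero_smul, sub_zero] at h

/-- everything vanishes in the coinvariants in rank four and degree four. -/
lemma Aug44 {θ : Du 4} (hθ : IsPrim 4 4 θ) : θ ∈ Aug 4 4 := by
  have h := small_cert (s := ![4, 0, 0, 0]) rfl w4 wp4 g4 e4 hθ
  rwa [toP_zero, map_zero, zero_smul, sub_zero] at h

lemma KInj4_5 : KInj 4 5 := KInj_of_trivial fun θ hθ => by
  have h := small_cert (s := ![5, 0, 0, 0]) rfl w5 wp5 g5 e5 hθ
  rwa [toP_zero, map_zero, zero_smul, sub_zero] at h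

lemma KInj4_6 : KInj 4 6 := KInj_of_trivial fun θ hθ => by
  have h := small_cert (s := ![6, 0, 0, 0]) rfl w6 wp6 g6 e6 hθ
  rwa [toP_zero, map_zero, zero_smul, sub_zero] at h

lemma count18 : (F18.countP fun x => x == (15, 1, 1, 1)) = 1 := by decide +kernel

lemma KInj4_7 : KInj 4 7 := by
  intro θ hθ hκ
  have h := small_cert (s := ![7, 0, 0, 0]) rfl w7 wp7 g7 e7 hθ
  generalize θ (toP (7 + 1) _) = c at h
  have h1 := Aug_kappa h
  have h2 := Submodule.sub_mem _ hκ h1
  rw [← LinearMap.sub_comp, sub_sub_cancel] at h2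
  have h3 := Aug_apply_zero F18_inv h2
  rw [LinearMap.smul_comp, kameko_dual_basis, LinearMap.smul_apply, smul_eq_mul] at h3
  have e : 2 • Finsupp.equivFunOnFinite.symm ![7, 0, 0, 0] +
      Finsupp.equivFunOnFinite.symm (fun _ => 1) =
      Finsupp.equivFunOnFinite.symm (v4 (15, 1, 1, 1)) := by
    ext j
    have hx : j = 0 ∨ j = 1 ∨ j = 2 ∨ j = 3 := by revert j; decide
    rcases hx with rfl | rfl | rfl | rfl <;> rfl
  rw [e, lcoeff_pol, count18, Nat.cast_one, mul_one] at h3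
  rwa [h3, zero_smul, sub_zero] at h

end Pool.Agent.helper69.Kam
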