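import Pool.Agent.helper69.Kam.Inv4

set_option autoImplicit false

open MvPolynomial

namespace Pool.Agent.helper69.Kam

lemma Sq_mon_hom {d : ℕ} (k : ℕ) (s : Fin d →₀ ℕ) :
    (Sq d k (monomial s 1)).IsHomogeneous (s.degree + k) := by
  rw [Sq_apply, SqT_monomial, Polynomial.finsetSum_coeff]
  apply MvPolynomial.IsHomogeneous.sum
  intro p _
  rw [Polynomial.coeff_mul_C, Polynomial.coeff_X_pow]
  split_ifs with h
  · rw [one_mul, smul_eq_C_mul]
    have h1 : (monomial (s + Finsupp.equivFunOnFinite.symm p) 1 : P d).IsHomogeneous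
        (s.degree + k) := by
      apply isHomogeneous_monomial
      rw [map_add, Finsupp.degree_eq_sum (Finsupp.equivFunOnFinite.symm p), h]
      rfl
    have h2 := (isHomogeneous_C (Fin d) (∏ i, ((s i).choose (p i) : ZMod 2))).mul h1
    rwa [zero_add] at h2
  · rw [zero_mul]
    exact isHomogeneous_zero _ _ _

/-- a binary digit. -/
def bitg (b i : ℕ) : ℕ := (b >>> i) &&& 1

/-- the functional with given values on the monomials. -/
noncomputable def Fn0 (B b : ℕ) : Du 4 :=
  (MvPolynomial.basisMonomials (Fin 4) (ZMod 2)).constr (ZMod 2)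
    (fun t => (bitg b (code B t) : ZMod 2))

lemma Fn0_mn (B b : ℕ) (t : Fin 4 → ℕ) : Fn0 B b (mn t) = (bitg b (code B t) : ZMod 2) := by
  have h := (MvPolynomial.basisMonomials (Fin 4) (ZMod 2)).constr_basis (ZMod 2)
    (fun t => (bitg b (code B t) : ZMod 2)) (Finsupp.equivFunOnFinite.symm t)
  rw [MvPolynomial.coe_basisMonomials] at h
  exact h

/-- its part of degree `n`. -/
noncomputable def Fn (B n b : ℕ) : Du 4 := Fn0 B b ∘ₗ homogeneousComponent n

lemma Fn_hom {B n b : ℕ} {f : P 4} (hf : f.IsHomogeneous n) : Fn B n b f = Fn0 B b f := by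
  rw [Fn, LinearMap.comp_apply, homogeneousComponent_of_mem ((mem_homogeneousSubmodule _ _).2 hf),
    if_pos rfl]

lemma Fn_hom_ne {B n m b : ℕ} (hm : m ≠ n) {f : P 4} (hf : f.IsHomogeneous m) :
    Fn B n b f = 0 := by
  rw [Fn, LinearMap.comp_apply, homogeneousComponent_of_mem ((mem_homogeneousSubmodule _ _).2 hf),
    if_neg (Ne.symm hm), map_zero]

lemma mn_hom {n : ℕ} {t : Fin 4 → ℕ} (ht : ∑ i, t i = n) : (mn t).IsHomogeneous n := by
  apply isHomogeneous_monomial
  rw [Finsupp.degree_eq_sum, ← ht]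
  rfl

/-- all exponent vectors of degree `n`. -/
def alld (n : ℕ) (f : ℕ → ℕ → ℕ → ℕ → Bool) : Bool :=
  (List.range (n + 1)).all fun a => (List.range (n + 1 - a)).all fun b =>
    (List.range (n + 1 - a - b)).all fun c => f a b c (n - a - b - c)

lemma alld_spec {n : ℕ} {f : ℕ → ℕ → ℕ → ℕ → Bool} (h : alld n f = true) {t : Fin 4 → ℕ}
    (ht : ∑ i, t i = n) : f (t 0) (t 1) (t 2) (t 3) = true := by
  rw [Fin.sum_univ_four] at ht
  rw [alld, List.all_eq_true] at h
  have h1 := h (t 0) (List.mem_range.2 (by omega))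
  rw [List.all_eq_true] at h1
  have h2 := h1 (t 1) (List.mem_range.2 (by omega))
  rw [List.all_eq_true] at h2
  have h3 := h2 (t 2) (List.mem_range.2 (by omega))
  have e : n - t 0 - t 1 - t 2 = t 3 := by omega
  rwa [e] at h3

lemma vec_eta (t : Fin 4 → ℕ) : ![t 0, t 1, t 2, t 3] = t := by
  funext j
  have hx : j = 0 ∨ j = 1 ∨ j = 2 ∨ j = 3 := by revert j; decide
  rcases hx with rfl | rfl | rfl | rfl <;> rfl

/-- the check of primitivity. -/
def pchk (n b : ℕ) : Bool :=
  (List.range n).all fun m => alld m fun a1 a2 a3 a4 =>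
    Nat.beq (sqg (n + 1) (bitg b) (n - m) ![a1, a2, a3, a4]) 0

lemma ext_mn {θ θ' : Du 4} (h : ∀ t, θ (mn t) = θ' (mn t)) : θ = θ' := by
  apply ext_mon
  intro t
  have := h t
  rw [mn] at this
  rwa [show Finsupp.equivFunOnFinite.symm (⇑t) = t from by ext; rfl] at this

lemma pchk_spec {n b : ℕ} (h : pchk n b = true) : IsPrim 4 n (Fn (n + 1) n b) := by
  refine ⟨fun m hm f hf => Fn_hom_ne hm hf, ?_⟩
  intro k hk f
  have key : Fn (n + 1) n b ∘ₗ (⟨⟨Sq 4 k, Sq_add 4 k⟩, Sq_smul 4 k⟩ : P 4 →ₗ[ZMod 2] P 4) = 0 := by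
    apply ext_mn
    intro t
    show Fn (n + 1) n b (Sq 4 k (mn t)) = 0
    have hS := Sq_mon_hom k (Finsupp.equivFunOnFinite.symm t)
    have hd : (Finsupp.equivFunOnFinite.symm t).degree = ∑ i, t i := by
      rw [Finsupp.degree_eq_sum]; rfl
    rw [hd] at hS
    by_cases hn : ∑ i, t i + k = n
    · have hlt : ∑ i, t i < n := by omega
      rw [hn] at hS
      have h1 : Fn (n + 1) n b (Sq 4 k (mn t)) = Fn0 (n + 1) b (Sq 4 k (mn t)) := Fn_hom hS
      rw [h1]
      rw [pchk, List.all_eq_true] at h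
      have h2 := alld_spec (h _ (List.mem_range.2 hlt)) rfl
      rw [vec_eta] at h2
      have h3 := Nat.eq_of_beq_eq_true h2
      have hk' : n - ∑ i, t i = k := by omega
      rw [hk'] at h3
      have h4 := sqg_spec isX_cast (Fn0 (n + 1) b).toAddMonoidHom (B := n + 1) (g := bitg b)
        (fun t _ => (Fn0_mn _ _ t).symm) (k := k) (t := t) (fun j => by
          have : t j ≤ ∑ i, t i := Finset.single_le_sum (fun _ _ => Nat.zero_le _)
            (Finset.mem_univ j)
          omega)
      rw [h3] at h4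
      have h5 : Fn0 (n + 1) b (Sq 4 k (mn t)) = ((0 : ℕ) : ZMod 2) := h4.symm
      rw [h5, Nat.cast_zero]
    · exact Fn_hom_ne hn hS
  exact LinearMap.congr_fun key f

/-- the value of the difference `θ·T - θ` on a monomial. -/
def aval (B b : ℕ) (p q : Fin 4) (t : Fin 4 → ℕ) : ℕ :=
  actg B (bitg b) p q t ^^^ bitg b (code B t)

lemma aval_spec {n b : ℕ} {p q : Fin 4} (hpq : p ≠ q) {t : Fin 4 → ℕ} (ht : ∑ i, t i = n) :
    (Fn (n + 1) n b ∘ₗ (act (Matrix.transvection p q (1 : ZMod 2))).toLinearMap - Fn (n + 1) n b)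
      (mn t) = (aval (n + 1) b p q t : ZMod 2) := by
  have hle : ∀ j, t j < n + 1 := fun j => by
    have : t j ≤ ∑ i, t i := Finset.single_le_sum (fun _ _ => Nat.zero_le _)
      (Finset.mem_univ j)
    omega
  have h2 : t p + t q < n + 1 := by
    have : t p + t q ≤ ∑ i, t i := by
      rw [← Finset.sum_pair hpq]
      exact Finset.sum_le_sum_of_subset (Finset.subset_univ _)
    omega
  have h4 := actg_spec isX_cast (Fn0 (n + 1) b).toAddMonoidHom (B := n + 1) (g := bitg b)
        (fun t _ => (Fn0_mn _ _ t).symm) hpq (t := t) hle h2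
  have h5 : Fn0 (n + 1) b (act (Matrix.transvection p q (1 : ZMod 2)) (mn t)) =
      ((actg (n + 1) (bitg b) p q t : ℕ) : ZMod 2) := h4.symm
  rw [LinearMap.sub_apply, LinearMap.comp_apply, AlgHom.toLinearMap_apply,
    Fn_hom (act_isHomogeneous _ (mn_hom ht)), Fn_hom (mn_hom ht), h5, Fn0_mn, CharTwo.sub_eq_add,
    aval]
  exact (isX_cast.xor _ _).symm

/-- an element of the augmentation submodule. -/
noncomputable def alp (n b : ℕ) (p q : Fin 4) : Du 4 :=
  Fn (n + 1) n b ∘ₗ (act (Matrix.transvection p q (1 : ZMod 2))).toLinearMap - Fn (n + 1) n b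

lemma alp_deg (n b : ℕ) (p q : Fin 4) : Deg n (alp n b p q) := by
  intro m hm f hf
  rw [alp, LinearMap.sub_apply, LinearMap.comp_apply, AlgHom.toLinearMap_apply,
    Fn_hom_ne hm (act_isHomogeneous _ hf), Fn_hom_ne hm hf, sub_zero]

lemma alp_mem {n b : ℕ} {p q : Fin 4} (hpq : p ≠ q) (h : pchk n b = true) :
    alp n b p q ∈ Aug 4 n :=
  mem_Aug_transvection (pchk_spec h) hpq (by rw [alp, add_sub_cancel])

/-- the identity which shows that everything is in the augmentation submodule. -/
def echk (n : ℕ) (W : List (ℕ × Fin 4 × Fin 4 × ℕ)) (G : List (ℕ × ℕ)) (s u0 : ℕ) : Bool :=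
  alld n fun a1 a2 a3 a4 => Nat.beq
    ((1 <<< code (n + 1) ![a1, a2, a3, a4]) ^^^
      (xl (W.map fun x => if aval (n + 1) x.1 x.2.1 x.2.2.1 ![a1, a2, a3, a4] % 2 == 1 then
        x.2.2.2 else 0) ^^^
      (xl (G.map fun y => if y.1.testBit (code (n + 1) ![a1, a2, a3, a4]) then y.2 else 0) ^^^
        (if code (n + 1) ![a1, a2, a3, a4] == s then u0 else 0)))) 0

/-- the check of the hit elements. -/
def gchk (n : ℕ) (H : List (ℕ × ℕ × ℕ × ℕ × ℕ)) (G : List (ℕ × ℕ)) : Bool :=
  cok (n + 1) H && (decide (H.length = G.length) &&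
    (List.zip H G).all fun z => Nat.beq (sqm (n + 1) z.1.1 (v4 z.1.2)) z.2.2)

lemma gchk_spec {n : ℕ} {H : List (ℕ × ℕ × ℕ × ℕ × ℕ)} {G : List (ℕ × ℕ)}
    (h : gchk n H G = true) {y : ℕ × ℕ} (hy : y ∈ G) : toP (n + 1) y.2 ∈ Hit 4 := by
  rw [gchk, Bool.and_eq_true, Bool.and_eq_true, decide_eq_true_eq] at h
  obtain ⟨h1, h2, h3⟩ := h
  rw [List.all_eq_true] at h3
  rw [cok, List.all_eq_true] at h1
  obtain ⟨i, hi, hyi⟩ := List.getElem_of_mem hy
  have hi' : i < H.length := by omega
  have hz : (H[i], G[i]) ∈ List.zip H G := by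
    rw [List.mem_iff_getElem]
    refine ⟨i, by rw [List.length_zip]; omega, ?_⟩
    rw [List.getElem_zip]
  have h4 := h3 _ hz
  have h5 := h1 _ (List.getElem_mem hi')
  rw [Bool.and_eq_true, decide_eq_true_eq] at h5
  have h6 : sqm (n + 1) H[i].1 (v4 H[i].2) = G[i].2 := Nat.eq_of_beq_eq_true h4
  rw [hyi] at h6
  rw [← h6, sqm_spec (sm_spec h5.1)]
  exact Sq_mem_Hit h5.2 _

/-- the main lemma. -/
lemma small_cert {n : ℕ} {W : List (ℕ × Fin 4 × Fin 4 × ℕ)} {H : List (ℕ × ℕ × ℕ × ℕ × ℕ)}
    {G : List (ℕ × ℕ)} {s : Fin 4 → ℕ} {u0 : ℕ} (hs : ∑ i, s i = n)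
    (hW : (W.all fun x => decide (x.2.1 ≠ x.2.2.1)) = true)
    (hp : ∀ x ∈ W, pchk n x.1 = true)
    (hG : gchk n H G = true) (hE : echk n W G (code (n + 1) s) u0 = true)
    {θ : Du 4} (hθ : IsPrim 4 n θ) :
    θ - θ (toP (n + 1) u0) • lcoeff (ZMod 2) (Finsupp.equivFunOnFinite.symm s) ∈ Aug 4 n := by
  rw [List.all_eq_true] at hW
  have hWm : (W.map fun x => θ (toP (n + 1) x.2.2.2) • alp n x.1 x.2.1 x.2.2.1).sum ∈ Aug 4 n := by
    apply list_sum_mem
    intro y hy
    rw [List.mem_map] at hy
    obtain ⟨x, hx, rfl⟩ := hy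
    exact Submodule.smul_mem _ _ (alp_mem (of_decide_eq_true (hW x hx)) (hp x hx))
  have heq : θ - θ (toP (n + 1) u0) • lcoeff (ZMod 2) (Finsupp.equivFunOnFinite.symm s) =
      (W.map fun x => θ (toP (n + 1) x.2.2.2) • alp n x.1 x.2.1 x.2.2.1).sum := by
    apply ext_mn
    intro t
    have hsum : ∀ (L : List (ℕ × Fin 4 × Fin 4 × ℕ)) (f : P 4),
        (L.map fun x => θ (toP (n + 1) x.2.2.2) • alp n x.1 x.2.1 x.2.2.1).sum f =
        (L.map fun x => θ (toP (n + 1) x.2.2.2) * alp n x.1 x.2.1 x.2.2.1 f).sum := by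
      intro L f
      induction L with
      | nil => rfl
      | cons x L ih => rw [List.map_cons, List.sum_cons, LinearMap.add_apply, ih, List.map_cons,
          List.sum_cons]; rfl
    rw [hsum]
    by_cases ht : ∑ i, t i = n
    · have h1 := alld_spec hE ht
      rw [vec_eta] at h1
      have h2 := Nat.eq_of_beq_eq_true h1
      have hX : IsX (fun m => θ (toP (n + 1) m)) := by
        refine ⟨?_, fun x y => ?_⟩
        · show θ (toP (n + 1) 0) = 0
          rw [toP_zero, map_zero]
        · show θ (toP (n + 1) (x ^^^ y)) = _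
          rw [toP_xor, map_add]
      have hle : ∀ j, t j < n + 1 := fun j => by
        have : t j ≤ ∑ i, t i := Finset.single_le_sum (fun _ _ => Nat.zero_le _)
          (Finset.mem_univ j)
        omega
      have hles : ∀ j, s j < n + 1 := fun j => by
        have : s j ≤ ∑ i, s i := Finset.single_le_sum (fun _ _ => Nat.zero_le _)
          (Finset.mem_univ j)
        omega
      have h3 := congrArg (fun m => θ (toP (n + 1) m)) h2
      have h3' : θ (mn t) + ((W.map fun x => θ (toP (n + 1) x.2.2.2) *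
          alp n x.1 x.2.1 x.2.2.1 (mn t)).sum + (0 + θ (toP (n + 1) u0) *
          lcoeff (ZMod 2) (Finsupp.equivFunOnFinite.symm s) (mn t))) = 0 := by
        refine Eq.trans ?_ (h3.trans hX.zero)
        show _ = θ (toP (n + 1) _)
        rw [toP_xor, map_add, toP_bit hle, toP_xor, map_add, toP_xor, map_add]
        congr 1
        congr 1
        · have e := hX.list (W.map fun x => if aval (n + 1) x.1 x.2.1 x.2.2.1 t % 2 == 1 then
            x.2.2.2 else 0)
          rw [List.map_map] at e
          refine Eq.trans ?_ e.symm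
          congr 1
          apply List.map_congr_left
          intro x hx
          show _ = θ (toP (n + 1) (if aval (n + 1) x.1 x.2.1 x.2.2.1 t % 2 == 1 then
            x.2.2.2 else 0))
          have e1 : alp n x.1 x.2.1 x.2.2.1 (mn t) =
              ((aval (n + 1) x.1 x.2.1 x.2.2.1 t : ℕ) : ZMod 2) :=
            aval_spec (of_decide_eq_true (hW x hx)) ht
          rw [e1]
          generalize aval (n + 1) x.1 x.2.1 x.2.2.1 t = A
          rcases Nat.mod_two_eq_zero_or_one A with hA | hA
          · rw [hA, (ZMod.natCast_eq_zero_iff A 2).2 (Nat.dvd_of_mod_eq_zero hA), mul_zero]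
            show _ = θ (toP (n + 1) 0)
            rw [toP_zero, map_zero]
          · have hA2 : ((A : ℕ) : ZMod 2) = 1 := by
              rw [← Nat.cast_one]
              exact (ZMod.natCast_eq_natCast_iff _ _ _).2 hA
            rw [hA, hA2, mul_one]
            rfl
        · congr 1
          · have e := hX.list (G.map fun y => if y.1.testBit (code (n + 1) t) then y.2 else 0)
            refine Eq.trans ?_ e.symm
            symm
            rw [List.map_map]
            apply List.sum_eq_zero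
            intro z hz
            rw [List.mem_map] at hz
            obtain ⟨y, hy, rfl⟩ := hz
            show θ (toP (n + 1) (if y.1.testBit (code (n + 1) t) then y.2 else 0)) = 0
            split_ifs
            · exact hθ.hit (gchk_spec hG hy)
            · rw [toP_zero, map_zero]
          · rw [lcoeff_apply, mn, coeff_monomial]
            by_cases hts : t = s
            · rw [hts]; simp
            · have hc : code (n + 1) t ≠ code (n + 1) s := by
                intro hc
                apply hts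
                rw [← dg_code hle, hc, dg_code hles]
              rw [if_neg (fun h => hts (Finsupp.equivFunOnFinite.symm.injective h)), mul_zero]
              rw [beq_eq_false_iff_ne.2 hc]
              show _ = θ (toP (n + 1) 0)
              rw [toP_zero, map_zero]
      rw [LinearMap.sub_apply, LinearMap.smul_apply, smul_eq_mul, CharTwo.sub_eq_add]
      rw [zero_add] at h3'
      have h4 : ∀ a b c : ZMod 2, a + (b + c) = 0 → a + c = b := by decide
      exact h4 _ _ _ h3'
    · have h1 : ∀ ψ : Du 4, Deg n ψ → ψ (mn t) = 0 := fun ψ hψ => hψ _ ht _ (mn_hom rfl)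
      rw [LinearMap.sub_apply, LinearMap.smul_apply, h1 θ hθ.deg, lcoeff_apply, mn,
        coeff_monomial, if_neg, smul_zero, sub_zero]
      · symm
        apply List.sum_eq_zero
        intro z hz
        rw [List.mem_map] at hz
        obtain ⟨y, hy, rfl⟩ := hz
        have h2 := h1 _ (alp_deg n y.1 y.2.1 y.2.2.1)
        rw [mn] at h2
        rw [h2, mul_zero]
      · intro h
        apply ht
        rw [← hs, Finsupp.equivFunOnFinite.symm.injective h]
  rw [heq]
  exact hWm

end Pool.Agent.helper69.Kam
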